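import Pool.Agent.Lib.WkD.BDefs

/-!
# Algebra: truth values, literals, density arguments
-/

set_option autoImplicit false

namespace Pool.Agent.Lib.WkD

open Set

variable {C : Type} [CompleteBooleanAlgebra C]

open Classical in
/-- the truth value of a proposition -/
noncomputable def tv (C : Type) [CompleteBooleanAlgebra C] (p : Prop) : C := if p then ⊤ else ⊥

open Classical in
/-- `b` if `p` holds and the complement of `b` otherwise -/
noncomputable def lit (p : Prop) (b : C) : C := if p then b else bᶜ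

theorem tv_true {p : Prop} (h : p) : tv C p = ⊤ := if_pos h

theorem tv_false {p : Prop} (h : ¬ p) : tv C p = ⊥ := if_neg h

theorem lit_true {p : Prop} (h : p) (b : C) : lit p b = b := if_pos h

theorem lit_false {p : Prop} (h : ¬ p) (b : C) : lit p b = bᶜ := if_neg h

theorem tv_mono {p q : Prop} (h : p → q) : tv C p ≤ tv C q := by
  by_cases hp : p
  · rw [tv_true (h hp)]; exact le_top
  · rw [tv_false hp]; exact bot_le

theorem tv_compl (p : Prop) : (tv C p)ᶜ = tv C (¬ p) := by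
  by_cases hp : p
  · rw [tv_true hp, tv_false (not_not.2 hp), compl_top]
  · rw [tv_false hp, tv_true hp, compl_bot]

theorem tv_inf_le_iff {p : Prop} {b c : C} : tv C p ⊓ b ≤ c ↔ (p → b ≤ c) := by
  by_cases hp : p
  · rw [tv_true hp, top_inf_eq]; exact ⟨fun h _ => h, fun h => h hp⟩
  · rw [tv_false hp, bot_inf_eq]; exact ⟨fun _ h => absurd h hp, fun _ => bot_le⟩

theorem le_tv_iff {p : Prop} {b : C} (hb : b ≠ ⊥) : b ≤ tv C p ↔ p := by
  by_cases hp : p
  · rw [tv_true hp]; exact ⟨fun _ => hp, fun _ => le_top⟩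
  · rw [tv_false hp]; exact ⟨fun h => absurd (le_bot_iff.1 h) hb, fun h => absurd h hp⟩

theorem lit_compl (p : Prop) (b : C) : (lit p b)ᶜ = lit (¬ p) b := by
  by_cases hp : p
  · rw [lit_true hp, lit_false (not_not.2 hp)]
  · rw [lit_false hp, lit_true hp, compl_compl]

/-- two incompatible literals -/
theorem lit_inf_lit {p q : Prop} (h : ¬ (p ↔ q)) (b : C) : lit p b ⊓ lit q b = ⊥ := by
  by_cases hp : p
  · have hq : ¬ q := fun hq => h ⟨fun _ => hq, fun _ => hp⟩
    rw [lit_true hp, lit_false hq, inf_compl_self]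
  · have hq : q := by
      by_contra hq
      exact h ⟨fun h => absurd h hp, fun h => absurd h hq⟩
    rw [lit_false hp, lit_true hq, compl_inf_self]

/-- If `b ≠ ⊥` is below a literal and below `c`, then the proposition holds. -/
theorem of_le_lit {p : Prop} {b c : C} (hb : b ≠ ⊥) (h : b ≤ lit p c) (hc : b ≤ c) : p := by
  by_contra hp
  rw [lit_false hp] at h
  exact hb (le_bot_iff.1 ((le_inf hc h).trans (inf_compl_self c).le))

theorem ne_bot_mono {x y : C} (h : x ≤ y) (hx : x ≠ ⊥) : y ≠ ⊥ :=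
  fun hy => hx (le_bot_iff.1 (hy ▸ h))

/-- density argument for `b ≤ c` -/
theorem le_of_dense {b c : C} (h : ∀ b', b' ≤ b → b' ≠ ⊥ → ∃ b'', b'' ≤ b' ∧ b'' ≠ ⊥ ∧ b'' ≤ c) :
    b ≤ c := by
  by_contra hcon
  have h1 : b ⊓ cᶜ ≠ ⊥ := by
    intro h2
    exact hcon (by rwa [← disjoint_iff, disjoint_compl_right_iff] at h2)
  obtain ⟨b'', h2, h3, h4⟩ := h _ inf_le_left h1
  exact h3 (le_bot_iff.1 ((le_inf h4 (h2.trans inf_le_right)).trans (inf_compl_self c).le))

theorem eq_top_of_dense {c : C} (h : ∀ b' : C, b' ≠ ⊥ → ∃ b'', b'' ≤ b' ∧ b'' ≠ ⊥ ∧ b'' ≤ c) :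
    c = ⊤ :=
  top_le_iff.1 (le_of_dense fun b' _ hb' => h b' hb')

theorem exists_inf_ne_bot {ι : Sort*} {b : C} {t : ι → C} (hb : b ≠ ⊥) (h : b ≤ ⨆ i, t i) :
    ∃ i, b ⊓ t i ≠ ⊥ := by
  by_contra hcon
  push Not at hcon
  apply hb
  rw [← inf_eq_left.2 h, inf_iSup_eq]
  simp [hcon]

/-- disjoint refinement -/
theorem exists_disjoint {ι : Type} (x : ι → C) : ∃ a : ι → C, (∀ i, a i ≤ x i) ∧
    (∀ i j, i ≠ j → a i ⊓ a j = ⊥) ∧ (⨆ i, a i = ⨆ i, x i) := by
  set r : ι → ι → Prop := WellOrderingRel with hr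
  have hwo : IsWellOrder ι r := WellOrderingRel.isWellOrder
  set a : ι → C := fun i => x i ⊓ (⨆ j : {j // r j i}, x j)ᶜ with ha
  have hdis : ∀ i j, r i j → a i ⊓ a j = ⊥ := by
    intro i j hij
    rw [← le_bot_iff]
    have h1 : a i ≤ ⨆ k : {k // r k j}, x k :=
      inf_le_left.trans (le_iSup (fun k : {k // r k j} => x k) ⟨i, hij⟩)
    calc a i ⊓ a j ≤ (⨆ k : {k // r k j}, x k) ⊓ (⨆ k : {k // r k j}, x k)ᶜ :=
          inf_le_inf h1 inf_le_right
      _ = ⊥ := inf_compl_self _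
      _ ≤ ⊥ := le_rfl
  refine ⟨a, fun i => inf_le_left, fun i j hij => ?_, ?_⟩
  · rcases trichotomous_of r i j with h | h | h
    · exact hdis i j h
    · exact absurd h hij
    · rw [inf_comm]; exact hdis j i h
  · refine le_antisymm (iSup_mono fun i => inf_le_left) (iSup_le fun i => ?_)
    refine hwo.wf.induction (C := fun i => x i ≤ ⨆ i, a i) i (fun i ih => ?_)
    have h1 : x i ≤ a i ⊔ ⨆ j : {j // r j i}, x j := by
      rw [ha]
      simp only
      rw [sup_inf_right, sup_comm _ᶜ, sup_compl_eq_top, inf_top_eq]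
      exact le_sup_left
    exact h1.trans (sup_le (le_iSup a i) (iSup_le fun j => ih j.1 j.2))

/-! ### bi -/

theorem bi_comm (a b : C) : bi a b = bi b a := inf_comm _ _

theorem bi_self (a : C) : bi a a = ⊤ := by
  unfold bi
  rw [himp_self, inf_idem]

theorem le_bi_iff {a b c : C} : c ≤ bi a b ↔ c ⊓ a ≤ b ∧ c ⊓ b ≤ a := by
  unfold bi
  rw [le_inf_iff, le_himp_iff, le_himp_iff]

theorem bi_inf_left (a b : C) : bi a b ⊓ a ≤ b := (le_bi_iff.1 le_rfl).1

theorem bi_inf_right (a b : C) : bi a b ⊓ b ≤ a := (le_bi_iff.1 le_rfl).2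

theorem bi_compl (a b : C) : bi aᶜ bᶜ = bi a b := by
  unfold bi
  rw [compl_himp_compl, compl_himp_compl, inf_comm]

theorem bi_eq_top {a b : C} : bi a b = ⊤ ↔ a = b := by
  rw [eq_top_iff, le_bi_iff, top_inf_eq, top_inf_eq]
  exact ⟨fun h => le_antisymm h.1 h.2, fun h => ⟨h.le, h.ge⟩⟩

theorem le_bi_iSup {ι : Sort*} (f g : ι → C) : (⨅ i, bi (f i) (g i)) ≤ bi (⨆ i, f i) (⨆ i, g i) := by
  rw [le_bi_iff, inf_iSup_eq, inf_iSup_eq]
  constructor
  · refine iSup_le fun i => le_iSup_of_le i ?_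
    exact (inf_le_inf_right _ (iInf_le _ i)).trans (bi_inf_left _ _)
  · refine iSup_le fun i => le_iSup_of_le i ?_
    exact (inf_le_inf_right _ (iInf_le _ i)).trans (bi_inf_right _ _)

theorem le_bi_iInf {ι : Sort*} (f g : ι → C) : (⨅ i, bi (f i) (g i)) ≤ bi (⨅ i, f i) (⨅ i, g i) := by
  rw [le_bi_iff]
  constructor
  · refine le_iInf fun i => ?_
    exact (inf_le_inf (iInf_le _ i) (iInf_le _ i)).trans (bi_inf_left _ _)
  · refine le_iInf fun i => ?_
    exact (inf_le_inf (iInf_le _ i) (iInf_le _ i)).trans (bi_inf_right _ _)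

theorem bi_inf_bi_le (a b c d : C) : bi a b ⊓ bi c d ≤ bi (a ⊓ c) (b ⊓ d) := by
  rw [le_bi_iff]
  constructor
  · refine le_inf ?_ ?_
    · exact (le_inf (inf_le_left.trans inf_le_left) (inf_le_right.trans inf_le_left)).trans
        (bi_inf_left _ _)
    · exact (le_inf (inf_le_left.trans inf_le_right) (inf_le_right.trans inf_le_right)).trans
        (bi_inf_left _ _)
  · refine le_inf ?_ ?_
    · exact (le_inf (inf_le_left.trans inf_le_left) (inf_le_right.trans inf_le_left)).trans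
        (bi_inf_right _ _)
    · exact (le_inf (inf_le_left.trans inf_le_right) (inf_le_right.trans inf_le_right)).trans
        (bi_inf_right _ _)

end Pool.Agent.Lib.WkD
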