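import Mathlib

/-!
# Indestructibly supercompact cardinals

`Type` is the universe of sets. Forcing extensions are treated as Boolean valued universes: for a
complete Boolean algebra `C`, a function `A : X → C` is a name of a subset of `X`, where `A x` is
the truth value of `x ∈ A`.
-/

set_option autoImplicit false

namespace Pool.Agent.Lib.WkD

open Cardinal

/-- The set of all subsets of `H` of size less than `κ`. -/
abbrev SmallSets (κ : Cardinal.{0}) (H : Type) := {x : Set H // #x < κ}

open Classical in
/-- `m` is, in the `C`-valued universe, a normal fine `κ`-complete ultrafilter on the set of all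
subsets of `H` of size less than `κ`: `m A` is the truth value of the statement that the set named
by `A` is in the ultrafilter. -/
structure NormalFineMeasure (κ : Cardinal.{0}) (H C : Type) [CompleteBooleanAlgebra C]
    (m : (SmallSets κ H → C) → C) : Prop where
  /-- the whole set is in the ultrafilter and the empty set is not -/
  const : ∀ b : C, m (fun _ => b) = b
  /-- the complement of `A` is in the ultrafilter iff `A` is not -/
  compl : ∀ A : SmallSets κ H → C, m (fun x => (A x)ᶜ) = (m A)ᶜ
  /-- an intersection of less than `κ` sets is in the ultrafilter iff all of them are -/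
  complete : ∀ (I : Type) (A : I → SmallSets κ H → C), #I < κ →
    m (fun x => ⨅ i, A i x) = ⨅ i, m (A i)
  /-- the set of all `x` with `a ∈ x` is in the ultrafilter -/
  fine : ∀ a : H, m (fun x => if a ∈ x.1 then ⊤ else ⊥) = ⊤
  /-- the diagonal intersection of a family indexed by `H` is in the ultrafilter iff all members
  of the family are -/
  normal : ∀ A : H → SmallSets κ H → C,
    m (fun x => ⨅ a, ⨅ _ : a ∈ x.1, A a x) = ⨅ a, m (A a)

/-- `C` has a dense subset `D` in which every nonempty directed subset of size less than `κ` has a
lower bound; so `C` is the algebra of a `κ`-directed closed forcing. -/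
def DirectedClosed (κ : Cardinal.{0}) (C : Type) [CompleteBooleanAlgebra C] : Prop :=
  ∃ D : Set C, ⊥ ∉ D ∧ (∀ b : C, b ≠ ⊥ → ∃ d ∈ D, d ≤ b) ∧
    ∀ s ⊆ D, s.Nonempty → #s < κ → (∀ x ∈ s, ∀ y ∈ s, ∃ z ∈ s, z ≤ x ∧ z ≤ y) →
      ∃ d ∈ D, ∀ x ∈ s, d ≤ x

/-- `κ` is indestructibly supercompact: it is inaccessible and, for every `κ`-directed closed
forcing (algebra) `C` and every set `H`, there is in the `C`-valued universe a normal fine
`κ`-complete ultrafilter on the set of all subsets of `H` of size less than `κ`. -/
def IndestructiblySupercompact (κ : Cardinal.{0}) : Prop :=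
  κ.IsInaccessible ∧ ∀ (C : Type) [CompleteBooleanAlgebra C], DirectedClosed κ C →
    ∀ H : Type, ∃ m : (SmallSets κ H → C) → C, NormalFineMeasure κ H C m

end Pool.Agent.Lib.WkD
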