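import Mathlib

/-!
# Boolean valued forms of the principles

`B` is a complete Boolean algebra, `K` a well-order. A function `x : K → B` is a name of a subset
of `K` (the Boolean value of `ξ ∈ x` is `x ξ`).
-/

namespace Pool.Agent.Lib.WkD

section alg

variable {B : Type} [CompleteBooleanAlgebra B]

/-- equivalence in a Boolean algebra -/
def bi (a b : B) : B := (a ⇨ b) ⊓ (b ⇨ a)

end alg

variable (B K : Type) [CompleteBooleanAlgebra B] [LinearOrder K]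

variable {B K} in
/-- Boolean value of: `X` is closed and unbounded in `K`. -/
def BClub (X : K → B) : B :=
  (⨅ ξ : K, ⨆ η : K, ⨆ _ : ξ < η, X η) ⊓
    ⨅ α : K, ⨅ _ : ∃ ξ, ξ < α, ((⨅ ξ : K, ⨅ _ : ξ < α, ⨆ η : K, ⨆ _ : ξ < η ∧ η < α, X η) ⇨ X α)

/-- `K` is regular in the Boolean valued universe. -/
def BRegular : Prop :=
  ∀ (α : K) (h : Set.Iio α → K → B), (∀ ξ, ⨆ η, h ξ η = ⊤) →
    ⨆ η : K, ⨅ ξ, ⨆ η' : K, ⨆ _ : η' < η, h ξ η' = ⊤

/-- `K` is a strong limit in the Boolean valued universe. -/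
def BStrongLimit : Prop :=
  ∀ α : K, ⨆ m : K, ⨆ e : Set.Iio m → Set.Iio α → B,
    ⨅ x : Set.Iio α → B, ⨆ i, ⨅ ξ, bi (x ξ) (e i ξ) = ⊤

/-- Weak diamond for `K` in the Boolean valued universe. -/
def BWeakDiamond : Prop :=
  ∀ F : (α : K) → (Set.Iio α → B) → B,
    (∀ α x y, F α x ⊓ (⨅ ξ, bi (x ξ) (y ξ)) ≤ F α y) →
    ⨆ g : K → B, ⨅ f : K → B, ⨅ X : K → B,
      (BClub X ⇨ ⨆ α : K, X α ⊓ bi (F α (fun ξ => f ξ.1)) (g α)) = ⊤

/-- Failure of diamond for `K` in the Boolean valued universe. -/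
def BNotDiamond : Prop :=
  ∀ S : K → K → B, ⨆ x : K → B, ⨆ X : K → B,
    BClub X ⊓ (⨅ α : K, (X α ⇨ (⨅ ξ : K, ⨅ _ : ξ < α, bi (x ξ) (S α ξ))ᶜ)) = ⊤

end Pool.Agent.Lib.WkD
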