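import Pool.Agent.Lib.WkD.Notions
import Pool.Agent.Lib.WkD.BDefs
import Pool.Agent.Lib.BVM.Facts

/-!
# Names in the Boolean valued universe used for the model
-/

namespace Pool.Agent.Lib.WkD

open Set Pool.Agent.Lib.BVM Pool.Agent.Lib.BVM.bSet

variable (B : Type) [CompleteBooleanAlgebra B] {K : Type} [LinearOrder K] [WellFoundedLT K]

/-- check name of an element `a` of a well-order: the ordinal of the elements below `a` -/
noncomputable def ck : K → bSet B :=
  WellFounded.fix (wellFounded_lt (α := K))
    (fun a ih => bSet.mk (Iio a) (fun x => ih x.1 x.2) (fun _ => ⊤))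

theorem ck_eq (a : K) : ck B a = bSet.mk (Iio a) (fun x => ck B x.1) (fun _ => ⊤) := by
  unfold ck
  rw [WellFounded.fix_eq]

/-- check name of the order type of `K` -/
noncomputable def lamN (K : Type) [LinearOrder K] [WellFoundedLT K] : bSet B :=
  bSet.mk K (fun x => ck B x) (fun _ => ⊤)

variable {B}

/-- name of the set of all `c i` -/
def domN {ι : Type} (c : ι → bSet B) : bSet B := bSet.mk ι c (fun _ => ⊤)

/-- name of the subset of the `c i` with Boolean values `x i` -/
def subN {ι : Type} (c : ι → bSet B) (x : ι → B) : bSet B := bSet.mk ι c x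

open Classical in
/-- name of the function to `2` with value `1` at `c i` with Boolean value `x i` -/
noncomputable def chiN {ι : Type} (c : ι → bSet B) (x : ι → B) : bSet B :=
  graphName (ι := ι × Bool) (fun p => c p.1) (fun p => if p.2 = true then num 1 else num 0)
    (fun p => if p.2 = true then x p.1 else (x p.1)ᶜ)

theorem ck_eq_domN (a : K) : ck B a = domN (fun x : Iio a => ck B x.1) := ck_eq B a

theorem lamN_eq_domN : lamN B K = domN (fun x : K => ck B x) := rfl

end Pool.Agent.Lib.WkD
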