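import Pool.Agent.Lib.WkD.MCheck

/-!
# The ordinal omega of the quotient model

PROOF SKETCH. Let `a` be the least element of `K` with `Iio a` infinite, so `Iio b` is finite for
b < a. Claim: `ck a` is omega in every quotient. (1) Inductive: the least element `b0` of K is
below a and ck b0 is empty (E_ck / case analysis); for y in ck a, case y = ck b with b < a; there is
a next element b' (the least element above b; it exists and is < a, since otherwise Iio a would be
contained in Iic b, finite), and IsSucc (ck b) (ck b'): z in ck b' iff z in ck b or z = ck b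
(both directions by case analysis and E_ck, c < b' iff c <= b). (2) Minimal: x inductive, z in ck a,
case z = ck b (b < a; use of_mem_ck with Q = x inductive, P = z in x, both BV); by well-founded
induction on b, for every U with x inductive, ck b is in x: if b is the least element, ck b is
empty, use emp_unique; otherwise Iio b is finite and nonempty, let c be its maximum; ck c in x by
induction, its successor s is in x, and s = ck b by succ_unique (ext_mod U).
-/

set_option autoImplicit false

namespace Pool.Agent.Lib.WkD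

open Set Pool.Agent.Lib.BVM Pool.Agent.Lib.BVM.bSet

variable {B K : Type} [CompleteBooleanAlgebra B] [LinearOrder K] [WellFoundedLT K]

namespace MOmegaAux

theorem isEmp_ck {b : K} (h : ∀ c, ¬ c < b) (U : Ultra B) : IsEmp (E U) (q U (ck B b)) := by
  intro z hz
  obtain ⟨Z, rfl⟩ := q_surj z
  exact of_mem_ck (P := fun _ => False) (Q := fun _ => True) (BV.const False) (BV.const True)
    (fun c hc _ _ _ => h c hc) hz trivial

theorem isSucc_ck {c b : K} (hcb : c < b) (h : ∀ d, d < b → d ≤ c) (U : Ultra B) :
    IsSucc (E U) (q U (ck B c)) (q U (ck B b)) := by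
  intro z
  obtain ⟨Z, rfl⟩ := q_surj z
  constructor
  · intro hz
    refine of_mem_ck (P := fun U => E U (q U Z) (q U (ck B c)) ∨ q U Z = q U (ck B c))
      (Q := fun _ => True) ((BV.mem _ _).or (BV.eq _ _)) (BV.const True)
      (fun d hd U hZ _ => ?_) hz trivial
    rcases (h d hd).lt_or_eq with h1 | h1
    · left
      rw [hZ]
      exact E_ck.2 h1
    · right
      rw [hZ, h1]
  · rintro (hz | hz)
    · refine of_mem_ck (P := fun U => E U (q U Z) (q U (ck B b)))
        (Q := fun _ => True) (BV.mem _ _) (BV.const True)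
        (fun d hd U hZ _ => ?_) hz trivial
      rw [hZ]
      exact E_ck.2 (hd.trans hcb)
    · rw [hz]
      exact E_ck.2 hcb

end MOmegaAux

open MOmegaAux in
theorem isOmega_ck (hinf : ∃ a : K, (Iio a).Infinite) :
    ∃ a : K, ∀ U : Ultra B, IsOmega (E U) (q U (ck B a)) := by
  obtain ⟨a, ha, hmin⟩ : ∃ a : K, (Iio a).Infinite ∧ ∀ b, b < a → (Iio b).Finite := by
    refine ⟨(wellFounded_lt (α := K)).min {a : K | (Iio a).Infinite} hinf,
      (wellFounded_lt (α := K)).min_mem _ hinf, fun b hb => ?_⟩
    by_contra hc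
    exact (wellFounded_lt (α := K)).not_lt_min _ (show b ∈ {a : K | (Iio a).Infinite} from hc) hb
  refine ⟨a, fun U => ⟨⟨?_, ?_⟩, ?_⟩⟩
  · have hne : (univ : Set K).Nonempty := ⟨a, mem_univ _⟩
    have h0 : ∀ c, ¬ c < (wellFounded_lt (α := K)).min univ hne := fun c =>
      (wellFounded_lt (α := K)).not_lt_min _ (mem_univ c)
    refine ⟨q U (ck B ((wellFounded_lt (α := K)).min univ hne)), isEmp_ck h0 U, E_ck.2 ?_⟩
    obtain ⟨c, hc⟩ := ha.nonempty
    exact lt_of_le_of_lt (not_lt.1 (h0 c)) hc
  · intro y hy
    obtain ⟨Y, rfl⟩ := q_surj y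
    refine of_mem_ck (P := fun U => ∃ s, IsSucc (E U) (q U Y) s ∧ E U s (q U (ck B a)))
      (Q := fun _ => True) (BV.ex fun s => (BV.isSucc _ s).and (BV.mem _ _)) (BV.const True)
      (fun b hb U hY _ => ?_) hy trivial
    have hfin : (Iic b).Finite := by
      rw [← Iio_insert]
      exact (hmin b hb).insert b
    obtain ⟨c, hc, hbc⟩ : ∃ c ∈ Iio a, c ∉ Iic b := by
      by_contra hcon
      push Not at hcon
      exact ha (hfin.subset hcon)
    rw [mem_Iic, not_le] at hbc
    have hne : ({c | b < c} : Set K).Nonempty := ⟨c, hbc⟩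
    have h1 : b < (wellFounded_lt (α := K)).min {c | b < c} hne :=
      (wellFounded_lt (α := K)).min_mem _ hne
    have h2 : ∀ d, d < (wellFounded_lt (α := K)).min {c | b < c} hne → d ≤ b := by
      intro d hd
      by_contra hcon
      exact (wellFounded_lt (α := K)).not_lt_min _
        (show d ∈ {c | b < c} from not_le.1 hcon) hd
    have h3 : ¬ c < (wellFounded_lt (α := K)).min {c | b < c} hne :=
      (wellFounded_lt (α := K)).not_lt_min _ (show c ∈ {c | b < c} from hbc)
    refine ⟨q U (ck B ((wellFounded_lt (α := K)).min {c | b < c} hne)), ?_,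
      E_ck.2 (lt_of_le_of_lt (not_lt.1 h3) hc)⟩
    rw [hY]
    exact isSucc_ck h1 h2 U
  · intro x hx z hz
    obtain ⟨X, rfl⟩ := q_surj x
    obtain ⟨Z, rfl⟩ := q_surj z
    refine of_mem_ck (P := fun U => E U (q U Z) (q U X))
      (Q := fun U => IsInductive (E U) (q U X)) (BV.mem _ _) (BV.isInductive X)
      (fun b hb U hZ hQ => ?_) hz hx
    rw [hZ]
    clear hZ hz hx
    induction b using WellFoundedLT.induction with
    | ind b ih =>
      by_cases hb0 : ∀ c, ¬ c < b
      · obtain ⟨e, he, heX⟩ := hQ.1
        rwa [emp_unique (ext_mod U) he (isEmp_ck hb0 U)] at heX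
      · push Not at hb0
        obtain ⟨c, hc, hcm⟩ := Set.exists_max_image (Iio b) id (hmin b hb) hb0
        obtain ⟨s, hs, hsX⟩ := hQ.2 _ (ih c hc (lt_trans hc hb))
        rwa [succ_unique (ext_mod U) hs (isSucc_ck hc (fun d hd => hcm d hd) U)] at hsX

end Pool.Agent.Lib.WkD
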