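import Pool.Agent.Lib.WkD.MCheck

/-!
# Regularity in the quotient model

PROOF SKETCH. Let a = q U A, f = q U f. Case analysis on a in lamN (of_mem_lamN with
P U = (∃ b, b in lam and all values of f are in b), Q U = IsFun f A lam, both BV; BV.isFun, BV.app of
BVM/Facts.lean): we may assume a = q U (ck α). Let W U = IsFun f (ck α) lam (BV) and for ξ < α, η : K
let h ξ η = bv (fun U => W U → App f (ck ξ) (ck η)). Then ⨆ η, h ξ η = ⊤: Ultra.eq_top_of_forall; if W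
fails in U' then h ξ η ∈ U' for every η (K is nonempty), and if W holds then f has a value y in
lam at ck ξ; case analysis y = ck η (of_mem_lamN with P = (⨆ η, h ξ η) ∈ U). By BRegular the
supremum ⨆ η, ⨅ ξ, ⨆ η' < η, h ξ η' is in U; of_iSup (Q = W): fix η. Then b = ck η works: let
App f x y; x is in ck α (first coordinates of elements of f; pair_inj), case x = ck ξ (of_mem_ck), then
⨆ η' , ⨆ _ : η' < η, h ξ η' ∈ U, case η' (of_iSup twice), App f (ck ξ) (ck η'), so y = ck η' (app_unique)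
and ck η' in ck η by E_ck.
-/

set_option autoImplicit false

namespace Pool.Agent.Lib.WkD

open Set Pool.Agent.Lib.BVM Pool.Agent.Lib.BVM.bSet

variable {B K : Type} [CompleteBooleanAlgebra B] [LinearOrder K] [WellFoundedLT K]

theorem regular_mod (h : BRegular B K) (U : Ultra B) :
    ∀ a f, E U a (q U (lamN B K)) → IsFun (E U) f a (q U (lamN B K)) →
      ∃ b, E U b (q U (lamN B K)) ∧ ∀ x y, App (E U) f x y → E U y b := by
  intro a f ha hf
  obtain ⟨A, rfl⟩ := q_surj a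
  obtain ⟨F, rfl⟩ := q_surj f
  have hP : BV (fun U : Ultra B => ∃ b, E U b (q U (lamN B K)) ∧
      ∀ x y, App (E U) (q U F) x y → E U y b) :=
    BV.ex fun b => (BV.mem _ _).and (BV.all fun x => BV.all fun y => (BV.app F x y).imp (BV.mem _ _))
  refine of_mem_lamN (Z := A) (P := fun U => ∃ b, E U b (q U (lamN B K)) ∧
      ∀ x y, App (E U) (q U F) x y → E U y b)
    (Q := fun U => IsFun (E U) (q U F) (q U A) (q U (lamN B K))) hP (BV.isFun F A _)
    (fun α U hA hf => ?_) ha hf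
  rw [hA] at hf
  set g : Iio α → K → B := fun ξ η => bv (fun U => IsFun (E U) (q U F) (q U (ck B α))
    (q U (lamN B K)) → App (E U) (q U F) (q U (ck B ξ.1)) (q U (ck B η))) with hg
  have hBV : ∀ (ξ : Iio α) (η : K), BV (fun U : Ultra B => IsFun (E U) (q U F) (q U (ck B α))
    (q U (lamN B K)) → App (E U) (q U F) (q U (ck B ξ.1)) (q U (ck B η))) := fun ξ η =>
    (BV.isFun F _ _).imp (BV.app F _ _)
  have h1 : ∀ ξ, ⨆ η, g ξ η = ⊤ := by
    intro ξ
    refine Ultra.eq_top_of_forall fun U' => ?_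
    by_cases hw : IsFun (E U') (q U' F) (q U' (ck B α)) (q U' (lamN B K))
    · obtain ⟨y, hy, _⟩ := hw.1.2 (q U' (ck B ξ.1)) (E_ck.2 ξ.2)
      have hyl := hw.2 _ _ hy
      obtain ⟨Y, rfl⟩ := q_surj y
      refine of_mem_lamN (Z := Y) (P := fun U => (⨆ η, g ξ η) ∈ U)
        (Q := fun U => App (E U) (q U F) (q U (ck B ξ.1)) (q U Y)) (BV.of_mem _) (BV.app F _ _)
        (fun η U'' hY hQ => ?_) hyl hy
      rw [hY] at hQ
      exact Ultra.mono (((hBV ξ η).iff U'').1 (fun _ => hQ)) (le_iSup (g ξ) η)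
    · exact Ultra.mono (((hBV ξ α).iff U').1 (fun h => absurd h hw)) (le_iSup (g ξ) α)
  have hB := h α g h1
  refine of_iSup (t := fun η : K => ⨅ ξ, ⨆ η' : K, ⨆ _ : η' < η, g ξ η')
    (Q := fun U => IsFun (E U) (q U F) (q U (ck B α)) (q U (lamN B K))) hP (BV.isFun F _ _)
    (fun η U hη hf => ?_) (by rw [hB]; exact Ultra.top) hf
  refine ⟨q U (ck B η), E_lamN η U, fun x y hxy => ?_⟩
  have hx : E U x (q U (ck B α)) := by
    obtain ⟨p, hp, hpf⟩ := hxy
    obtain ⟨x', y', hx', hp'⟩ := hf.1.1 p hpf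
    rw [(pair_inj hp hp').1]
    exact hx'
  obtain ⟨X, rfl⟩ := q_surj x
  obtain ⟨Y, rfl⟩ := q_surj y
  refine of_mem_ck (Z := X) (P := fun U => E U (q U Y) (q U (ck B η)))
    (Q := fun U => (⨅ ξ, ⨆ η' : K, ⨆ _ : η' < η, g ξ η') ∈ U ∧
      IsFun (E U) (q U F) (q U (ck B α)) (q U (lamN B K)) ∧ App (E U) (q U F) (q U X) (q U Y))
    (BV.mem _ _) ((BV.of_mem _).and ((BV.isFun F _ _).and (BV.app F _ _)))
    (fun ξ hξ U hX hQ => ?_) hx ⟨hη, hf, hxy⟩
  obtain ⟨hη, hf, hxy⟩ := hQ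
  rw [hX] at hxy
  refine of_iSup (t := fun η' : K => ⨆ _ : η' < η, g ⟨ξ, hξ⟩ η')
    (P := fun U => E U (q U Y) (q U (ck B η)))
    (Q := fun U => IsFun (E U) (q U F) (q U (ck B α)) (q U (lamN B K)) ∧
      App (E U) (q U F) (q U (ck B ξ)) (q U Y))
    (BV.mem _ _) ((BV.isFun F _ _).and (BV.app F _ _))
    (fun η' U h1 hQ => ?_) (Ultra.mono hη (iInf_le _ (⟨ξ, hξ⟩ : Iio α))) ⟨hf, hxy⟩
  refine of_iSup (t := fun _ : η' < η => g ⟨ξ, hξ⟩ η')
    (P := fun U => E U (q U Y) (q U (ck B η)))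
    (Q := fun U => IsFun (E U) (q U F) (q U (ck B α)) (q U (lamN B K)) ∧
      App (E U) (q U F) (q U (ck B ξ)) (q U Y))
    (BV.mem _ _) ((BV.isFun F _ _).and (BV.app F _ _))
    (fun hlt U h2 hQ => ?_) h1 hQ
  have h3 := ((hBV ⟨ξ, hξ⟩ η').iff U).2 h2 hQ.1
  rw [app_unique hQ.1.1 (E_ck.2 hξ) hQ.2 h3]
  exact E_ck.2 hlt

end Pool.Agent.Lib.WkD
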