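import Pool.Agent.Lib.WkD.MDefs

/-!
# Check names of ordinals in the quotient model

PROOF SKETCH. `domN c = mk ι c ⊤`, `ck B a = domN (ck below a)` (ck_eq_domN), `lamN = domN ck`.
* of_mem_domN: BVM.of_mem with X = domN c (type = ι, func = c, by rfl).
* E_domN: Ultra.mono Ultra.top (le_bmem_mk c (fun _ => ⊤) i).
* E_ck and ck_inj together: show by well-founded induction on max / on `a` that
  E U (ck a) (ck a) fails and more generally: E U (q U (ck a)) (q U (ck b)) -> a < b.
  By BVM.modelZFC foundation there are no E-cycles; simplest: prove by strong induction on b: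
  for all U and a, E U (q U (ck a)) (q U (ck b)) -> a < b. Case analysis (of_mem_domN with
  P = const (a < b), Q = const True) gives b' < b and q U (ck a) = q U (ck b') for a new U. If
  a = b' done. If a < b': E U (ck a) (ck b') (E_domN), so E U (ck b') (ck b')
  [rewrite], induction for b' gives b' < b', contradiction. If b' < a: then E U (ck b') (ck a) =
  E U (ck b') (ck b') [rewrite the equality], again b' < b' by induction. ck_inj: if a ≠ b, say
  a < b, then E U (ck a) (ck b) = E U (ck a) (ck a), so a < a.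
* isOrd_lamN: transitivity by two case analyses (BV.isTrans gives the needed BV predicates).
* BV lemmas: unfold and combine BV.all, BV.ex, BV.mem, BV.imp, BV.and, BV.eq (see BVM/Facts.lean).
-/

set_option autoImplicit false

namespace Pool.Agent.Lib.WkD

open Set Pool.Agent.Lib.BVM Pool.Agent.Lib.BVM.bSet

variable {B K : Type} [CompleteBooleanAlgebra B] [LinearOrder K] [WellFoundedLT K]

theorem BV_isTrans (x : bSet B) : BV (fun U => IsTrans (E U) (q U x)) :=
  BV.all fun _ => (BV.mem _ _).imp (BV.all fun _ => (BV.mem _ _).imp (BV.mem _ _))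

theorem BV_isOrd (x : bSet B) : BV (fun U => IsOrd (E U) (q U x)) :=
  (BV_isTrans x).and (BV.all fun y => (BV.mem _ _).imp (BV_isTrans y))

theorem BV_isClub (c l : bSet B) : BV (fun U => IsClub (E U) (q U c) (q U l)) :=
  (BV.all (P := fun U x => E U x (q U c) → E U x (q U l)) fun _ =>
    (BV.mem _ _).imp (BV.mem _ _)).and
  ((BV.all (P := fun U x => E U x (q U l) → ∃ y, E U y (q U c) ∧ E U x y) fun x =>
    (BV.mem _ _).imp (BV.ex (P := fun U y => E U y (q U c) ∧ E U (q U x) y) fun _ =>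
      (BV.mem _ _).and (BV.mem _ _))).and
  (BV.all (P := fun U a => E U a (q U l) → (∃ x, E U x a) →
      (∀ x, E U x a → ∃ y, E U y (q U c) ∧ E U x y ∧ E U y a) → E U a (q U c)) fun a =>
    (BV.mem _ _).imp ((BV.ex (P := fun U x => E U x (q U a)) fun _ => BV.mem _ _).imp
      ((BV.all (P := fun U x => E U x (q U a) → ∃ y, E U y (q U c) ∧ E U x y ∧ E U y (q U a))
        fun x => (BV.mem _ _).imp
          (BV.ex (P := fun U y => E U y (q U c) ∧ E U (q U x) y ∧ E U y (q U a)) fun _ =>
            (BV.mem _ _).and ((BV.mem _ _).and (BV.mem _ _)))).imp (BV.mem _ _)))))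

theorem of_mem_domN {ι : Type} {c : ι → bSet B} {Z : bSet B} {P Q : Ultra B → Prop}
    (hP : BV P) (hQ : BV Q) (h : ∀ i U, q U Z = q U (c i) → Q U → P U) {U : Ultra B}
    (h1 : E U (q U Z) (q U (domN c))) (h2 : Q U) : P U :=
  of_mem (X := domN c) hP hQ (fun i U _ hZ hq => h i U hZ hq) h1 h2

theorem of_mem_subN {ι : Type} {c : ι → bSet B} {x : ι → B} {Z : bSet B} {P Q : Ultra B → Prop}
    (hP : BV P) (hQ : BV Q) (h : ∀ i U, x i ∈ U → q U Z = q U (c i) → Q U → P U) {U : Ultra B}
    (h1 : E U (q U Z) (q U (subN c x))) (h2 : Q U) : P U :=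
  of_mem (X := subN c x) hP hQ (fun i U hx hZ hq => h i U hx hZ hq) h1 h2

theorem E_domN {ι : Type} (c : ι → bSet B) (i : ι) (U : Ultra B) :
    E U (q U (c i)) (q U (domN c)) :=
  Ultra.mono Ultra.top (le_bmem_mk c (fun _ => ⊤) i)

theorem of_mem_ck {a : K} {Z : bSet B} {P Q : Ultra B → Prop} (hP : BV P) (hQ : BV Q)
    (h : ∀ b, b < a → ∀ U, q U Z = q U (ck B b) → Q U → P U) {U : Ultra B}
    (h1 : E U (q U Z) (q U (ck B a))) (h2 : Q U) : P U := by
  rw [ck_eq_domN] at h1
  exact of_mem_domN hP hQ (fun i U hZ hq => h i.1 i.2 U hZ hq) h1 h2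

theorem of_mem_lamN {Z : bSet B} {P Q : Ultra B → Prop} (hP : BV P) (hQ : BV Q)
    (h : ∀ (b : K) (U : Ultra B), q U Z = q U (ck B b) → Q U → P U) {U : Ultra B}
    (h1 : E U (q U Z) (q U (lamN B K))) (h2 : Q U) : P U := by
  rw [lamN_eq_domN] at h1
  exact of_mem_domN hP hQ h h1 h2

private theorem E_ck_of_lt {a b : K} (h : a < b) (U : Ultra B) :
    E U (q U (ck B a)) (q U (ck B b)) := by
  rw [ck_eq_domN b]
  exact E_domN (fun x : Set.Iio b => ck B x.1) ⟨a, h⟩ U

private theorem lt_of_E_ck (b : K) : ∀ (U : Ultra B) (a : K),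
    E U (q U (ck B a)) (q U (ck B b)) → a < b := by
  induction b using WellFoundedLT.induction with
  | ind b ih =>
    intro U a h
    refine of_mem_ck (P := fun _ => a < b) (Q := fun _ => True) (BV.const _) (BV.const _)
      (fun b' hb' U hZ _ => ?_) h trivial
    rcases lt_trichotomy a b' with hlt | rfl | hgt
    · exact hlt.trans hb'
    · exact hb'
    · have h2 : E U (q U (ck B b')) (q U (ck B a)) := E_ck_of_lt hgt U
      rw [hZ] at h2
      exact absurd (ih b' hb' U b' h2) (lt_irrefl _)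

theorem E_ck {U : Ultra B} {a b : K} : E U (q U (ck B a)) (q U (ck B b)) ↔ a < b :=
  ⟨lt_of_E_ck b U a, fun h => E_ck_of_lt h U⟩

theorem ck_inj {U : Ultra B} {a b : K} (h : q U (ck B a) = q U (ck B b)) : a = b := by
  rcases lt_trichotomy a b with hlt | heq | hgt
  · have h1 : E U (q U (ck B a)) (q U (ck B b)) := E_ck.2 hlt
    rw [← h] at h1
    exact absurd (E_ck.1 h1) (lt_irrefl _)
  · exact heq
  · have h1 : E U (q U (ck B b)) (q U (ck B a)) := E_ck.2 hgt
    rw [h] at h1
    exact absurd (E_ck.1 h1) (lt_irrefl _)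

theorem beq_ck_ne {a b : K} (h : a ≠ b) : beq (ck B a) (ck B b) = ⊥ :=
  le_bot_iff.1 (Ultra.le_of_forall fun _ hU => absurd (ck_inj (q_eq.2 hU)) h)

theorem E_lamN (a : K) (U : Ultra B) : E U (q U (ck B a)) (q U (lamN B K)) := by
  rw [lamN_eq_domN]
  exact E_domN (fun x : K => ck B x) a U

theorem isOrd_lamN (U : Ultra B) : IsOrd (E U) (q U (lamN B K)) := by
  refine ⟨?_, ?_⟩
  · intro y hy z hz
    obtain ⟨Y, rfl⟩ := q_surj y
    obtain ⟨Z, rfl⟩ := q_surj z
    refine of_mem_lamN (P := fun U => E U (q U Z) (q U (lamN B K)))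
      (Q := fun U => E U (q U Z) (q U Y)) (BV.mem _ _) (BV.mem _ _) (fun b U hY hz => ?_) hy hz
    rw [hY] at hz
    refine of_mem_ck (P := fun U => E U (q U Z) (q U (lamN B K))) (Q := fun _ => True)
      (BV.mem _ _) (BV.const _) (fun b' _ U hZ _ => ?_) hz trivial
    rw [hZ]
    exact E_lamN b' U
  · intro y hy
    obtain ⟨Y, rfl⟩ := q_surj y
    refine of_mem_lamN (P := fun U => IsTrans (E U) (q U Y)) (Q := fun _ => True)
      (BV_isTrans Y) (BV.const _) (fun b U hY _ => ?_) hy trivial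
    rw [hY]
    intro z hz w hw
    obtain ⟨Z, rfl⟩ := q_surj z
    obtain ⟨W, rfl⟩ := q_surj w
    refine of_mem_ck (P := fun U => E U (q U W) (q U (ck B b)))
      (Q := fun U => E U (q U W) (q U Z)) (BV.mem _ _) (BV.mem _ _)
      (fun b' hb' U hZ hw => ?_) hz hw
    rw [hZ] at hw
    refine of_mem_ck (P := fun U => E U (q U W) (q U (ck B b))) (Q := fun _ => True)
      (BV.mem _ _) (BV.const _) (fun b'' hb'' U hW _ => ?_) hw trivial
    rw [hW]
    exact E_ck.2 (hb''.trans hb')

end Pool.Agent.Lib.WkD
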