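import Pool.Agent.Lib.WkD.MChi

/-!
# Closed unbounded sets in the quotient model

PROOF SKETCH. Both statements are a translation of the three clauses of IsClub, using of_mem_lamN,
of_mem_ck, los_ball, los_bex (BVM/Quot.lean) over lamN (val = ⊤, func = ck) and over ck a
(rewrite with ck_eq; type Iio a), and E_ck. For instance, clause 2 in U for C = q U C with
x α = bmem (ck α) C: the statement (for all x in lamN there is y in C with x in y) is, since
elements of C are in lamN, equivalent to (for all x in lamN there is y in lamN with y in C and x in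
y), so by los_ball and los_bex to ⨅ ξ, (⊤ ⇨ ⨆ η, ⊤ ⊓ (x η ⊓ [ξ < η])) ∈ U; the Boolean value of
E (ck ξ) (ck η) is ⊤ if ξ < η and ⊥ otherwise (E_ck). It is convenient to prove once:
  (⨆ η, ⨆ _ : p η, X η) ∈ U iff (⨆ η, X η ⊓ bv (fun _ => p η)) ∈ U, or to avoid explicit values and
to argue by of_iSup. A direct way for bclub_mem: BClub X is the Boolean value of a BV predicate;
show Ultra.le_of_forall (bv (IsClub C lam) ≤ BClub X) componentwise with le_iInf: for every U' with
IsClub in U' and every ξ, the supremum ⨆ η, ⨆ _ : ξ < η, X η is in U': pick y from clause 2 with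
x = ck ξ, and use case analysis y = ck η (P = (⨆ ...) ∈ U, BV.of_mem); then ck ξ in ck η gives ξ < η
by E_ck and X η = bmem (ck η) C ∈ U. Clause 3 similarly with le_himp_iff.
isClub_subN: clause 1 by of_mem_subN; clause 2: case x = ck ξ (of_mem_lamN with Q = BClub X ∈ U), then
of_iSup twice; clause 3: case a = ck α; hypothesis (∃ x in a) gives an element ξ < α; the
hypothesis of clause 3 is equivalent to membership in U of
⨅ ξ, ⨅ _ : ξ < α, ⨆ η, ⨆ _ : ξ < η ∧ η < α, X η (los_ball over ck α; elements of subN below ck α).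
-/

set_option autoImplicit false

namespace Pool.Agent.Lib.WkD

open Set Pool.Agent.Lib.BVM Pool.Agent.Lib.BVM.bSet

variable {B K : Type} [CompleteBooleanAlgebra B] [LinearOrder K] [WellFoundedLT K]

theorem bclub_mem (C : bSet B) {U : Ultra B} (h : IsClub (E U) (q U C) (q U (lamN B K))) :
    BClub (fun a : K => bmem (ck B a) C) ∈ U := by
  have hBV : BV (fun U : Ultra B => IsClub (E U) (q U C) (q U (lamN B K))) :=
    BV_isClub C (lamN B K)
  refine Ultra.mono ((hBV.iff U).1 h) ?_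
  unfold BClub
  refine le_inf (le_iInf fun ξ => ?_) (le_iInf fun α => le_iInf fun hα => ?_)
  · refine Ultra.le_of_forall fun V hV => ?_
    have h := (hBV.iff V).2 hV
    obtain ⟨y, hy, hξ⟩ := h.2.1 _ (E_lamN ξ V)
    obtain ⟨Y, rfl⟩ := q_surj y
    refine of_mem_lamN (K := K) (Z := Y)
      (P := fun U => (⨆ η : K, ⨆ _ : ξ < η, bmem (ck B η) C) ∈ U)
      (Q := fun U => E U (q U Y) (q U C) ∧ E U (q U (ck B ξ)) (q U Y)) (BV.of_mem _)
      ((BV.mem _ _).and (BV.mem _ _)) (fun η U hY hQ => ?_) (h.1 _ hy) ⟨hy, hξ⟩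
    rw [hY] at hQ
    have h1 : ξ < η := E_ck.1 hQ.2
    exact Ultra.mono hQ.1 (le_iSup_of_le η (le_iSup_of_le h1 le_rfl))
  · rw [le_himp_iff]
    refine Ultra.le_of_forall fun V hV => ?_
    obtain ⟨hV, hV2⟩ := Ultra.inf_iff.1 hV
    have h := (hBV.iff V).2 hV
    refine h.2.2 _ (E_lamN α V) ?_ ?_
    · obtain ⟨ξ, hξ⟩ := hα
      exact ⟨_, E_ck.2 hξ⟩
    · intro x hx
      obtain ⟨X, rfl⟩ := q_surj x
      refine of_mem_ck (Z := X) (a := α)
        (P := fun U => ∃ y, E U y (q U C) ∧ E U (q U X) y ∧ E U y (q U (ck B α)))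
        (Q := fun U => (⨅ ξ : K, ⨅ _ : ξ < α, ⨆ η : K, ⨆ _ : ξ < η ∧ η < α,
          bmem (ck B η) C) ∈ U)
        (BV.ex fun y => (BV.mem _ _).and ((BV.mem _ _).and (BV.mem _ _))) (BV.of_mem _)
        (fun ξ hξ U hX hQ => ?_) hx hV2
      rw [hX]
      have h3 : (⨆ η : K, ⨆ _ : ξ < η ∧ η < α, bmem (ck B η) C) ∈ U :=
        Ultra.mono hQ ((iInf_le _ ξ).trans (iInf_le _ hξ))
      have hP : BV (fun U : Ultra B => ∃ y, E U y (q U C) ∧ E U (q U (ck B ξ)) y ∧
          E U y (q U (ck B α))) :=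
        BV.ex fun y => (BV.mem _ _).and ((BV.mem _ _).and (BV.mem _ _))
      refine of_iSup (t := fun η : K => ⨆ _ : ξ < η ∧ η < α, bmem (ck B η) C)
        (Q := fun _ => True) hP (BV.const _) (fun η U hη _ => ?_) h3 trivial
      refine of_iSup (t := fun _ : ξ < η ∧ η < α => bmem (ck B η) C)
        (Q := fun _ => True) hP (BV.const _) (fun hlt U hη _ => ?_) hη trivial
      exact ⟨q U (ck B η), hη, E_ck.2 hlt.1, E_ck.2 hlt.2⟩

theorem isClub_subN (X : K → B) {U : Ultra B} (h : BClub X ∈ U) :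
    IsClub (E U) (q U (subN (fun a : K => ck B a) X)) (q U (lamN B K)) := by
  have hck : ∀ i j : K, i ≠ j → beq (ck B i) (ck B j) = ⊥ := fun i j h => beq_ck_ne h
  refine ⟨?_, ?_, ?_⟩
  · intro x hx
    obtain ⟨W, rfl⟩ := q_surj x
    refine of_mem_subN (P := fun U => E U (q U W) (q U (lamN B K))) (Q := fun _ => True)
      (BV.mem _ _) (BV.const _) (fun i U hi hW _ => ?_) hx trivial
    rw [hW]
    exact E_lamN i U
  · intro x hx
    obtain ⟨W, rfl⟩ := q_surj x
    refine of_mem_lamN (K := K) (Z := W)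
      (P := fun U => ∃ y, E U y (q U (subN (fun a : K => ck B a) X)) ∧ E U (q U W) y)
      (Q := fun U => BClub X ∈ U) (BV.ex fun y => (BV.mem _ _).and (BV.mem _ _)) (BV.of_mem _)
      (fun ξ U hW hQ => ?_) hx h
    rw [hW]
    have h3 : (⨆ η : K, ⨆ _ : ξ < η, X η) ∈ U := Ultra.mono hQ (inf_le_left.trans (iInf_le _ ξ))
    have hP : BV (fun U : Ultra B => ∃ y, E U y (q U (subN (fun a : K => ck B a) X)) ∧
        E U (q U (ck B ξ)) y) := BV.ex fun y => (BV.mem _ _).and (BV.mem _ _)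
    refine of_iSup (t := fun η : K => ⨆ _ : ξ < η, X η)
      (Q := fun _ => True) hP (BV.const _) (fun η U hη _ => ?_) h3 trivial
    refine of_iSup (t := fun _ : ξ < η => X η)
      (Q := fun _ => True) hP (BV.const _) (fun hlt U hη _ => ?_) hη trivial
    exact ⟨q U (ck B η), (E_subN hck).2 hη, E_ck.2 hlt⟩
  · intro a ha hex hall
    obtain ⟨A, rfl⟩ := q_surj a
    refine of_mem_lamN (K := K) (Z := A)
      (P := fun U => E U (q U A) (q U (subN (fun a : K => ck B a) X)))
      (Q := fun U => BClub X ∈ U ∧ (∃ x, E U x (q U A)) ∧ (∀ x, E U x (q U A) →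
        ∃ y, E U y (q U (subN (fun a : K => ck B a) X)) ∧ E U x y ∧ E U y (q U A)))
      (BV.mem _ _)
      ((BV.of_mem _).and ((BV.ex fun x => BV.mem x A).and (BV.all fun x => (BV.mem x A).imp
        (BV.ex fun y => (BV.mem _ _).and ((BV.mem _ _).and (BV.mem _ _))))))
      (fun α U hA hQ => ?_) ha ⟨h, hex, hall⟩
    obtain ⟨h, hex, hall⟩ := hQ
    rw [hA] at hex hall ⊢
    rw [E_subN hck]
    have hα : ∃ ξ, ξ < α := by
      obtain ⟨x, hx⟩ := hex
      obtain ⟨W, rfl⟩ := q_surj x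
      exact of_mem_ck (Z := W) (a := α) (P := fun _ => ∃ ξ, ξ < α) (Q := fun _ => True)
        (BV.const _) (BV.const _) (fun ξ hξ U _ _ => ⟨ξ, hξ⟩) hx trivial
    have h1 := Ultra.mono h (inf_le_right.trans ((iInf_le _ α).trans (iInf_le _ hα)))
    refine Ultra.himp_iff.1 h1 ?_
    have hBV : BV (fun U : Ultra B => ∀ x, E U x (q U (ck B α)) →
        ∃ y, E U y (q U (subN (fun a : K => ck B a) X)) ∧ E U x y ∧ E U y (q U (ck B α))) :=
      BV.all fun x => (BV.mem _ _).imp
        (BV.ex fun y => (BV.mem _ _).and ((BV.mem _ _).and (BV.mem _ _)))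
    refine Ultra.mono ((hBV.iff U).1 hall)
      (le_iInf fun ξ => le_iInf fun hξ => Ultra.le_of_forall fun V hV => ?_)
    have hall := (hBV.iff V).2 hV
    obtain ⟨y, hy, hy1, hy2⟩ := hall _ (E_ck.2 hξ)
    obtain ⟨Y, rfl⟩ := q_surj y
    refine of_mem_subN (Z := Y) (P := fun U => (⨆ η : K, ⨆ _ : ξ < η ∧ η < α, X η) ∈ U)
      (Q := fun U => E U (q U (ck B ξ)) (q U Y) ∧ E U (q U Y) (q U (ck B α)))
      (BV.of_mem _) ((BV.mem _ _).and (BV.mem _ _)) (fun η U hη hY hQ => ?_) hy ⟨hy1, hy2⟩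
    rw [hY] at hQ
    exact Ultra.mono hη (le_iSup_of_le η (le_iSup_of_le ⟨E_ck.1 hQ.1, E_ck.1 hQ.2⟩ le_rfl))

end Pool.Agent.Lib.WkD
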