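import Pool.Agent.Lib.WkD.AddP

/-!
# Antichains of the Cohen order

THEOREM. κ inaccessible: every antichain of AddC κ J has size ≤ κ.
PROOF. Let K = κ.ord.ToType (well-order, #K = κ, #(Iio ξ) < κ for ξ : K). (F1) For X : Set J with #X ≤ κ the
set Cn X of conditions p with dom p ⊆ X has size ≤ κ: X embeds into K by some i; a subset of K of size < κ is
bounded (regularity), so it is a subset of Iio ξ for some ξ; the condition p is determined by the pair of
subsets i''{j | p j = some true}, i''{j | p j = some false} of some Iio ξ; so #(Cn X) ≤ #(Σ ξ : K,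
Set (Iio ξ) × Set (Iio ξ)) ≤ κ * κ = κ (2 ^ #(Iio ξ) < κ). Write p|X for the restriction of p to X. For
X : Set J let N X = X ∪ ⋃ {dom (g X s) | s ∈ Cn X}, where g X s ∈ 𝒜 is a chosen element with (g X s)|X = s if
there is one (and nothing is added otherwise). #X ≤ κ implies #(N X) ≤ κ. Define M : K → Set J by
well-founded recursion, M ξ = ⋃ η < ξ, N (M η). By induction #(M ξ) ≤ κ, and M η ⊆ N (M η) ⊆ M ξ for η < ξ. Let
M* = ⋃ ξ, M ξ, #M* ≤ κ. CLAIM every q ∈ 𝒜 has dom q ⊆ M*. Then 𝒜 ⊆ Cn M*, so #𝒜 ≤ κ. Proof of the claim: dom q ∩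
M* has size < κ, so by regularity it is contained in M ξ for some ξ (for each j choose ξ_j with j ∈ M ξ_j,
bound them; M is monotone). s = q|M ξ; there is g = g (M ξ) s ∈ 𝒜 with g|M ξ = s and dom g ⊆ N (M ξ) ⊆ M*. q
and g are compatible: if j ∈ dom q ∩ dom g then j ∈ dom q ∩ M* ⊆ M ξ so both values are s j
(AddC.compat_iff). As 𝒜 is an antichain, q = g, so dom q ⊆ M*.
-/

set_option autoImplicit false

namespace Pool.Agent.Lib.WkD

open Set Cardinal

namespace AddCCAux

variable {κ : Cardinal.{0}} {J : Type}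

/-- the domain of a condition -/
private def dom (p : AddC κ J) : Set J := {j | p.1 j ≠ none}

private theorem dom_lt (p : AddC κ J) : #(dom p) < κ := p.2

open Classical in
/-- the restriction of a condition to a set -/
private noncomputable def res (p : AddC κ J) (X : Set J) : AddC κ J :=
  ⟨fun j => if j ∈ X then p.1 j else none, by
    refine lt_of_le_of_lt ?_ p.2
    apply mk_le_mk_of_subset
    intro j hj
    intro h
    apply hj
    show (if j ∈ X then p.1 j else none) = none
    split_ifs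
    · exact h
    · rfl⟩

private theorem res_of_mem (p : AddC κ J) {X : Set J} {j : J} (h : j ∈ X) :
    (res p X).1 j = p.1 j := by
  unfold res
  simp [h]

private theorem res_of_notMem (p : AddC κ J) {X : Set J} {j : J} (h : j ∉ X) :
    (res p X).1 j = none := by
  unfold res
  simp [h]

private theorem dom_res_subset (p : AddC κ J) (X : Set J) : dom (res p X) ⊆ X := by
  intro j hj
  by_contra h
  exact hj (res_of_notMem p h)

/-- the conditions with domain in `X` -/
private def Cn (κ : Cardinal.{0}) (X : Set J) : Set (AddC κ J) := {p | dom p ⊆ X}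

private theorem card_Cn (hκ : κ.IsInaccessible) (X : Set J) (hX : #X ≤ κ) : #(Cn κ X) ≤ κ := by
  have hK : #(κ.ord.ToType) = κ := by simp
  have h1 : #(X × Bool) ≤ #(κ.ord.ToType) := by
    rw [hK, mk_prod]
    refine mul_le_of_le hκ.aleph0_lt.le (by simpa using hX) ?_
    simp only [lift_uzero, mk_bool]
    exact (natCast_lt_aleph0 (n := 2)).le.trans hκ.aleph0_lt.le
  obtain ⟨i⟩ := h1
  have hcof : κ ≤ (#(κ.ord.ToType)).ord.cof := by
    rw [hK]; exact hκ.le_cof_ord
  let F : Cn κ X → {s : Set (κ.ord.ToType) // #s < (#(κ.ord.ToType)).ord.cof} := fun p =>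
    ⟨(fun z : X × Bool => i z) '' {z | p.1.1 z.1 = some z.2}, by
      refine lt_of_lt_of_le ?_ hcof
      refine lt_of_le_of_lt mk_image_le ?_
      refine lt_of_le_of_lt ?_ p.1.2
      refine ⟨⟨fun z => ⟨z.1.1.1, ?_⟩, ?_⟩⟩
      · have h0 : p.1.1 z.1.1 = some z.1.2 := z.2
        rw [h0]; simp
      · intro z w hzw
        have e1 : z.1.1.1 = w.1.1.1 :=
          congrArg (fun t : {i // p.1.1 i ≠ none} => (t.1 : J)) hzw
        have e2 : z.1.1 = w.1.1 := Subtype.ext e1
        have hz : p.1.1 z.1.1 = some z.1.2 := z.2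
        have hw : p.1.1 w.1.1 = some w.1.2 := w.2
        rw [e1, hw] at hz
        have e3 : z.1.2 = w.1.2 := (Option.some.inj hz).symm
        exact Subtype.ext (Prod.ext e2 e3)⟩
  have hF : Function.Injective F := by
    intro p q hpq
    have hset : (fun z : X × Bool => i z) '' {z | p.1.1 z.1 = some z.2}
        = (fun z : X × Bool => i z) '' {z | q.1.1 z.1 = some z.2} := congrArg Subtype.val hpq
    have hset2 := i.injective.image_injective hset
    have key : ∀ (z : X) (b : Bool), p.1.1 z = some b ↔ q.1.1 z = some b := by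
      intro z b
      have := Set.ext_iff.1 hset2 (z, b)
      simpa using this
    apply Subtype.ext
    apply Subtype.ext
    funext j
    by_cases hj : j ∈ X
    · apply Option.ext
      intro b
      exact key ⟨j, hj⟩ b
    · have hp : p.1.1 j = none := by
        by_contra h
        exact hj (p.2 h)
      have hq : q.1.1 j = none := by
        by_contra h
        exact hj (q.2 h)
      rw [hp, hq]
  calc #(Cn κ X) ≤ #{s : Set (κ.ord.ToType) // #s < (#(κ.ord.ToType)).ord.cof} :=
        mk_le_of_injective hF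
    _ = #(κ.ord.ToType) := mk_subset_mk_lt_cof (by rw [hK]; exact hκ.isStrongPrelimit)
    _ = κ := hK

open Classical in
/-- the chosen element with a given restriction -/
private noncomputable def ch (A : Set (AddC κ J)) (X : Set J) (s : AddC κ J) : Set J :=
  if h : ∃ g, g ∈ A ∧ res g X = s then dom h.choose else ∅

private theorem card_ch (A : Set (AddC κ J)) (X : Set J) (s : AddC κ J) (hκ : ℵ₀ ≤ κ) :
    #(ch A X s) ≤ κ := by
  unfold ch
  split_ifs with h
  · exact (dom_lt _).le
  · simp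

private theorem ch_spec (A : Set (AddC κ J)) (X : Set J) (s : AddC κ J)
    (h : ∃ g, g ∈ A ∧ res g X = s) : ∃ g, g ∈ A ∧ res g X = s ∧ dom g = ch A X s := by
  refine ⟨h.choose, h.choose_spec.1, h.choose_spec.2, ?_⟩
  unfold ch
  rw [dif_pos h]

/-- one step of the closure -/
private noncomputable def N (A : Set (AddC κ J)) (X : Set J) : Set J :=
  X ∪ ⋃ s : Cn κ X, ch A X s.1

private theorem card_N (hκ : κ.IsInaccessible) (A : Set (AddC κ J)) (X : Set J) (hX : #X ≤ κ) :
    #(N A X) ≤ κ := by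
  unfold N
  refine (mk_union_le _ _).trans (add_le_of_le hκ.aleph0_lt.le hX ?_)
  refine (mk_iUnion_le _).trans ?_
  refine mul_le_of_le hκ.aleph0_lt.le (card_Cn hκ X hX) ?_
  exact ciSup_le' fun s => card_ch A X s.1 hκ.aleph0_lt.le

/-- the increasing sequence of closures -/
private noncomputable def M (A : Set (AddC κ J)) : κ.ord.ToType → Set J :=
  WellFounded.fix (wellFounded_lt (α := κ.ord.ToType))
    (fun ξ ih => ⋃ η : Set.Iio ξ, N A (ih η.1 η.2))

private theorem M_eq (A : Set (AddC κ J)) (ξ : κ.ord.ToType) :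
    M A ξ = ⋃ η : Set.Iio ξ, N A (M A η.1) := by
  unfold M
  rw [WellFounded.fix_eq]

private theorem card_M (hκ : κ.IsInaccessible) (A : Set (AddC κ J)) (ξ : κ.ord.ToType) :
    #(M A ξ) ≤ κ := by
  induction ξ using WellFoundedLT.induction with
  | ind ξ ih =>
    rw [M_eq]
    refine (mk_iUnion_le _).trans ?_
    refine mul_le_of_le hκ.aleph0_lt.le (mk_Iio_toType_ord_lt ξ).le ?_
    exact ciSup_le' fun η => card_N hκ A _ (ih η.1 η.2)

private theorem N_subset_M (A : Set (AddC κ J)) {η ξ : κ.ord.ToType} (h : η < ξ) :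
    N A (M A η) ⊆ M A ξ := by
  rw [M_eq A ξ]
  exact subset_iUnion (fun η : Set.Iio ξ => N A (M A η.1)) ⟨η, h⟩

private theorem M_mono (A : Set (AddC κ J)) {η ξ : κ.ord.ToType} (h : η < ξ) :
    M A η ⊆ M A ξ :=
  subset_union_left.trans (N_subset_M A h)

/-- a set of size `< κ` in the union lies in one of the sets -/
private theorem exists_bound (hκ : κ.IsInaccessible) (A : Set (AddC κ J)) (D : Set J)
    (hD : #D < κ) (hsub : D ⊆ ⋃ ξ, M A ξ) : ∃ ξ, D ⊆ M A ξ := by
  have h1 : ∀ j : D, ∃ ξ, j.1 ∈ M A ξ := fun j => by simpa using hsub j.2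
  choose f hf using h1
  have h2 : #(⋃ j : D, Set.Iic (f j)) < κ := by
    rw [card_iUnion_lt_iff_forall_of_isRegular hκ.isRegular hD]
    intro j
    have : Set.Iic (f j) = Set.Iio (f j) ∪ {f j} := by
      ext x; simp [le_iff_lt_or_eq, or_comm]
    rw [this]
    refine lt_of_le_of_lt (mk_union_le _ _) ?_
    refine add_lt_of_lt hκ.aleph0_lt.le (mk_Iio_toType_ord_lt _) ?_
    rw [mk_singleton]
    exact one_lt_aleph0.trans hκ.aleph0_lt
  have h3 : (⋃ j : D, Set.Iic (f j)) ≠ Set.univ := by
    intro h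
    rw [h, mk_univ] at h2
    simp at h2
  obtain ⟨ξ, hξ⟩ := (Set.ne_univ_iff_exists_notMem _).1 h3
  refine ⟨ξ, fun j hj => ?_⟩
  have h4 : f ⟨j, hj⟩ < ξ := by
    by_contra h
    exact hξ (mem_iUnion.2 ⟨⟨j, hj⟩, not_lt.1 h⟩)
  exact M_mono A h4 (hf ⟨j, hj⟩)

end AddCCAux

theorem ccle_AddC {κ : Cardinal.{0}} (hκ : κ.IsInaccessible) (J : Type) : CCle κ (AddC κ J) := by
  intro A hA
  set Ms : Set J := ⋃ ξ, AddCCAux.M A ξ with hMs
  have hcard : #Ms ≤ κ := by
    rw [hMs]
    refine (mk_iUnion_le _).trans ?_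
    refine mul_le_of_le hκ.aleph0_lt.le (by simp) ?_
    exact ciSup_le' fun ξ => AddCCAux.card_M hκ A ξ
  have hsub : A ⊆ AddCCAux.Cn κ Ms := by
    intro q hq
    have h1 : #(↑(AddCCAux.dom q ∩ Ms)) < κ :=
      lt_of_le_of_lt (mk_le_mk_of_subset inter_subset_left) (AddCCAux.dom_lt q)
    obtain ⟨ξ, hξ⟩ := AddCCAux.exists_bound hκ A _ h1 inter_subset_right
    obtain ⟨g, hgA, hgres, hgdom⟩ := AddCCAux.ch_spec A (AddCCAux.M A ξ)
      (AddCCAux.res q (AddCCAux.M A ξ)) ⟨q, hq, rfl⟩
    have hN : AddCCAux.dom g ⊆ AddCCAux.N A (AddCCAux.M A ξ) := by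
      rw [hgdom]
      refine subset_trans ?_ subset_union_right
      exact subset_iUnion
        (fun s : AddCCAux.Cn κ (AddCCAux.M A ξ) => AddCCAux.ch A (AddCCAux.M A ξ) s.1)
        ⟨_, AddCCAux.dom_res_subset q _⟩
    have hgM : AddCCAux.dom g ⊆ Ms := by
      have hsucc : ∃ ζ, ξ < ζ := by
        by_contra hno
        push Not at hno
        have : (Set.univ : Set κ.ord.ToType) ⊆ Set.Iio ξ ∪ {ξ} := by
          intro x _
          rcases lt_or_eq_of_le (hno x) with h | h
          · exact Or.inl h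
          · exact Or.inr h
        have h2 := mk_le_mk_of_subset this
        have h3 : #(↑(Set.Iio ξ ∪ {ξ})) < κ := by
          refine lt_of_le_of_lt (mk_union_le _ _) ?_
          refine add_lt_of_lt hκ.aleph0_lt.le (mk_Iio_toType_ord_lt _) ?_
          rw [mk_singleton]
          exact one_lt_aleph0.trans hκ.aleph0_lt
        have h4 := lt_of_le_of_lt h2 h3
        rw [mk_univ] at h4
        simp at h4
      obtain ⟨ζ, hζ⟩ := hsucc
      exact hN.trans ((AddCCAux.N_subset_M A hζ).trans (subset_iUnion (AddCCAux.M A) ζ))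
    by_cases hqg : q = g
    · rw [hqg]; exact hgM
    · exfalso
      apply hA q hq g hgA hqg
      rw [AddC.compat_iff hκ.aleph0_lt.le]
      intro j hqj hgj
      have hjM : j ∈ AddCCAux.M A ξ := hξ ⟨hqj, hgM hgj⟩
      rw [← AddCCAux.res_of_mem q hjM, ← hgres, AddCCAux.res_of_mem g hjM]
  exact (mk_le_mk_of_subset hsub).trans (AddCCAux.card_Cn hκ Ms hcard)

end Pool.Agent.Lib.WkD
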