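import Pool.Agent.Lib.WkD.Meas

/-!
# Counting lower parts

PROOF SKETCH. #K is inaccessible (regular, strong limit, uncountable) and #(Iio a) < #K.
* exists_bound: I of size < #K, f : I → K. Otherwise for every ξ : K there is i with ξ ≤ f i, so K is
  the union of the sets Iic (f i), i : I, each of size < #K (smallRk_id); a union of fewer than #K
  sets of size < #K has size < #K by regularity (Cardinal.mk_iUnion_le_sum_mk / sum_lt_of_isRegular,
  or Cardinal.card_iUnion_lt_iff_forall_of_isRegular); contradiction. To get a strict bound apply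
  noMax_K, or take a bound of the set and then an element above it: exists_gt: K has no maximum,
  since otherwise K = Iic ξ has size < #K.
* mk_sets: {a : Set K // a ⊆ Iio α} is equivalent to Set (Iio α), of size 2 ^ #(Iio α) < #K (strong
  limit).
* smallRk_VLP: a valid lower part e with rk e ≤ ξ is a list of pairs (w, a) with w ≤ ξ (le_rk) and
  a ⊆ Iio (crit w) ⊆ Iio ξ (Valid.node, crit_le). So the type embeds into
  List (Iic ξ × {a : Set K // a ⊆ Iio ξ}) (or is contained in the range of the map of such lists to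
  LP K), whose size is at most max ℵ₀ (..) < #K (Cardinal.mk_list_le_max).
-/

set_option autoImplicit false

namespace Pool.Agent.Lib.WkD

open Set Cardinal

variable {K : Type} [LinearOrder K]

theorem exists_gt (hK : (#K).IsInaccessible) (hs : ∀ a : K, #(Iio a) < #K) (ξ : K) :
    ∃ η, ξ < η := by
  by_contra hcon
  push Not at hcon
  have h1 := smallRk_id hK.isRegular.aleph0_le hs ξ
  have h2 : #K ≤ #{i : K // i ≤ ξ} :=
    mk_le_of_injective (f := fun i : K => (⟨i, hcon i⟩ : {i : K // i ≤ ξ}))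
      fun i j h => congrArg Subtype.val h
  exact absurd h1 (not_lt.2 h2)

theorem exists_bound (hK : (#K).IsInaccessible) (hs : ∀ a : K, #(Iio a) < #K) {I : Type}
    (hI : #I < #K) (f : I → K) : ∃ ξ, ∀ i, f i < ξ := by
  by_contra hcon
  push Not at hcon
  have h1 : (⋃ i, Iic (f i)) = (univ : Set K) := by
    rw [eq_univ_iff_forall]
    intro ξ
    obtain ⟨i, hi⟩ := hcon ξ
    exact mem_iUnion.2 ⟨i, hi⟩
  have h2 : #(⋃ i, Iic (f i)) < #K :=
    (card_iUnion_lt_iff_forall_of_isRegular hK.isRegular hI).2 fun i =>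
      smallRk_id hK.isRegular.aleph0_le hs (f i)
  rw [h1, mk_univ] at h2
  exact lt_irrefl _ h2

theorem mk_sets (hK : (#K).IsInaccessible) (hs : ∀ a : K, #(Iio a) < #K) (α : K) :
    #{a : Set K // a ⊆ Iio α} < #K := by
  have h1 : #{a : Set K // a ⊆ Iio α} ≤ #(Set (Iio α)) := by
    refine mk_le_of_injective (f := fun a : {a : Set K // a ⊆ Iio α} =>
      (Subtype.val ⁻¹' a.1 : Set (Iio α))) ?_
    intro a b hab
    apply Subtype.ext
    have hab' : (Subtype.val ⁻¹' a.1 : Set (Iio α)) = Subtype.val ⁻¹' b.1 := hab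
    rw [Subtype.preimage_coe_eq_preimage_coe_iff] at hab'
    rwa [inter_eq_right.2 a.2, inter_eq_right.2 b.2] at hab'
  refine h1.trans_lt ?_
  rw [mk_set]
  exact hK.isStrongPrelimit (hs α)

theorem smallRk_VLP [OrderBot K] (hK : (#K).IsInaccessible) (hs : ∀ a : K, #(Iio a) < #K)
    (S : Sys K) : SmallRk (fun e : VLP S => rk e.1) := by
  intro ξ
  let P : K × Set K → Prop := fun p => p.1 ≤ ξ ∧ p.2 ⊆ Iio ξ
  have hP : ∀ e : {e : VLP S // rk e.1 ≤ ξ}, ∀ p ∈ e.1.1, P p := by
    intro e p hp
    have h1 : p.1 ≤ ξ := (le_rk hp).trans e.2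
    refine ⟨h1, fun z hz => ?_⟩
    exact lt_of_lt_of_le ((Valid.node e.1.2 hp).2 hz) ((S.crit_le _).trans h1)
  have hT : #{p : K × Set K // P p} < #K := by
    have h1 : #{p : K × Set K // P p} ≤ #({w : K // w ≤ ξ} × {a : Set K // a ⊆ Iio ξ}) := by
      refine mk_le_of_injective (f := fun p : {p : K × Set K // P p} =>
        ((⟨p.1.1, p.2.1⟩, ⟨p.1.2, p.2.2⟩) : {w : K // w ≤ ξ} × {a : Set K // a ⊆ Iio ξ})) ?_
      intro p q h
      have h2 := congrArg (fun x => (x.1.1, x.2.1)) h
      exact Subtype.ext h2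
    refine h1.trans_lt ?_
    rw [mk_prod, lift_id, lift_id]
    exact mul_lt_of_lt hK.isRegular.aleph0_le (smallRk_id hK.isRegular.aleph0_le hs ξ)
      (mk_sets hK hs ξ)
  have h1 : #{e : VLP S // rk e.1 ≤ ξ} ≤ #(List {p : K × Set K // P p}) := by
    refine mk_le_of_injective (f := fun e : {e : VLP S // rk e.1 ≤ ξ} =>
      e.1.1.pmap Subtype.mk (hP e)) ?_
    intro e e' h
    have h2 : ∀ e : {e : VLP S // rk e.1 ≤ ξ},
        (e.1.1.pmap Subtype.mk (hP e)).map Subtype.val = e.1.1 := by
      intro e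
      rw [List.map_pmap]
      simp
    have h3 := congrArg (List.map Subtype.val) h
    simp only [h2] at h3
    exact Subtype.ext (Subtype.ext h3)
  refine h1.trans_lt ((mk_list_le_max _).trans_lt (max_lt ?_ hT))
  exact hK.1

end Pool.Agent.Lib.WkD
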