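import Pool.Agent.Lib.WkD.AddCC
import Pool.Agent.Lib.WkD.Cnt

/-!
# Bits and flips of the Cohen algebra

For i : J let fl i : AddC κ J → AddC κ J change the value at i to its negation if it is defined. It is an
involution and an order isomorphism. piA i c := ⨆ p, ⨆ _ : em p ≤ c, em (fl i p).
PROOF. (P) em (fl i p) ≤ piA i c iff em p ≤ c: (←) le_iSup. (→) em_le_of_dense: for q ≤ p, em (fl i q) ≤ piA i c;
exists_em_iSup: r ≤ fl i q and p' with em p' ≤ c, em r ≤ em (fl i p'); compat_of: r' ≤ r, fl i p'; then fl i r' ≤ q,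
p'. So em (fl i r') ≤ c. Equivalently em p ≤ piA i c iff em (fl i p) ≤ c.
compl: em p ≤ piA i cᶜ iff em (fl i p) ≤ cᶜ iff no q ≤ fl i p has em q ≤ c iff no q' ≤ p has em (fl i q') ≤ c iff
em p ≤ (piA i c)ᶜ (em_le_compl_iff); equality of elements of ROP by le_of_em both ways. sSup: piA i is an
order automorphism of ROP (it is monotone and an involution by (P)), so it preserves suprema.
bit: em p ≤ bitA i iff p i = some true: (→) em_le: by density otherwise p i = none (extend by false) or
some false. (bitA i)ᶜ: em p ≤ (bitA i)ᶜ iff p i = some false. em p ≤ piA i (bitA i) iff (fl i p) i = some true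
iff p i = some false.
supp: let c be given; by Zorn (or zorn_subset) let 𝒜 be a maximal antichain of conditions p with em p ≤ c;
#𝒜 ≤ κ (ccle_AddC), and c = ⨆ p ∈ 𝒜, em p. If i is not in the domain of any p ∈ 𝒜 then fl i p = p for p ∈ 𝒜 and
piA i c = c (sSup and piA i (em p) = em (fl i p)). The union of the domains has size ≤ κ, and ζ ↦ j (ζ, α) is
injective: each ζ in the support has some α with j (ζ, α) in the union.
loc: em p ≤ c, c' = em p. {α | j (ζ, α) ∈ dom p} has size < κ = #K, so it is bounded (exists_bound) by some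
α₀; for α ≥ α₀: fl p = p.
The bits used are indexed by an injection j : Z × K → J.
-/

set_option autoImplicit false

namespace Pool.Agent.Lib.WkD

open Set Cardinal

variable {κ : Cardinal.{0}} {J : Type}

open Classical in
/-- negate the value at `i` -/
noncomputable def fl (i : J) (p : AddC κ J) : AddC κ J :=
  ⟨fun j => if j = i then (p.1 j).map (fun b => !b) else p.1 j, by
    have h : {j // (if j = i then (p.1 j).map (fun b => !b) else p.1 j) ≠ none} =
        {j // p.1 j ≠ none} := by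
      congr 1
      funext j
      by_cases hj : j = i
      · rw [if_pos hj]
        simp
      · rw [if_neg hj]
    rw [h]
    exact p.2⟩

noncomputable def piA (i : J) (c : ROP (AddC κ J)) : ROP (AddC κ J) :=
  ⨆ p : AddC κ J, ⨆ _ : em p ≤ c, em (fl i p)

namespace AddFlipAux

theorem em_ext {P : Type} [Preorder P] {b c : ROP P} (h : ∀ p : P, em p ≤ b ↔ em p ≤ c) :
    b = c :=
  le_antisymm (le_of_em fun p hp => ⟨p, le_rfl, (h p).1 hp⟩)
    (le_of_em fun p hp => ⟨p, le_rfl, (h p).2 hp⟩)

theorem fl_same (i : J) (p : AddC κ J) : (fl i p).1 i = (p.1 i).map (fun b => !b) := by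
  unfold fl
  simp

theorem fl_ne (i : J) (p : AddC κ J) {j : J} (h : j ≠ i) : (fl i p).1 j = p.1 j := by
  unfold fl
  simp [h]

theorem fl_fl (i : J) (p : AddC κ J) : fl i (fl i p) = p := by
  apply Subtype.ext
  funext j
  by_cases hj : j = i
  · subst hj
    rw [fl_same, fl_same]
    rcases p.1 j with _ | b
    · rfl
    · cases b <;> rfl
  · rw [fl_ne i _ hj, fl_ne i _ hj]

theorem fl_ne_none (i : J) (p : AddC κ J) (j : J) : (fl i p).1 j ≠ none ↔ p.1 j ≠ none := by
  by_cases hj : j = i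
  · subst hj
    rw [fl_same]
    rcases p.1 j with _ | b <;> simp
  · rw [fl_ne i _ hj]

theorem fl_mono (i : J) {p q : AddC κ J} (h : p ≤ q) : fl i p ≤ fl i q := by
  intro j hj
  rw [fl_ne_none] at hj
  have h1 := h j hj
  by_cases hji : j = i
  · subst hji
    rw [fl_same, fl_same, h1]
  · rw [fl_ne i _ hji, fl_ne i _ hji, h1]

theorem fl_le_iff (i : J) {p q : AddC κ J} : fl i p ≤ q ↔ p ≤ fl i q := by
  constructor
  · intro h
    have := fl_mono i h
    rwa [fl_fl] at this
  · intro h
    have := fl_mono i h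
    rwa [fl_fl] at this

theorem fl_of_none (i : J) {p : AddC κ J} (h : p.1 i = none) : fl i p = p := by
  apply Subtype.ext
  funext j
  by_cases hj : j = i
  · subst hj
    rw [fl_same, h]
    rfl
  · rw [fl_ne i _ hj]

theorem piA_iff (i : J) (c : ROP (AddC κ J)) (p : AddC κ J) :
    em p ≤ piA i c ↔ em (fl i p) ≤ c := by
  constructor
  · intro h
    apply em_le_of_dense
    intro q hq
    have hq' : fl i q ≤ p := (fl_le_iff i).2 hq
    obtain ⟨r, hr, p', hp'⟩ := exists_em_iSup ((em_mono hq').trans h)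
    obtain ⟨r', hr', hc, hle⟩ := exists_em_iSup hp'
    have h3 : em r' ⊓ em (fl i p') ≠ ⊥ := by
      rw [inf_eq_left.2 hle]
      exact em_ne_bot r'
    obtain ⟨t, ht1, ht2⟩ := compat_of h3
    refine ⟨fl i t, (fl_le_iff i).2 (ht1.trans (hr'.trans hr)), ?_⟩
    exact (em_mono ((fl_le_iff i).2 ht2)).trans hc
  · intro h
    have h1 : em (fl i (fl i p)) ≤ piA i c := le_iSup_of_le (fl i p) (le_iSup_of_le h le_rfl)
    rwa [fl_fl] at h1

theorem piA_mono (i : J) {c d : ROP (AddC κ J)} (h : c ≤ d) : piA i c ≤ piA i d :=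
  le_of_em fun p hp => ⟨p, le_rfl, (piA_iff i d p).2 (((piA_iff i c p).1 hp).trans h)⟩

theorem piA_piA (i : J) (c : ROP (AddC κ J)) : piA i (piA i c) = c := by
  apply em_ext
  intro p
  rw [piA_iff, piA_iff, fl_fl]

theorem piA_compl (i : J) (c : ROP (AddC κ J)) : piA i cᶜ = (piA i c)ᶜ := by
  apply em_ext
  intro p
  rw [piA_iff, em_le_compl_iff, em_le_compl_iff]
  constructor
  · intro h q hq hqc
    exact h (fl i q) (fl_mono i hq) ((piA_iff i c q).1 hqc)
  · intro h q hq hqc
    refine h (fl i q) ((fl_le_iff i).2 hq) ?_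
    rw [piA_iff, fl_fl]
    exact hqc

theorem piA_sSup (i : J) (s : Set (ROP (AddC κ J))) : piA i (sSup s) = sSup (piA i '' s) := by
  apply le_antisymm
  · have h1 : sSup s ≤ piA i (sSup (piA i '' s)) := by
      apply sSup_le
      intro x hx
      have h2 : piA i x ≤ sSup (piA i '' s) := le_sSup ⟨x, hx, rfl⟩
      have h3 := piA_mono i h2
      rwa [piA_piA] at h3
    have h4 := piA_mono i h1
    rwa [piA_piA] at h4
  · apply sSup_le
    rintro _ ⟨x, hx, rfl⟩
    exact piA_mono i (le_sSup hx)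

theorem bit_of_le {p : AddC κ J} {i : J} (h : em p ≤ bitA i) (hi : p.1 i ≠ none) :
    p.1 i = some true := by
  obtain ⟨r, hr, p', hp'⟩ := exists_em_iSup h
  obtain ⟨r', hr', hc, hle⟩ := exists_em_iSup hp'
  have h3 : em r' ⊓ em p' ≠ ⊥ := by
    rw [inf_eq_left.2 hle]
    exact em_ne_bot r'
  obtain ⟨t, ht1, ht2⟩ := compat_of h3
  have h4 : t.1 i = p.1 i := (ht1.trans (hr'.trans hr)) i hi
  have h5 : t.1 i = p'.1 i := ht2 i (by rw [hc]; simp)
  rw [← h4, h5, hc]

end AddFlipAux

open AddFlipAux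

theorem em_le_bitA (hκ : ℵ₀ ≤ κ) {p : AddC κ J} {i : J} : em p ≤ bitA i ↔ p.1 i = some true := by
  constructor
  · intro h
    by_cases hi : p.1 i = none
    · exfalso
      obtain ⟨h1, h2⟩ := AddC.set_le hκ p i false hi
      have h3 := bit_of_le ((em_mono h1).trans h) (by rw [h2]; simp)
      rw [h2] at h3
      simp at h3
    · exact bit_of_le h hi
  · intro h
    exact le_iSup_of_le p (le_iSup_of_le h le_rfl)

theorem em_le_bitA_compl (hκ : ℵ₀ ≤ κ) {p : AddC κ J} {i : J} :
    em p ≤ (bitA i)ᶜ ↔ p.1 i = some false := by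
  rw [em_le_compl_iff]
  constructor
  · intro h
    rcases hp : p.1 i with _ | b
    · exfalso
      obtain ⟨h1, h2⟩ := AddC.set_le hκ p i true hp
      exact h _ h1 ((em_le_bitA hκ).2 h2)
    · cases b
      · rfl
      · exact absurd ((em_le_bitA hκ).2 hp) (h p le_rfl)
  · intro h q hq hb
    have h1 : q.1 i = p.1 i := hq i (by rw [h]; simp)
    rw [em_le_bitA hκ, h1, h] at hb
    simp at hb

namespace AddFlipAux

theorem piA_bit (hκ : ℵ₀ ≤ κ) (i : J) : piA i (bitA i : ROP (AddC κ J)) = (bitA i)ᶜ := by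
  apply em_ext
  intro p
  rw [piA_iff, em_le_bitA hκ, em_le_bitA_compl hκ, fl_same]
  rcases p.1 i with _ | b
  · simp
  · cases b <;> simp

/-- the support of an element -/
theorem exists_supp (hκ : κ.IsInaccessible) (c : ROP (AddC κ J)) :
    ∃ D : Set J, #D ≤ κ ∧ ∀ i, i ∉ D → piA i c = c := by
  set S : Set (Set (AddC κ J)) := {A | (∀ p ∈ A, em p ≤ c) ∧
    ∀ p ∈ A, ∀ q ∈ A, p ≠ q → ¬ ∃ r, r ≤ p ∧ r ≤ q} with hS
  obtain ⟨A, hA⟩ := zorn_subset S (by
    intro ch hch hchain
    refine ⟨⋃₀ ch, ⟨?_, ?_⟩, fun s hs => subset_sUnion_of_mem hs⟩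
    · rintro p ⟨s, hs, hp⟩
      exact (hch hs).1 p hp
    · rintro p ⟨s, hs, hp⟩ q ⟨t, ht, hq⟩ hpq
      rcases hchain.total hs ht with h | h
      · exact (hch ht).2 p (h hp) q hq hpq
      · exact (hch hs).2 p hp q (h hq) hpq)
  have hAS : A ∈ S := hA.prop
  have hcard : #A ≤ κ := ccle_AddC hκ J A hAS.2
  refine ⟨⋃ p : A, {j | p.1.1 j ≠ none}, ?_, ?_⟩
  · refine (mk_iUnion_le _).trans ?_
    refine mul_le_of_le hκ.aleph0_lt.le hcard ?_
    exact ciSup_le' fun p => p.1.2.le
  · intro i hi
    have hfix : ∀ a ∈ A, fl i a = a := by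
      intro a ha
      apply fl_of_none
      by_contra hcon
      exact hi (mem_iUnion.2 ⟨⟨a, ha⟩, hcon⟩)
    have key : ∀ p : AddC κ J, em p ≤ c → em (fl i p) ≤ c := by
      intro p hp
      apply em_le_of_dense
      intro q hq
      have hq' : fl i q ≤ p := (fl_le_iff i).2 hq
      have hqc : em (fl i q) ≤ c := (em_mono hq').trans hp
      obtain ⟨a, ha, r, hr1, hr2⟩ : ∃ a ∈ A, ∃ r, r ≤ a ∧ r ≤ fl i q := by
        by_contra hcon
        push Not at hcon
        have hmem : fl i q ∈ A := by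
          have hins : insert (fl i q) A ∈ S := by
            constructor
            · rintro p' (rfl | hp')
              · exact hqc
              · exact hAS.1 p' hp'
            · rintro p' (rfl | hp') q' (rfl | hq') hne
              · exact absurd rfl hne
              · rintro ⟨r, hr1, hr2⟩
                exact hcon q' hq' r hr2 hr1
              · rintro ⟨r, hr1, hr2⟩
                exact hcon p' hp' r hr1 hr2
              · exact hAS.2 p' hp' q' hq' hne
          exact hA.le_of_ge hins (subset_insert _ _) (mem_insert _ _)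
        exact hcon _ hmem _ le_rfl le_rfl
      refine ⟨fl i r, (fl_le_iff i).2 hr2, ?_⟩
      have h1 : fl i r ≤ a := by
        rw [fl_le_iff, hfix a ha]
        exact hr1
      exact (em_mono h1).trans (hAS.1 a ha)
    apply em_ext
    intro p
    rw [piA_iff]
    constructor
    · intro h
      have := key _ h
      rwa [fl_fl] at this
    · exact key p

end AddFlipAux

theorem flip_AddC {K Z : Type} [LinearOrder K] (hK : (#K).IsInaccessible)
    (hs : ∀ a : K, #(Iio a) < #K) {J : Type} (j : Z × K → J) (hj : Function.Injective j) :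
    Flip (C := ROP (AddC (#K) J)) (fun ζ α => bitA (j (ζ, α))) (fun ζ α => piA (j (ζ, α))) where
  compl ζ α c := piA_compl _ c
  sSup ζ α s := piA_sSup _ s
  bit ζ α := piA_bit hK.aleph0_lt.le _
  supp c := by
    obtain ⟨D, hD, hfix⟩ := exists_supp hK c
    refine le_trans ?_ hD
    have hch : ∀ ζ : {ζ : Z // ∃ α, piA (j (ζ, α)) c ≠ c}, ∃ α, piA (j (ζ.1, α)) c ≠ c :=
      fun ζ => ζ.2
    choose a ha using hch
    refine mk_le_of_injective (f := fun ζ => (⟨j (ζ.1, a ζ), by
      by_contra hcon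
      exact ha ζ (hfix _ hcon)⟩ : D)) ?_
    intro ζ ζ' h
    have h1 : j (ζ.1, a ζ) = j (ζ'.1, a ζ') := congrArg Subtype.val h
    exact Subtype.ext (congrArg Prod.fst (hj h1))
  loc ζ c hc := by
    obtain ⟨p, hp⟩ := exists_em hc
    refine ⟨em p, hp, em_ne_bot p, ?_⟩
    have hI : #{α : K // p.1 (j (ζ, α)) ≠ none} < #K := by
      refine lt_of_le_of_lt ?_ p.2
      refine mk_le_of_injective (f := fun α => ⟨j (ζ, α.1), α.2⟩) ?_
      intro α α' h
      have h1 : j (ζ, α.1) = j (ζ, α'.1) :=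
        congrArg (fun t : {i // p.1 i ≠ none} => (t.1 : J)) h
      exact Subtype.ext (congrArg Prod.snd (hj h1))
    obtain ⟨m, hm⟩ := exists_bound hK hs hI (fun α => α.1)
    refine ⟨m, fun α hα => ?_⟩
    have hnone : p.1 (j (ζ, α)) = none := by
      by_contra hcon
      exact absurd (hm ⟨α, hcon⟩) (not_lt.2 hα)
    apply em_ext
    intro q
    rw [piA_iff, AddC.em_le_em_iff hK.aleph0_lt.le, AddC.em_le_em_iff hK.aleph0_lt.le, fl_le_iff,
      fl_of_none _ hnone]

end Pool.Agent.Lib.WkD
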