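import Pool.Agent.Lib.WkD.PDefs

/-!
# The Cohen order

PROOF. compat_iff: (←) r i := if p i ≠ none then p i else q i; the domain is the union of the domains, of
size < κ (add_lt_of_lt). (→) clear.
em_le_em_iff: (←) em_mono. (→) if not p ≤ q there is i with q i ≠ none, p i ≠ q i. Let r ≤ p with r i ≠ none
and r i ≠ q i: if p i ≠ none take r = p, otherwise r = p with the value at i changed to the negation of
q i. em r ≤ em p ≤ em q, so by compat_of (em r ⊓ em q = em r ≠ ⊥) r and q have a common extension,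
contradiction at i.
chainClosed_AddC: f : T → AddC κ J a chain, #T < κ. r i := (f a) i for some a with (f a) i ≠ none, none
otherwise. The domain is ⋃ a, dom (f a), of size < κ by regularity. r ≤ f a: for i in dom (f a) and the chosen
a' the values agree (chain).
directed version `directed_AddC`: s : Set (AddC κ J), #s < κ, directed: for p, q ∈ s there is r ∈ s, r ≤ p,
r ≤ q; then there is a lower bound of s: same union (values agree by directedness). chainClosed_AddC also
follows from this (range of f, with #(range f) ≤ #T; if T is empty take the empty function).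
hasDCD: D = range em. ⊥ ∉ D: em_ne_bot. Dense: exists_em. Let s ⊆ D be nonempty, directed, #s < κ: let
s' = {p | em p ∈ s}; em is injective by em_le_em_iff and antisymmetry so #s' ≤ #s, s' is directed
(em_le_em_iff), let q be a lower bound; em q is a lower bound of s.
-/

set_option autoImplicit false

namespace Pool.Agent.Lib.WkD

open Set Cardinal

/-- `C` has a dense subset which is closed under lower bounds of directed subsets of size `< κ`. -/
def HasDCD (κ : Cardinal.{0}) (C : Type) [CompleteBooleanAlgebra C] : Prop :=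
  ∃ D : Set C, ⊥ ∉ D ∧ (∀ b : C, b ≠ ⊥ → ∃ d ∈ D, d ≤ b) ∧
    ∀ s ⊆ D, s.Nonempty → #s < κ → (∀ x ∈ s, ∀ y ∈ s, ∃ z ∈ s, z ≤ x ∧ z ≤ y) →
      ∃ d ∈ D, ∀ x ∈ s, d ≤ x

variable {κ : Cardinal.{0}} {J : Type}

theorem AddC.compat_iff (hκ : ℵ₀ ≤ κ) {p q : AddC κ J} :
    (∃ r, r ≤ p ∧ r ≤ q) ↔ ∀ i, p.1 i ≠ none → q.1 i ≠ none → p.1 i = q.1 i := by
  classical
  constructor
  · rintro ⟨r, h1, h2⟩ i hp hq
    rw [← h1 i hp, ← h2 i hq]
  · intro h
    have hdom : {i | (if p.1 i ≠ none then p.1 i else q.1 i) ≠ none} ⊆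
        {i | p.1 i ≠ none} ∪ {i | q.1 i ≠ none} := by
      intro i hi
      by_cases hp : p.1 i = none
      · right
        simpa [hp] using hi
      · exact Or.inl hp
    refine ⟨⟨fun i => if p.1 i ≠ none then p.1 i else q.1 i, ?_⟩, ?_, ?_⟩
    · exact (mk_le_mk_of_subset hdom).trans_lt ((mk_union_le _ _).trans_lt
        (add_lt_of_lt hκ p.2 q.2))
    · intro i hi
      exact if_pos hi
    · intro i hi
      by_cases hp : p.1 i = none
      · exact if_neg (by simpa using hp)
      · exact (if_pos hp).trans (h i hp hi)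

open Classical in
/-- change the value at one point -/
noncomputable def AddC.set (hκ : ℵ₀ ≤ κ) (p : AddC κ J) (i : J) (b : Bool) : AddC κ J :=
  ⟨Function.update p.1 i (some b), by
    refine lt_of_le_of_lt (b := #{j // p.1 j ≠ none} + 1) ?_
      (add_lt_of_lt hκ p.2 (one_lt_aleph0.trans_le hκ))
    have h1 : {j | Function.update p.1 i (some b) j ≠ none} ⊆ {j | p.1 j ≠ none} ∪ {i} := by
      intro j hj
      by_cases hji : j = i
      · exact Or.inr hji
      · left
        simpa [Function.update_of_ne hji] using hj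
    exact (mk_le_mk_of_subset h1).trans ((mk_union_le _ _).trans (by rw [mk_singleton]; rfl))⟩

theorem AddC.set_le (hκ : ℵ₀ ≤ κ) (p : AddC κ J) (i : J) (b : Bool) (h : p.1 i = none) :
    AddC.set hκ p i b ≤ p ∧ (AddC.set hκ p i b).1 i = some b := by
  classical
  constructor
  · intro j hj
    have hji : j ≠ i := by
      rintro rfl
      exact hj h
    simp [AddC.set, Function.update_of_ne hji]
  · simp [AddC.set]

theorem AddC.em_le_em_iff (hκ : ℵ₀ ≤ κ) {p q : AddC κ J} : em p ≤ em q ↔ p ≤ q := by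
  refine ⟨fun h => ?_, em_mono⟩
  intro i hi
  have key : ∀ r : AddC κ J, r ≤ p → ∃ s, s ≤ r ∧ s ≤ q := by
    intro r hr
    apply compat_of
    rw [inf_eq_left.2 ((em_mono hr).trans h)]
    exact em_ne_bot r
  by_cases hp : p.1 i = none
  · obtain ⟨b, hb⟩ := Option.ne_none_iff_exists'.1 hi
    obtain ⟨h1, h2⟩ := AddC.set_le hκ p i (!b) hp
    obtain ⟨s, hs1, hs2⟩ := key _ h1
    have e1 : s.1 i = some (!b) := by
      rw [← h2]
      exact hs1 i (by rw [h2]; simp)
    have e2 : s.1 i = some b := by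
      rw [← hb]
      exact hs2 i hi
    rw [e1] at e2
    simp at e2
  · obtain ⟨s, hs1, hs2⟩ := key p le_rfl
    rw [← hs1 i hp, ← hs2 i hi]

theorem directed_AddC (hκ : κ.IsRegular) (s : Set (AddC κ J)) (hs : #s < κ)
    (hd : ∀ p ∈ s, ∀ q ∈ s, ∃ r ∈ s, r ≤ p ∧ r ≤ q) : ∃ q, ∀ p ∈ s, q ≤ p := by
  classical
  have hagree : ∀ p ∈ s, ∀ q ∈ s, ∀ i, p.1 i ≠ none → q.1 i ≠ none → p.1 i = q.1 i := by
    intro p hp q hq i h1 h2
    obtain ⟨r, -, hr1, hr2⟩ := hd p hp q hq
    rw [← hr1 i h1, ← hr2 i h2]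
  have hdom : {i | (if h : ∃ p ∈ s, p.1 i ≠ none then h.choose.1 i else none) ≠ none} ⊆
      ⋃ p : s, {i | p.1.1 i ≠ none} := by
    intro i hi
    by_cases h : ∃ p ∈ s, p.1 i ≠ none
    · obtain ⟨p, hp, hpi⟩ := h
      exact mem_iUnion.2 ⟨⟨p, hp⟩, hpi⟩
    · exact absurd (dif_neg h) hi
  refine ⟨⟨fun i => if h : ∃ p ∈ s, p.1 i ≠ none then h.choose.1 i else none, ?_⟩, ?_⟩
  · refine (mk_le_mk_of_subset hdom).trans_lt ?_
    exact (card_iUnion_lt_iff_forall_of_isRegular hκ hs).2 (fun p => p.1.2)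
  · intro p hp i hi
    have h : ∃ p ∈ s, p.1 i ≠ none := ⟨p, hp, hi⟩
    exact (dif_pos h).trans (hagree _ h.choose_spec.1 p hp i h.choose_spec.2 hi)

theorem chainClosed_AddC (hκ : κ.IsRegular) : ChainClosed κ (AddC κ J) := by
  intro T f hT hf
  obtain ⟨q, hq⟩ := directed_AddC hκ (range f) (mk_range_le.trans_lt hT) (by
    rintro _ ⟨a, rfl⟩ _ ⟨b, rfl⟩
    rcases hf a b with h | h
    · exact ⟨f a, mem_range_self a, le_rfl, h⟩
    · exact ⟨f b, mem_range_self b, h, le_rfl⟩)
  exact ⟨q, fun a => hq _ (mem_range_self a)⟩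

theorem hasDCD_AddC (hκ : κ.IsRegular) : HasDCD κ (ROP (AddC κ J)) := by
  have hℵ := hκ.aleph0_le
  have hinj : Function.Injective (em : AddC κ J → ROP (AddC κ J)) := by
    intro p q h
    exact le_antisymm ((AddC.em_le_em_iff hℵ).1 h.le) ((AddC.em_le_em_iff hℵ).1 h.ge)
  refine ⟨range em, ?_, ?_, ?_⟩
  · rintro ⟨p, hp⟩
    exact em_ne_bot p hp
  · intro b hb
    obtain ⟨p, hp⟩ := exists_em hb
    exact ⟨em p, mem_range_self p, hp⟩
  · intro s hs _ hcard hdir
    obtain ⟨q, hq⟩ := directed_AddC hκ (em ⁻¹' s) ((mk_preimage_of_injective _ _ hinj).trans_lt hcard)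
      (by
        intro p hp q hq
        obtain ⟨z, hz, hz1, hz2⟩ := hdir _ hp _ hq
        obtain ⟨r, rfl⟩ := hs hz
        exact ⟨r, hz, (AddC.em_le_em_iff hℵ).1 hz1, (AddC.em_le_em_iff hℵ).1 hz2⟩)
    refine ⟨em q, mem_range_self q, ?_⟩
    intro x hx
    obtain ⟨p, rfl⟩ := hs hx
    exact em_mono (hq p hx)

end Pool.Agent.Lib.WkD
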