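import Pool.Agent.Lib.WkD.FBasic

/-!
# More facts on extensions of lower parts
-/

set_option autoImplicit false

namespace Pool.Agent.Lib.WkD

open Set Cardinal

variable {K : Type} [LinearOrder K] [OrderBot K] {S : Sys K}

/-- replacing a lower segment -/
theorem Ext.append_of_all {x y : LP K} (h : ∀ A : Set K, Ext A x y) (l : LP K) (A : Set K) :
    Ext A (l ++ x) (l ++ y) := by
  induction l generalizing A with
  | nil => exact h A
  | cons p l ih => exact Ext.old subset_rfl (ih p.2)

/-- adding nodes on top -/
theorem Ext.append_new {A : Set K} {l x y : LP K} (h : Ext A x y)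
    (hl : ∀ p ∈ l, p.1 ∈ A ∧ p.2 ⊆ A) : Ext A (l ++ x) y := by
  induction l with
  | nil => exact h
  | cons p l ih =>
    obtain ⟨h1, h2⟩ := hl p List.mem_cons_self
    exact Ext.new h1 h2 (ih fun q hq => hl q (List.mem_cons_of_mem _ hq))

theorem Ext.univ_append (l x : LP K) : Ext univ (l ++ x) x :=
  (Ext.refl univ x).append_new fun _ _ => ⟨mem_univ _, subset_univ _⟩

/-- in a valid list the node `w` has only one position -/
theorem Valid.unique {l l' : LP K} {w : K} {a a' : Set K} {x x' : LP K}
    (h : Valid S (l ++ (w, a) :: x)) (he : l ++ (w, a) :: x = l' ++ (w, a') :: x') :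
    l = l' ∧ a = a' ∧ x = x' := by
  induction l generalizing l' with
  | nil =>
    cases l' with
    | nil =>
      simp only [List.nil_append, List.cons.injEq, Prod.mk.injEq, true_and] at he
      exact ⟨rfl, he.1, he.2⟩
    | cons p l' =>
      exfalso
      simp only [List.nil_append, List.cons_append, List.cons.injEq] at he
      obtain ⟨h1, h2⟩ := he
      have h3 : Valid S ((w, a) :: x) := h
      have h4 : w ≤ rk x := by
        rw [h2]
        exact le_rk (p := (w, a')) (by simp)
      exact absurd (h4.trans_lt h3.crit_lt) (not_lt.2 (S.crit_le w))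
  | cons p l ih =>
    cases l' with
    | nil =>
      exfalso
      simp only [List.nil_append, List.cons_append, List.cons.injEq] at he
      obtain ⟨h1, h2⟩ := he
      have h3 : Valid S ((w, a') :: (l ++ (w, a) :: x)) := by
        rw [← h1]
        exact h
      have h4 : w ≤ rk (l ++ (w, a) :: x) := le_rk (p := (w, a)) (by simp)
      exact absurd (h4.trans_lt h3.crit_lt) (not_lt.2 (S.crit_le w))
    | cons p' l' =>
      simp only [List.cons_append, List.cons.injEq] at he
      obtain ⟨h1, h2⟩ := he
      obtain ⟨h3, h4, h5⟩ := ih (l' := l') (Valid.tail (p := p) h) h2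
      exact ⟨by rw [h1, h3], h4, h5⟩

theorem Ext.eq_nil {e' : LP K} (h : Ext ∅ e' []) : e' = [] := by
  cases h with
  | nil => rfl
  | new h => exact absurd h (Set.notMem_empty _)

/-- If `e'` is obtained from `e` without new top nodes, then an extension `r` of `e` which also
extends `e'` (with any set) extends `e'` with the same set. -/
theorem Ext.transfer {A A₁ : Set K} {r e' e : LP K} (hv : Valid S r) (h0 : Ext ∅ e' e)
    (h1 : Ext A₁ r e') (h2 : Ext A r e) : Ext A r e' := by
  cases h0 with
  | nil => exact h2
  | new h => exact absurd h (Set.notMem_empty _)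
  | @old _ w a a' x' x ha hx =>
    obtain ⟨l, b, y, h3, h4, h5, h6⟩ := Ext.cons_iff.1 h1
    obtain ⟨l', b', y', h3', h4', h5', h6'⟩ := Ext.cons_iff.1 h2
    subst h3
    obtain ⟨h7, h8, h9⟩ := Valid.unique hv h3'
    subst h7
    exact Ext.cons_iff.2 ⟨l, b, y, rfl, h4', h5, h6⟩

end Pool.Agent.Lib.WkD
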