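import Pool.Agent.Lib.WkD.Homog
import Pool.Agent.Lib.WkD.FExt

/-!
# Adjoining a node

PROOF of `adjoin`. Refine b (exists_inf_ne_bot): there are b₁ ≤ b, b₁ ≠ ⊥, Z ∈ F w with b₁ ≤ p.A z for
z ∈ Z, and a with Valid ((w,a)::p.e), b₁ ≤ dd ((w,a)::p.e) s. e₃ := (w, Z ∩ a)::p.e is valid
(Valid.shrink), b₁ ≤ dd e₃ s (dd_shrink, old, Ext.refl). `real` for p, e₃: Ext {z | b₁ ≤ p.A z} e₃ p.e by
Ext.new and refl.
PROOF of `exists_above`: with s = ⊤: exists_node (γ any element, X = Y = p.A, W = ⊤), and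
PP p.e ⊤ w = ⊤ when rk p.e < crit w (Valid.cons_of univ; dd e ⊤ = ⊤ for valid e: for b' ≠ ⊥ the condition
(b', e, ⊤)).
-/

set_option autoImplicit false

namespace Pool.Agent.Lib.WkD

open Set Cardinal

variable {K Θ C : Type} [LinearOrder K] [OrderBot K] [LinearOrder Θ] [CompleteBooleanAlgebra C]
  {R : RSys K Θ C}

theorem dd_top (H : Setup K Θ C) {e : LP K} (he : Valid R.S e) : dd R e ⊤ = ⊤ := by
  refine eq_top_of_dense fun b hb => ⟨b, le_rfl, hb, ?_⟩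
  have hle : b ≤ R.Phi (fun _ => ⊤) := by
    rw [R.Phi_const H.nonempty]
    exact le_top
  let q : Cond R := ⟨b, e, fun _ => ⊤, hb, he, hle⟩
  exact le_dd q le_top

theorem PP_top (H : Setup K Θ C) {e : LP K} (he : Valid R.S e) {w : K} (hw : rk e < R.S.crit w) :
    PP R e ⊤ w = ⊤ := by
  have hv := Valid.cons_of (S := R.S) (w := w) (a := univ) Filter.univ_mem he hw
  apply top_le_iff.1
  rw [← dd_top H hv]
  exact le_iSup_of_le _ (le_iSup_of_le hv le_rfl)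

theorem adjoin (H : Setup K Θ C) {p : Cond R} {w : K} {s : BR R} {b : C} (hb : b ≠ ⊥)
    (h1 : b ≤ p.b) (h2 : b ≤ p.A w) (h3 : b ≤ inF R.S p.A w) (h4 : b ≤ PP R p.e s w) :
    ∃ q ≤ p, q.b ≤ b ∧ em q ≤ s ∧ (∀ z, q.A z ≤ p.A z) ∧
      ∃ a : Set K, q.e = (w, a) :: p.e ∧ ∀ z ∈ a, q.b ≤ p.A z := by
  have hK : ℵ₀ ≤ #K := H.inacc.aleph0_lt.le
  obtain ⟨Z, hZ⟩ := exists_inf_ne_bot hb h3
  obtain ⟨hZF, hZ2⟩ := exists_inf_ne_bot hZ inf_le_right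
  obtain ⟨a, ha⟩ := exists_inf_ne_bot hZ2 (((inf_le_left.trans inf_le_left).trans h4))
  obtain ⟨hav, ha2⟩ := exists_inf_ne_bot ha inf_le_right
  set b₁ : C := b ⊓ (⨆ _ : Z ∈ R.S.F w, ⨅ z, ⨅ _ : z ∈ Z, p.A z) ⊓ (⨅ z, ⨅ _ : z ∈ Z, p.A z) ⊓
    (⨆ _ : Valid R.S ((w, a) :: p.e), dd R ((w, a) :: p.e) s) ⊓ dd R ((w, a) :: p.e) s with hb₁
  have e1 : b₁ ≤ b := inf_le_left.trans (inf_le_left.trans (inf_le_left.trans inf_le_left))
  have e2 : b₁ ≤ ⨅ z, ⨅ _ : z ∈ Z, p.A z := inf_le_left.trans (inf_le_left.trans inf_le_right)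
  have e3 : b₁ ≤ dd R ((w, a) :: p.e) s := inf_le_right
  have hv : Valid R.S ((w, Z ∩ a) :: p.e) :=
    hav.shrink (Filter.inter_mem hZF hav.mem) Set.inter_subset_right
  have e4 : b₁ ≤ dd R ((w, Z ∩ a) :: p.e) s :=
    e3.trans (dd_shrink hK H.nonempty s hv (Ext.old Set.inter_subset_right (Ext.refl _ _)))
  have e5 : ∀ z ∈ Z, b₁ ≤ p.A z := fun z hz => e2.trans (iInf_le_of_le z (iInf_le _ hz))
  obtain ⟨q, hq1, hq2, hq3, hq4, hq5⟩ := real hK H.nonempty (p := p) ha2 e4 (e1.trans h1) hv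
    (Ext.new (e1.trans h2) (fun z hz => e5 z hz.1) (Ext.refl _ _))
  refine ⟨q, hq1, ?_, hq4, hq5, Z ∩ a, hq3, fun z hz => ?_⟩
  · rw [hq2]
    exact e1
  · rw [hq2]
    exact e5 z hz.1

theorem exists_above (H : Setup K Θ C) (p : Cond R) (ξ : K) :
    ∃ q ≤ p, ∃ w a, q.e = (w, a) :: p.e ∧ ξ < R.S.crit w := by
  have hK : ℵ₀ ≤ #K := H.inacc.aleph0_lt.le
  obtain ⟨γ⟩ := H.nonempty
  have hW : p.b ≤ R.μ γ (fun _ => ⊤) := by
    rw [(R.meas γ).bm.top]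
    exact le_top
  obtain ⟨w, hw1, hw2, hw3⟩ := R.exists_node hK γ p.ne p.e (X := p.A) (Y := p.A)
    (W := fun _ => ⊤) (p.le.trans (R.Phi_le_mu γ _)) (p.le.trans (R.Phi_le_phi γ _)) hW ξ
  obtain ⟨q, hq1, -, -, -, a, hq2, -⟩ := adjoin H (p := p) (w := w) (s := ⊤) hw3
    (inf_le_left.trans (inf_le_left.trans inf_le_left))
    (inf_le_left.trans (inf_le_left.trans inf_le_right)) (inf_le_left.trans inf_le_right) (by
      rw [PP_top H p.val hw1]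
      exact le_top)
  exact ⟨q, hq1, w, a, hq2, hw2⟩

end Pool.Agent.Lib.WkD
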