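import Pool.Agent.Lib.WkD.GDefs

/-!
# Supercompactness measures and the next measure of a sequence

`C` is a complete Boolean algebra, `H = K ⊕ (K → C)`; `Pk κ H` is the set of subsets of `H` of size
`< κ`. A `C`-valued normal fine `κ`-complete measure on `Pk κ H` is a map `m : (Pk κ H → C) → C`.
-/

set_option autoImplicit false

namespace Pool.Agent.Lib.WkD

open Set Cardinal

/-- the set of subsets of `H` of size `< κ` -/
abbrev Pk (κ : Cardinal.{0}) (H : Type) := {x : Set H // #x < κ}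

/-- `m` is a `C`-valued normal fine `κ`-complete ultrafilter on `Pk κ H`. -/
structure NMeas (κ : Cardinal.{0}) (H C : Type) [CompleteBooleanAlgebra C]
    (m : (Pk κ H → C) → C) : Prop where
  bm : BMeas κ m
  fine : ∀ a : H, m (fun x => tv C (a ∈ x.1)) = ⊤
  normal : ∀ A : H → Pk κ H → C, m (fun x => ⨅ a, ⨅ _ : a ∈ x.1, A a x) = ⨅ a, m (A a)

/-- `κ`-distributivity for decisions -/
def Distr (κ : Cardinal.{0}) (C : Type) [CompleteBooleanAlgebra C] : Prop :=
  ∀ (J : Type) (c : J → C), #J < κ → ⨆ n : Set J, ⨅ j, lit (j ∈ n) (c j) = ⊤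

section

variable {K C : Type} [LinearOrder K] [WellFoundedLT K] [CompleteBooleanAlgebra C]

/-- the set `H` used in the construction -/
abbrev HH (K C : Type) := K ⊕ (K → C)

theorem exists_notMem (x : Pk (#K) (HH K C)) : ∃ a : K, (Sum.inl a : HH K C) ∉ x.1 := by
  by_contra hcon
  push Not at hcon
  have h1 : #K ≤ #x.1 := by
    refine Cardinal.mk_le_of_injective (f := fun a : K => (⟨Sum.inl a, hcon a⟩ : x.1)) ?_
    intro a b hab
    exact Sum.inl_injective (Subtype.ext_iff.1 hab)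
  exact absurd x.2 (not_lt.2 h1)

/-- the least element of `K` which is not in `x` -/
noncomputable def kx (x : Pk (#K) (HH K C)) : K :=
  (wellFounded_lt (α := K)).min {a : K | (Sum.inl a : HH K C) ∉ x.1} (exists_notMem x)

theorem inl_mem_of_lt {x : Pk (#K) (HH K C)} {v : K} (h : v < kx x) :
    (Sum.inl v : HH K C) ∈ x.1 := by
  by_contra hcon
  exact (wellFounded_lt (α := K)).not_lt_min {a : K | (Sum.inl a : HH K C) ∉ x.1} hcon h

theorem lt_kx_iff {x : Pk (#K) (HH K C)} {v : K} :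
    v < kx x ↔ ∀ u ≤ v, (Sum.inl u : HH K C) ∈ x.1 := by
  constructor
  · intro h u hu
    exact inl_mem_of_lt (hu.trans_lt h)
  · intro h
    by_contra hcon
    have h1 : kx x ≤ v := not_lt.1 hcon
    exact (wellFounded_lt (α := K)).min_mem {a : K | (Sum.inl a : HH K C) ∉ x.1}
      (exists_notMem x) (h _ h1)

/-- properties of the intersection of the measures below some level -/
structure PhiOK (S : Sys K) (φ : (K → C) → C) : Prop where
  top : φ (fun _ => ⊤) = ⊤
  inf : ∀ A B : K → C, φ (fun z => A z ⊓ B z) = φ A ⊓ φ B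
  const : ∀ b : C, b ≤ φ (fun _ => b)
  tail : ∀ ξ : K, φ (fun z => tv C (ξ < S.crit z)) = ⊤

/-- Boolean value of: `Z` is in the filter on `Iio (kx x)` generated by the sets in `x` which have
measure one for `φ`. -/
noncomputable def Fv (φ : (K → C) → C) (x : Pk (#K) (HH K C)) (Z : Set K) : C :=
  ⨆ A : K → C, ⨆ _ : (Sum.inr A : HH K C) ∈ x.1, φ A ⊓ ⨅ z, ⨅ _ : z < kx x ∧ z ∉ Z, (A z)ᶜ

/-- every filter which can be coded is coded -/
def FullSys (S : Sys K) : Prop :=
  ∀ (α : K) (ℱ : Filter K), Iio α ∈ ℱ → (∀ ξ, ξ < α → {z | ξ < S.crit z} ∈ ℱ) →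
    ∃ w, S.crit w = α ∧ S.F w = ℱ

open Classical in
/-- a code of `α` and a filter -/
noncomputable def cod (S : Sys K) (α : K) (ℱ : Filter K) : K :=
  if h : ∃ w, S.crit w = α ∧ S.F w = ℱ then h.choose else α

/-- `w` is the chosen code of its critical point and filter -/
def Canon (S : Sys K) (w : K) : Prop := cod S (S.crit w) (S.F w) = w

/-- Boolean value of: `w` is the chosen code of `kx x` and the filter given by `φ` and `x`. -/
noncomputable def uv (S : Sys K) (φ : (K → C) → C) (x : Pk (#K) (HH K C)) (w : K) : C :=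
  tv C (S.crit w = kx x ∧ Canon S w) ⊓
    ⨅ Z : Set K, ⨅ _ : Z ⊆ Iio (kx x), lit (Z ∈ S.F w) (Fv φ x Z)

/-- the next measure -/
noncomputable def Next (S : Sys K) (φ : (K → C) → C) (m : (Pk (#K) (HH K C) → C) → C)
    (A : K → C) : C := m (fun x => ⨆ w, uv S φ x w ⊓ A w)

/-- Names of subsets of `K` (`bit`) and automorphisms of `C` changing one bit. -/
structure Flip {Z : Type} (bit : Z → K → C) (π : Z → K → C → C) : Prop where
  compl : ∀ ζ α c, π ζ α cᶜ = (π ζ α c)ᶜ
  sSup : ∀ ζ α (s : Set C), π ζ α (sSup s) = sSup (π ζ α '' s)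
  bit : ∀ ζ α, π ζ α (bit ζ α) = (bit ζ α)ᶜ
  supp : ∀ c : C, #{ζ // ∃ α, π ζ α c ≠ c} ≤ #K
  loc : ∀ ζ (c : C), c ≠ ⊥ → ∃ c' ≤ c, c' ≠ ⊥ ∧ ∃ α₀, ∀ α, α₀ ≤ α → π ζ α c' = c'

/-- the measure `m` after the change of the bit `(ζ, kx x)` -/
noncomputable def mtw {Z : Type} (π : Z → K → C → C) (m : (Pk (#K) (HH K C) → C) → C) (ζ : Z)
    (A : Pk (#K) (HH K C) → C) : C := m (fun x => π ζ (kx x) (A x))

/-- the measure for an option -/
noncomputable def mop {Z : Type} (π : Z → K → C → C) (m : (Pk (#K) (HH K C) → C) → C) :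
    Option Z → (Pk (#K) (HH K C) → C) → C
  | none => m
  | some ζ => mtw π m ζ

section seq

variable {Θ : Type} [LinearOrder Θ] [WellFoundedLT Θ]

/-- the measure sequence for a sequence of options -/
noncomputable def seqm {Z : Type} (S : Sys K) (π : Z → K → C → C)
    (m : (Pk (#K) (HH K C) → C) → C) (t : Θ → Option Z) : Θ → (K → C) → C :=
  WellFounded.fix (wellFounded_lt (α := Θ)) (fun β ih =>
    Next S (fun A => ⨅ δ : Θ, ⨅ h : δ < β, ih δ h A) (mop π m (t β)))

theorem seqm_eq {Z : Type} (S : Sys K) (π : Z → K → C → C)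
    (m : (Pk (#K) (HH K C) → C) → C) (t : Θ → Option Z) (β : Θ) :
    seqm S π m t β = Next S (fun A => ⨅ δ : Θ, ⨅ _ : δ < β, seqm S π m t δ A)
      (mop π m (t β)) := by
  unfold seqm
  rw [WellFounded.fix_eq]

end seq

end

end Pool.Agent.Lib.WkD
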