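import Pool.Agent.Lib.WkD.RefW
import Pool.Agent.Lib.WkD.FExt

/-!
# Closure points

For names h ξ η of a relation with ∀ ξ ∃ η, h ξ η: for large β, for almost all w (μ_β), the node w on
top of any e below crit w (with a suitable set) forces: for all ξ < crit w there is η < crit w, h ξ η.

PROOF. D ξ e := ⨆ η, dd e (h ξ η). hD: em p ≤ ⊤ = ⨆ η, h ξ η, exists_em_iSup gives q ≤ p, η,
em q ≤ h ξ η, so q.b ≤ dd q.e (h ξ η). hS: dd_shrink. refW with I = K, r = id (smallRk_id) gives b, β₀. Let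
β ≥ β₀, N1 the function in refW. N2 w := ⨅ ξ, ⨅ _ : ξ < crit w, ⨅ e' : VLP, ⨅ _ : rk e' < crit w,
((⨆ η, dd e' (h ξ η)) ⇨ ⨆ η, ⨆ _ : η < crit w, dd e' (h ξ η)): μ_β N2 = ⊤ by diagI twice, const_himp and
diagI_sup for constants (smallRk_id). N3 w := A0 w ⊓ inF A0 w with A0 := homI R r₂ h₂, h₂ (ξ, η) = h ξ η,
r₂ (ξ, η) = max ξ η (smallRk_prod): μ_β N3 = ⊤ by mu_homI, mu_inF, phi_eq_top. It is enough (mono_ae) that
N1 w ⊓ N2 w ⊓ N3 w ≤ ⨅ e : VLP, ⨅ _ : rk e < crit w, PP e (sg h (crit w)) w. Fix e; by le_of_dense let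
b' ≤ left side, b' ≠ ⊥; refine: b'' ≤ A0 z for z ∈ Z, Z ∈ F w. a := Z ∩ {z | z < crit w ∧ rk e < crit z},
(w,a)::e is valid (Valid.cons_of). CLAIM b'' ≤ dd ((w,a)::e) (sg h (crit w)), via le_dd of
p = (b'', (w,a)::e, A0) (Phi A0 = ⊤): em p ≤ sg h (crit w): let ξ < crit w; em_le_of_dense: q ≤ p. By
cons_iff q.e = l ++ (w,a')::e₁, nodes of l in {z | q.b ≤ A0 z} (with their sets), a' ⊆ a, Ext a e₁ e;
(w,a')::e₁ is valid, so a' ∈ F w, a' ⊆ Iio (crit w), rk e₁ < crit w. q.b ≤ N1 w gives e' : VLP with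
rk e' < crit w, Ext a' e' e₁ and b₁ ≤ q.b, b₁ ≠ ⊥, b₁ ≤ ⨆ η, dd e' (h ξ η); N2 gives η < crit w and
b₂ ≤ b₁, b₂ ≠ ⊥, b₂ ≤ dd e' (h ξ η). a'' := a' ∩ {z | rk e' < crit z} ∩ {z | max ξ η < crit z} ∈ F w
(tail_mem). e₃ := (w,a'')::e' is valid, e₄ := l ++ e₃ is valid (Valid.replace_append), Ext A e₄ q.e for
every A (append_of_all, old). b₂ ≤ dd e₄ (h ξ η) by dd_extI from e': Ext {z | b₂ ≤ A0 z ∧ max ξ η <
crit z} e₄ e' by append_new and new: w: b₂ ≤ A0 w; a'' ⊆ Z; nodes (v,c) of l: b₂ ≤ A0 on v and c, and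
w = rk e₃ < crit v, crit z (Valid.of_mem_append for l ++ e₃), so max ξ η < crit w ≤ w < crit. `real` for
q, e₄ gives r ≤ q with em r ≤ h ξ η ≤ ⨆ η < crit w, h ξ η.
-/

set_option autoImplicit false

namespace Pool.Agent.Lib.WkD

open Set Cardinal

variable {K Θ C : Type} [LinearOrder K] [OrderBot K] [LinearOrder Θ] [CompleteBooleanAlgebra C]

/-- Boolean value of: for all `ξ < α` there is `η < α` with `h ξ η`. -/
def sg {B K : Type} [CompleteBooleanAlgebra B] [LinearOrder K] (h : K → K → B) (α : K) : B :=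
  ⨅ ξ, ⨅ _ : ξ < α, ⨆ η, ⨆ _ : η < α, h ξ η

private theorem cpPoint (hK : ℵ₀ ≤ #K) (hΘ : Nonempty Θ) (R : RSys K Θ C) (h : K → K → BR R)
    {w : K} {x : C}
    (hPhi : R.Phi (homI R (fun p : K × K => max p.1 p.2) (fun p => h p.1 p.2)) = ⊤)
    (h1 : x ≤ ⨅ i, ⨅ _ : i < R.S.crit w, ⨅ e : VLP R.S, ⨅ _ : rk e.1 < R.S.crit w,
        ⨅ a : Set K, ⨅ _ : a ∈ R.S.F w ∧ a ⊆ Iio (R.S.crit w),
          ⨆ e' : VLP R.S, ⨆ _ : rk e'.1 < R.S.crit w ∧ Ext a e'.1 e.1, ⨆ η, dd R e'.1 (h i η))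
    (h2 : x ≤ ⨅ ξ, ⨅ _ : ξ < R.S.crit w, ⨅ e' : VLP R.S, ⨅ _ : rk e'.1 < R.S.crit w,
        ((⨆ η, dd R e'.1 (h ξ η)) ⇨ ⨆ η, ⨆ _ : η < R.S.crit w, dd R e'.1 (h ξ η)))
    (h3 : x ≤ homI R (fun p : K × K => max p.1 p.2) (fun p => h p.1 p.2) w)
    (h4 : x ≤ inF R.S (homI R (fun p : K × K => max p.1 p.2) (fun p => h p.1 p.2)) w) :
    x ≤ ⨅ e : VLP R.S, ⨅ _ : rk e.1 < R.S.crit w, PP R e.1 (sg h (R.S.crit w)) w := by
  set A0 : K → C := homI R (fun p : K × K => max p.1 p.2) (fun p => h p.1 p.2) with hA0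
  refine le_iInf fun e => le_iInf fun he => le_of_dense fun b' hb' hb'0 => ?_
  obtain ⟨Z, hZ1⟩ := exists_inf_ne_bot hb'0 (hb'.trans h4)
  obtain ⟨hZ, hZ2⟩ := exists_inf_ne_bot hZ1 inf_le_right
  have hb3 : b' ⊓ (⨅ z, ⨅ _ : z ∈ Z, A0 z) ≠ ⊥ := by
    refine ne_bot_mono ?_ hZ2
    exact le_inf (inf_le_left.trans inf_le_left) inf_le_right
  set b3 : C := b' ⊓ (⨅ z, ⨅ _ : z ∈ Z, A0 z) with hb3d
  have hZA : ∀ z ∈ Z, b3 ≤ A0 z := fun z hz =>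
    inf_le_right.trans ((iInf_le _ z).trans (iInf_le _ hz))
  have hval : Valid R.S ((w, Z ∩ {z | z < R.S.crit w ∧ rk e.1 < R.S.crit z}) :: e.1) :=
    Valid.cons_of hZ e.2 he
  set a : Set K := Z ∩ {z | z < R.S.crit w ∧ rk e.1 < R.S.crit z} with ha
  refine ⟨b3, inf_le_left, hb3, ?_⟩
  have hb3x : b3 ≤ x := inf_le_left.trans hb'
  let p : Cond R := ⟨b3, (w, a) :: e.1, A0, hb3, hval, by rw [hPhi]; exact le_top⟩
  have hp : em p ≤ sg h (R.S.crit w) := by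
    refine le_iInf fun ξ => le_iInf fun hξ => em_le_of_dense fun q hq => ?_
    obtain ⟨hqb, hqe, -⟩ := cond_le_iff.1 hq
    have hqb' : q.b ≤ b3 := hqb
    obtain ⟨l, a', e₁, hqe', hl, ha', hE⟩ := Ext.cons_iff.1 hqe
    have hl' : ∀ p ∈ l, q.b ≤ A0 p.1 ∧ ∀ z ∈ p.2, q.b ≤ A0 z := fun p hp =>
      ⟨(hl p hp).1, fun z hz => (hl p hp).2 hz⟩
    have hv0 : Valid R.S (l ++ (w, a') :: e₁) := hqe' ▸ q.val
    have hv1 : Valid R.S ((w, a') :: e₁) := hv0.of_append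
    have hqx : q.b ≤ x := hqb'.trans hb3x
    have h5 : q.b ≤ ⨆ e' : VLP R.S, ⨆ _ : rk e'.1 < R.S.crit w ∧ Ext a' e'.1 e₁,
        ⨆ η, dd R e'.1 (h ξ η) :=
      (hqx.trans h1).trans (iInf_le_of_le ξ (iInf_le_of_le hξ
        (iInf_le_of_le (⟨e₁, hv1.tail⟩ : VLP R.S) (iInf_le_of_le hv1.crit_lt
          (iInf_le_of_le a' (iInf_le _ ⟨hv1.mem, hv1.sub⟩))))))
    obtain ⟨e', he'1⟩ := exists_inf_ne_bot q.ne h5
    obtain ⟨⟨he'r, he'E⟩, he'2⟩ := exists_inf_ne_bot he'1 inf_le_right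
    have h6 : q.b ⊓ (⨆ η, dd R e'.1 (h ξ η)) ≠ ⊥ := by
      refine ne_bot_mono ?_ he'2
      exact le_inf (inf_le_left.trans inf_le_left) inf_le_right
    have h7 : q.b ⊓ (⨆ η, dd R e'.1 (h ξ η)) ≤
        ⨆ η, ⨆ _ : η < R.S.crit w, dd R e'.1 (h ξ η) := by
      refine le_himp_iff.1 ((hqx.trans h2).trans ?_)
      exact iInf_le_of_le ξ (iInf_le_of_le hξ (iInf_le_of_le e' (iInf_le _ he'r)))
    obtain ⟨η, hη1⟩ := exists_inf_ne_bot h6 h7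
    obtain ⟨hη, hη2⟩ := exists_inf_ne_bot hη1 inf_le_right
    have h8 : q.b ⊓ dd R e'.1 (h ξ η) ≠ ⊥ := by
      refine ne_bot_mono ?_ hη2
      exact le_inf (inf_le_left.trans (inf_le_left.trans inf_le_left)) inf_le_right
    set b₂ : C := q.b ⊓ dd R e'.1 (h ξ η) with hb₂
    have hb2q : b₂ ≤ q.b := inf_le_left
    have hv2 : Valid R.S ((w, a' ∩ {z | rk e'.1 < R.S.crit z}) :: e'.1) :=
      hv1.replace e'.2 he'r
    have hm : max ξ η < R.S.crit w := max_lt hξ hη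
    have hv3 : Valid R.S ((w, a' ∩ {z | rk e'.1 < R.S.crit z} ∩ {z | max ξ η < R.S.crit z})
        :: e'.1) :=
      hv2.shrink (Filter.inter_mem hv2.mem (R.S.tail_mem w _ hm)) Set.inter_subset_left
    set a'' : Set K := a' ∩ {z | rk e'.1 < R.S.crit z} ∩ {z | max ξ η < R.S.crit z} with ha''
    have hv4 : Valid R.S (l ++ (w, a'') :: e'.1) := hv0.replace_append hv3
    have hEq : ∀ A : Set K, Ext A (l ++ (w, a'') :: e'.1) q.e := by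
      intro A
      rw [hqe']
      exact Ext.append_of_all (fun A => Ext.old (fun z hz => hz.1.1) he'E) l A
    have hX : Ext {z | b₂ ≤ A0 z ∧ max ξ η < R.S.crit z} (l ++ (w, a'') :: e'.1) e'.1 := by
      refine Ext.append_new (Ext.new ?_ ?_ (Ext.refl _ _)) ?_
      · exact ⟨(hb2q.trans hqx).trans h3, hm⟩
      · intro z hz
        exact ⟨(hb2q.trans hqb').trans (hZA z (ha' hz.1.1).1), hz.2⟩
      · intro v hv
        have h9 := hv4.of_mem_append hv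
        have h10 : rk ((w, a'') :: e'.1) = w := hv3.rk_cons
        rw [h10] at h9
        have h11 : max ξ η < w := hm.trans_le (R.S.crit_le w)
        exact ⟨⟨hb2q.trans (hl' v hv).1, h11.trans h9.1⟩, fun z hz =>
          ⟨hb2q.trans ((hl' v hv).2 z hz), h11.trans (h9.2 z hz)⟩⟩
    have hdd : b₂ ≤ dd R (l ++ (w, a'') :: e'.1) (h ξ η) :=
      dd_extI hK hΘ (r := fun p : K × K => max p.1 p.2) (s := fun p => h p.1 p.2)
        (i := (ξ, η)) e'.2 hv4 inf_le_right hX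
    obtain ⟨r, hrq, -, -, hr, -⟩ := real hK hΘ h8 hdd hb2q hv4 (hEq _)
    exact ⟨r, hrq, hr.trans (le_iSup_of_le η (le_iSup_of_le hη le_rfl))⟩
  exact le_iSup_of_le a (le_iSup_of_le hval (le_dd p hp))

theorem cp (H : Setup K Θ C) (R : RSys K Θ C) (h : K → K → BR R) (hh : ∀ ξ, ⨆ η, h ξ η = ⊤)
    {b₀ : C} (hb₀ : b₀ ≠ ⊥) :
    ∃ b ≤ b₀, b ≠ ⊥ ∧ ∃ β₀ : Θ, ∀ β, β₀ ≤ β →
      b ≤ R.μ β (fun w => ⨅ e : VLP R.S, ⨅ _ : rk e.1 < R.S.crit w,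
        PP R e.1 (sg h (R.S.crit w)) w) := by
  have hK : ℵ₀ ≤ #K := H.inacc.aleph0_lt.le
  have hΘ := H.nonempty
  have hD : ∀ ξ, ∀ p : Cond R, ∃ q ≤ p, q.b ≤ ⨆ η, dd R q.e (h ξ η) := by
    intro ξ p
    have h1 : em p ≤ ⨆ η, h ξ η := by
      rw [hh ξ]
      exact le_top
    obtain ⟨q, hq, η, hqη⟩ := exists_em_iSup h1
    exact ⟨q, hq, le_iSup_of_le η (le_dd q hqη)⟩
  have hS : ∀ ξ, ∀ e' e : LP K, Valid R.S e' → Ext ∅ e' e →
      (⨆ η, dd R e (h ξ η)) ≤ ⨆ η, dd R e' (h ξ η) := by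
    intro ξ e' e hv hE
    exact iSup_mono fun η => dd_shrink hK hΘ _ hv hE
  obtain ⟨b, hbb, hb, β₀, hβ₀⟩ := refW H R (smallRk_id hK H.small)
    (fun ξ e => ⨆ η, dd R e (h ξ η)) hD hS hb₀
  refine ⟨b, hbb, hb, β₀, fun β hβ => (hβ₀ β hβ).trans ?_⟩
  have hr2 : SmallRk (fun p : K × K => max p.1 p.2) :=
    smallRk_prod hK (smallRk_id hK H.small) (smallRk_id hK H.small)
  have hmu : ∀ γ, R.μ γ (homI R (fun p : K × K => max p.1 p.2) (fun p => h p.1 p.2)) = ⊤ :=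
    fun γ => mu_homI H hr2 _ γ
  have hPhi : R.Phi (homI R (fun p : K × K => max p.1 p.2) (fun p => h p.1 p.2)) = ⊤ :=
    R.Phi_eq_top hmu
  have hin : R.μ β (fun w => inF R.S (homI R (fun p : K × K => max p.1 p.2)
      (fun p => h p.1 p.2)) w) = ⊤ := by
    rw [R.mu_inF]
    exact R.phi_eq_top β hmu
  have hN2 : R.μ β (fun w => ⨅ ξ, ⨅ _ : ξ < R.S.crit w, ⨅ e' : VLP R.S,
      ⨅ _ : rk e'.1 < R.S.crit w,
        ((⨆ η, dd R e'.1 (h ξ η)) ⇨ ⨆ η, ⨆ _ : η < R.S.crit w, dd R e'.1 (h ξ η))) = ⊤ := by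
    have h1 : ∀ (ξ : K) (e' : VLP R.S), R.μ β (fun w =>
        ((⨆ η, dd R e'.1 (h ξ η)) ⇨ ⨆ η, ⨆ _ : η < R.S.crit w, dd R e'.1 (h ξ η))) = ⊤ := by
      intro ξ e'
      have h2 := (R.meas β).diagI_sup (fun v : K => v) (smallRk_id hK H.small)
        (fun η _ => dd R e'.1 (h ξ η))
      simp only [(R.meas β).bm.const] at h2
      rw [(R.meas β).bm.const_himp hK (fun w => ⨆ η, ⨆ _ : η < R.S.crit w, dd R e'.1 (h ξ η)),
        h2, himp_self]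
    have h3 : ∀ ξ : K, R.μ β (fun w => ⨅ e' : VLP R.S, ⨅ _ : rk e'.1 < R.S.crit w,
        ((⨆ η, dd R e'.1 (h ξ η)) ⇨ ⨆ η, ⨆ _ : η < R.S.crit w, dd R e'.1 (h ξ η))) = ⊤ := by
      intro ξ
      rw [(R.meas β).diagI (fun e : VLP R.S => rk e.1) (smallRk_VLP H.inacc H.small R.S)
        (fun e' w =>
          ((⨆ η, dd R e'.1 (h ξ η)) ⇨ ⨆ η, ⨆ _ : η < R.S.crit w, dd R e'.1 (h ξ η)))]
      simp only [h1, iInf_top]
    have h4 := (R.meas β).diagI (fun v : K => v) (smallRk_id hK H.small)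
      (fun ξ w => ⨅ e' : VLP R.S, ⨅ _ : rk e'.1 < R.S.crit w,
        ((⨆ η, dd R e'.1 (h ξ η)) ⇨ ⨆ η, ⨆ _ : η < R.S.crit w, dd R e'.1 (h ξ η)))
    simp only [h3, iInf_top] at h4
    exact h4
  have hN : R.μ β (fun w => (⨅ ξ, ⨅ _ : ξ < R.S.crit w, ⨅ e' : VLP R.S,
      ⨅ _ : rk e'.1 < R.S.crit w,
        ((⨆ η, dd R e'.1 (h ξ η)) ⇨ ⨆ η, ⨆ _ : η < R.S.crit w, dd R e'.1 (h ξ η))) ⊓
      (homI R (fun p : K × K => max p.1 p.2) (fun p => h p.1 p.2) w ⊓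
        inF R.S (homI R (fun p : K × K => max p.1 p.2) (fun p => h p.1 p.2)) w)) = ⊤ := by
    rw [(R.meas β).bm.inf hK, (R.meas β).bm.inf hK, hN2, hin, top_inf_eq, inf_top_eq]
    exact hmu β
  refine (R.meas β).bm.mono_ae hK hN fun w => ?_
  exact cpPoint hK hΘ R h hPhi inf_le_right (inf_le_left.trans inf_le_left)
    (inf_le_left.trans (inf_le_right.trans inf_le_left))
    (inf_le_left.trans (inf_le_right.trans inf_le_right))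

end Pool.Agent.Lib.WkD
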