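import Pool.Agent.Lib.WkD.PDefs

/-!
# Chain closed orders are distributive; products

PROOF of `distr_of_chainClosed`. Let c : J → ROP P, #J < κ; eq_top_of_em: p₀ : P. Consider triples
x = (T, n, p), T n : Set J, n ⊆ T, p ≤ p₀, em p ≤ ⨅ j, ⨅ _ : j ∈ T, lit (j ∈ n) (c j), with the relation
rel x y : (x.T ⊂ y.T and x.n = y.n ∩ x.T and y.p ≤ x.p) or x = y (transitive). Every chain has an upper
bound: let T* = ⋃ x.T, n* = ⋃ x.n. If some x in the chain has x.T = T*, it is an upper bound (for y in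
the chain rel x y would give a strict inclusion unless x = y). Otherwise for u ∈ T* choose x_u in the
chain with u ∈ x_u.T; the conditions (x_u).p, u ∈ T*, form a chain indexed by a type of size < κ; let p* be
a lower bound (p* = p₀ if the chain is empty; make also p* ≤ p₀, e.g. index by Option). For x in the
chain pick u ∈ T* \ x.T; rel x x_u holds, so p* ≤ x.p. So (T*, n*, p*) is an upper bound (j ∈ n* iff
j ∈ (x_j).n for j ∈ T*). By Zorn (exists_maximal_of_chains_bounded) there is a maximal (T, n, p). T = univ: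
otherwise take j ∉ T, exists_decide p (c j) gives q ≤ p with em q ≤ c j or (c j)ᶜ, and (T ∪ {j}, n or
n ∪ {j}, q) is strictly above. So em p ≤ ⨅ j, lit (j ∈ n) (c j) and p ≤ p₀.
PROOF of `chainClosed_prod`: project to the factors. `chainClosed_mono`: κ ≤ κ'.
PROOF of `chainClosed_Qs`: f : T → Qs Θ Z a chain, #T < succ κ, so #T ≤ κ. Let l be a bound of the lengths (bdd;
if T is empty any element). t δ := (f a).t δ for some a with δ < (f a).len if there is one, none otherwise;
well defined on the chain. ⟨l, t⟩ ≤ f a for all a.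
-/

set_option autoImplicit false

namespace Pool.Agent.Lib.WkD

open Set Cardinal

namespace ChainDAux

/-- partial decisions below `p₀` -/
structure Tri {P J : Type} [Preorder P] (c : J → ROP P) (p₀ : P) where
  T : Set J
  n : Set J
  p : P
  sub : n ⊆ T
  le : p ≤ p₀
  dec : ∀ j ∈ T, em p ≤ lit (j ∈ n) (c j)

variable {P J : Type} [Preorder P] {c : J → ROP P} {p₀ : P}

/-- the order of the partial decisions -/
def rel (x y : Tri c p₀) : Prop := (x.T ⊂ y.T ∧ x.n = y.n ∩ x.T ∧ y.p ≤ x.p) ∨ x = y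

theorem rel_trans {x y z : Tri c p₀} (h : rel x y) (h' : rel y z) : rel x z := by
  rcases h with ⟨h1, h2, h3⟩ | rfl
  · rcases h' with ⟨h4, h5, h6⟩ | rfl
    · refine Or.inl ⟨h1.trans h4, ?_, h6.trans h3⟩
      rw [h2, h5, inter_assoc, inter_eq_self_of_subset_right h1.subset]
    · exact Or.inl ⟨h1, h2, h3⟩
  · exact h'

theorem coh {s : Set (Tri c p₀)} (hs : IsChain rel s) {x y : Tri c p₀} (hx : x ∈ s) (hy : y ∈ s)
    {j : J} (hj : j ∈ x.T) (hn : j ∈ y.n) : j ∈ x.n := by
  by_cases hxy : x = y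
  · rw [hxy]; exact hn
  · rcases hs hx hy hxy with (⟨_, h2, _⟩ | h) | (⟨_, h2, _⟩ | h)
    · rw [h2]; exact ⟨hn, hj⟩
    · exact absurd h hxy
    · rw [h2] at hn; exact hn.1
    · exact absurd h.symm hxy

theorem exists_ub {κ : Cardinal.{0}} (hκ : ℵ₀ ≤ κ) (h : ChainClosed κ P) (hJ : #J < κ)
    (s : Set (Tri c p₀)) (hs : IsChain rel s) : ∃ ub, ∀ a ∈ s, rel a ub := by
  by_cases hcase : ∃ x ∈ s, x.T = ⋃ y ∈ s, y.T
  · obtain ⟨x, hx, hxT⟩ := hcase
    refine ⟨x, fun y hy => ?_⟩
    by_cases hxy : y = x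
    · exact Or.inr hxy
    · rcases hs hy hx hxy with h1 | (⟨h1, _, _⟩ | h1)
      · exact h1
      · exfalso
        have h2 : y.T ⊆ x.T := by
          rw [hxT]
          exact subset_biUnion_of_mem (u := fun y : Tri c p₀ => y.T) hy
        exact h1.2 h2
      · exact absurd h1.symm hxy
  · push Not at hcase
    have hch : ∀ u : {u : J // u ∈ ⋃ y ∈ s, y.T}, ∃ x ∈ s, u.1 ∈ x.T := by
      rintro ⟨u, hu⟩
      simp only [mem_iUnion, exists_prop] at hu
      exact hu
    choose X hXs hXT using hch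
    obtain ⟨q, hq⟩ := h (Option {u : J // u ∈ ⋃ y ∈ s, y.T})
      (fun o => match o with
        | none => p₀
        | some u => (X u).p)
      (by
        rw [Cardinal.mk_option]
        refine Cardinal.add_lt_of_lt hκ ?_ ?_
        · exact (Cardinal.mk_subtype_le _).trans_lt hJ
        · exact Cardinal.one_lt_aleph0.trans_le hκ)
      (by
        intro a b
        rcases a with _ | u
        · rcases b with _ | v
          · exact Or.inl le_rfl
          · exact Or.inr (X v).le
        · rcases b with _ | v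
          · exact Or.inl (X u).le
          · by_cases huv : X u = X v
            · left
              show (X u).p ≤ (X v).p
              rw [huv]
            · rcases hs (hXs u) (hXs v) huv with (⟨_, _, h3⟩ | h1) | (⟨_, _, h3⟩ | h1)
              · exact Or.inr h3
              · exact absurd h1 huv
              · exact Or.inl h3
              · exact absurd h1.symm huv)
    have hq0 : q ≤ p₀ := hq none
    have hqX : ∀ u, q ≤ (X u).p := fun u => hq (some u)
    refine ⟨⟨⋃ y ∈ s, y.T, ⋃ y ∈ s, y.n, q, ?_, hq0, ?_⟩, ?_⟩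
    · exact iUnion₂_mono fun y _ => y.sub
    · intro j hj
      have h1 : em q ≤ lit (j ∈ (X ⟨j, hj⟩).n) (c j) :=
        (em_mono (hqX ⟨j, hj⟩)).trans ((X ⟨j, hj⟩).dec j (hXT ⟨j, hj⟩))
      have h2 : (j ∈ (X ⟨j, hj⟩).n) = (j ∈ ⋃ y ∈ s, y.n) := by
        apply propext
        constructor
        · intro h3
          exact mem_biUnion (hXs ⟨j, hj⟩) h3
        · intro h3
          simp only [mem_iUnion, exists_prop] at h3
          obtain ⟨y, hy, hyn⟩ := h3
          exact coh hs (hXs ⟨j, hj⟩) hy (hXT ⟨j, hj⟩) hyn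
      rw [h2] at h1
      exact h1
    · intro x hx
      have hsub : x.T ⊆ ⋃ y ∈ s, y.T := subset_biUnion_of_mem (u := fun y : Tri c p₀ => y.T) hx
      have hss : x.T ⊂ ⋃ y ∈ s, y.T := hsub.ssubset_of_ne (hcase x hx)
      refine Or.inl ⟨hss, ?_, ?_⟩
      · apply Subset.antisymm
        · intro j hj
          exact ⟨mem_biUnion hx hj, x.sub hj⟩
        · rintro j ⟨hj1, hj2⟩
          simp only [mem_iUnion, exists_prop] at hj1
          obtain ⟨y, hy, hyn⟩ := hj1
          exact coh hs hx hy hj2 hyn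
      · obtain ⟨u, hu, hux⟩ := exists_of_ssubset hss
        show q ≤ x.p
        have hne : x ≠ X ⟨u, hu⟩ := by
          intro h1
          apply hux
          rw [h1]
          exact hXT ⟨u, hu⟩
        rcases hs hx (hXs ⟨u, hu⟩) hne with (⟨_, _, h3⟩ | h1) | (⟨h3, _, _⟩ | h1)
        · exact (hqX ⟨u, hu⟩).trans h3
        · exact absurd h1 hne
        · exact absurd (h3.1 (hXT ⟨u, hu⟩)) hux
        · exact absurd h1.symm hne

end ChainDAux

open ChainDAux in
theorem distr_of_chainClosed {κ : Cardinal.{0}} (hκ : ℵ₀ ≤ κ) {P : Type} [Preorder P]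
    (h : ChainClosed κ P) : Distr κ (ROP P) := by
  intro J c hJ
  apply eq_top_of_em
  intro p₀
  obtain ⟨m, hm⟩ := exists_maximal_of_chains_bounded (r := rel (c := c) (p₀ := p₀))
    (fun s hs => exists_ub hκ h hJ s hs) (fun h1 h2 => rel_trans h1 h2)
  have huniv : ∀ j, j ∈ m.T := by
    intro j
    by_contra hj
    have hjn : j ∉ m.n := fun h1 => hj (m.sub h1)
    obtain ⟨q, hq, hd⟩ := exists_decide m.p (c j)
    obtain ⟨a, ha1, ha2⟩ : ∃ a : Tri c p₀, rel m a ∧ j ∈ a.T := by
      rcases hd with hd | hd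
      · refine ⟨⟨insert j m.T, insert j m.n, q, insert_subset_insert m.sub, hq.trans m.le, ?_⟩,
          Or.inl ⟨ssubset_insert hj, ?_, hq⟩, mem_insert _ _⟩
        · intro i hi
          rcases hi with rfl | hi
          · have h1 : i ∈ insert i m.n := mem_insert _ _
            show em q ≤ lit (i ∈ insert i m.n) (c i)
            unfold lit
            rw [if_pos h1]
            exact hd
          · have hij : i ≠ j := fun h1 => hj (h1 ▸ hi)
            have h1 : (i ∈ insert j m.n) = (i ∈ m.n) := by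
              apply propext
              simp [hij]
            show em q ≤ lit (i ∈ insert j m.n) (c i)
            rw [h1]
            exact (em_mono hq).trans (m.dec i hi)
        · show m.n = insert j m.n ∩ m.T
          apply Subset.antisymm
          · intro i hi
            exact ⟨mem_insert_of_mem _ hi, m.sub hi⟩
          · rintro i ⟨hi1, hi2⟩
            rcases hi1 with rfl | hi1
            · exact absurd hi2 hj
            · exact hi1
      · refine ⟨⟨insert j m.T, m.n, q, m.sub.trans (subset_insert _ _), hq.trans m.le, ?_⟩,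
          Or.inl ⟨ssubset_insert hj, ?_, hq⟩, mem_insert _ _⟩
        · intro i hi
          rcases hi with rfl | hi
          · show em q ≤ lit (i ∈ m.n) (c i)
            unfold lit
            rw [if_neg hjn]
            exact hd
          · exact (em_mono hq).trans (m.dec i hi)
        · show m.n = m.n ∩ m.T
          exact (inter_eq_self_of_subset_left m.sub).symm
    rcases hm a ha1 with ⟨h1, _, _⟩ | h1
    · exact hj (h1.1 ha2)
    · rw [h1] at ha2
      exact hj ha2
  refine ⟨m.p, m.le, ?_⟩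
  exact (le_iInf fun j => m.dec j (huniv j)).trans
    (le_iSup (fun n : Set J => ⨅ j, lit (j ∈ n) (c j)) m.n)

theorem chainClosed_prod {κ : Cardinal.{0}} {P Q : Type} [Preorder P] [Preorder Q]
    (h : ChainClosed κ P) (h' : ChainClosed κ Q) : ChainClosed κ (P × Q) := by
  intro T f hT hf
  obtain ⟨p, hp⟩ := h T (fun a => (f a).1) hT fun a b =>
    (hf a b).imp (fun h1 => h1.1) (fun h1 => h1.1)
  obtain ⟨q, hq⟩ := h' T (fun a => (f a).2) hT fun a b =>
    (hf a b).imp (fun h1 => h1.2) (fun h1 => h1.2)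
  exact ⟨(p, q), fun a => ⟨hp a, hq a⟩⟩

theorem chainClosed_mono {κ κ' : Cardinal.{0}} (hκ : κ ≤ κ') {P : Type} [Preorder P]
    (h : ChainClosed κ' P) : ChainClosed κ P :=
  fun T f hT hf => h T f (hT.trans_le hκ) hf

theorem chainClosed_Qs {κ : Cardinal.{0}} {Θ Z : Type} [LinearOrder Θ]
    (h : ∀ (T : Type) (f : T → Θ), #T ≤ κ → ∃ t, ∀ a, f a < t) :
    ChainClosed (Order.succ κ) (Qs Θ Z) := by
  intro T f hT hf
  obtain ⟨l, hl⟩ := h T (fun a => (f a).len) (Order.lt_succ_iff.1 hT)
  classical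
  refine ⟨⟨l, fun δ => if hδ : ∃ a, δ < (f a).len then (f hδ.choose).t δ else none⟩,
    fun a => ⟨(hl a).le, fun δ hδ => ?_⟩⟩
  have h1 : ∃ a, δ < (f a).len := ⟨a, hδ⟩
  show (if hδ : ∃ a, δ < (f a).len then (f hδ.choose).t δ else none) = (f a).t δ
  rw [dif_pos h1]
  rcases hf h1.choose a with h2 | h2
  · exact h2.2 δ hδ
  · exact (h2.2 δ h1.choose_spec).symm

/-- sequences with a common extension are comparable -/
theorem Qs.comparable {Θ Z : Type} [LinearOrder Θ] {h h' h'' : Qs Θ Z} (h1 : h'' ≤ h)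
    (h2 : h'' ≤ h') : h ≤ h' ∨ h' ≤ h := by
  rcases le_total h.len h'.len with h3 | h3
  · exact Or.inr ⟨h3, fun δ hδ => (h2.2 δ (hδ.trans_le h3)).symm.trans (h1.2 δ hδ)⟩
  · exact Or.inl ⟨h3, fun δ hδ => (h1.2 δ (hδ.trans_le h3)).symm.trans (h2.2 δ hδ)⟩

/-- a longer sequence with prescribed next option -/
theorem Qs.exists_push {Θ Z : Type} [LinearOrder Θ] (hmax : ∀ t : Θ, ∃ s, t < s) (h : Qs Θ Z)
    (i : Option Z) : ∃ h' ≤ h, h.len < h'.len ∧ h'.t h.len = i := by
  obtain ⟨s, hs⟩ := hmax h.len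
  refine ⟨⟨s, fun δ => if δ < h.len then h.t δ else i⟩, ⟨hs.le, fun δ hδ => if_pos hδ⟩, hs, ?_⟩
  exact if_neg (lt_irrefl _)

theorem Qs.exists_len {Θ Z : Type} [LinearOrder Θ] (hmax : ∀ t : Θ, ∃ s, t < s) (h : Qs Θ Z)
    (β : Θ) : ∃ h' ≤ h, β < h'.len := by
  obtain ⟨s, hs⟩ := hmax (max h.len β)
  exact ⟨⟨s, h.t⟩, ⟨(le_max_left _ _).trans hs.le, fun δ _ => rfl⟩, (le_max_right _ _).trans_lt hs⟩

end Pool.Agent.Lib.WkD
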