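import Pool.Agent.Lib.WkD.PDefs

/-!
# Fusion

PROOF. Consider pairs x = (A, g), A : Set (I × P₀), g : Q, g ≤ h, such that (p, g) ∈ O i for all (i, p) ∈ A and
for (i, p), (i, p') ∈ A with p ≠ p' there is no r ≤ p, p'. Relation rel x y: (x.A ⊂ y.A and y.g ≤ x.g) or x = y
(transitive). Every chain has an upper bound: let A* = ⋃ x.A. If some x in the chain has x.A = A* it is
an upper bound. Otherwise: #A* ≤ κ: for fixed i, {p | (i, p) ∈ A*} is an antichain (two elements lie in a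
common member of the chain), so of size ≤ κ (hcc), and #I ≤ κ (κ * κ = κ). For u ∈ A* choose x_u in the chain
with u ∈ x_u.A; the g's of the x_u form a chain indexed by a type of size ≤ κ < succ κ: let g* be a lower
bound (also g* ≤ h; if the chain is empty take (∅, h)). For x in the chain pick u ∈ A* \ x.A; then
rel x x_u, g* ≤ (x_u).g ≤ x.g. (A*, g*) is an upper bound: (p, g*) ∈ O i by hopen. By Zorn
(exists_maximal_of_chains_bounded) there is a maximal (A, g). Put h' = g, 𝒜 i = {p | (i, p) ∈ A}. If for some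
i, p no p' ∈ 𝒜 i is compatible with p, then hdense gives (p₁, g₁) ≤ (p, g) in O i, p₁ is incompatible with
all of 𝒜 i (and not in it), so (A ∪ {(i, p₁)}, g₁) is strictly above: contradiction.
-/

set_option autoImplicit false

namespace Pool.Agent.Lib.WkD

open Set Cardinal

namespace FusionAux

/-- good pairs -/
structure Good {P₀ Q I : Type} [Preorder P₀] [Preorder Q] (O : I → Set (P₀ × Q)) (h : Q)
    (A : Set (I × P₀)) (g : Q) : Prop where
  le : g ≤ h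
  mem : ∀ i p, (i, p) ∈ A → (p, g) ∈ O i
  anti : ∀ i p q, (i, p) ∈ A → (i, q) ∈ A → p ≠ q → ¬ ∃ r, r ≤ p ∧ r ≤ q

theorem mk_le {κ : Cardinal.{0}} (hκ : ℵ₀ ≤ κ) {P₀ : Type} [Preorder P₀]
    (hcc : CCle κ P₀) {I : Type} (hI : #I ≤ κ) (A : Set (I × P₀))
    (hA : ∀ i p q, (i, p) ∈ A → (i, q) ∈ A → p ≠ q → ¬ ∃ r, r ≤ p ∧ r ≤ q) : #A ≤ κ := by
  have h1 : #A ≤ #(Σ i : I, {p : P₀ | (i, p) ∈ A}) := by
    refine Cardinal.mk_le_of_injective
      (f := fun u : A => (⟨u.1.1, ⟨u.1.2, u.2⟩⟩ : Σ i : I, {p : P₀ | (i, p) ∈ A})) ?_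
    intro u v huv
    have h2 := congrArg (fun z : Σ i : I, {p : P₀ | (i, p) ∈ A} => ((z.1, z.2.1) : I × P₀)) huv
    exact Subtype.ext h2
  refine h1.trans ?_
  rw [Cardinal.mk_sigma]
  calc Cardinal.sum (fun i : I => #{p : P₀ | (i, p) ∈ A}) ≤ Cardinal.sum (fun _ : I => κ) :=
        Cardinal.sum_le_sum _ _ fun i => hcc _ fun p hp q hq hne => hA i p q hp hq hne
    _ = #I * κ := by rw [Cardinal.sum_const']
    _ ≤ κ * κ := by gcongr
    _ = κ := Cardinal.mul_eq_self hκ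

end FusionAux

open FusionAux in
theorem fusion {κ : Cardinal.{0}} (hκ : ℵ₀ ≤ κ) {P₀ Q : Type} [Preorder P₀] [Preorder Q]
    (hcc : CCle κ P₀) (hQ : ChainClosed (Order.succ κ) Q) {I : Type} (hI : #I ≤ κ)
    (O : I → Set (P₀ × Q)) (hopen : ∀ i x y, y ≤ x → x ∈ O i → y ∈ O i)
    (hdense : ∀ i x, ∃ y ≤ x, y ∈ O i) (h : Q) :
    ∃ h' ≤ h, ∃ 𝒜 : I → Set P₀, (∀ i, #(𝒜 i) ≤ κ) ∧ (∀ i, ∀ p ∈ 𝒜 i, (p, h') ∈ O i) ∧
      ∀ i (p : P₀), ∃ p' ∈ 𝒜 i, ∃ r, r ≤ p ∧ r ≤ p' := by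
  classical
  let X : Type := {x : Set (I × P₀) × Q // Good O h x.1 x.2}
  let rel : X → X → Prop := fun x y => x = y ∨ (x.1.1 ⊂ y.1.1 ∧ y.1.2 ≤ x.1.2)
  have htrans : ∀ {a b c : X}, rel a b → rel b c → rel a c := by
    rintro a b c (rfl | ⟨h1, h2⟩) (rfl | ⟨h3, h4⟩)
    · exact Or.inl rfl
    · exact Or.inr ⟨h3, h4⟩
    · exact Or.inr ⟨h1, h2⟩
    · exact Or.inr ⟨h1.trans h3, h4.trans h2⟩
  have hchain : ∀ C : Set X, IsChain rel C → ∃ ub, ∀ a ∈ C, rel a ub := by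
    intro C hC
    by_cases hbig : ∃ x ∈ C, ∀ y ∈ C, y.1.1 ⊆ x.1.1
    · obtain ⟨x, hx, hxy⟩ := hbig
      refine ⟨x, fun y hy => ?_⟩
      by_cases hne : y = x
      · exact Or.inl hne
      · rcases hC hy hx hne with h1 | h1
        · exact h1
        · rcases h1 with h1 | ⟨h1, _⟩
          · exact Or.inl h1.symm
          · exact absurd (hxy y hy) h1.2
    push Not at hbig
    rcases C.eq_empty_or_nonempty with rfl | ⟨x₀, hx₀⟩
    · exact ⟨⟨(∅, h), ⟨le_rfl, fun _ _ hh => absurd hh (Set.notMem_empty _),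
        fun _ _ _ hh => absurd hh (Set.notMem_empty _)⟩⟩,
        fun a ha => absurd ha (Set.notMem_empty _)⟩
    -- comparability
    have hcmp : ∀ x ∈ C, ∀ y ∈ C, x.1.1 ⊆ y.1.1 ∨ y.1.1 ⊆ x.1.1 := by
      intro x hx y hy
      by_cases hne : x = y
      · exact Or.inl (by rw [hne])
      · rcases hC hx hy hne with (h1 | ⟨h1, _⟩) | (h1 | ⟨h1, _⟩)
        · exact absurd h1 hne
        · exact Or.inl h1.1
        · exact absurd h1.symm hne
        · exact Or.inr h1.1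
    have hcmp2 : ∀ x ∈ C, ∀ y ∈ C, x.1.2 ≤ y.1.2 ∨ y.1.2 ≤ x.1.2 := by
      intro x hx y hy
      by_cases hne : x = y
      · exact Or.inl (by rw [hne])
      · rcases hC hx hy hne with (h1 | ⟨_, h1⟩) | (h1 | ⟨_, h1⟩)
        · exact absurd h1 hne
        · exact Or.inr h1
        · exact absurd h1.symm hne
        · exact Or.inl h1
    let A : Set (I × P₀) := {u | ∃ x ∈ C, u ∈ x.1.1}
    have hA : ∀ i p q, (i, p) ∈ A → (i, q) ∈ A → p ≠ q → ¬ ∃ r, r ≤ p ∧ r ≤ q := by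
      rintro i p q ⟨x, hx, hx'⟩ ⟨y, hy, hy'⟩ hne
      rcases hcmp x hx y hy with h1 | h1
      · exact y.2.anti i p q (h1 hx') hy' hne
      · exact x.2.anti i p q hx' (h1 hy') hne
    have hcard : #A ≤ κ := mk_le hκ hcc hI A hA
    have hch : ∀ u : A, ∃ x ∈ C, u.1 ∈ x.1.1 := fun u => u.2
    choose xu hxu hxu' using hch
    obtain ⟨g, hg⟩ := hQ A (fun u => (xu u).1.2) (Order.lt_succ_of_le hcard)
      (fun a b => hcmp2 _ (hxu a) _ (hxu b))
    have hstep : ∀ x ∈ C, ∃ u : A, u.1 ∉ x.1.1 ∧ (xu u).1.2 ≤ x.1.2 := by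
      intro x hx
      obtain ⟨y, hy, hy'⟩ := hbig x hx
      obtain ⟨u, hu, hu'⟩ := Set.not_subset.1 hy'
      refine ⟨⟨u, y, hy, hu⟩, hu', ?_⟩
      have h1 := hxu' ⟨u, y, hy, hu⟩
      have h2 := hxu ⟨u, y, hy, hu⟩
      generalize xu ⟨u, y, hy, hu⟩ = z at h1 h2
      have hne : x ≠ z := by
        rintro rfl
        exact hu' h1
      rcases hC hx h2 hne with (h3 | ⟨_, h3⟩) | (h3 | ⟨h3, _⟩)
      · exact absurd h3 hne
      · exact h3
      · exact absurd h3.symm hne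
      · exact absurd (h3.1 h1) hu'
    have hgh : g ≤ h := by
      obtain ⟨u, _, hu⟩ := hstep x₀ hx₀
      exact (hg u).trans (hu.trans x₀.2.le)
    have hgood : Good O h A g := by
      refine ⟨hgh, ?_, hA⟩
      intro i p hip
      have h1 := (xu ⟨(i, p), hip⟩).2.mem i p (hxu' ⟨(i, p), hip⟩)
      exact hopen i _ _ (Prod.mk_le_mk.2 ⟨le_rfl, hg ⟨(i, p), hip⟩⟩) h1
    refine ⟨⟨(A, g), hgood⟩, fun x hx => Or.inr ⟨⟨fun u hu => ⟨x, hx, hu⟩, fun hsub => ?_⟩, ?_⟩⟩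
    · obtain ⟨u, hu, _⟩ := hstep x hx
      exact hu (hsub u.2)
    · obtain ⟨u, _, hu⟩ := hstep x hx
      exact (hg u).trans hu
  obtain ⟨m, hm⟩ := exists_maximal_of_chains_bounded hchain htrans
  obtain ⟨⟨A, g⟩, hgood⟩ := m
  refine ⟨g, hgood.le, fun i => {p | (i, p) ∈ A}, fun i => ?_, fun i p hp => hgood.mem i p hp, ?_⟩
  · exact hcc _ fun p hp q hq hne => hgood.anti i p q hp hq hne
  · intro i p
    by_contra hcon
    have hcon' : ∀ p', (i, p') ∈ A → ∀ r, r ≤ p → r ≤ p' → False :=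
      fun p' hp' r h1 h2 => hcon ⟨p', hp', r, h1, h2⟩
    obtain ⟨⟨p₁, g₁⟩, hle, hO⟩ := hdense i (p, g)
    obtain ⟨hp₁, hg₁⟩ := Prod.mk_le_mk.1 hle
    have hnew : (i, p₁) ∉ A := fun hmem => hcon' p₁ hmem p₁ hp₁ le_rfl
    have hgood' : Good O h (insert (i, p₁) A) g₁ := by
      refine ⟨hg₁.trans hgood.le, ?_, ?_⟩
      · intro j q hq
        rcases Set.mem_insert_iff.1 hq with h1 | h1
        · obtain ⟨rfl, rfl⟩ := Prod.mk.inj h1
          exact hO
        · exact hopen j _ _ (Prod.mk_le_mk.2 ⟨le_rfl, hg₁⟩) (hgood.mem j q h1)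
      · rintro j q q' hq hq' hne ⟨r, hr, hr'⟩
        rcases Set.mem_insert_iff.1 hq with h1 | h1
        · obtain ⟨rfl, rfl⟩ := Prod.mk.inj h1
          rcases Set.mem_insert_iff.1 hq' with h2 | h2
          · exact hne (Prod.mk.inj h2).2.symm
          · exact hcon' q' h2 r (hr.trans hp₁) hr'
        · rcases Set.mem_insert_iff.1 hq' with h2 | h2
          · obtain ⟨rfl, rfl⟩ := Prod.mk.inj h2
            exact hcon' q h1 r (hr'.trans hp₁) hr
          · exact hgood.anti j q q' h1 h2 hne ⟨r, hr, hr'⟩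
    have h1 := hm ⟨(insert (i, p₁) A, g₁), hgood'⟩
      (Or.inr ⟨⟨Set.subset_insert _ _, fun hsub => hnew (hsub (Set.mem_insert _ _))⟩, hg₁⟩)
    rcases h1 with h1 | ⟨h1, _⟩
    · have h2 : insert (i, p₁) A = A := congrArg (fun x : X => x.1.1) h1
      exact hnew (h2 ▸ Set.mem_insert _ _)
    · exact hnew (h1.1 (Set.mem_insert _ _))

end Pool.Agent.Lib.WkD
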