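import Pool.Agent.Lib.WkD.ChainD
import Pool.Agent.Lib.WkD.Fusion

/-!
# Calculus of decisions

PROOF. em_le_jj: (←) le_iSup. (→) em_le_of_dense for em x.1 ≤ c: p₁ ≤ x.1: exists_em_iSup for (p₁, x.2) ≤ x:
y ≤ (p₁, x.2) and z with em z.1 ≤ c, em y ≤ em z; compat_of y z: t; em t.1 ≤ em z.1 ≤ c, t.1 ≤ p₁. Dc_jj.
compl: em (p,h') ≤ Xᶜ iff for all (p₁,h₁) ≤ (p,h') not em (p₁,h₁) ≤ X iff for all p₁ ≤ p not em p₁ ≤ Y (h₁ ≤ h' ≤ h;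
for (←) of the first use (p₁, h')). iInf: le_iInf_iff. iSup by complements. lit, tv: cases. mono: trans.
unique, le: if Dc h X Y, Dc h X' Y', X ≤ X' then Y ≤ Y' by le_of_em: em p ≤ Y gives em (p,h) ≤ X ≤ X'.
eq_of_dense: le_antisymm; le_of_em: em (p,h₀) ≤ u; take h ≤ h₀ with Dc h u Y, Dc h v Y: em (p,h) ≤ u so em p ≤ Y so
em (p,h) ≤ v.
exists_Dc: fusion with O i = {x | em x ≤ X i ∨ em x ≤ (X i)ᶜ} (open: em_mono, dense: exists_decide) gives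
h ≤ h₀ and 𝒜. Put Y i = ⨆ p, ⨆ _ : em (p,h) ≤ X i, em p. Dc h (X i) (Y i): let h' ≤ h. (→) em (p,h') ≤ X i:
em_le_of_dense: p₁ ≤ p; there are p' ∈ 𝒜 i and r ≤ p₁, p'; (r,h) ≤ (p',h) ∈ O i so em (r,h) ≤ X i or ≤ (X i)ᶜ;
the second is impossible since (r,h') ≤ (p,h') and (r,h') ≤ (r,h). So em r ≤ Y i. (←) em p ≤ Y i:
em_le_of_dense: (p₁,h₁) ≤ (p,h'): exists_em_iSup for p₁: p₂ ≤ p₁ and p₃ with em (p₃,h) ≤ X i, em p₂ ≤ em p₃;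
compat_of: p₄ ≤ p₂, p₃; (p₄,h₁) ≤ (p₃,h), so em (p₄,h₁) ≤ X i.
-/

set_option autoImplicit false

namespace Pool.Agent.Lib.WkD

open Set Cardinal

variable {P₀ Q : Type} [Preorder P₀] [Preorder Q] {h : Q}

theorem em_le_jj {x : P₀ × Q} {c : ROP P₀} : em x ≤ jj c ↔ em x.1 ≤ c := by
  constructor
  · intro h
    apply em_le_of_dense
    intro p₁ hp₁
    have h0 : ((p₁, x.2) : P₀ × Q) ≤ x := ⟨hp₁, le_rfl⟩
    have h1 : em ((p₁, x.2) : P₀ × Q) ≤ jj c := (em_mono h0).trans h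
    obtain ⟨q, hq, y, hy⟩ := exists_em_iSup h1
    obtain ⟨q', hq', hyc, hy'⟩ := exists_em_iSup hy
    obtain ⟨t, ht1, ht2⟩ := compat_of (p := q') (q := y) (by
      rw [inf_eq_left.2 hy']; exact em_ne_bot q')
    exact ⟨t.1, (ht1.trans (hq'.trans hq)).1, (em_mono ht2.1).trans hyc⟩
  · intro h
    exact le_iSup₂_of_le x h le_rfl

theorem Dc_jj (h : Q) (c : ROP P₀) : Dc h (jj c : ROP (P₀ × Q)) c :=
  fun _ _ _ => em_le_jj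

theorem Dc.mono {h' : Q} {X : ROP (P₀ × Q)} {Y : ROP P₀} (hX : Dc h X Y) (hh : h' ≤ h) :
    Dc h' X Y := fun p h'' h2 => hX p h'' (h2.trans hh)

theorem Dc.compl {X : ROP (P₀ × Q)} {Y : ROP P₀} (hX : Dc h X Y) : Dc h Xᶜ Yᶜ := by
  intro p h' hh
  rw [em_le_compl_iff, em_le_compl_iff]
  constructor
  · intro H q hq hY
    exact H (q, h') ⟨hq, le_rfl⟩ ((hX q h' hh).2 hY)
  · rintro H ⟨q, h1⟩ hq hY
    exact H q hq.1 ((hX q h1 (hq.2.trans hh)).1 hY)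

theorem Dc.iInf {ι : Sort*} {X : ι → ROP (P₀ × Q)} {Y : ι → ROP P₀}
    (hX : ∀ i, Dc h (X i) (Y i)) : Dc h (⨅ i, X i) (⨅ i, Y i) := by
  intro p h' hh
  rw [le_iInf_iff, le_iInf_iff]
  exact forall_congr' fun i => hX i p h' hh

theorem Dc.iSup {ι : Sort*} {X : ι → ROP (P₀ × Q)} {Y : ι → ROP P₀}
    (hX : ∀ i, Dc h (X i) (Y i)) : Dc h (⨆ i, X i) (⨆ i, Y i) := by
  have h1 := (Dc.iInf fun i => (hX i).compl).compl
  rw [compl_iInf, compl_iInf] at h1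
  simpa only [compl_compl] using h1

theorem Dc.inf {X X' : ROP (P₀ × Q)} {Y Y' : ROP P₀} (hX : Dc h X Y) (hX' : Dc h X' Y') :
    Dc h (X ⊓ X') (Y ⊓ Y') := by
  intro p h' hh
  rw [le_inf_iff, le_inf_iff]
  exact and_congr (hX p h' hh) (hX' p h' hh)

theorem Dc.sup {X X' : ROP (P₀ × Q)} {Y Y' : ROP P₀} (hX : Dc h X Y) (hX' : Dc h X' Y') :
    Dc h (X ⊔ X') (Y ⊔ Y') := by
  have h1 := (hX.compl.inf hX'.compl).compl
  rw [compl_inf, compl_inf] at h1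
  simpa only [compl_compl] using h1

theorem Dc.lit {X : ROP (P₀ × Q)} {Y : ROP P₀} (p : Prop) (hX : Dc h X Y) :
    Dc h (lit p X) (lit p Y) := by
  by_cases hp : p
  · rw [lit_true hp, lit_true hp]
    exact hX
  · rw [lit_false hp, lit_false hp]
    exact hX.compl

theorem DcLAux.top' (h : Q) : Dc h (⊤ : ROP (P₀ × Q)) (⊤ : ROP P₀) :=
  fun _ _ _ => ⟨fun _ => le_top, fun _ => le_top⟩

theorem Dc.tv (h : Q) (p : Prop) : Dc h (tv (ROP (P₀ × Q)) p) (tv (ROP P₀) p) := by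
  by_cases hp : p
  · rw [tv_true hp, tv_true hp]
    exact DcLAux.top' h
  · rw [tv_false hp, tv_false hp]
    have h1 := (DcLAux.top' (P₀ := P₀) h).compl
    rw [compl_top, compl_top] at h1
    exact h1

theorem Dc.top (h : Q) : Dc h (⊤ : ROP (P₀ × Q)) (⊤ : ROP P₀) := DcLAux.top' h

theorem Dc.le {X X' : ROP (P₀ × Q)} {Y Y' : ROP P₀} (hX : Dc h X Y) (hX' : Dc h X' Y')
    (hle : X ≤ X') : Y ≤ Y' := by
  apply le_of_em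
  intro p hp
  exact ⟨p, le_rfl, (hX' p h le_rfl).1 (((hX p h le_rfl).2 hp).trans hle)⟩

theorem Dc.unique {X : ROP (P₀ × Q)} {Y Y' : ROP P₀} (hX : Dc h X Y) (hX' : Dc h X Y') :
    Y = Y' := le_antisymm (hX.le hX' le_rfl) (hX'.le hX le_rfl)

theorem DcLAux.le_of_dense {u v : ROP (P₀ × Q)}
    (H : ∀ h₀ : Q, ∃ h ≤ h₀, ∃ Y : ROP P₀, Dc h u Y ∧ Dc h v Y) : u ≤ v := by
  apply le_of_em
  rintro ⟨p, h₀⟩ hp
  obtain ⟨h, hh, Y, hu, hv⟩ := H h₀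
  have h1 : ((p, h) : P₀ × Q) ≤ (p, h₀) := ⟨le_rfl, hh⟩
  exact ⟨(p, h), h1, (hv p h le_rfl).2 ((hu p h le_rfl).1 ((em_mono h1).trans hp))⟩

theorem Dc.eq_of_dense {u v : ROP (P₀ × Q)}
    (H : ∀ h₀ : Q, ∃ h ≤ h₀, ∃ Y : ROP P₀, Dc h u Y ∧ Dc h v Y) : u = v := by
  refine le_antisymm (DcLAux.le_of_dense H) (DcLAux.le_of_dense fun h₀ => ?_)
  obtain ⟨h, hh, Y, hu, hv⟩ := H h₀
  exact ⟨h, hh, Y, hv, hu⟩

theorem Dc.inF {K : Type} [LinearOrder K] (S : Sys K) {X : K → ROP (P₀ × Q)} {Y : K → ROP P₀}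
    (hX : ∀ z, Dc h (X z) (Y z)) (w : K) : Dc h (inF S X w) (inF S Y w) :=
  Dc.iSup fun _ => Dc.iSup fun _ => Dc.iInf fun z => Dc.iInf fun _ => hX z

theorem exists_Dc {κ : Cardinal.{0}} (hκ : ℵ₀ ≤ κ) (hcc : CCle κ P₀)
    (hQ : ChainClosed (Order.succ κ) Q) {I : Type} (hI : #I ≤ κ) (X : I → ROP (P₀ × Q))
    (h₀ : Q) : ∃ h ≤ h₀, ∃ Y : I → ROP P₀, ∀ i, Dc h (X i) (Y i) := by
  obtain ⟨h, hh, 𝒜, -, hA, hpre⟩ := fusion hκ hcc hQ hI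
    (fun i => {x | em x ≤ X i ∨ em x ≤ (X i)ᶜ})
    (fun i x y hyx hx => hx.imp (fun h => (em_mono hyx).trans h) (fun h => (em_mono hyx).trans h))
    (fun i x => by
      obtain ⟨q, hq, h1⟩ := exists_decide x (X i)
      exact ⟨q, hq, h1⟩) h₀
  refine ⟨h, hh, fun i => ⨆ p : P₀, ⨆ _ : em (p, h) ≤ X i, em p, fun i p h' hh' => ⟨fun hp => ?_,
    fun hp => ?_⟩⟩
  · apply em_le_of_dense
    intro p₁ hp₁
    obtain ⟨p', hp', r, hr1, hr2⟩ := hpre i p₁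
    have h1 : em (p', h) ≤ X i ∨ em (p', h) ≤ (X i)ᶜ := hA i p' hp'
    have h2 : ((r, h) : P₀ × Q) ≤ (p', h) := ⟨hr2, le_rfl⟩
    have h3 : ((r, h') : P₀ × Q) ≤ (p, h') := ⟨hr1.trans hp₁, le_rfl⟩
    have h4 : ((r, h') : P₀ × Q) ≤ (r, h) := ⟨le_rfl, hh'⟩
    rcases h1 with h1 | h1
    · exact ⟨r, hr1, le_iSup₂_of_le r ((em_mono h2).trans h1) le_rfl⟩
    · exact absurd (not_em_compl ((em_mono h3).trans hp)
        ((em_mono h4).trans ((em_mono h2).trans h1))) id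
  · apply em_le_of_dense
    rintro ⟨p₁, h₁⟩ ⟨hp₁, hh₁⟩
    obtain ⟨q, hq, p₃, hq3⟩ := exists_em_iSup ((em_mono hp₁).trans hp)
    obtain ⟨p₂, hp₂, hX3, h23⟩ := exists_em_iSup hq3
    obtain ⟨p₄, h41, h42⟩ := compat_of (p := p₂) (q := p₃) (by
      rw [inf_eq_left.2 h23]; exact em_ne_bot p₂)
    refine ⟨(p₄, h₁), ⟨h41.trans (hp₂.trans hq), le_rfl⟩, ?_⟩
    have h5 : ((p₄, h₁) : P₀ × Q) ≤ (p₃, h) := ⟨h42, hh₁.trans hh'⟩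
    exact (em_mono h5).trans hX3

end Pool.Agent.Lib.WkD
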