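import Pool.Agent.Lib.WkD.Meas

/-!
# The guessing property (interface between the forcing and the construction of the measure sequence)
-/

set_option autoImplicit false

namespace Pool.Agent.Lib.WkD

open Set Cardinal

variable {K C : Type} [LinearOrder K] [OrderBot K] [CompleteBooleanAlgebra C]

/-- indices of the data: pairs (ξ, e) and nodes -/
abbrev II {K : Type} [LinearOrder K] [OrderBot K] (S : Sys K) := (K × VLP S) ⊕ K

/-- rank of an index -/
def rI {K : Type} [LinearOrder K] [OrderBot K] (S : Sys K) : II S → K :=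
  Sum.elim (fun p => max p.1 (rk p.2.1)) (fun z => z)

/-- possible values of the data below the node `w` -/
abbrev Nm {K : Type} [LinearOrder K] [OrderBot K] (S : Sys K) (w : K) :=
  Set {i : II S // rI S i < S.crit w}

/-- Boolean value of: the data below the node `w` is `n` -/
noncomputable def eqv (S : Sys K) (D : II S → C) (w : K) (n : Nm S w) : C :=
  ⨅ i : {i : II S // rI S i < S.crit w}, lit (i ∈ n) (D i.1)

/-- `Ψ` is decided densely below every node -/
def Decided (S : Sys K) (Ψ : (w : K) → VLP S → Nm S w → Bool → C) : Prop :=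
  ∀ (w : K) (e : VLP S) (n : Nm S w) (a : Set K), rk e.1 < S.crit w → a ∈ S.F w →
    a ⊆ Iio (S.crit w) →
    ⨆ e₁ : VLP S, ⨆ _ : rk e₁.1 < S.crit w ∧ Ext a e₁.1 e.1, (Ψ w e₁ n true ⊔ Ψ w e₁ n false) = ⊤

/-- the value of `Ψ` at the node `w` for the true data -/
noncomputable def val (S : Sys K) (D : II S → C) (Ψ : (w : K) → VLP S → Nm S w → Bool → C)
    (e : VLP S) (t : Bool) (w : K) : C := ⨆ n : Nm S w, eqv S D w n ⊓ Ψ w e n t

/-- The guessing property of a measure sequence with respect to the names `g ζ` of subsets of `K`. -/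
def Guess {Θ Z : Type} [LinearOrder Θ] (R : RSys K Θ C) (g : Z → K → C) : Prop :=
  ∀ Ψ : (w : K) → VLP R.S → Nm R.S w → Bool → C, Decided R.S Ψ →
    ∀ b₀ : C, b₀ ≠ ⊥ → ∃ b₁ ≤ b₀, b₁ ≠ ⊥ ∧ ∃ ζ : Z, ∀ D : II R.S → C, ∀ b ≤ b₁, b ≠ ⊥ →
      ∀ e : VLP R.S, ∀ A : K → C, b ≤ R.Phi A → ∀ β₀ : Θ, ∃ β, β₀ ≤ β ∧ ∃ b' ≤ b, b' ≠ ⊥ ∧
        ∃ (e₁ : VLP R.S) (t : Bool), Ext {z | b' ≤ A z} e₁.1 e.1 ∧
          b' ≤ R.μ β (fun w => val R.S D Ψ e₁ t w) ∧
          b' ≤ R.μ β (fun w => lit (t = true) (g ζ (R.S.crit w)))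

end Pool.Agent.Lib.WkD
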