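import Pool.Agent.Lib.WkD.Strip
import Pool.Agent.Lib.WkD.GDefs

/-!
# Decidedness

PROOF. Let w, e, n, a be as in Decided. a₁ := a ∩ {z | rk e < crit z} ∈ F w (tail_mem), so (w,a₁)::e is valid
(as a ⊆ Iio (crit w)). `decide` for (w,a₁)::e and ψ w n: the supremum over valid e' with Ext ∅ e' ((w,a₁)::e)
of dd e' ψ ⊔ dd e' ψᶜ is ⊤. Each such e' is (w,a')::e₁ with a' ⊆ a₁, Ext a₁ e₁ e (Ext.new is impossible for ∅),
(w,a')::e₁ valid, so e₁ is valid, rk e₁ < crit w, Ext a e₁ e (mono), and dd e' ψ ≤ PP e₁ ψ w. So each term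
is below a term of the supremum in Decided.
-/

set_option autoImplicit false

namespace Pool.Agent.Lib.WkD

open Set Cardinal

variable {K Θ C : Type} [LinearOrder K] [OrderBot K] [LinearOrder Θ] [CompleteBooleanAlgebra C]

/-- the values of `ψ` at the nodes -/
noncomputable def Psi (R : RSys K Θ C) (ψ : (w : K) → Nm R.S w → BR R) (w : K) (e : VLP R.S)
    (n : Nm R.S w) (t : Bool) : C :=
  PP R e.1 (lit (t = true) (ψ w n)) w

theorem decided_Psi (H : Setup K Θ C) (R : RSys K Θ C) (ψ : (w : K) → Nm R.S w → BR R) :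
    Decided R.S (Psi R ψ) := by
  intro w e n a he ha hsub
  have hmem : a ∩ {z | rk e.1 < R.S.crit z} ∈ R.S.F w :=
    Filter.inter_mem ha (R.S.tail_mem w (rk e.1) he)
  have hv : Valid R.S ((w, a ∩ {z | rk e.1 < R.S.crit z}) :: e.1) :=
    ⟨hmem, fun z hz => ⟨hsub hz.1, hz.2⟩, he, e.2⟩
  have h := decide H hv (ψ w n)
  rw [eq_top_iff, ← h]
  refine iSup_le fun e' => iSup_le fun hE => ?_
  obtain ⟨e', hv'⟩ := e'
  change Ext ∅ e' ((w, a ∩ {z | rk e.1 < R.S.crit z}) :: e.1) at hE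
  cases hE with
  | new hA _ _ => exact absurd hA (Set.notMem_empty _)
  | @old _ _ _ a' e₁ _ haa hE1 =>
    refine le_iSup_of_le (⟨e₁, hv'.tail⟩ : VLP R.S) ?_
    refine le_iSup_of_le ⟨hv'.crit_lt, hE1.mono Set.inter_subset_left⟩ ?_
    refine sup_le_sup ?_ ?_
    · refine le_iSup_of_le a' (le_iSup_of_le hv' ?_)
      rw [lit_true rfl]
    · refine le_iSup_of_le a' (le_iSup_of_le hv' ?_)
      rw [lit_false (by simp)]

end Pool.Agent.Lib.WkD
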