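import Pool.Agent.Lib.WkD.FDefs

/-!
# Basic facts on lower parts, extensions and measures
-/

set_option autoImplicit false

namespace Pool.Agent.Lib.WkD

open Set Cardinal

section lower

variable {K : Type} [LinearOrder K] [OrderBot K] {S : Sys K}

theorem rk_nil : rk ([] : LP K) = ⊥ := rfl

theorem rk_cons (p : K × Set K) (e : LP K) : rk (p :: e) = max p.1 (rk e) := rfl

theorem rk_append (l e : LP K) : rk (l ++ e) = max (rk l) (rk e) := by
  induction l with
  | nil => simp [rk_nil]
  | cons p l ih => rw [List.cons_append, rk_cons, rk_cons, ih, max_assoc]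

theorem le_rk {p : K × Set K} {e : LP K} (h : p ∈ e) : p.1 ≤ rk e := by
  induction e with
  | nil => exact absurd h List.not_mem_nil
  | cons q e ih =>
    rcases List.mem_cons.1 h with rfl | h
    · exact le_max_left _ _
    · exact (ih h).trans (le_max_right _ _)

theorem valid_cons_iff {w : K} {a : Set K} {e : LP K} : Valid S ((w, a) :: e) ↔
    a ∈ S.F w ∧ (∀ z ∈ a, z < S.crit w ∧ rk e < S.crit z) ∧ rk e < S.crit w ∧ Valid S e := Iff.rfl

theorem Valid.tail {p : K × Set K} {e : LP K} (h : Valid S (p :: e)) : Valid S e :=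
  (valid_cons_iff.1 h).2.2.2

theorem Valid.of_append {l e : LP K} (h : Valid S (l ++ e)) : Valid S e := by
  induction l with
  | nil => exact h
  | cons p l ih => exact ih (Valid.tail h)

theorem Valid.crit_lt {w : K} {a : Set K} {e : LP K} (h : Valid S ((w, a) :: e)) :
    rk e < S.crit w := (valid_cons_iff.1 h).2.2.1

theorem Valid.mem {w : K} {a : Set K} {e : LP K} (h : Valid S ((w, a) :: e)) : a ∈ S.F w :=
  (valid_cons_iff.1 h).1

theorem Valid.sub {w : K} {a : Set K} {e : LP K} (h : Valid S ((w, a) :: e)) :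
    a ⊆ Iio (S.crit w) := fun z hz => ((valid_cons_iff.1 h).2.1 z hz).1

theorem Valid.lt_crit {w : K} {a : Set K} {e : LP K} (h : Valid S ((w, a) :: e)) {z : K}
    (hz : z ∈ a) : rk e < S.crit z := ((valid_cons_iff.1 h).2.1 z hz).2

theorem Valid.rk_cons {w : K} {a : Set K} {e : LP K} (h : Valid S ((w, a) :: e)) :
    rk ((w, a) :: e) = w := by
  rw [WkD.rk_cons]
  exact max_eq_left (h.crit_lt.le.trans (S.crit_le w))

theorem Valid.of_mem_append {l e : LP K} {p : K × Set K} (h : Valid S (l ++ e)) (hp : p ∈ l) :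
    rk e < S.crit p.1 ∧ ∀ z ∈ p.2, rk e < S.crit z := by
  induction l with
  | nil => exact absurd hp List.not_mem_nil
  | cons q l ih =>
    rcases List.mem_cons.1 hp with rfl | hp
    · obtain ⟨w, a⟩ := p
      have h1 : rk e ≤ rk (l ++ e) := by rw [rk_append]; exact le_max_right _ _
      exact ⟨h1.trans_lt (Valid.crit_lt h), fun z hz => h1.trans_lt (Valid.lt_crit h hz)⟩
    · exact ih (Valid.tail h) hp

theorem Valid.node {e : LP K} {p : K × Set K} (h : Valid S e) (hp : p ∈ e) :
    p.2 ∈ S.F p.1 ∧ p.2 ⊆ Iio (S.crit p.1) := by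
  induction e with
  | nil => exact absurd hp List.not_mem_nil
  | cons q e ih =>
    rcases List.mem_cons.1 hp with rfl | hp
    · obtain ⟨w, a⟩ := p
      exact ⟨Valid.mem h, Valid.sub h⟩
    · exact ih (Valid.tail h) hp

theorem Valid.shrink {w : K} {a a' : Set K} {e : LP K} (h : Valid S ((w, a) :: e))
    (ha' : a' ∈ S.F w) (hs : a' ⊆ a) : Valid S ((w, a') :: e) := by
  obtain ⟨_, h2, h3, h4⟩ := valid_cons_iff.1 h
  exact ⟨ha', fun z hz => h2 z (hs hz), h3, h4⟩

/-- put a node with a given set on top of another lower part -/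
theorem Valid.cons_of {w : K} {a : Set K} {e : LP K} (ha : a ∈ S.F w) (he : Valid S e)
    (hr : rk e < S.crit w) :
    Valid S ((w, a ∩ {z | z < S.crit w ∧ rk e < S.crit z}) :: e) := by
  refine ⟨?_, fun z hz => hz.2, hr, he⟩
  refine Filter.inter_mem ha ?_
  exact Filter.inter_mem (S.iio_mem w) (S.tail_mem w _ hr)

theorem Valid.replace {w : K} {a : Set K} {e e' : LP K} (h : Valid S ((w, a) :: e))
    (he' : Valid S e') (hr : rk e' < S.crit w) :
    Valid S ((w, a ∩ {z | rk e' < S.crit z}) :: e') := by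
  refine ⟨Filter.inter_mem h.mem (S.tail_mem w _ hr), fun z hz => ⟨h.sub hz.1, hz.2⟩, hr, he'⟩

theorem Valid.replace_append {l : LP K} {w : K} {a a' : Set K} {e e' : LP K}
    (h : Valid S (l ++ (w, a) :: e)) (h' : Valid S ((w, a') :: e')) :
    Valid S (l ++ (w, a') :: e') := by
  induction l with
  | nil => exact h'
  | cons p l ih =>
    obtain ⟨v, b⟩ := p
    have h0 : Valid S ((v, b) :: (l ++ (w, a) :: e)) := h
    have h4 : Valid S (l ++ (w, a) :: e) := h0.tail
    have h5 : rk (l ++ (w, a') :: e') = rk (l ++ (w, a) :: e) := by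
      rw [rk_append, rk_append, h'.rk_cons, (Valid.of_append h4).rk_cons]
    change Valid S ((v, b) :: (l ++ (w, a') :: e'))
    rw [valid_cons_iff, h5]
    exact ⟨h0.mem, fun z hz => ⟨h0.sub hz, h0.lt_crit hz⟩, h0.crit_lt, ih h4⟩

theorem Ext.rk_le {A : Set K} {e' e : LP K} (h : Ext A e' e) : rk e ≤ rk e' := by
  induction h with
  | nil => exact le_rfl
  | new _ _ _ ih => exact ih.trans (le_max_right _ _)
  | old _ _ ih => exact max_le_max le_rfl ih

theorem Ext.restrict {A : Set K} {e' e : LP K} (h : Ext A e' e) (hv : Valid S e') :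
    Ext {z | z ∈ A ∧ z ≤ rk e' ∧ rk e < S.crit z} e' e := by
  induction h with
  | nil => exact Ext.nil _
  | @new A v a e' e hvA haA h ih =>
    have h1 := (ih hv.tail)
    refine Ext.new ⟨hvA, le_max_left _ _, h.rk_le.trans_lt hv.crit_lt⟩ ?_ (h1.mono ?_)
    · intro z hz
      exact ⟨haA hz, ((hv.sub hz).le.trans (S.crit_le v)).trans (le_max_left _ _),
        h.rk_le.trans_lt (hv.lt_crit hz)⟩
    · rintro z ⟨h2, h3, h4⟩
      exact ⟨h2, h3.trans (le_max_right _ _), h4⟩
  | old ha h _ => exact Ext.old ha h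

theorem Ext.rk_eq {e' e : LP K} (h : Ext ∅ e' e) (hv : Valid S e') (hv' : Valid S e) :
    rk e' = rk e := by
  cases h with
  | nil => rfl
  | new h => exact absurd h (Set.notMem_empty _)
  | old _ _ => rw [hv.rk_cons, hv'.rk_cons]

/-- an extension can be taken with a smaller set if the nodes and their sets lie in it -/
theorem Ext.of_sub {A A' : Set K} {e' e : LP K} (h : Ext A e' e) (hv : Valid S e')
    (hA : ∀ z ∈ A, z ≤ rk e' → rk e < S.crit z → z ∈ A') : Ext A' e' e :=
  (h.restrict hv).mono fun z hz => hA z hz.1 hz.2.1 hz.2.2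

end lower

section meas

variable {K C : Type} [LinearOrder K] [CompleteBooleanAlgebra C] {S : Sys K}

theorem inF_mono {X Y : K → C} (h : ∀ z, X z ≤ Y z) (w : K) : inF S X w ≤ inF S Y w :=
  iSup_mono fun _ => iSup_mono fun _ => iInf_mono fun z => iInf_mono fun _ => h z

theorem inF_inf (X Y : K → C) (w : K) :
    inF S (fun z => X z ⊓ Y z) w = inF S X w ⊓ inF S Y w := by
  apply le_antisymm
  · exact le_inf (inF_mono (fun _ => inf_le_left) w) (inF_mono (fun _ => inf_le_right) w)
  · unfold inF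
    rw [iSup_inf_eq]
    refine iSup_le fun Z => ?_
    rw [inf_iSup_eq]
    refine iSup_le fun Z' => ?_
    rw [iSup_inf_eq]
    refine iSup_le fun hZ => ?_
    rw [inf_iSup_eq]
    refine iSup_le fun hZ' => ?_
    refine le_iSup_of_le (Z ∩ Z') (le_iSup_of_le (Filter.inter_mem hZ hZ') ?_)
    refine le_iInf fun z => le_iInf fun hz => le_inf ?_ ?_
    · exact inf_le_left.trans (iInf_le_of_le z (iInf_le _ hz.1))
    · exact inf_le_right.trans (iInf_le_of_le z (iInf_le _ hz.2))

theorem eqs_le_inF {X : K → C} {w : K} {a : Set K} (ha : a ∈ S.F w) (ha' : a ⊆ Iio (S.crit w)) :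
    eqs X (S.crit w) a ≤ inF S X w := by
  refine le_iSup_of_le a (le_iSup_of_le ha ?_)
  refine le_iInf fun z => le_iInf fun hz => ?_
  refine (iInf_le_of_le z (iInf_le _ (ha' hz))).trans ?_
  rw [lit_true hz]

theorem eqs_le_of_mem {X : K → C} {α : K} {a : Set K} {z : K} (hz : z ∈ a) (hz' : z < α) :
    eqs X α a ≤ X z := by
  refine (iInf_le_of_le z (iInf_le _ hz')).trans ?_
  rw [lit_true hz]

/-- If `b ≠ ⊥`, `b ≤ eqs X α a`, `b ≤ X z` and `z < α` then `z ∈ a`. -/
theorem mem_of_eqs {X : K → C} {α : K} {a : Set K} {z : K} {b : C} (hb : b ≠ ⊥)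
    (h : b ≤ eqs X α a) (h' : b ≤ X z) (hz : z < α) : z ∈ a :=
  of_le_lit hb (h.trans (iInf_le_of_le z (iInf_le _ hz))) h'

end meas

end Pool.Agent.Lib.WkD
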