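import Pool.Agent.Lib.WkD.RO

/-!
# Boolean valued measures, node systems, and the Radin forcing of a Boolean valued measure sequence

`K` is a well-order of inaccessible type, `C` a complete Boolean algebra (the algebra of the first
forcing). A function `X : K → C` is a name of a subset of `K`.
-/

set_option autoImplicit false

namespace Pool.Agent.Lib.WkD

open Set Cardinal

/-! ### Boolean valued measures -/

/-- `m` is a `C`-valued `κ`-complete ultrafilter on `X`: it maps `C`-valued subsets of `X` to
truth values. -/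
structure BMeas {X C : Type} [CompleteBooleanAlgebra C] (κ : Cardinal.{0}) (m : (X → C) → C) :
    Prop where
  const : ∀ b : C, m (fun _ => b) = b
  compl : ∀ A : X → C, m (fun x => (A x)ᶜ) = (m A)ᶜ
  iInf : ∀ (I : Type) (A : I → X → C), #I < κ → m (fun x => ⨅ i, A i x) = ⨅ i, m (A i)

/-- `m` is a `C`-valued measure which is normal with respect to `c : X → K`. -/
structure NormMeas {K X C : Type} [LinearOrder K] [CompleteBooleanAlgebra C] (c : X → K)
    (m : (X → C) → C) : Prop where
  bm : BMeas (#K) m
  tail : ∀ ξ : K, m (fun x => tv C (ξ < c x)) = ⊤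
  diag : ∀ A : K → X → C, m (fun x => ⨅ v, ⨅ _ : v < c x, A v x) = ⨅ v, m (A v)

/-! ### Node systems -/

/-- A node system: every `w` codes an ordinal `crit w` and a filter on the elements below it. -/
structure Sys (K : Type) [LinearOrder K] where
  crit : K → K
  F : K → Filter K
  crit_le : ∀ w, crit w ≤ w
  iio_mem : ∀ w, Iio (crit w) ∈ F w
  tail_mem : ∀ w ξ, ξ < crit w → {z | ξ < crit z} ∈ F w

/-- Boolean value of: the set named by `X` is in the filter of `w`. -/
def inF {K C : Type} [LinearOrder K] [CompleteBooleanAlgebra C] (S : Sys K) (X : K → C) (w : K) :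
    C :=
  ⨆ Z : Set K, ⨆ _ : Z ∈ S.F w, ⨅ z, ⨅ _ : z ∈ Z, X z

/-- Boolean value of: the set named by `X`, intersected with `Iio α`, is `a` intersected with
`Iio α`. -/
noncomputable def eqs {K C : Type} [LinearOrder K] [CompleteBooleanAlgebra C] (X : K → C) (α : K)
    (a : Set K) : C :=
  ⨅ z, ⨅ _ : z < α, lit (z ∈ a) (X z)

/-! ### Lower parts -/

/-- Lists of pairs (node, set), top first. -/
abbrev LP (K : Type) := List (K × Set K)

/-- The largest node. -/
def rk {K : Type} [LinearOrder K] [OrderBot K] : LP K → K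
  | [] => ⊥
  | p :: e => max p.1 (rk e)

/-- Valid lower parts. -/
def Valid {K : Type} [LinearOrder K] [OrderBot K] (S : Sys K) : LP K → Prop
  | [] => True
  | (w, a) :: e => a ∈ S.F w ∧ (∀ z ∈ a, z < S.crit w ∧ rk e < S.crit z) ∧ rk e < S.crit w ∧
      Valid S e

/-- `Ext A e' e`: the lower part `e'` extends `e`; new nodes above the top of `e` (and their sets)
are taken from `A`, new nodes below a node of `e` from the set of that node. -/
inductive Ext {K : Type} : Set K → LP K → LP K → Prop
  | nil (A : Set K) : Ext A [] []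
  | new {A : Set K} {v : K} {a : Set K} {e' e : LP K} :
      v ∈ A → a ⊆ A → Ext A e' e → Ext A ((v, a) :: e') e
  | old {A : Set K} {w : K} {a a' : Set K} {e' e : LP K} :
      a' ⊆ a → Ext a e' e → Ext A ((w, a') :: e') ((w, a) :: e)

/-- The type of valid lower parts. -/
abbrev VLP {K : Type} [LinearOrder K] [OrderBot K] (S : Sys K) := {e : LP K // Valid S e}

namespace Ext

variable {K : Type}

theorem mono {A A' : Set K} {e' e : LP K} (h : Ext A e' e) (hA : A ⊆ A') : Ext A' e' e := by
  induction h generalizing A' with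
  | nil A => exact Ext.nil A'
  | new hv ha _ ih => exact Ext.new (hA hv) (ha.trans hA) (ih hA)
  | old ha h _ => exact Ext.old ha h

theorem refl (A : Set K) (e : LP K) : Ext A e e := by
  induction e generalizing A with
  | nil => exact Ext.nil A
  | cons p e ih => exact Ext.old subset_rfl (ih p.2)

theorem trans {A : Set K} {e'' e' e : LP K} (h : Ext A e'' e') (h' : Ext A e' e) :
    Ext A e'' e := by
  induction e'' generalizing A e' e with
  | nil =>
    cases h
    exact h'
  | cons p e'' ih =>
    cases h with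
    | new hv ha h1 => exact Ext.new hv ha (ih h1 h')
    | old ha h1 =>
      cases h' with
      | new hv ha' h2 => exact Ext.new hv (ha.trans ha') (ih (h1.mono ha') h2)
      | old hb h2 => exact Ext.old (ha.trans hb) (ih (h1.mono hb) h2)

/-- Extensions of a lower part with a top node. -/
theorem cons_iff {A : Set K} {w : K} {a : Set K} {e' e : LP K} :
    Ext A e' ((w, a) :: e) ↔ ∃ (l : LP K) (a' : Set K) (e₁ : LP K),
      e' = l ++ (w, a') :: e₁ ∧ (∀ p ∈ l, p.1 ∈ A ∧ p.2 ⊆ A) ∧ a' ⊆ a ∧ Ext a e₁ e := by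
  constructor
  · intro h
    induction e' generalizing A with
    | nil => cases h
    | cons p e' ih =>
      cases h with
      | new hv ha h1 =>
        obtain ⟨l, a', e₁, h2, h3, h4, h5⟩ := ih h1
        refine ⟨_ :: l, a', e₁, by rw [h2]; rfl, ?_, h4, h5⟩
        intro p hp
        rcases List.mem_cons.1 hp with rfl | hp
        · exact ⟨hv, ha⟩
        · exact h3 p hp
      | old ha h1 => exact ⟨[], _, _, rfl, fun p hp => absurd hp List.not_mem_nil, ha, h1⟩
  · rintro ⟨l, a', e₁, rfl, h3, h4, h5⟩
    induction l with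
    | nil => exact Ext.old h4 h5
    | cons p l ih =>
      obtain ⟨h6, h7⟩ := h3 p List.mem_cons_self
      exact Ext.new h6 h7 (ih fun p hp => h3 p (List.mem_cons_of_mem _ hp))

/-- Extensions of the empty lower part. -/
theorem nil_iff {A : Set K} {e' : LP K} : Ext A e' [] ↔ ∀ p ∈ e', p.1 ∈ A ∧ p.2 ⊆ A := by
  constructor
  · intro h
    induction e' generalizing A with
    | nil => exact fun p hp => absurd hp List.not_mem_nil
    | cons p e' ih =>
      cases h with
      | new hv ha h1 =>
        intro p hp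
        rcases List.mem_cons.1 hp with rfl | hp
        · exact ⟨hv, ha⟩
        · exact ih h1 p hp
  · intro h
    induction e' with
    | nil => exact Ext.nil A
    | cons p e' ih =>
      obtain ⟨h6, h7⟩ := h p List.mem_cons_self
      exact Ext.new h6 h7 (ih fun p hp => h p (List.mem_cons_of_mem _ hp))

end Ext

/-! ### Boolean valued measure sequences and the forcing -/

/-- A `C`-valued measure sequence of length `Θ` (R3: the filter of a node of level `γ` is the
intersection of the measures below `γ`). -/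
structure RSys (K Θ C : Type) [LinearOrder K] [LinearOrder Θ] [CompleteBooleanAlgebra C] where
  S : Sys K
  μ : Θ → (K → C) → C
  meas : ∀ γ, NormMeas S.crit (μ γ)
  r3 : ∀ (γ : Θ) (X : K → C), μ γ (fun w => inF S X w) = ⨅ δ, ⨅ _ : δ < γ, μ δ X

/-- General assumptions on `K`, `Θ` and `C`. -/
structure Setup (K Θ C : Type) [LinearOrder K] [LinearOrder Θ] [CompleteBooleanAlgebra C] :
    Prop where
  inacc : (#K).IsInaccessible
  small : ∀ a : K, #(Iio a) < #K
  nonempty : Nonempty Θ
  noMax : ∀ t : Θ, ∃ s, t < s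
  nontriv : (⊥ : C) ≠ ⊤
  distr : ∀ (J : Type) (c : J → C), #J < #K → ⨆ n : Set J, ⨅ j, lit (j ∈ n) (c j) = ⊤
  reg : ∀ (I : Type) (h : I → Θ → C), #I ≤ #K → (∀ i, ⨆ t, h i t = ⊤) →
    ⨆ t, ⨅ i, ⨆ s, ⨆ _ : s < t, h i s = ⊤

section forcing

variable {K Θ C : Type} [LinearOrder K] [OrderBot K] [LinearOrder Θ] [CompleteBooleanAlgebra C]

/-- Boolean value of: `X` has measure one for all measures below `γ`. -/
def RSys.phi (R : RSys K Θ C) (γ : Θ) (X : K → C) : C := ⨅ δ, ⨅ _ : δ < γ, R.μ δ X

/-- Boolean value of: `X` has measure one for all measures. -/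
def RSys.Phi (R : RSys K Θ C) (X : K → C) : C := ⨅ δ, R.μ δ X

/-- Conditions. -/
structure Cond (R : RSys K Θ C) where
  b : C
  e : LP K
  A : K → C
  ne : b ≠ ⊥
  val : Valid R.S e
  le : b ≤ R.Phi A

instance (R : RSys K Θ C) : Preorder (Cond R) where
  le q p := q.b ≤ p.b ∧ Ext {z | q.b ≤ p.A z} q.e p.e ∧ ∀ z, q.b ⊓ q.A z ≤ p.A z
  le_refl p := ⟨le_rfl, Ext.refl _ _, fun _ => inf_le_right⟩
  le_trans r q p := by
    rintro ⟨h1, h2, h3⟩ ⟨h4, h5, h6⟩
    refine ⟨h1.trans h4, (h2.mono ?_).trans (h5.mono ?_), fun z => ?_⟩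
    · intro z hz
      exact (le_inf h1 hz).trans (h6 z)
    · intro z hz
      exact h1.trans hz
    · exact (le_inf (inf_le_left.trans h1) (h3 z)).trans (h6 z)

/-- The algebra of the forcing. -/
abbrev BR (R : RSys K Θ C) : Type := ROP (Cond R)

theorem cond_le_iff {R : RSys K Θ C} {q p : Cond R} :
    q ≤ p ↔ q.b ≤ p.b ∧ Ext {z | q.b ≤ p.A z} q.e p.e ∧ ∀ z, q.b ⊓ q.A z ≤ p.A z := Iff.rfl

/-- Boolean value of: there is a set `X` such that the condition `(e, X)` forces `s`. -/
noncomputable def dd (R : RSys K Θ C) (e : LP K) (s : BR R) : C :=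
  ⨆ p : Cond R, ⨆ _ : p.e = e ∧ em p ≤ s, p.b

/-- Boolean value of: the node `w` can be put on top of `e` with some set so that `s` is forced. -/
noncomputable def PP (R : RSys K Θ C) (e : LP K) (s : BR R) (w : K) : C :=
  ⨆ a : Set K, ⨆ _ : Valid R.S ((w, a) :: e), dd R ((w, a) :: e) s

/-- The canonical embedding of `C`. -/
noncomputable def iota (R : RSys K Θ C) (c : C) : BR R := ⨆ p : Cond R, ⨆ _ : p.b ≤ c, em p

/-- Boolean value of: the lower part `e` is in the generic filter. -/
noncomputable def ge (R : RSys K Θ C) (e : LP K) : BR R :=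
  ⨆ p : Cond R, ⨆ _ : Ext univ p.e e, em p

/-- Boolean value of: `α` is the critical point of a node of the generic sequence. -/
noncomputable def RE (R : RSys K Θ C) (α : K) : BR R :=
  ⨆ p : Cond R, ⨆ _ : ∃ q ∈ p.e, R.S.crit q.1 = α, em p

end forcing

end Pool.Agent.Lib.WkD
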