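import Pool.Agent.Lib.WkD.OptA
import Pool.Agent.Lib.WkD.FExt

/-!
# One of the two options is good

PROOF. N := Next S φ m is NormMeas (normMeas_next). b ≤ φ A = N (inF S A) (next_inF). Let
EE e₁ := ⨆ c : C, ⨆ _ : Ext {z | c ≤ A z} e₁ e, c.
Pointwise, if rk e < crit w: inF S A w ≤ ⨆ (e₁, t) : VLP × Bool with rk e₁ < crit w, EE e₁ ⊓ val S D Ψ e₁ t w.
Proof: for a ∈ F w let c := ⨅ z ∈ a, A z; wlog a ⊆ Iio (crit w) (replace a by a ∩ Iio (crit w), c grows).
⨆ n, eqv S D w n = ⊤ by Distr (the index type {i // rI S i < crit w} is small, smallRk_rI) so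
c = ⨆ n, c ⊓ eqv S D w n, and by Decided for each n: c ⊓ eqv S D w n ≤ ⨆ e₁, ⨆ _ : (rk e₁ < crit w ∧ Ext a e₁ e),
⨆ t, c ⊓ eqv S D w n ⊓ Ψ w e₁ n t; for such e₁, c ≤ EE e₁ because Ext a e₁ e and a ⊆ {z | c ≤ A z} (mono).
So b ≤ N (w ↦ tv (rk e < crit w) ⊓ inF S A w) ≤ N (w ↦ ⨆ (e₁, t), ⨆ _ : rk e₁ < crit w, EE e₁ ⊓ val S D Ψ e₁ t w) =
⨆ (e₁, t), EE e₁ ⊓ N (val S D Ψ e₁ t) by diagI_sup (rank of (e₁, t): rk e₁; small by smallRk_VLP: use
smallRk_prod with a constant rank ⊥ on Bool, or diagI_sup for e₁ and a binary supremum) and const_inf. So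
there are e₁, t and b₁ ≤ b, b₁ ≠ ⊥ with b₁ ≤ EE e₁ ⊓ N (val ..) and, refining, Ext {z | b₁ ≤ A z} e₁ e.
Let G := N (w ↦ bit ζ (crit w)); N (w ↦ lit (t = true) (bit ζ (crit w))) = lit (t = true) G (BMeas.compl), and
for the second option lit (t = true) Gᶜ (opt_bit, normMeas_next for mtw, nmeas_mtw) = (lit (t = true) G)ᶜ. One
of b₁ ⊓ lit (t = true) G, b₁ ⊓ (lit (t = true) G)ᶜ is ≠ ⊥; take it as b' and the corresponding option (none,
resp. some ζ); use opt_val for the second option. Ext by mono.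
-/

set_option autoImplicit false

namespace Pool.Agent.Lib.WkD

open Set Cardinal

variable {K C : Type} [LinearOrder K] [OrderBot K] [WellFoundedLT K] [CompleteBooleanAlgebra C]
  {m : (Pk (#K) (HH K C) → C) → C} {S : Sys K} {φ : (K → C) → C}
  {Z : Type} {bit : Z → K → C} {π : Z → K → C → C}

namespace OptBAux

/-- the part of the algebra on which the extension `e₁` of `e` is allowed by the name `A` -/
noncomputable def EE (A : K → C) (e₁ e : VLP S) : C :=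
  ⨆ c : C, ⨆ _ : Ext {z | c ≤ A z} e₁.1 e.1, c

theorem le_EE {A : K → C} {e₁ e : VLP S} {c : C} (h : Ext {z | c ≤ A z} e₁.1 e.1) :
    c ≤ EE A e₁ e :=
  le_iSup_of_le c (le_iSup_of_le h le_rfl)

theorem iSup_eqv (hK : (#K).IsInaccessible) (hs : ∀ a : K, #(Iio a) < #K)
    (hd : Distr (#K) C) (D : II S → C) (w : K) : ⨆ n : Nm S w, eqv S D w n = ⊤ := by
  refine hd {i : II S // rI S i < S.crit w} (fun i => D i.1) ?_
  refine lt_of_le_of_lt ?_ (smallRk_rI hK hs S (S.crit w))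
  exact Cardinal.mk_le_of_injective
    (f := fun i : {i : II S // rI S i < S.crit w} =>
      (⟨i.1, i.2.le⟩ : {i : II S // rI S i ≤ S.crit w}))
    (fun i j hij => Subtype.ext (congrArg (fun z => z.1) hij))

/-- the pointwise estimate -/
theorem inF_le (hK : (#K).IsInaccessible) (hs : ∀ a : K, #(Iio a) < #K)
    (hd : Distr (#K) C) (D : II S → C) (Ψ : (w : K) → VLP S → Nm S w → Bool → C)
    (hΨ : Decided S Ψ) (e : VLP S) (A : K → C) (w : K) (hw : rk e.1 < S.crit w) :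
    inF S A w ≤ ⨆ e₁ : VLP S, ⨆ _ : rk e₁.1 < S.crit w,
      ⨆ t : Bool, EE A e₁ e ⊓ val S D Ψ e₁ t w := by
  refine iSup_le fun Z => iSup_le fun hZ => ?_
  have ha : Z ∩ Iio (S.crit w) ∈ S.F w := Filter.inter_mem hZ (S.iio_mem w)
  set a : Set K := Z ∩ Iio (S.crit w) with hadef
  set c : C := ⨅ z, ⨅ _ : z ∈ a, A z with hcdef
  have hc : (⨅ z, ⨅ _ : z ∈ Z, A z) ≤ c :=
    le_iInf fun z => le_iInf fun hz => (iInf_le _ z).trans (iInf_le _ hz.1)
  refine hc.trans ?_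
  have haA : a ⊆ {z | c ≤ A z} := fun z hz => (iInf_le _ z).trans (iInf_le _ hz)
  have h1 : c = ⨆ n : Nm S w, c ⊓ eqv S D w n := by
    rw [← inf_iSup_eq, iSup_eqv hK hs hd D w, inf_top_eq]
  rw [h1]
  refine iSup_le fun n => ?_
  have h2 := hΨ w e n a hw ha inter_subset_right
  have h3 : c ⊓ eqv S D w n = (c ⊓ eqv S D w n) ⊓
      ⨆ e₁ : VLP S, ⨆ _ : rk e₁.1 < S.crit w ∧ Ext a e₁.1 e.1,
        (Ψ w e₁ n true ⊔ Ψ w e₁ n false) := by
    rw [h2, inf_top_eq]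
  rw [h3, inf_iSup_eq]
  refine iSup_le fun e₁ => ?_
  rw [inf_iSup_eq]
  refine iSup_le fun he => ?_
  refine le_iSup_of_le e₁ (le_iSup_of_le he.1 ?_)
  have h4 : ∀ t : Bool, (c ⊓ eqv S D w n) ⊓ Ψ w e₁ n t ≤
      ⨆ t : Bool, EE A e₁ e ⊓ val S D Ψ e₁ t w := by
    intro t
    refine le_iSup_of_le t (le_inf ?_ ?_)
    · exact (inf_le_left.trans inf_le_left).trans (le_EE (he.2.mono haA))
    · exact le_iSup_of_le n (inf_le_inf_right _ inf_le_right)
  rw [inf_sup_left]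
  exact sup_le (h4 true) (h4 false)

/-- the measure of a literal -/
theorem meas_lit {N : (K → C) → C} (hN : NormMeas S.crit N) (p : Prop) (f : K → C) :
    N (fun w => lit p (f w)) = lit p (N f) := by
  by_cases hp : p
  · have h1 : (fun w => lit p (f w)) = f := by
      funext w
      exact lit_true hp _
    rw [h1, lit_true hp]
  · have h1 : (fun w => lit p (f w)) = fun w => (f w)ᶜ := by
      funext w
      exact lit_false hp _
    rw [h1, lit_false hp, hN.bm.compl]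

theorem lit_of_compl (p : Prop) (b : C) : lit p bᶜ = (lit p b)ᶜ := by
  by_cases hp : p
  · rw [lit_true hp, lit_true hp]
  · rw [lit_false hp, lit_false hp]

end OptBAux

open OptBAux

theorem option_lemma (hK : (#K).IsInaccessible) (hs : ∀ a : K, #(Iio a) < #K)
    (hd : Distr (#K) C) (hS : FullSys S) (hm : NMeas (#K) (HH K C) C m) (hφ : PhiOK S φ)
    (h : Flip bit π) (ζ : Z) (D : II S → C) (Ψ : (w : K) → VLP S → Nm S w → Bool → C)
    (hΨ : Decided S Ψ) (hinv : ∀ w e n t α, π ζ α (Ψ w e n t) = Ψ w e n t)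
    {b : C} (hb : b ≠ ⊥) (e : VLP S) (A : K → C) (hA : b ≤ φ A) :
    ∃ b' ≤ b, b' ≠ ⊥ ∧ ∃ (e₁ : VLP S) (t : Bool) (i : Option Z), (i = none ∨ i = some ζ) ∧
      Ext {z | b' ≤ A z} e₁.1 e.1 ∧
      b' ≤ Next S φ (mop π m i) (fun w => val S D Ψ e₁ t w) ∧
      b' ≤ Next S φ (mop π m i) (fun w => lit (t = true) (bit ζ (S.crit w))) := by
  have hκ := hK.isRegular.aleph0_le
  have hN := normMeas_next hK hs hd hS hm hφ
  have hN' := normMeas_next hK hs hd hS (nmeas_mtw hκ hs hm h ζ) hφ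
  have h1 : b ≤ ⨆ e₁ : VLP S, ⨆ t : Bool,
      EE A e₁ e ⊓ Next S φ m (fun w => val S D Ψ e₁ t w) := by
    calc b ≤ φ A := hA
      _ = Next S φ m (fun w => inF S A w) := (next_inF hK hs hd hS hm hφ A).symm
      _ ≤ Next S φ m (fun w => ⨆ e₁ : VLP S, ⨆ _ : rk e₁.1 < S.crit w,
            ⨆ t : Bool, EE A e₁ e ⊓ val S D Ψ e₁ t w) := by
          refine hN.bm.mono_ae hκ (hN.tail (rk e.1)) fun w => ?_
          rw [tv_inf_le_iff]
          exact inF_le hK hs hd D Ψ hΨ e A w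
      _ = ⨆ e₁ : VLP S, Next S φ m (fun w => ⨆ t : Bool, EE A e₁ e ⊓ val S D Ψ e₁ t w) :=
          hN.diagI_sup (fun e₁ : VLP S => rk e₁.1) (smallRk_VLP hK hs S)
            (fun e₁ w => ⨆ t : Bool, EE A e₁ e ⊓ val S D Ψ e₁ t w)
      _ = ⨆ e₁ : VLP S, ⨆ t : Bool,
            EE A e₁ e ⊓ Next S φ m (fun w => val S D Ψ e₁ t w) := by
          refine iSup_congr fun e₁ => ?_
          have h2 : #Bool < #K := by
            rw [Cardinal.mk_bool]
            exact (Cardinal.natCast_lt_aleph0 (n := 2)).trans_le hκ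
          have h3 := hN.bm.iSup Bool (fun t w => EE A e₁ e ⊓ val S D Ψ e₁ t w) h2
          refine h3.trans ?_
          refine iSup_congr fun t => ?_
          exact hN.bm.const_inf hκ (fun w => val S D Ψ e₁ t w) (EE A e₁ e)
  obtain ⟨e₁, h2⟩ := exists_inf_ne_bot hb h1
  obtain ⟨t, h3⟩ := exists_inf_ne_bot h2 inf_le_right
  have h4 : b ⊓ (⨆ t : Bool, EE A e₁ e ⊓ Next S φ m (fun w => val S D Ψ e₁ t w)) ⊓
      (EE A e₁ e ⊓ Next S φ m (fun w => val S D Ψ e₁ t w)) ≤ ⨆ c : C,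
        ⨆ _ : Ext {z | c ≤ A z} e₁.1 e.1, c := inf_le_right.trans inf_le_left
  obtain ⟨c, h5⟩ := exists_inf_ne_bot h3 h4
  have hE : Ext {z | c ≤ A z} e₁.1 e.1 := by
    by_contra hcon
    apply h5
    rw [iSup_neg hcon, inf_bot_eq]
  rw [iSup_pos hE] at h5
  set b₃ : C := b ⊓ (⨆ t : Bool, EE A e₁ e ⊓ Next S φ m (fun w => val S D Ψ e₁ t w)) ⊓
      (EE A e₁ e ⊓ Next S φ m (fun w => val S D Ψ e₁ t w)) ⊓ c with hb₃
  have hb₃b : b₃ ≤ b := (inf_le_left.trans inf_le_left).trans inf_le_left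
  have hb₃v : b₃ ≤ Next S φ m (fun w => val S D Ψ e₁ t w) :=
    (inf_le_left.trans inf_le_right).trans inf_le_right
  have hb₃c : b₃ ≤ c := inf_le_right
  have hE₃ : ∀ b' ≤ b₃, Ext {z | b' ≤ A z} e₁.1 e.1 := fun b' hb' =>
    hE.mono fun z hz => (hb'.trans hb₃c).trans hz
  set G : C := Next S φ m (fun w => bit ζ (S.crit w)) with hG
  have hL : Next S φ m (fun w => lit (t = true) (bit ζ (S.crit w))) = lit (t = true) G :=
    meas_lit hN (t = true) (fun w => bit ζ (S.crit w))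
  have hL' : Next S φ (mtw π m ζ) (fun w => lit (t = true) (bit ζ (S.crit w))) =
      (lit (t = true) G)ᶜ := by
    rw [meas_lit hN' (t = true) (fun w => bit ζ (S.crit w)),
      opt_bit hK hs hd hS hm hφ h ζ, lit_of_compl]
  by_cases hcase : b₃ ⊓ lit (t = true) G = ⊥
  · have h6 : b₃ ≤ (lit (t = true) G)ᶜ := by
      rw [← disjoint_iff] at hcase
      exact hcase.le_compl_right
    refine ⟨b₃, hb₃b, h5, e₁, t, some ζ, Or.inr rfl, hE₃ b₃ le_rfl, ?_, ?_⟩
    · show b₃ ≤ Next S φ (mtw π m ζ) (fun w => val S D Ψ e₁ t w)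
      rw [opt_val hK hs hd hS hm hφ h ζ D Ψ hinv e₁ t]
      exact hb₃v
    · show b₃ ≤ Next S φ (mtw π m ζ) (fun w => lit (t = true) (bit ζ (S.crit w)))
      rw [hL']
      exact h6
  · refine ⟨b₃ ⊓ lit (t = true) G, inf_le_left.trans hb₃b, hcase, e₁, t, none, Or.inl rfl,
      hE₃ _ inf_le_left, ?_, ?_⟩
    · exact inf_le_left.trans hb₃v
    · show b₃ ⊓ lit (t = true) G ≤ Next S φ m (fun w => lit (t = true) (bit ζ (S.crit w)))
      rw [hL]
      exact inf_le_right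

end Pool.Agent.Lib.WkD
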