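import Pool.Agent.Lib.WkD.Glue
import Pool.Agent.Lib.WkD.OptB

/-!
# The guessing property of the constructed sequence

Here Z = Θ. hΘ: Θ is large: no subset of size ≤ #K is everything.
PROOF. Let Ψ be decided, b₀ ≠ ⊥; exists_em: em (p,h₀) ≤ b₀. The index type Σ w, VLP S × Nm S w × Bool has size
≤ #K (#(Nm S w) < #K: strong limit and smallRk_rI; VLP: mk_le_of_smallRk). exists_Dc: h₁ ≤ h₀ and Ψ₀ with
Dc h₁ (Ψ w e n t) (Ψ₀ w e n t). For each of the at most #K values the set of ζ with ∃ α, π ζ α (Ψ₀ ..) ≠ Ψ₀ .. has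
size ≤ #K (flip.supp); the union has size ≤ #K < #Θ, so there is ζ with π ζ α (Ψ₀ w e n t) = Ψ₀ w e n t always.
b₁ := em (p,h₁) ≤ em (p,h₀) ≤ b₀. Ψ₀ is Decided: the supremum for Ψ is ⊤, Dc h₁ (sup Ψ) (sup Ψ₀) (Dc.iSup,
Dc.sup), Dc.top, Dc.unique. Now let D, b ≤ b₁, b ≠ ⊥, e, A, b ≤ Phi A, β₀. exists_em for b, and compat_of with
(p,h₁) (em .. ≤ b ≤ em (p,h₁)): (p₃,h₃) with em (p₃,h₃) ≤ b, h₃ ≤ h₁. Qs.exists_len: h₄ ≤ h₃, β₀ < h₄.len. exists_Dc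
for D and A (index II S ⊕ K, #(II S) ≤ #K): h₅ ≤ h₄, D₀, A₀. β := h₅.len ≥ β₀. φ A' := ⨅ δ, ⨅ _ : δ < β, seqm h₅.t δ A';
PhiOK (phiOK_seqm). em p₃ ≤ φ A₀: for δ < β: em (p₃,h₅) ≤ b ≤ Phi A ≤ gmu δ A, Dc_gmu (δ < h₅.len). option_lemma
for em p₃, D₀, Ψ₀, e, A₀: c ≤ em p₃, c ≠ ⊥, e₁, t, i. exists_em for c and compat_of with p₃: p₄ with em p₄ ≤ c,
p₄ ≤ p₃. Qs.exists_push: h₆ ≤ h₅, β < h₆.len, h₆.t β = i. b' := em (p₄,h₆) ≤ em (p₃,h₅) ≤ em (p₃,h₃) ≤ b. Ext: c ≤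
A₀ z gives em p₄ ≤ A₀ z gives em (p₄,h₆) ≤ A z (Dc with h₆ ≤ h₅); mono. Values: Dc h₆ (val S D Ψ e₁ t w)
(val S D₀ Ψ₀ e₁ t w) (Dc.iSup, Dc.inf, Dc.iInf, Dc.lit). Dc_gmu with β < h₆.len: em (p₄,h₆) ≤ gmu β (val ..) iff
em p₄ ≤ seqm h₆.t β (val S D₀ Ψ₀ e₁ t), and seqm h₆.t β = Next S φ (mop π m i) (seqm_eq; for δ < β seqm h₆.t δ =
seqm h₅.t δ by seqm_congr). So it follows from em p₄ ≤ c and option_lemma. The same for the bit: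
Dc h₆ (lit (t = true) (jj (bit ζ α))) (lit (t = true) (bit ζ α)) (Dc_jj).
-/

set_option autoImplicit false

namespace Pool.Agent.Lib.WkD

open Set Cardinal

variable {K Θ P₀ : Type} [LinearOrder K] [OrderBot K] [WellFoundedLT K] [LinearOrder Θ]
  [WellFoundedLT Θ] [Preorder P₀] {S : Sys K} {bit : Θ → K → ROP P₀}
  {π : Θ → K → ROP P₀ → ROP P₀} {m : (Pk (#K) (HH K (ROP P₀)) → ROP P₀) → ROP P₀}

namespace GuessCAux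

/-- the next measure after adding the option `i` -/
theorem seq_push {h₅ h₆ : Qs Θ Θ} {i : Option Θ} (h65 : h₆ ≤ h₅) (ht6 : h₆.t h₅.len = i) :
    seqm S π m h₆.t h₅.len =
      Next S (fun A' => ⨅ δ : Θ, ⨅ _ : δ < h₅.len, seqm S π m h₅.t δ A') (mop π m i) := by
  have h1 : ∀ δ, δ < h₅.len → seqm S π m h₆.t δ = seqm S π m h₅.t δ := fun δ hδ =>
    seqm_congr S π m h₆.t h₅.t δ (fun δ' hδ' => h65.2 δ' (hδ'.trans_lt hδ))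
  have h2 : (fun A' : K → ROP P₀ => ⨅ δ : Θ, ⨅ _ : δ < h₅.len, seqm S π m h₆.t δ A') =
      (fun A' => ⨅ δ : Θ, ⨅ _ : δ < h₅.len, seqm S π m h₅.t δ A') := by
    funext A'
    exact iInf_congr fun δ => iInf_congr fun hδ => by rw [h1 δ hδ]
  rw [seqm_eq, ht6, h2]

theorem mk_Nm (hB : Base Θ S bit π m) (w : K) : #(Nm S w) ≤ #K := by
  have h1 : #{i : II S // rI S i < S.crit w} < #K := by
    refine lt_of_le_of_lt ?_ (smallRk_rI hB.inacc hB.small S (S.crit w))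
    exact Cardinal.mk_le_of_injective
      (f := fun i : {i : II S // rI S i < S.crit w} =>
        (⟨i.1, i.2.le⟩ : {i : II S // rI S i ≤ S.crit w}))
      (fun i j hij => Subtype.ext (congrArg (fun z => z.1) hij))
  rw [mk_set]
  exact (hB.inacc.isStrongPrelimit h1).le

/-- the indices of the values of `Ψ` -/
abbrev Ix {K : Type} [LinearOrder K] [OrderBot K] (S : Sys K) :=
  Σ w : K, VLP S × Nm S w × Bool

theorem mk_Ix (hB : Base Θ S bit π m) : #(Ix S) ≤ #K := by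
  have hκ : ℵ₀ ≤ #K := hB.inacc.isRegular.aleph0_le
  have hVLP : #(VLP S) ≤ #K := mk_le_of_smallRk hκ (smallRk_VLP hB.inacc hB.small S)
  have hBool : #Bool ≤ #K := by
    rw [Cardinal.mk_bool]
    exact ((Cardinal.natCast_lt_aleph0 (n := 2)).le).trans hκ
  rw [Cardinal.mk_sigma]
  refine (Cardinal.sum_le_sum _ (fun _ => #K) fun w => ?_).trans ?_
  · rw [mk_prod, lift_id, lift_id, mk_prod, lift_id, lift_id]
    calc #(VLP S) * (#(Nm S w) * #Bool) ≤ #K * (#K * #K) :=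
          mul_le_mul' hVLP (mul_le_mul' (mk_Nm hB w) hBool)
      _ = #K := by rw [Cardinal.mul_eq_self hκ, Cardinal.mul_eq_self hκ]
  · rw [Cardinal.sum_const', Cardinal.mul_eq_self hκ]

theorem exists_zeta (hB : Base Θ S bit π m) (hΘ : #K < #Θ) (Y : Ix S → ROP P₀) :
    ∃ ζ : Θ, ∀ (i : Ix S) (α : K), π ζ α (Y i) = Y i := by
  have hκ : ℵ₀ ≤ #K := hB.inacc.isRegular.aleph0_le
  by_contra hcon
  push Not at hcon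
  choose i α hiα using hcon
  have h1 : #Θ ≤ #(Σ j : Ix S, {ζ : Θ // ∃ α, π ζ α (Y j) ≠ Y j}) := by
    refine Cardinal.mk_le_of_injective
      (f := fun ζ : Θ => (⟨i ζ, ⟨ζ, α ζ, hiα ζ⟩⟩ :
        Σ j : Ix S, {ζ : Θ // ∃ α, π ζ α (Y j) ≠ Y j})) ?_
    intro ζ ζ' h
    exact congrArg (fun z : (Σ j : Ix S, {ζ : Θ // ∃ α, π ζ α (Y j) ≠ Y j}) => z.2.1) h
  have h2 : #(Σ j : Ix S, {ζ : Θ // ∃ α, π ζ α (Y j) ≠ Y j}) ≤ #K := by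
    rw [Cardinal.mk_sigma]
    refine (Cardinal.sum_le_sum _ (fun _ => #K) fun j => hB.flip.supp (Y j)).trans ?_
    rw [Cardinal.sum_const, lift_id, lift_id]
    calc #(Ix S) * #K ≤ #K * #K := mul_le_mul' (mk_Ix hB) le_rfl
      _ = #K := Cardinal.mul_eq_self hκ
  exact absurd hΘ (not_lt.2 (h1.trans h2))

theorem decided_of {h₁ : Qs Θ Θ} {Ψ : (w : K) → VLP S → Nm S w → Bool → ROP (P₀ × Qs Θ Θ)}
    {Ψ₀ : (w : K) → VLP S → Nm S w → Bool → ROP P₀} (hΨ : Decided S Ψ)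
    (hDc : ∀ w e n t, Dc h₁ (Ψ w e n t) (Ψ₀ w e n t)) : Decided S Ψ₀ := by
  intro w e n a he ha hsub
  have h1 := hΨ w e n a he ha hsub
  have h2 : Dc h₁ (⨆ e₁ : VLP S, ⨆ _ : rk e₁.1 < S.crit w ∧ Ext a e₁.1 e.1,
      (Ψ w e₁ n true ⊔ Ψ w e₁ n false))
      (⨆ e₁ : VLP S, ⨆ _ : rk e₁.1 < S.crit w ∧ Ext a e₁.1 e.1,
      (Ψ₀ w e₁ n true ⊔ Ψ₀ w e₁ n false)) :=
    Dc.iSup fun e₁ => Dc.iSup fun _ => (hDc w e₁ n true).sup (hDc w e₁ n false)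
  rw [h1] at h2
  exact h2.unique (Dc.top h₁)

theorem core (hB : Base Θ S bit π m) (ζ : Θ)
    {Ψ : (w : K) → VLP S → Nm S w → Bool → ROP (P₀ × Qs Θ Θ)}
    {Ψ₀ : (w : K) → VLP S → Nm S w → Bool → ROP P₀} (hdec : Decided S Ψ₀) {h₁ : Qs Θ Θ}
    (hDc : ∀ w e n t, Dc h₁ (Ψ w e n t) (Ψ₀ w e n t))
    (hinv : ∀ w e n t α, π ζ α (Ψ₀ w e n t) = Ψ₀ w e n t) {p : P₀}
    (D : II S → ROP (P₀ × Qs Θ Θ)) {b : ROP (P₀ × Qs Θ Θ)} (hb : b ≤ em (p, h₁)) (hb0 : b ≠ ⊥)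
    (e : VLP S) (A : K → ROP (P₀ × Qs Θ Θ)) (hA : ∀ δ, b ≤ gmu S π m δ A) (β₀ : Θ) :
    ∃ β, β₀ ≤ β ∧ ∃ b' ≤ b, b' ≠ ⊥ ∧
      ∃ (e₁ : VLP S) (t : Bool), Ext {z | b' ≤ A z} e₁.1 e.1 ∧
        b' ≤ gmu S π m β (fun w => val S D Ψ e₁ t w) ∧
        b' ≤ gmu S π m β (fun w => lit (t = true) (jj (bit ζ (S.crit w)))) := by
  have hκ : ℵ₀ ≤ #K := hB.inacc.isRegular.aleph0_le
  have hchain : ChainClosed (Order.succ (#K)) (Qs Θ Θ) := chainClosed_Qs hB.bdd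
  have hII : #(II S) ≤ #K := mk_le_of_smallRk hκ (smallRk_rI hB.inacc hB.small S)
  obtain ⟨q, hq⟩ := exists_em hb0
  obtain ⟨r, hr1, hr2⟩ := compat_of (p := q) (q := (p, h₁)) (by
    rw [inf_eq_left.2 (hq.trans hb)]
    exact em_ne_bot q)
  obtain ⟨p₃, h₃⟩ := r
  have h3b : em (p₃, h₃) ≤ b := (em_mono hr1).trans hq
  have h31 : h₃ ≤ h₁ := hr2.2
  obtain ⟨h₄, h43, hlen⟩ := Qs.exists_len hB.noMax h₃ β₀
  have hI2 : #(II S ⊕ K) ≤ #K := by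
    rw [mk_sum, lift_id, lift_id]
    calc #(II S) + #K ≤ #K + #K := add_le_add hII le_rfl
      _ = #K := Cardinal.add_eq_self hκ
  obtain ⟨h₅, h54, Y, hY⟩ := exists_Dc hκ hB.cc hchain hI2 (Sum.elim D A) h₄
  have hD : ∀ i : II S, Dc h₅ (D i) (Y (Sum.inl i)) := fun i => hY (Sum.inl i)
  have hA0 : ∀ z : K, Dc h₅ (A z) (Y (Sum.inr z)) := fun z => hY (Sum.inr z)
  have h53 : h₅ ≤ h₃ := h54.trans h43
  have hβ : β₀ ≤ h₅.len := hlen.le.trans h54.1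
  have hm : em p₃ ≤ ⨅ δ : Θ, ⨅ _ : δ < h₅.len, seqm S π m h₅.t δ (fun z => Y (Sum.inr z)) := by
    refine le_iInf fun δ => le_iInf fun hδ => ?_
    refine ((Dc_gmu (S := S) (π := π) (m := m) hδ hA0) p₃ h₅ le_rfl).1 ?_
    have h5 : ((p₃, h₅) : P₀ × Qs Θ Θ) ≤ (p₃, h₃) := ⟨le_rfl, h53⟩
    exact ((em_mono h5).trans h3b).trans (hA δ)
  obtain ⟨c, hc, hc0, e₁, t, i, -, hE, hv, hbit⟩ :=
    option_lemma hB.inacc hB.small hB.distr hB.full hB.nm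
      (phiOK_seqm hB.inacc hB.small hB.distr hB.full hB.nm hB.flip h₅.t h₅.len) hB.flip ζ
      (fun i => Y (Sum.inl i)) Ψ₀ hdec hinv (em_ne_bot p₃) e (fun z => Y (Sum.inr z)) hm
  obtain ⟨q', hq'⟩ := exists_em hc0
  obtain ⟨p₄, h41, h42⟩ := compat_of (p := q') (q := p₃) (by
    rw [inf_eq_left.2 (hq'.trans hc)]
    exact em_ne_bot q')
  have hp4c : em p₄ ≤ c := (em_mono h41).trans hq'
  obtain ⟨h₆, h65, hβ6, ht6⟩ := Qs.exists_push hB.noMax h₅ i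
  have hseq := seq_push (S := S) (π := π) (m := m) h65 ht6
  have h6 : ((p₄, h₆) : P₀ × Qs Θ Θ) ≤ (p₃, h₃) := ⟨h42, h65.trans h53⟩
  refine ⟨h₅.len, hβ, em (p₄, h₆), (em_mono h6).trans h3b, em_ne_bot _, e₁, t, ?_, ?_, ?_⟩
  · refine hE.mono fun z hz => ?_
    exact (hA0 z p₄ h₆ h65).2 (hp4c.trans hz)
  · have hval : ∀ w, Dc h₆ (val S D Ψ e₁ t w)
        (val S (fun i => Y (Sum.inl i)) Ψ₀ e₁ t w) := by
      intro w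
      refine Dc.iSup fun n => Dc.inf ?_ ((hDc w e₁ n t).mono (h65.trans (h53.trans h31)))
      exact Dc.iInf fun j => Dc.lit _ ((hD j.1).mono h65)
    refine ((Dc_gmu (S := S) (π := π) (m := m) hβ6 hval) p₄ h₆ le_rfl).2 ?_
    rw [hseq]
    exact hp4c.trans hv
  · have hval : ∀ w, Dc h₆ (lit (t = true) (jj (bit ζ (S.crit w)) : ROP (P₀ × Qs Θ Θ)))
        (lit (t = true) (bit ζ (S.crit w))) := fun w => Dc.lit _ (Dc_jj _ _)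
    refine ((Dc_gmu (S := S) (π := π) (m := m) hβ6 hval) p₄ h₆ le_rfl).2 ?_
    rw [hseq]
    exact hp4c.trans hbit

theorem all (hB : Base Θ S bit π m) (hΘ : #K < #Θ)
    (Ψ : (w : K) → VLP S → Nm S w → Bool → ROP (P₀ × Qs Θ Θ)) (hΨ : Decided S Ψ)
    {b₀ : ROP (P₀ × Qs Θ Θ)} (hb₀ : b₀ ≠ ⊥) :
    ∃ b₁ ≤ b₀, b₁ ≠ ⊥ ∧ ∃ ζ : Θ, ∀ D : II S → ROP (P₀ × Qs Θ Θ), ∀ b ≤ b₁, b ≠ ⊥ →
      ∀ e : VLP S, ∀ A : K → ROP (P₀ × Qs Θ Θ), (∀ δ, b ≤ gmu S π m δ A) → ∀ β₀ : Θ,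
      ∃ β, β₀ ≤ β ∧ ∃ b' ≤ b, b' ≠ ⊥ ∧
        ∃ (e₁ : VLP S) (t : Bool), Ext {z | b' ≤ A z} e₁.1 e.1 ∧
          b' ≤ gmu S π m β (fun w => val S D Ψ e₁ t w) ∧
          b' ≤ gmu S π m β (fun w => lit (t = true) (jj (bit ζ (S.crit w)))) := by
  have hκ : ℵ₀ ≤ #K := hB.inacc.isRegular.aleph0_le
  have hchain : ChainClosed (Order.succ (#K)) (Qs Θ Θ) := chainClosed_Qs hB.bdd
  obtain ⟨x, hp⟩ := exists_em hb₀
  obtain ⟨p, h₀⟩ := x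
  obtain ⟨h₁, hh₁, Ψ₀, hΨ₀⟩ := exists_Dc hκ hB.cc hchain (mk_Ix hB)
    (fun i : Ix S => Ψ i.1 i.2.1 i.2.2.1 i.2.2.2) h₀
  have hDc : ∀ (w : K) (e : VLP S) (n : Nm S w) (t : Bool),
      Dc h₁ (Ψ w e n t) (Ψ₀ ⟨w, e, n, t⟩) := fun w e n t => hΨ₀ ⟨w, e, n, t⟩
  obtain ⟨ζ, hζ⟩ := exists_zeta hB hΘ Ψ₀
  have h1 : ((p, h₁) : P₀ × Qs Θ Θ) ≤ (p, h₀) := ⟨le_rfl, hh₁⟩
  refine ⟨em (p, h₁), (em_mono h1).trans hp, em_ne_bot _, ζ, ?_⟩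
  intro D b hb hb0 e A hA β₀
  exact core hB ζ (Ψ₀ := fun w e n t => Ψ₀ ⟨w, e, n, t⟩) (decided_of hΨ hDc) hDc
    (fun w e n t α => hζ ⟨w, e, n, t⟩ α) D hb hb0 e A hA β₀

end GuessCAux

theorem guess_C (hB : Base Θ S bit π m) (hΘ : #K < #Θ) :
    Guess (RG hB) (fun (ζ : Θ) (α : K) => (jj (bit ζ α) : ROP (P₀ × Qs Θ Θ))) := by
  intro Ψ hΨ b₀ hb₀
  obtain ⟨b₁, h1, h2, ζ, h3⟩ := GuessCAux.all hB hΘ Ψ hΨ hb₀
  refine ⟨b₁, h1, h2, ζ, ?_⟩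
  intro D b hb hb0 e A hA β₀
  exact h3 D b hb hb0 e A (fun δ => hA.trans (iInf_le _ δ)) β₀

end Pool.Agent.Lib.WkD
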