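import Pool.Agent.Lib.WkD.AddFlip
import Pool.Agent.Lib.WkD.DcL

/-!
# Different Cohen sets are different

PROOF. Suppose the infimum is ≠ ⊥; exists_em: em (p,q) ≤ it. The domain of p has size < #K and j is injective,
so there is ξ : K with j (η, ξ) and j (η', ξ) not in the domain of p (otherwise K would inject into two copies
of it; #K is infinite). Extend p to p' with value true at j (η, ξ) and false at j (η', ξ) (AddC.set twice,
j (η, ξ) ≠ j (η', ξ)). em (p',q) ≤ bi (jj (bitA ..)) (jj (bitA ..)); em (p',q) ≤ jj (bitA (j (η, ξ))) by em_le_jj,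
em_le_bitA; so em (p',q) ≤ jj (bitA (j (η', ξ))) (le_bi_iff), so p' (j (η', ξ)) = some true: contradiction.
-/

set_option autoImplicit false

namespace Pool.Agent.Lib.WkD

open Set Cardinal

namespace HxCAux

theorem exists_none {K Λ J : Type} (hK : ℵ₀ ≤ #K) (j : Λ × K → J)
    (hj : Function.Injective j) (η η' : Λ) (p : AddC (#K) J) :
    ∃ ξ : K, p.1 (j (η, ξ)) = none ∧ p.1 (j (η', ξ)) = none := by
  classical
  by_contra hcon
  push Not at hcon
  have hle : #K ≤ #({i // p.1 i ≠ none} ⊕ {i // p.1 i ≠ none}) := by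
    refine Cardinal.mk_le_of_injective
      (f := fun ξ : K => if hx : p.1 (j (η, ξ)) = none then
        (Sum.inr ⟨j (η', ξ), hcon ξ hx⟩ : {i // p.1 i ≠ none} ⊕ {i // p.1 i ≠ none})
        else Sum.inl ⟨j (η, ξ), hx⟩) ?_
    intro a b hab
    simp only at hab
    split_ifs at hab with ha hb hb
    · have h3 := congrArg Subtype.val (Sum.inr_injective hab)
      exact congrArg Prod.snd (hj h3)
    · have h3 := congrArg Subtype.val (Sum.inl_injective hab)
      exact congrArg Prod.snd (hj h3)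
  rw [mk_sum, lift_id] at hle
  exact absurd (hle.trans_lt (add_lt_of_lt hK p.2 p.2)) (lt_irrefl _)

open Classical in
theorem exists_ext {K Λ J : Type} (hK : ℵ₀ ≤ #K) (j : Λ × K → J)
    (hj : Function.Injective j) (η η' : Λ) (h : η ≠ η') (p : AddC (#K) J) (ξ : K)
    (h1 : p.1 (j (η, ξ)) = none) (h2 : p.1 (j (η', ξ)) = none) :
    ∃ p' ≤ p, p'.1 (j (η, ξ)) = some true ∧ p'.1 (j (η', ξ)) = some false := by
  obtain ⟨h3, h4⟩ := AddC.set_le hK p (j (η, ξ)) true h1
  have hne' : j (η', ξ) ≠ j (η, ξ) := fun h5 => h (congrArg Prod.fst (hj h5)).symm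
  have h5 : (AddC.set hK p (j (η, ξ)) true).1 (j (η', ξ)) = none := by
    show Function.update p.1 (j (η, ξ)) (some true) (j (η', ξ)) = none
    rw [Function.update_of_ne hne', h2]
  obtain ⟨h6, h7⟩ := AddC.set_le hK (AddC.set hK p (j (η, ξ)) true) (j (η', ξ)) false h5
  have h8 : (AddC.set hK (AddC.set hK p (j (η, ξ)) true) (j (η', ξ)) false).1 (j (η, ξ)) =
      some true := by
    rw [h6 (j (η, ξ)) (by rw [h4]; exact Option.some_ne_none _), h4]
  exact ⟨_, h6.trans h3, h8, h7⟩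

theorem le_jj_of {κ : Cardinal.{0}} {J Q : Type} [Preorder Q] (hκ : ℵ₀ ≤ κ) (i : J)
    (p : AddC κ J) (q : Q) (h8 : p.1 i = some true) :
    (em (p, q) : ROP (AddC κ J × Q)) ≤ jj (bitA i) :=
  em_le_jj.2 ((em_le_bitA hκ).2 h8)

theorem of_le_jj {κ : Cardinal.{0}} {J Q : Type} [Preorder Q] (hκ : ℵ₀ ≤ κ) (i : J)
    (p : AddC κ J) (q : Q) (h8 : (em (p, q) : ROP (AddC κ J × Q)) ≤ jj (bitA i)) :
    p.1 i = some true := by
  have h9 := (em_le_jj (x := (p, q)) (c := bitA i)).1 h8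
  exact (em_le_bitA hκ).1 h9

theorem le_of_bi {C : Type} [CompleteBooleanAlgebra C] {x a b : C}
    (h8 : x ≤ a) (h9 : x ≤ bi a b) : x ≤ b :=
  (le_inf le_rfl h8).trans (le_bi_iff.1 h9).1

end HxCAux

theorem hx_C {K Λ J Q : Type} [LinearOrder K] [Preorder Q] (hK : ℵ₀ ≤ #K) (j : Λ × K → J)
    (hj : Function.Injective j) (η η' : Λ) (h : η ≠ η') :
    ⨅ ξ : K, bi (jj (bitA (j (η, ξ))) : ROP (AddC (#K) J × Q)) (jj (bitA (j (η', ξ)))) = ⊥ := by
  by_contra hne
  obtain ⟨⟨p, q⟩, hpq⟩ := exists_em hne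
  obtain ⟨ξ, h1, h2⟩ := HxCAux.exists_none hK j hj η η' p
  obtain ⟨p', h3, h4, h5⟩ := HxCAux.exists_ext hK j hj η η' h p ξ h1 h2
  have h6 : (em (p', q) : ROP (AddC (#K) J × Q)) ≤ em (p, q) :=
    em_mono (show (p', q) ≤ (p, q) from ⟨h3, le_rfl⟩)
  have h9 : (em (p', q) : ROP (AddC (#K) J × Q)) ≤
      bi (jj (bitA (j (η, ξ)))) (jj (bitA (j (η', ξ)))) :=
    (h6.trans hpq).trans (iInf_le _ ξ)
  have h10 := HxCAux.of_le_jj hK _ p' q (HxCAux.le_of_bi (HxCAux.le_jj_of hK _ p' q h4) h9)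
  rw [h5] at h10
  exact Bool.false_ne_true (Option.some.inj h10)

end Pool.Agent.Lib.WkD
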