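import Pool.Agent.Lib.WkD.MClub

/-!
# Failure of diamond in the quotient model

PROOF SKETCH. Suppose Diamond holds in U with S = q U S0. Let
 S' α ξ := bv (fun U => ∃ s, App S0 (ck α) s ∧ E (ck ξ) s). BNotDiamond applied to S' gives
⨆ x, ⨆ X, (BClub X ⊓ ⨅ α, (X α ⇨ (⨅ ξ < α, bi (x ξ) (S' α ξ))ᶜ)) = ⊤ ∈ U. of_iSup twice with P = False
(BV.const) and Q U = (S0 is a diamond sequence for lamN in U) (BV, BV.isFunOn etc.): fix x, X. Apply
the diamond property in U to the set q U (subN ck x) (subset of lamN by of_mem_subN) and the closed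
unbounded set q U (subN ck X) (isClub_subN): get a, s with a in subN ck X, App S0 a s, and
s = subN ck x ∩ a. Case analysis (of_mem_subN on a = q U A, all statements as BV predicates): a = ck α with
X α ∈ U. Then (⨅ ξ < α, bi (x ξ) (S' α ξ))ᶜ ∈ U. But ⨅ ξ < α, bi (x ξ) (S' α ξ) ∈ U: this is the
Boolean value of (for all z in ck α: z in subN ck x iff ∃ s, App S0 (ck α) s ∧ z in s), by los_ball over
ck α (ck_eq, E_subN), and this statement is true in U since S0 is a function (app_unique).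
-/

set_option autoImplicit false

namespace Pool.Agent.Lib.WkD

open Set Pool.Agent.Lib.BVM Pool.Agent.Lib.BVM.bSet

variable {B K : Type} [CompleteBooleanAlgebra B] [LinearOrder K] [WellFoundedLT K]

namespace MNdAux

/-- `S0` is a diamond sequence. -/
def DS (S0 L : bSet B) (U : Ultra B) : Prop :=
  IsFunOn (E U) (q U S0) (q U L) ∧
    (∀ a s, App (E U) (q U S0) a s → ∀ x, E U x s → E U x a) ∧
    ∀ X, (∀ x, E U x X → E U x (q U L)) → ∀ c, IsClub (E U) c (q U L) →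
      ∃ a s, E U a c ∧ App (E U) (q U S0) a s ∧ ∀ x, E U x s ↔ (E U x X ∧ E U x a)

theorem BV_DS (S0 L : bSet B) : BV (DS S0 L) :=
  BV.and (BV.isFunOn S0 L) (BV.and
    (BV.all fun a => BV.all fun s => (BV.app S0 a s).imp
      (BV.all fun x => (BV.mem _ _).imp (BV.mem _ _)))
    (BV.all fun X => (BV.all fun x => (BV.mem _ _).imp (BV.mem _ _)).imp
      (BV.all fun c => (BV_isClub c L).imp (BV.ex fun a => BV.ex fun s =>
        (BV.mem _ _).and ((BV.app S0 a s).and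
          (BV.all fun x => (BV.mem _ _).biimp ((BV.mem _ _).and (BV.mem _ _))))))))

theorem subN_sub (x : K → B) {U : Ultra B} :
    ∀ w, E U w (q U (subN (fun a : K => ck B a) x)) → E U w (q U (lamN B K)) := by
  intro w hw
  obtain ⟨W, rfl⟩ := q_surj w
  exact of_mem_subN (P := fun U => E U (q U W) (q U (lamN B K))) (Q := fun _ => True)
    (BV.mem _ _) (BV.const True) (fun i U _ hW _ => by rw [hW]; exact E_lamN i U) hw trivial

theorem mem_iInf (S0 : bSet B) (x : K → B) (α : K) {U : Ultra B}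
    (h : ∀ m, E U m (q U (ck B α)) → (E U m (q U (subN (fun a : K => ck B a) x)) ↔
      ∃ s, App (E U) (q U S0) (q U (ck B α)) s ∧ E U m s)) :
    (⨅ ξ : K, ⨅ _ : ξ < α, bi (x ξ) (bv (fun U => ∃ s,
      App (E U) (q U S0) (q U (ck B α)) s ∧ E U (q U (ck B ξ)) s))) ∈ U := by
  have hbv1 : ∀ z : bSet B, BV (fun U => ∃ s,
      App (E U) (q U S0) (q U (ck B α)) s ∧ E U (q U z) s) :=
    fun z => BV.ex fun s => (BV.app _ _ _).and (BV.mem _ _)
  have hbv : ∀ z : bSet B, BV (fun U => (E U (q U z) (q U (subN (fun a : K => ck B a) x)) ↔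
      ∃ s, App (E U) (q U S0) (q U (ck B α)) s ∧ E U (q U z) s)) :=
    fun z => (BV.mem _ _).biimp (hbv1 z)
  have h1 := (los_ball (P := fun U m => (E U m (q U (subN (fun a : K => ck B a) x)) ↔
      ∃ s, App (E U) (q U S0) (q U (ck B α)) s ∧ E U m s))
    (b := fun z => bv (fun U => (E U (q U z) (q U (subN (fun a : K => ck B a) x)) ↔
      ∃ s, App (E U) (q U S0) (q U (ck B α)) s ∧ E U (q U z) s)))
    (fun z U => (hbv z).iff U) (ck B α) U).1 h
  refine Ultra.mono h1 ?_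
  refine le_iInf fun ξ => le_iInf fun hξ => ?_
  have h2 : ∀ (Y : bSet B), Y = bSet.mk (Iio α) (fun x => ck B x.1) (fun _ => ⊤) →
      (⨅ a, Y.val a ⇨ bv (fun U => (E U (q U (Y.func a)) (q U (subN (fun a : K => ck B a) x)) ↔
        ∃ s, App (E U) (q U S0) (q U (ck B α)) s ∧ E U (q U (Y.func a)) s))) ≤
      bv (fun U => (E U (q U (ck B ξ)) (q U (subN (fun a : K => ck B a) x)) ↔
        ∃ s, App (E U) (q U S0) (q U (ck B α)) s ∧ E U (q U (ck B ξ)) s)) := by
    intro Y hY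
    subst hY
    refine (iInf_le _ (⟨ξ, hξ⟩ : Iio α)).trans ?_
    refine Ultra.le_of_forall fun V hV => ?_
    exact Ultra.himp_iff.1 hV Ultra.top
  refine (h2 _ (ck_eq B α)).trans ?_
  refine Ultra.le_of_forall fun V hV => ?_
  have h3 := ((hbv (ck B ξ)).iff V).2 hV
  have h4 : E V (q V (ck B ξ)) (q V (subN (fun a : K => ck B a) x)) ↔ x ξ ∈ V :=
    E_subN (c := fun a : K => ck B a) fun i j hij => beq_ck_ne hij
  have h5 := (hbv1 (ck B ξ)).iff V
  unfold bi
  rw [Ultra.inf_iff, Ultra.himp_iff, Ultra.himp_iff]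
  exact ⟨fun hx => h5.1 (h3.1 (h4.2 hx)), fun hx => h4.1 (h3.2 (h5.2 hx))⟩

end MNdAux

theorem notDiamond_mod (h : BNotDiamond B K) (U : Ultra B) :
    ¬ Diamond (E U) (q U (lamN B K)) := by
  intro hDia
  obtain ⟨S, hS⟩ := hDia
  obtain ⟨S0, rfl⟩ := q_surj S
  have hD := MNdAux.BV_DS S0 (lamN B K)
  have h1 := h (fun α ξ => bv (fun U => ∃ s,
      App (E U) (q U S0) (q U (ck B α)) s ∧ E U (q U (ck B ξ)) s))
  have htop := (Ultra.top (U := U))
  rw [← h1] at htop
  refine of_iSup (P := fun _ => False) (Q := MNdAux.DS S0 (lamN B K)) (BV.const False) hD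
    (fun x U hx hDU => ?_) htop hS
  refine of_iSup (P := fun _ => False) (Q := MNdAux.DS S0 (lamN B K)) (BV.const False) hD
    (fun X U hX hDU => ?_) hx hDU
  obtain ⟨hcl, hne⟩ := Ultra.inf_iff.1 hX
  obtain ⟨a, s, hac, has, hs⟩ := hDU.2.2 (q U (subN (fun a : K => ck B a) x))
    (MNdAux.subN_sub x) (q U (subN (fun a : K => ck B a) X)) (isClub_subN X hcl)
  obtain ⟨A, rfl⟩ := q_surj a
  obtain ⟨T, rfl⟩ := q_surj s
  refine of_mem_subN (c := fun a : K => ck B a) (x := X) (Z := A) (P := fun _ => False)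
    (Q := fun U => MNdAux.DS S0 (lamN B K) U ∧
      (⨅ α : K, (X α ⇨ (⨅ ξ : K, ⨅ _ : ξ < α, bi (x ξ) (bv (fun U => ∃ s,
        App (E U) (q U S0) (q U (ck B α)) s ∧ E U (q U (ck B ξ)) s)))ᶜ)) ∈ U ∧
      App (E U) (q U S0) (q U A) (q U T) ∧
      ∀ w, E U w (q U T) ↔ (E U w (q U (subN (fun a : K => ck B a) x)) ∧ E U w (q U A)))
    (BV.const False)
    (hD.and ((BV.of_mem _).and ((BV.app _ _ _).and
      (BV.all fun w => (BV.mem _ _).biimp ((BV.mem _ _).and (BV.mem _ _))))))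
    (fun α U hXα hA hQ => ?_) hac ⟨hDU, hne, has, hs⟩
  obtain ⟨hDU, hne, has, hs⟩ := hQ
  rw [hA] at has
  simp only [hA] at hs
  have hn1 := Ultra.himp_iff.1 (Ultra.mono hne (iInf_le _ α)) hXα
  refine Ultra.not_iff.1 hn1 ?_
  refine MNdAux.mem_iInf S0 x α fun m hm => ⟨fun hmx => ?_, fun hms => ?_⟩
  · exact ⟨q U T, has, (hs m).2 ⟨hmx, hm⟩⟩
  · obtain ⟨s, hs1, hs2⟩ := hms
    have hsT : s = q U T := app_unique hDU.1 (E_lamN α U) hs1 has
    rw [hsT] at hs2
    exact ((hs m).1 hs2).1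

end Pool.Agent.Lib.WkD
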