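import Pool.Agent.Lib.WkD.MChi

/-!
# Strong limit in the quotient model

PROOF SKETCH. Case analysis a = q U (ck α) (of_mem_lamN; the predicate in U is a BV predicate). By
BStrongLimit the supremum over m and e is in U (it is ⊤): of_iSup twice: fix m : K and
e : Iio m → Iio α → B with G := ⨅ x, ⨆ i, ⨅ ξ, bi (x ξ) (e i ξ) ∈ U. Take b = ck m,
p = q U (name of the power set of ck α) (exists by (modelZFC U).power), and
f = graphName (ι := Iio m) (fun i => ck i) (fun i => subN (fun ξ : Iio α => ck ξ) (e i)) (fun _ => ⊤).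
f is a function on ck m: first coordinates are in ck m (case analysis); for x in ck m, case x = ck i:
the value is subN .. (e i), unique by app_graph and beq_ck_ne. Values are subsets of ck α (case
analysis of_mem_subN). Onto: let z be a subset of ck α, z = q U Z; by sub_eq_subN (with
ck_eq_domN) z = subN c x with x ξ = bmem (ck ξ) Z; ⨆ i, ⨅ ξ, bi (x ξ) (e i ξ) ∈ U; of_iSup with
Q U = (Z subset of ck α): fix i; then subN c x = subN c (e i) in U (ext_mod and case analysis, or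
bSet.le_beq_mk), so App f (ck i) z.
-/

set_option autoImplicit false

namespace Pool.Agent.Lib.WkD

open Set Pool.Agent.Lib.BVM Pool.Agent.Lib.BVM.bSet

variable {B K : Type} [CompleteBooleanAlgebra B] [LinearOrder K] [WellFoundedLT K]

namespace MStrongAux

/-- names of the elements of `α` -/
noncomputable def cn (B : Type) [CompleteBooleanAlgebra B] {K : Type} [LinearOrder K]
    [WellFoundedLT K] (α : K) : Iio α → bSet B := fun ξ => ck B ξ.1

/-- name of the enumeration of the subsets of `α` -/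
noncomputable def fN {m α : K} (e : Iio m → Iio α → B) : bSet B :=
  graphName (ι := Iio m) (fun i => ck B i.1) (fun i => subN (cn B α) (e i)) (fun _ => ⊤)

theorem of_mem_fN {m α : K} {e : Iio m → Iio α → B} {Z : bSet B} {P Q : Ultra B → Prop}
    (hP : BV P) (hQ : BV Q)
    (h : ∀ (i : Iio m) (U : Ultra B), q U Z = q U (bpair (ck B i.1) (subN (cn B α) (e i))) →
      Q U → P U)
    {U : Ultra B} (h1 : E U (q U Z) (q U (fN e))) (h2 : Q U) : P U :=
  of_mem (X := fN e) hP hQ (fun i U _ hZ hQ => h i U hZ hQ) h1 h2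

theorem app_fN {m α : K} {e : Iio m → Iio α → B} {U : Ultra B} (i : Iio m) (Y : bSet B) :
    App (E U) (q U (fN e)) (q U (ck B i.1)) (q U Y) ↔ q U Y = q U (subN (cn B α) (e i)) := by
  unfold fN
  rw [app_graph, q_eq]
  constructor
  · intro h
    refine Ultra.mono h (iSup_le fun j => ?_)
    by_cases hij : j = i
    · rw [hij]
      exact inf_le_right.trans inf_le_right
    · rw [beq_ck_ne fun h' => hij (Subtype.ext h'.symm)]
      simp
  · intro h
    refine Ultra.mono h (le_iSup_of_le i ?_)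
    rw [beq_refl]
    simp

theorem subN_eq {ι : Type} (c : ι → bSet B) {x y : ι → B} {U : Ultra B}
    (h : (⨅ i, bi (x i) (y i)) ∈ U) : q U (subN c x) = q U (subN c y) := by
  rw [q_eq]
  refine Ultra.mono h ?_
  refine le_beq_mk (fun a => ?_) (fun a => ?_)
  · refine le_trans ?_ (le_bmem_mk c y a)
    rw [← le_himp_iff]
    exact (iInf_le _ a).trans inf_le_left
  · refine le_trans ?_ (le_bmem_mk c x a)
    rw [← le_himp_iff]
    exact (iInf_le _ a).trans inf_le_right

/-- `p` is the power set of `a` -/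
def IsPow (U : Ultra B) (a p : bSet B) : Prop :=
  ∀ z, E U z (q U p) ↔ ∀ w, E U w z → E U w (q U a)

theorem BV_isPow (a p : bSet B) : BV (fun U => IsPow U a p) :=
  BV.all fun _ => (BV.mem _ _).biimp (BV.all fun _ => (BV.mem _ _).imp (BV.mem _ _))

theorem E_subN_pow {α : K} {x : Iio α → B} {U : Ultra B} (w : Mod U)
    (h : E U w (q U (subN (cn B α) x))) : E U w (q U (ck B α)) := by
  obtain ⟨W, rfl⟩ := q_surj w
  refine of_mem_subN (P := fun U => E U (q U W) (q U (ck B α))) (Q := fun _ => True)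
    (BV.mem _ _) (BV.const True) (fun ξ U _ hW _ => ?_) h trivial
  rw [hW]
  exact E_ck.2 ξ.2

theorem surj {m α : K} (e : Iio m → Iio α → B) {Pn : bSet B} {U : Ultra B}
    (hp : IsPow U (ck B α) Pn) (hG : (⨅ x : Iio α → B, ⨆ i, ⨅ ξ, bi (x ξ) (e i ξ)) ∈ U) :
    IsSurj (E U) (q U (fN e)) (q U (ck B m)) (q U Pn) := by
  refine ⟨⟨⟨?_, ?_⟩, ?_⟩, ?_⟩
  · intro z hz
    obtain ⟨Z, rfl⟩ := q_surj z
    refine of_mem_fN (P := fun U => ∃ x y', E U x (q U (ck B m)) ∧ IsPair (E U) x y' (q U Z))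
      (Q := fun _ => True)
      (BV.ex fun x => BV.ex fun y' => (BV.mem _ _).and (BV.isPair x y' Z)) (BV.const True)
      (fun i U hZ _ => ?_) hz trivial
    exact ⟨q U (ck B i.1), _, E_ck.2 i.2, isPair_iff.2 hZ⟩
  · intro x hx
    obtain ⟨X, rfl⟩ := q_surj x
    refine of_mem_ck (P := fun U => ∃! y', App (E U) (q U (fN e)) (q U X) y')
      (Q := fun _ => True)
      (BV.exUnique fun y' => BV.app _ X y') (BV.const True) (fun b hb U hX _ => ?_) hx trivial
    rw [hX]
    refine ⟨q U (subN (cn B α) (e ⟨b, hb⟩)), (app_fN ⟨b, hb⟩ _).2 rfl, fun y' hy' => ?_⟩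
    obtain ⟨Y, rfl⟩ := q_surj y'
    exact (app_fN ⟨b, hb⟩ _).1 hy'
  · intro x y' hxy
    obtain ⟨X, rfl⟩ := q_surj x
    obtain ⟨Y, rfl⟩ := q_surj y'
    rw [app_iff] at hxy
    refine of_mem_fN (Z := bpair X Y) (P := fun U => E U (q U Y) (q U Pn))
      (Q := fun U => IsPow U (ck B α) Pn) (BV.mem _ _) (BV_isPow _ _) (fun i U hZ hp => ?_)
      hxy hp
    rw [(bpair_inj.1 hZ).2]
    exact (hp _).2 fun w hw => E_subN_pow w hw
  · intro z hz
    obtain ⟨Z, rfl⟩ := q_surj z
    have hsub := (hp _).1 hz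
    have h1 : (⨆ i, ⨅ ξ, bi (bmem (cn B α ξ) Z) (e i ξ)) ∈ U :=
      Ultra.mono hG (iInf_le _ fun ξ => bmem (cn B α ξ) Z)
    refine of_iSup (t := fun i => ⨅ ξ, bi (bmem (cn B α ξ) Z) (e i ξ))
      (P := fun U => ∃ x', E U x' (q U (ck B m)) ∧ App (E U) (q U (fN e)) x' (q U Z))
      (Q := fun U => ∀ w, E U w (q U Z) → E U w (q U (ck B α)))
      (BV.ex fun x' => (BV.mem _ _).and (BV.app _ _ _))
      (BV.all fun w => (BV.mem _ _).imp (BV.mem _ _)) (fun i U hi hsub => ?_) h1 hsub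
    refine ⟨q U (ck B i.1), E_ck.2 i.2, (app_fN i Z).2 ?_⟩
    rw [ck_eq_domN] at hsub
    rw [sub_eq_subN Z hsub]
    exact subN_eq _ hi

end MStrongAux

open MStrongAux

theorem strong_mod (h : BStrongLimit B K) (U : Ultra B) :
    ∀ a, E U a (q U (lamN B K)) → ∃ b p f, E U b (q U (lamN B K)) ∧
      (∀ z, E U z p ↔ ∀ w, E U w z → E U w a) ∧ IsSurj (E U) f b p := by
  intro a ha
  obtain ⟨A, rfl⟩ := q_surj a
  have hP : ∀ A : bSet B, BV (fun U : Ultra B => ∃ b p f, E U b (q U (lamN B K)) ∧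
      (∀ z, E U z p ↔ ∀ w, E U w z → E U w (q U A)) ∧ IsSurj (E U) f b p) := fun A =>
    BV.ex fun b => BV.ex fun p => BV.ex fun f => (BV.mem _ _).and
      ((BV_isPow A p).and (BV.isSurj f b p))
  refine of_mem_lamN (P := fun U => ∃ b p f, E U b (q U (lamN B K)) ∧
      (∀ z, E U z p ↔ ∀ w, E U w z → E U w (q U A)) ∧ IsSurj (E U) f b p)
    (Q := fun _ => True) (hP A) (BV.const True) (fun α U hA _ => ?_) ha trivial
  rw [hA]
  have h1 : (⨆ m : K, ⨆ e : Iio m → Iio α → B,
      ⨅ x : Iio α → B, ⨆ i, ⨅ ξ, bi (x ξ) (e i ξ)) ∈ U := by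
    rw [h α]
    exact Ultra.top
  refine of_iSup (P := fun U => ∃ b p f, E U b (q U (lamN B K)) ∧
      (∀ z, E U z p ↔ ∀ w, E U w z → E U w (q U (ck B α))) ∧ IsSurj (E U) f b p)
    (Q := fun _ => True) (hP _) (BV.const True) (fun m U h2 _ => ?_) h1 trivial
  refine of_iSup (P := fun U => ∃ b p f, E U b (q U (lamN B K)) ∧
      (∀ z, E U z p ↔ ∀ w, E U w z → E U w (q U (ck B α))) ∧ IsSurj (E U) f b p)
    (Q := fun _ => True) (hP _) (BV.const True) (fun e U h3 _ => ?_) h2 trivial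
  obtain ⟨p, hp⟩ := (modelZFC U).power (q U (ck B α))
  obtain ⟨Pn, rfl⟩ := q_surj p
  exact ⟨q U (ck B m), q U Pn, q U (fN e), E_lamN m U, hp, surj e hp h3⟩

end Pool.Agent.Lib.WkD
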