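import Pool.Agent.Lib.WkD.MClub

/-!
# Weak diamond in the quotient model

PROOF SKETCH. Let c := fun a : K => ck B a. Given two, T, F in Mod U: two = q U (num 2) by
isTwo_iff; let T = q U NT, F = q U NF. For α : K and x : Iio α → B let
 F' α x := bv (fun U => App (E U) (q U NF) (q U (chiN (fun ξ : Iio α => ck B ξ.1) x)) (q U (num 1)))
(BV.app). Hypothesis of BWeakDiamond: F' α x ⊓ ⨅ ξ, bi (x ξ) (y ξ) ≤ F' α y: Ultra.le_of_forall and
bi_le_beq_chiN with q_eq. So ⨆ g, G g = ⊤ ∈ U where G g is the infimum over f and X. Apply of_iSup with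
 P U = ∃ g, IsFun g lam 2 ∧ ∀ f, IsFun f lam 2 → ∀ c, IsClub c lam → ∃ a r v, ... (BV)
 Q U = (∀ t, t ∈ NT ↔ ∃ a in lam, IsFun t a 2) ∧ IsFun NF NT (num 2) (BV).
Fix g, and U with G g ∈ U and Q U. Take q U (chiN c g) (isFun_chiN, beq_ck_ne, lamN_eq_domN). Let
f = q U f0, c = q U C0 be given; f' ξ := bv (App f0 (ck ξ) 1), so q U f0 = q U (chiN c f')
(fun_eq_chiN); X a := bmem (ck a) C0, BClub X ∈ U (bclub_mem). So (from G g ∈ U, iInf_le and
Ultra.himp_iff) ⨆ α, X α ⊓ bi (F' α (f' below α)) (g α) ∈ U. of_iSup with P U = ∃ a r v, ... and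
Q U = Q U ∧ IsFun f0 lam 2 ∧ q U f0 = q U (chiN c f'): fix α. a = ck α; r = chiN (below α) (f' below α),
IsFun r (ck α) 2 (isFun_chiN, ck_eq_domN), r is contained in f by chiN_restrict. g α ∈ U iff
F' α (..) ∈ U iff App F r 1. If g α ∈ U take v = 1 (app_chiN_one). If not: r ∈ NT by Q, F has a value v
in num 2 at r; it is not 1, so it is 0 (E_two), and App (chiN c g) (ck α) 0 by app_chiN_zero.
-/

set_option autoImplicit false

namespace Pool.Agent.Lib.WkD

open Set Pool.Agent.Lib.BVM Pool.Agent.Lib.BVM.bSet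

variable {B K : Type} [CompleteBooleanAlgebra B] [LinearOrder K] [WellFoundedLT K]

namespace MWdAux

/-- the matrix of the weak diamond principle -/
def R3 (NF : bSet B) (U : Ultra B) (g f c a r v : Mod U) : Prop :=
  E U a c ∧ IsFun (E U) r a (q U (num 2)) ∧ (∀ x y, App (E U) r x y → App (E U) f x y) ∧
    App (E U) (q U NF) r v ∧ App (E U) g a v

theorem BV_R3 (NF g f c a r v : bSet B) :
    BV (fun U => R3 NF U (q U g) (q U f) (q U c) (q U a) (q U r) (q U v)) := by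
  refine (BV.mem _ _).and ((BV.isFun _ _ _).and (BV.and ?_ ((BV.app _ _ _).and (BV.app _ _ _))))
  refine BV.all (P := fun U x => ∀ y, App (E U) (q U r) x y → App (E U) (q U f) x y) fun x => ?_
  refine BV.all (P := fun U y => App (E U) (q U r) (q U x) y → App (E U) (q U f) (q U x) y)
    fun y => ?_
  exact (BV.app _ _ _).imp (BV.app _ _ _)

/-- the conclusion of the weak diamond principle -/
def R2 (NF : bSet B) (U : Ultra B) (g f c : Mod U) : Prop :=
  ∃ a r v, R3 NF U g f c a r v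

theorem BV_R2 (NF g f c : bSet B) : BV (fun U => R2 NF U (q U g) (q U f) (q U c)) := by
  refine BV.ex (P := fun U a => ∃ r v, R3 NF U (q U g) (q U f) (q U c) a r v) fun a => ?_
  refine BV.ex (P := fun U r => ∃ v, R3 NF U (q U g) (q U f) (q U c) (q U a) r v) fun r => ?_
  refine BV.ex (P := fun U v => R3 NF U (q U g) (q U f) (q U c) (q U a) (q U r) v) fun v => ?_
  exact BV_R3 NF g f c a r v

/-- the guessing function -/
def R1 (NF l : bSet B) (U : Ultra B) (g : Mod U) : Prop :=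
  IsFun (E U) g (q U l) (q U (num 2)) ∧ ∀ f, IsFun (E U) f (q U l) (q U (num 2)) →
    ∀ c, IsClub (E U) c (q U l) → R2 NF U g f c

theorem BV_R1 (NF l g : bSet B) : BV (fun U => R1 NF l U (q U g)) := by
  refine (BV.isFun _ _ _).and ?_
  refine BV.all (P := fun U f => IsFun (E U) f (q U l) (q U (num 2)) →
    ∀ c, IsClub (E U) c (q U l) → R2 NF U (q U g) f c) fun f => ?_
  refine (BV.isFun _ _ _).imp ?_
  refine BV.all (P := fun U c => IsClub (E U) c (q U l) → R2 NF U (q U g) (q U f) c) fun c => ?_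
  exact (BV_isClub _ _).imp (BV_R2 _ _ _ _)

/-- the hypotheses on the function to be guessed -/
def Q0 (NT NF l : bSet B) (U : Ultra B) : Prop :=
  (∀ t, E U t (q U NT) ↔ ∃ a, E U a (q U l) ∧ IsFun (E U) t a (q U (num 2))) ∧
    IsFun (E U) (q U NF) (q U NT) (q U (num 2))

theorem BV_Q0 (NT NF l : bSet B) : BV (fun U => Q0 NT NF l U) := by
  refine BV.and ?_ (BV.isFun _ _ _)
  refine BV.all (P := fun U t => E U t (q U NT) ↔ ∃ a, E U a (q U l) ∧
    IsFun (E U) t a (q U (num 2))) fun t => ?_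
  refine (BV.mem _ _).biimp ?_
  refine BV.ex (P := fun U a => E U a (q U l) ∧ IsFun (E U) (q U t) a (q U (num 2))) fun a => ?_
  exact (BV.mem _ _).and (BV.isFun _ _ _)

end MWdAux

open MWdAux in
theorem weakDiamond_mod (h : BWeakDiamond B K) (U : Ultra B) :
    WeakDiamond (E U) (q U (lamN B K)) := by
  intro two T F h2 hT hF
  obtain rfl := isTwo_iff.1 h2
  obtain ⟨NT, rfl⟩ := q_surj T
  obtain ⟨NF, rfl⟩ := q_surj F
  have hc : ∀ a b : K, a ≠ b → beq (ck B a) (ck B b) = ⊥ := fun a b => beq_ck_ne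
  have hF'iff : ∀ (α : K) (x : Iio α → B) (U : Ultra B),
      bv (fun U => App (E U) (q U NF) (q U (chiN (fun ξ : Iio α => ck B ξ.1) x))
        (q U (num 1))) ∈ U ↔
      App (E U) (q U NF) (q U (chiN (fun ξ : Iio α => ck B ξ.1) x)) (q U (num 1)) :=
    fun α x U => ((BV.app _ _ _).iff U).symm
  have hsup := h (fun α x => bv (fun U => App (E U) (q U NF)
    (q U (chiN (fun ξ : Iio α => ck B ξ.1) x)) (q U (num 1)))) (by
      intro α x y
      refine Ultra.le_of_forall fun U hU => ?_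
      obtain ⟨h3, h4⟩ := Ultra.inf_iff.1 hU
      have h3 := (hF'iff α x U).1 h3
      refine (hF'iff α y U).2 ?_
      have h5 := q_eq.2 (Ultra.mono h4 (bi_le_beq_chiN (c := fun ξ : Iio α => ck B ξ.1) x y))
      rwa [← h5])
  refine of_iSup (P := fun U => ∃ g, R1 NF (lamN B K) U g) (Q := fun U => Q0 NT NF (lamN B K) U)
    (BV.ex fun g => BV_R1 NF (lamN B K) g) (BV_Q0 _ _ _) (fun g U hg hQU => ?_)
    (show _ ∈ U from (by rw [hsup]; exact Ultra.top)) ⟨hT, hF⟩
  refine ⟨q U (chiN (fun a : K => ck B a) g), isFun_chiN hc g U, fun f hf c hcl => ?_⟩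
  obtain ⟨f0, rfl⟩ := q_surj f
  obtain ⟨C0, rfl⟩ := q_surj c
  have hff := fun_eq_chiN hc f0 hf
  set f' : K → B := fun ξ => bv (fun U => App (E U) (q U f0) (q U (ck B ξ)) (q U (num 1)))
    with hf'
  have h6 := Ultra.himp_iff.1 (Ultra.mono hg ((iInf_le _ f').trans
    (iInf_le _ (fun a => bmem (ck B a) C0)))) (bclub_mem C0 hcl)
  refine of_iSup (P := fun U => R2 NF U (q U (chiN (fun a : K => ck B a) g)) (q U f0) (q U C0))
    (Q := fun U => Q0 NT NF (lamN B K) U ∧ q U f0 = q U (chiN (fun a : K => ck B a) f'))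
    (BV_R2 _ _ _ _) ((BV_Q0 _ _ _).and (BV.eq _ _)) (fun α U hα hh => ?_) h6 ⟨hQU, hff⟩
  obtain ⟨hQU, hff⟩ := hh
  obtain ⟨hα1, hα2⟩ := Ultra.inf_iff.1 hα
  obtain ⟨hα3, hα4⟩ := Ultra.inf_iff.1 hα2
  have hα3 := Ultra.himp_iff.1 hα3
  have hα4 := Ultra.himp_iff.1 hα4
  rw [hF'iff] at hα3 hα4
  have hr : IsFun (E U) (q U (chiN (fun ξ : Iio α => ck B ξ.1) (fun ξ => f' ξ.1)))
      (q U (ck B α)) (q U (num 2)) := by
    have := isFun_chiN (c := fun ξ : Iio α => ck B ξ.1)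
      (fun i j hij => beq_ck_ne (fun h => hij (Subtype.ext h))) (fun ξ => f' ξ.1) U
    rwa [← ck_eq_domN] at this
  have hrf : ∀ x y, App (E U) (q U (chiN (fun ξ : Iio α => ck B ξ.1) (fun ξ => f' ξ.1))) x y →
      App (E U) (q U f0) x y := by
    intro x y hxy
    rw [hff]
    exact chiN_restrict (c := fun a : K => ck B a) (fun ξ : Iio α => ξ.1) f' hxy
  have hrT := (hQU.1 _).2 ⟨_, E_lamN α U, hr⟩
  by_cases hgα : g α ∈ U
  · exact ⟨q U (ck B α), _, q U (num 1), hα1, hr, hrf, hα4 hgα,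
      (app_chiN_one hc (i := α)).2 hgα⟩
  · obtain ⟨v, hv, -⟩ := hQU.2.1.2 _ hrT
    rcases E_two.1 (hQU.2.2 _ _ hv) with rfl | rfl
    · exact ⟨q U (ck B α), _, q U (num 0), hα1, hr, hrf, hv,
        (app_chiN_zero hc (i := α)).2 hgα⟩
    · exact absurd (hα3 hv) hgα

end Pool.Agent.Lib.WkD
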