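import Pool.Agent.Lib.WkD.MOmega
import Pool.Agent.Lib.WkD.MReg
import Pool.Agent.Lib.WkD.MStrong
import Pool.Agent.Lib.WkD.MWd
import Pool.Agent.Lib.WkD.MNd

/-!
# The model
-/

set_option autoImplicit false

namespace Pool.Agent.Lib.WkD

open Set Pool.Agent.Lib.BVM Pool.Agent.Lib.BVM.bSet

theorem exists_model (B K : Type) [CompleteBooleanAlgebra B] [Nontrivial B] [LinearOrder K]
    [WellFoundedLT K] (hinf : ∃ a : K, (Iio a).Infinite)
    (h1 : BRegular B K) (h2 : BStrongLimit B K) (h3 : BWeakDiamond B K) (h4 : BNotDiamond B K) :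
    ∃ (M : Type 1) (E : M → M → Prop), ModelZFC M E ∧ ∃ lam, IsStronglyInaccessible E lam ∧
      WeakDiamond E lam ∧ ¬ Diamond E lam := by
  obtain ⟨U, -⟩ := Ultra.exists_mem (B := B) (b := ⊤) top_ne_bot
  obtain ⟨a, ha⟩ := isOmega_ck (B := B) hinf
  exact ⟨Mod U, E U, modelZFC U, q U (lamN B K),
    ⟨isOrd_lamN U, ⟨_, ha U, E_lamN a U⟩, regular_mod h1 U, strong_mod h2 U⟩,
    weakDiamond_mod h3 U, notDiamond_mod h4 U⟩

end Pool.Agent.Lib.WkD
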