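import Pool.Agent.Lib.WkD.Adj

/-!
# The Radin club

Facts: em_le_RE: if some node q' of q.e has crit q'.1 = α then em q ≤ RE α (le_iSup). of_em_RE: if
em q ≤ RE α then there is r ≤ q such that r.e has a node with critical point α: exists_em_iSup twice and
compat_of as for ge; if t ≤ p and p.e has a node (w,a) then t.e has a node (w, a') (Ext induction:
Ext A e' e and (w,a) ∈ e implies ∃ a', (w,a') ∈ e').
PROOF of `bclub_RE`. X α = RE α if ξ₀ < α, else ⊥. The Boolean value is ⊤: eq_top_of_em with q = p, i.e.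
every em p is below both parts.
(1) unbounded: for ξ: em_le_of_dense: q ≤ p; exists_above q (max ξ ξ₀): r ≤ q with a node w, crit w >
max ξ ξ₀; em r ≤ RE (crit w).
(2) closed: α with some ξ < α; em_le_himp_iff: q ≤ p with em q ≤ ⨅ ξ < α, ⨆ η, ⨆ _ : ξ < η ∧ η < α, X η.
Show em q ≤ X α. First ξ₀ < α: taking some ξ < α there are r ≤ q and η < α with em r ≤ X η, so ξ₀ < η
(otherwise X η = ⊥). So X α = RE α. em_le_of_dense: let q' ≤ q. By exists_decide let r ≤ q' with
em r ≤ RE α (done) or em r ≤ (RE α)ᶜ. In the second case no extension of r has a node with critical point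
α. CLAIM: there are r' ≤ r and ξ₁ < α such that every node of every extension r'' ≤ r' with critical
point < α has critical point ≤ ξ₁. Then em r' ≤ ⨆ η, ⨆ _ : ξ₁ < η ∧ η < α, X η gives r'' ≤ r' and η with
em r'' ≤ X η, ξ₀ < η, so em r'' ≤ RE η, and r''' ≤ r'' with a node of critical point η, ξ₁ < η < α, a
contradiction. Proof of the claim: split r.e = l ++ e₀ where l are the nodes with critical point > α
and e₀ those with critical point < α (critical points strictly decrease along a valid list since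
rk e < crit w and crit ≤ id; none equals α). In l replace every set c of a node by
c ∩ {z | α < crit z} (only needed for the last node of l; in F v since α < crit v: tail_mem), and r'.A z =
r.A z ⊓ tv (α < crit z) (Phi_tail). r' is a condition below r (valid; Ext by old steps). ξ₁ := rk e₀'s
critical point bound: if e₀ = [] take any ξ₁ < α (exists); otherwise e₀ = (w₀,a₀)::e₁, ξ₁ := crit w₀. Let
r'' ≤ r': by induction on l (general statement: if Ext A e'' (l' ++ e₀), all elements of A and of the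
sets of l' have critical point > α, all nodes of l' have critical point > α, then every node of e'' has
critical point > α or belongs to an extension e₀'' of e₀ with Ext ∅ e₀'' e₀, or Ext A' e₀'' e₀ with all
new nodes above e₀ of critical point > α) every node of r''.e with critical point < α is in the part
extending e₀ below and including w₀, where all critical points are ≤ crit w₀ = ξ₁ (valid: nodes below w₀
are < crit w₀).
-/

set_option autoImplicit false

namespace Pool.Agent.Lib.WkD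

open Set Cardinal

variable {K Θ C : Type} [LinearOrder K] [OrderBot K] [LinearOrder Θ] [CompleteBooleanAlgebra C]
  {R : RSys K Θ C}

theorem em_le_RE {q : Cond R} {α : K} (h : ∃ p ∈ q.e, R.S.crit p.1 = α) : em q ≤ RE R α :=
  le_iSup_of_le q (le_iSup_of_le h le_rfl)

theorem Ext.exists_node {A : Set K} {e' e : LP K} (h : Ext A e' e) {w : K} {a : Set K}
    (hw : (w, a) ∈ e) : ∃ a', (w, a') ∈ e' := by
  induction h with
  | nil => exact absurd hw List.not_mem_nil
  | new _ _ _ ih =>
    obtain ⟨a', ha'⟩ := ih hw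
    exact ⟨a', List.mem_cons_of_mem _ ha'⟩
  | old _ _ ih =>
    rcases List.mem_cons.1 hw with h1 | h1
    · obtain ⟨h2, h3⟩ := Prod.ext_iff.1 h1
      simp only at h2
      subst h2
      exact ⟨_, List.mem_cons_self⟩
    · obtain ⟨a', ha'⟩ := ih h1
      exact ⟨a', List.mem_cons_of_mem _ ha'⟩

theorem of_em_RE {q : Cond R} {α : K} (h : em q ≤ RE R α) :
    ∃ r ≤ q, ∃ p ∈ r.e, R.S.crit p.1 = α := by
  obtain ⟨q₁, h1, p, h2⟩ := exists_em_iSup h
  obtain ⟨q₂, h3, ⟨⟨w, a⟩, hp, hpα⟩, h4⟩ := exists_em_iSup h2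
  obtain ⟨q₃, h5, h6⟩ := compat_of (p := q₂) (q := p) (by
    rw [inf_eq_left.2 h4]; exact em_ne_bot q₂)
  obtain ⟨a', ha'⟩ := h6.2.1.exists_node hp
  exact ⟨q₃, h5.trans (h3.trans h1), (w, a'), ha', hpα⟩

namespace RClubAux

open Classical in
/-- shrink the sets of the nodes above `α` -/
noncomputable def cut (S : Sys K) (α : K) (e : LP K) : LP K :=
  e.map fun p => (p.1, if α < S.crit p.1 then p.2 ∩ {z | α < S.crit z} else p.2)

variable {S : Sys K}

theorem cut_cons (α : K) (w : K) (c : Set K) (e : LP K) : ∃ c' : Set K, c' ⊆ c ∧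
    cut S α ((w, c) :: e) = (w, c') :: cut S α e ∧ (α < S.crit w → c' = c ∩ {z | α < S.crit z}) ∧
    (¬ α < S.crit w → c' = c) := by
  classical
  refine ⟨if α < S.crit w then c ∩ {z | α < S.crit z} else c, ?_, ?_, fun h => if_pos h,
    fun h => if_neg h⟩
  · split_ifs
    · exact inter_subset_left
    · exact subset_rfl
  · unfold cut
    rw [List.map_cons]

theorem rk_cut (α : K) (e : LP K) : rk (cut S α e) = rk e := by
  induction e with
  | nil => rfl
  | cons p e ih =>
    obtain ⟨w, c⟩ := p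
    obtain ⟨c', -, h2, -, -⟩ := cut_cons (S := S) α w c e
    rw [h2, rk_cons, rk_cons, ih]

theorem valid_cut (α : K) {e : LP K} (h : Valid S e) : Valid S (cut S α e) := by
  induction e with
  | nil => exact h
  | cons p e ih =>
    obtain ⟨w, c⟩ := p
    obtain ⟨c', h1, h2, h3, h4⟩ := cut_cons (S := S) α w c e
    rw [h2, valid_cons_iff, rk_cut]
    obtain ⟨h5, h6, h7, h8⟩ := valid_cons_iff.1 h
    refine ⟨?_, fun z hz => h6 z (h1 hz), h7, ih h8⟩
    by_cases hα : α < S.crit w
    · rw [h3 hα]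
      exact Filter.inter_mem h5 (S.tail_mem w α hα)
    · rw [h4 hα]
      exact h5

theorem ext_cut (α : K) (A : Set K) (e : LP K) : Ext A (cut S α e) e := by
  induction e generalizing A with
  | nil => exact Ext.nil A
  | cons p e ih =>
    obtain ⟨w, c⟩ := p
    obtain ⟨c', h1, h2, -, -⟩ := cut_cons (S := S) α w c e
    rw [h2]
    exact Ext.old h1 (ih c)

theorem key {α ξ₁ : K} {A : Set K} {e'' e : LP K} (h : Ext A e'' (cut S α e))
    (hv : Valid S e'') (hA : ∀ z ∈ A, α < S.crit z) (hne : ∀ p ∈ e, S.crit p.1 ≠ α)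
    (hξ : ∀ p ∈ e, S.crit p.1 < α → S.crit p.1 ≤ ξ₁) :
    ∀ p ∈ e'', S.crit p.1 < α → S.crit p.1 ≤ ξ₁ := by
  induction e'' generalizing A e with
  | nil => exact fun p hp => absurd hp List.not_mem_nil
  | cons q e'' ih =>
    intro p hp hpα
    obtain ⟨v, a⟩ := q
    cases e with
    | nil =>
      have h0 : Ext A ((v, a) :: e'') [] := h
      have h1 := (Ext.nil_iff.1 h0 p hp).1
      exact absurd hpα (not_lt.2 (hA _ h1).le)
    | cons q' e =>
      obtain ⟨w, c⟩ := q'
      obtain ⟨c', h1, h2, h3, h4⟩ := cut_cons (S := S) α w c e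
      have h0 : Ext A ((v, a) :: e'') ((w, c') :: cut S α e) := h2 ▸ h
      cases h0 with
      | new hvA haA h5 =>
        rcases List.mem_cons.1 hp with rfl | hp
        · exact absurd hpα (not_lt.2 (hA _ hvA).le)
        · have h6 : Ext A e'' (cut S α ((w, c) :: e)) := h2.symm ▸ h5
          exact ih h6 hv.tail hA hne hξ p hp hpα
      | old ha h5 =>
        have hw : S.crit v ≠ α := hne (v, c) List.mem_cons_self
        rcases lt_or_gt_of_ne hw with hlt | hgt
        · have h7 : S.crit v ≤ ξ₁ := hξ (v, c) List.mem_cons_self hlt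
          rcases List.mem_cons.1 hp with rfl | hp
          · exact h7
          · have h8 : S.crit p.1 ≤ p.1 := S.crit_le _
            exact ((h8.trans (le_rk hp)).trans hv.crit_lt.le).trans h7
        · rcases List.mem_cons.1 hp with rfl | hp
          · exact absurd hpα (not_lt.2 hgt.le)
          · refine ih h5 hv.tail (fun z hz => ?_) (fun p hp => hne p (List.mem_cons_of_mem _ hp))
              (fun p hp => hξ p (List.mem_cons_of_mem _ hp)) p hp hpα
            rw [h3 hgt] at hz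
            exact hz.2

theorem exists_bd {α : K} (hα : ∃ ξ, ξ < α) (e : LP K) :
    ∃ ξ₁ < α, ∀ p ∈ e, S.crit p.1 < α → S.crit p.1 ≤ ξ₁ := by
  induction e with
  | nil =>
    obtain ⟨ξ, hξ⟩ := hα
    exact ⟨ξ, hξ, fun p hp => absurd hp List.not_mem_nil⟩
  | cons q e ih =>
    obtain ⟨ξ₁, h1, h2⟩ := ih
    by_cases hq : S.crit q.1 < α
    · refine ⟨max ξ₁ (S.crit q.1), max_lt h1 hq, fun p hp hpα => ?_⟩
      rcases List.mem_cons.1 hp with rfl | hp
      · exact le_max_right _ _
      · exact (h2 p hp hpα).trans (le_max_left _ _)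
    · refine ⟨ξ₁, h1, fun p hp hpα => ?_⟩
      rcases List.mem_cons.1 hp with rfl | hp
      · exact absurd hpα hq
      · exact h2 p hp hpα

theorem claim (H : Setup K Θ C) {α : K} (hα : ∃ ξ, ξ < α) (r : Cond R)
    (hne : ∀ p ∈ r.e, R.S.crit p.1 ≠ α) :
    ∃ r' ≤ r, ∃ ξ₁ < α, ∀ r'' ≤ r', ∀ p ∈ r''.e, R.S.crit p.1 < α → R.S.crit p.1 ≤ ξ₁ := by
  have hK : ℵ₀ ≤ #K := H.inacc.aleph0_lt.le
  obtain ⟨ξ₁, h1, h2⟩ := exists_bd (S := R.S) hα r.e
  have hle : r.b ≤ R.Phi (fun z => r.A z ⊓ tv C (α < R.S.crit z)) := by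
    rw [R.Phi_inf hK, R.Phi_tail, inf_top_eq]
    exact r.le
  let r' : Cond R := ⟨r.b, cut R.S α r.e, fun z => r.A z ⊓ tv C (α < R.S.crit z), r.ne,
    valid_cut α r.val, hle⟩
  have hr' : r' ≤ r := by
    rw [cond_le_iff]
    exact ⟨le_rfl, ext_cut α _ r.e, fun z => inf_le_right.trans inf_le_left⟩
  refine ⟨r', hr', ξ₁, h1, fun r'' hr'' => ?_⟩
  have h3 : Ext {z | r''.b ≤ r.A z ⊓ tv C (α < R.S.crit z)} r''.e (cut R.S α r.e) :=
    (cond_le_iff.1 hr'').2.1
  refine key h3 r''.val (fun z hz => ?_) hne h2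
  exact (le_tv_iff r''.ne).1 (le_trans hz inf_le_right)

end RClubAux

open Classical in
theorem bclub_RE (H : Setup K Θ C) (ξ₀ : K) :
    BClub (fun α : K => if ξ₀ < α then RE R α else ⊥) = ⊤ := by
  have hX : ∀ {q : Cond R} {η : K}, em q ≤ (if ξ₀ < η then RE R η else ⊥) →
      ξ₀ < η ∧ em q ≤ RE R η := by
    intro q η h
    by_cases hη : ξ₀ < η
    · rw [if_pos hη] at h
      exact ⟨hη, h⟩
    · rw [if_neg hη] at h
      exact absurd (le_bot_iff.1 h) (em_ne_bot q)
  refine eq_top_of_em fun p => ⟨p, le_rfl, ?_⟩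
  unfold BClub
  refine le_inf ?_ ?_
  · refine le_iInf fun ξ => em_le_of_dense fun q _ => ?_
    obtain ⟨r, hr, w, a, hre, hw⟩ := exists_above H q (max ξ ξ₀)
    refine ⟨r, hr, ?_⟩
    refine le_iSup_of_le (R.S.crit w) (le_iSup_of_le ((le_max_left _ _).trans_lt hw) ?_)
    show em r ≤ if ξ₀ < R.S.crit w then RE R (R.S.crit w) else ⊥
    rw [if_pos ((le_max_right _ _).trans_lt hw)]
    exact em_le_RE ⟨(w, a), by rw [hre]; exact List.mem_cons_self, rfl⟩
  · refine le_iInf fun α => le_iInf fun hα => em_le_himp_iff.2 fun q _ hq => ?_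
    have hex : ∀ {r : Cond R} {ξ : K}, r ≤ q → ξ < α →
        ∃ r' ≤ r, ∃ η, ξ < η ∧ η < α ∧ ξ₀ < η ∧ em r' ≤ RE R η := by
      intro r ξ hr hξ
      have h1 : em r ≤ ⨆ η : K, ⨆ _ : ξ < η ∧ η < α, (if ξ₀ < η then RE R η else ⊥) :=
        (em_mono hr).trans (hq.trans (iInf_le_of_le ξ (iInf_le _ hξ)))
      obtain ⟨r₁, h2, η, h3⟩ := exists_em_iSup h1
      obtain ⟨r₂, h4, hη, h5⟩ := exists_em_iSup h3
      obtain ⟨h6, h7⟩ := hX h5
      exact ⟨r₂, h4.trans h2, η, hη.1, hη.2, h6, h7⟩
    have hξα : ξ₀ < α := by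
      obtain ⟨ξ, hξ⟩ := hα
      obtain ⟨_, _, η, _, h2, h3, _⟩ := hex (le_refl q) hξ
      exact h3.trans h2
    show em q ≤ if ξ₀ < α then RE R α else ⊥
    rw [if_pos hξα]
    refine em_le_of_dense fun q' hq' => ?_
    obtain ⟨r, hr, hr1 | hr1⟩ := exists_decide q' (RE R α)
    · exact ⟨r, hr, hr1⟩
    · exfalso
      have hne : ∀ p ∈ r.e, R.S.crit p.1 ≠ α := by
        intro p hp hpα
        exact em_le_compl_iff.1 hr1 r le_rfl (em_le_RE ⟨p, hp, hpα⟩)
      obtain ⟨r', h1, ξ₁, h2, h3⟩ := RClubAux.claim H hα r hne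
      obtain ⟨r₁, h4, η, h5, h6, -, h7⟩ := hex ((h1.trans hr).trans hq') h2
      obtain ⟨r₂, h8, p, h9, h10⟩ := of_em_RE h7
      have h11 := h3 r₂ (h8.trans h4) p h9 (by rw [h10]; exact h6)
      rw [h10] at h11
      exact absurd h5 (not_lt.2 h11)

end Pool.Agent.Lib.WkD
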