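import Pool.Agent.Lib.WkD.Strip
import Pool.Agent.Lib.WkD.RClub

/-!
# Diamond fails in the generic extension

x : Λ → K → C is a family of names of subsets of K, pairwise different with Boolean value ⊤ (hx), which
is large compared with antichains of C (hΛ).

PROOF. Let S be given. For w and η let t η w := ⨅ ξ, ⨅ _ : ξ < crit w, bi (iota (x η ξ)) (S (crit w) ξ) : BR R
(the value of: x η and S (crit w) agree below crit w). For β : Θ, e₁ : VLP let
T (β, e₁) η := μ_β(w ↦ PP e₁ (t η w) w).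
(1) T (β, e₁) η ⊓ T (β, e₁) η' = ⊥ for η ≠ η'. It is μ_β(w ↦ PP e₁ (t η w) w ⊓ PP e₁ (t η' w) w) ≤
μ_β(w ↦ PP e₁ (t η w ⊓ t η' w) w) (PP_inf) and t η w ⊓ t η' w ≤ ⨅ ξ < crit w, bi (iota (x η ξ))
(iota (x η' ξ)) ≤ iota (⨅ ξ, ⨅ _ : ξ < crit w, bi (x η ξ) (x η' ξ)) (iota_compl, iota_iInf; bi in terms of
compl and iInf, or compare conditions: em p ≤ bi (iota c) (iota c') iff p.b ≤ bi c c'); by dd_iota
PP e₁ (iota c) w ≤ c. So the value is ≤ μ_β(w ↦ ⨅ ξ, ⨅ _ : ξ < crit w, bi ..) = ⨅ ξ, bi (x η ξ) (x η' ξ) = ⊥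
(diag and const).
(2) By hΛ there is η with T (β, e₁) η = ⊥ for all β, e₁. Fix it; write t w. Let
A1 w := ⨅ e₁ : VLP, ⨅ _ : rk e₁ < crit w, (PP e₁ (t w) w)ᶜ. μ_β A1 = ⊤ for all β (diagI, compl).
A2 := stripI R id t (family K → BR R, rank = the node w itself: r w = w; smallRk_id); μ_β A2 = ⊤.
(3) BNotDiamond: eq_top_of_em. Let p be a condition; q := (p.b, p.e, p.A ⊓ A1 ⊓ A2) ≤ p. Take the term
x := fun ξ => iota (x η ξ) and X α := if rk p.e < α then RE α else ⊥ of the suprema. BClub X = ⊤ by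
bclub_RE. It remains: em q ≤ ⨅ α, (X α ⇨ (⨅ ξ < α, bi (x ξ) (S α ξ))ᶜ). Let r ≤ q, em r ≤ X α, and
suppose r' ≤ r with em r' ≤ ⨅ ξ < α, bi .. (em_le_compl_iff). Then rk p.e < α (else X α = ⊥) and by of_em_RE
there is r'' ≤ r' with a node w of r''.e, crit w = α. em r'' ≤ t w. w is not ≤ rk p.e (crit w = α >
rk p.e, crit w ≤ w). r'' ≤ q: Ext {z | r''.b ≤ q.A z} r''.e p.e. LEMMA: if Ext A e'' e, e'' valid, e valid, and
w is a node of e'' with rk e < crit w then e'' = l ++ (w,a)::e₁ with w ∈ A and all nodes of l in A: by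
induction on Ext (nil: no nodes; old: all nodes of e'' are ≤ the top node of e which is rk e, impossible;
new: w is the new top node, l = [], or use induction). So r''.e = l ++ (w,a)::e₁, r''.b ≤ q.A w and on the
nodes of l. r''.b ≤ dd r''.e (t w). strip_list for the family t at index w with l (w < crit v for nodes v of
l by Valid.of_mem_append, rk ((w,a)::e₁) = w): r''.b ≤ dd ((w,a)::e₁) (t w) ≤ PP e₁ (t w) w. But r''.b ≤
A1 w ≤ (PP e₁ (t w) w)ᶜ. So r''.b = ⊥, contradiction.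
-/

set_option autoImplicit false

namespace Pool.Agent.Lib.WkD

open Set Cardinal

variable {K Θ C : Type} [LinearOrder K] [OrderBot K] [LinearOrder Θ] [CompleteBooleanAlgebra C]

namespace NotDAux

theorem bi_trans {B : Type} [CompleteBooleanAlgebra B] (a b s : B) :
    bi a s ⊓ bi b s ≤ bi a b := by
  rw [le_bi_iff]
  constructor
  · have h1 : bi a s ⊓ bi b s ⊓ a ≤ s :=
      (inf_le_inf_right a inf_le_left).trans (bi_inf_left a s)
    exact (le_inf (inf_le_left.trans inf_le_right) h1).trans (bi_inf_right b s)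
  · have h1 : bi a s ⊓ bi b s ⊓ b ≤ s :=
      (inf_le_inf_right b inf_le_right).trans (bi_inf_left b s)
    exact (le_inf (inf_le_left.trans inf_le_left) h1).trans (bi_inf_right a s)

theorem iota_inf {R : RSys K Θ C} (c c' : C) :
    iota R (c ⊓ c') = iota R c ⊓ iota R c' := by
  have h := iota_iInf (R := R) (fun b : Bool => cond b c c')
  rw [iInf_bool_eq, iInf_bool_eq] at h
  exact h

theorem himp_eq_compl {B : Type} [CompleteBooleanAlgebra B] (a b : B) : a ⇨ b = (a ⊓ bᶜ)ᶜ := by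
  rw [compl_inf, compl_compl, himp_eq, sup_comm]

theorem iota_bi {R : RSys K Θ C} (c c' : C) :
    iota R (bi c c') = bi (iota R c) (iota R c') := by
  unfold bi
  rw [iota_inf, himp_eq_compl c c', himp_eq_compl c' c, iota_compl, iota_compl, iota_inf,
    iota_inf, iota_compl, iota_compl, ← himp_eq_compl, ← himp_eq_compl]

theorem PP_iota {R : RSys K Θ C} (e : LP K) (c : C) (w : K) : PP R e (iota R c) w ≤ c :=
  iSup_le fun _ => iSup_le fun _ => dd_iota _ _

theorem node_split {S : Sys K} {A : Set K} {e'' e : LP K} {w : K} {a : Set K}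
    (hE : Ext A e'' e) (hv : Valid S e'') (hv' : Valid S e) (hw : (w, a) ∈ e'')
    (hr : rk e < S.crit w) :
    ∃ (l e₁ : LP K), e'' = l ++ (w, a) :: e₁ ∧ w ∈ A ∧ ∀ p ∈ l, p.1 ∈ A := by
  induction e'' with
  | nil => exact absurd hw List.not_mem_nil
  | cons q e'' ih =>
    cases hE with
    | @new _ v c _ _ hvA hcA h1 =>
      rcases List.mem_cons.1 hw with h | h
      · obtain ⟨rfl, rfl⟩ := Prod.mk.injEq _ _ _ _ ▸ h
        exact ⟨[], e'', rfl, hvA, fun p hp => absurd hp List.not_mem_nil⟩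
      · obtain ⟨l, e₁, h2, h3, h4⟩ := ih h1 hv.tail h
        refine ⟨(v, c) :: l, e₁, by rw [h2]; rfl, h3, ?_⟩
        intro p hp
        rcases List.mem_cons.1 hp with rfl | hp
        · exact hvA
        · exact h4 p hp
    | @old _ v c c' _ e₀ ha h1 =>
      exfalso
      have h2 : w ≤ rk ((v, c') :: e'') := le_rk hw
      rw [hv.rk_cons] at h2
      rw [hv'.rk_cons] at hr
      exact absurd (hr.trans_le (S.crit_le w)) (not_lt.2 h2)

end NotDAux

open NotDAux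

theorem bnotDiamond (H : Setup K Θ C) (R : RSys K Θ C) {Λ : Type} (x : Λ → K → C)
    (hx : ∀ η η', η ≠ η' → ⨅ ξ, bi (x η ξ) (x η' ξ) = ⊥)
    (hΛ : ∀ t : Θ × VLP R.S → Λ → C, (∀ i η η', η ≠ η' → t i η ⊓ t i η' = ⊥) →
      ∃ η, ∀ i, t i η = ⊥) :
    BNotDiamond (BR R) K := by
  have hK : ℵ₀ ≤ #K := H.inacc.aleph0_lt.le
  have hΘ : Nonempty Θ := H.nonempty
  intro S
  let t : Λ → K → BR R := fun η w =>
    ⨅ ξ, ⨅ _ : ξ < R.S.crit w, bi (iota R (x η ξ)) (S (R.S.crit w) ξ)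
  let T : Θ × VLP R.S → Λ → C := fun i η => R.μ i.1 (fun w => PP R i.2.1 (t η w) w)
  have hT : ∀ i η η', η ≠ η' → T i η ⊓ T i η' = ⊥ := by
    intro i η η' hne
    have htt : ∀ w, t η w ⊓ t η' w ≤
        iota R (⨅ ξ, ⨅ _ : ξ < R.S.crit w, bi (x η ξ) (x η' ξ)) := by
      intro w
      rw [iota_iInf]
      refine le_iInf fun ξ => ?_
      rw [iota_iInf]
      refine le_iInf fun hξ => ?_
      rw [iota_bi]
      refine le_trans (inf_le_inf ?_ ?_) (bi_trans _ _ (S (R.S.crit w) ξ))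
      · exact iInf_le_of_le ξ (iInf_le _ hξ)
      · exact iInf_le_of_le ξ (iInf_le _ hξ)
    have h1 : T i η ⊓ T i η' ≤ R.μ i.1 (fun w => ⨅ ξ, ⨅ _ : ξ < R.S.crit w,
        bi (x η ξ) (x η' ξ)) := by
      change R.μ i.1 (fun w => PP R i.2.1 (t η w) w) ⊓ R.μ i.1 (fun w => PP R i.2.1 (t η' w) w) ≤ _
      rw [← (R.meas i.1).bm.inf hK]
      refine R.mu_mono hK i.1 fun w => ?_
      refine (PP_inf hK hΘ i.2.1 (t η w) (t η' w) w).trans ?_
      exact (PP_mono i.2.1 (htt w) w).trans (PP_iota _ _ _)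
    have h2 := (R.meas i.1).diag (fun ξ _ => bi (x η ξ) (x η' ξ))
    rw [h2] at h1
    simp only [(R.meas i.1).bm.const] at h1
    rw [hx η η' hne] at h1
    exact le_bot_iff.1 h1
  obtain ⟨η, hη⟩ := hΛ T hT
  let A1 : K → C := fun w => ⨅ e : VLP R.S, ⨅ _ : rk e.1 < R.S.crit w, (PP R e.1 (t η w) w)ᶜ
  let A2 : K → C := stripI R (fun v : K => v) (t η)
  have hA1 : ∀ β, R.μ β A1 = ⊤ := by
    intro β
    have h1 := (R.meas β).diagI (fun e : VLP R.S => rk e.1) (smallRk_VLP H.inacc H.small R.S)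
      (fun e w => (PP R e.1 (t η w) w)ᶜ)
    refine h1.trans (iInf_eq_top.2 fun e => ?_)
    rw [(R.meas β).bm.compl]
    have h2 : R.μ β (fun w => PP R e.1 (t η w) w) = ⊥ := hη (β, e)
    rw [h2, compl_bot]
  have hA2 : ∀ β, R.μ β A2 = ⊤ := fun β => mu_stripI H (smallRk_id hK H.small) β
  refine eq_top_of_em fun p => ?_
  have hle : p.b ≤ R.Phi (fun z => p.A z ⊓ (A1 z ⊓ A2 z)) := by
    rw [R.Phi_inf hK p.A (fun z => A1 z ⊓ A2 z), R.Phi_inf hK A1 A2, R.Phi_eq_top hA1,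
      R.Phi_eq_top hA2, inf_top_eq, inf_top_eq]
    exact p.le
  let q : Cond R := ⟨p.b, p.e, fun z => p.A z ⊓ (A1 z ⊓ A2 z), p.ne, p.val, hle⟩
  have hqp : q ≤ p := ⟨le_rfl, Ext.refl _ _, fun z => inf_le_right.trans inf_le_left⟩
  refine ⟨q, hqp, le_iSup_of_le (fun ξ => iota R (x η ξ)) (le_iSup_of_le _
    (le_inf (le_top.trans (bclub_RE H (R := R) (rk p.e)).ge) ?_))⟩
  refine le_iInf fun α => ?_
  rw [em_le_himp_iff]
  intro r hr hX
  rw [em_le_compl_iff]
  intro r' hr' hbi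
  by_cases hα : rk p.e < α
  · rw [if_pos hα] at hX
    obtain ⟨r'', hr'', ⟨w, a⟩, hw, hcw⟩ := of_em_RE ((em_mono hr').trans hX)
    have hcw' : R.S.crit w = α := hcw
    subst hcw'
    have hrq : r'' ≤ q := hr''.trans (hr'.trans hr)
    obtain ⟨hb, hE, -⟩ := cond_le_iff.1 hrq
    obtain ⟨l, e₁, h1, h2, h3⟩ := node_split hE r''.val p.val hw hα
    have hval : Valid R.S (l ++ (w, a) :: e₁) := h1 ▸ r''.val
    have hval2 : Valid R.S ((w, a) :: e₁) := hval.of_append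
    have h4 : r''.b ≤ dd R (l ++ (w, a) :: e₁) (t η w) := by
      rw [← h1]
      exact le_dd r'' ((em_mono hr'').trans hbi)
    have h5 : r''.b ≤ dd R ((w, a) :: e₁) (t η w) := by
      refine strip_list (r := fun v : K => v) (s := t η) (i := w) hval (fun p' hp' => ⟨?_, ?_⟩) h4
      · exact (h3 p' hp').trans (inf_le_right.trans inf_le_right)
      · have h6 := (hval.of_mem_append hp').1
        rw [hval2.rk_cons] at h6
        exact h6
    have h6 : r''.b ≤ PP R e₁ (t η w) w :=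
      h5.trans (le_iSup_of_le a (le_iSup_of_le hval2 le_rfl))
    have h7 : r''.b ≤ (PP R e₁ (t η w) w)ᶜ :=
      (h2.trans (inf_le_right.trans inf_le_left)).trans
        (iInf_le_of_le (⟨e₁, hval2.tail⟩ : VLP R.S) (iInf_le_of_le hval2.crit_lt le_rfl))
    exact r''.ne (le_bot_iff.1 ((le_inf h6 h7).trans (inf_compl_self _).le))
  · rw [if_neg hα] at hX
    exact em_ne_bot r (le_bot_iff.1 hX)

end Pool.Agent.Lib.WkD
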