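import Pool.Agent.Lib.WkD.Names
import Pool.Agent.Lib.WkD.Dec
import Pool.Agent.Lib.WkD.CP
import Pool.Agent.Lib.WkD.Adj

/-!
# Weak diamond from the guessing property

PROOF. Let F be extensional (hF). eq_top_of_em: let p be a condition. ψ w n := F (crit w) (yy R w n).
Guess for Ψ = Psi R ψ (decided_Psi) and b₀ = p.b: b₁ ≤ p.b, b₁ ≠ ⊥, ζ. Let p' = (b₁, p.e, p.A) ≤ p. Take
g α := iota (g ζ α) in the supremum. CLAIM: em p' ≤ ⨅ f, ⨅ X, (BClub X ⇨ ⨆ α, X α ⊓ bi (F α (f below α)) (g α)).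
Fix f, X; em_le_himp_iff: r ≤ p', em r ≤ BClub X; em_le_of_dense: let r' ≤ r; rename r' to r (em r ≤
BClub X still); find s ≤ r with em s ≤ the supremum.
h ξ η := if ξ < η then (em r)ᶜ ⊔ X η else ⊥. ⨆ η, h ξ η = ⊤: em r ≤ ⨆ η, ⨆ _ : ξ < η, X η (first part of
BClub), and (em r)ᶜ ≤ h ξ η for some η > ξ (exists_gt). cp for h and b₀ = r.b: b ≤ r.b, b ≠ ⊥, β₀.
A' z := r.A z ⊓ good f z; b ≤ Phi A' (mu_good). Guess property with D = Df f, b, e = r.e, A', β₀ (b ≤ r.b ≤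
p'.b = b₁): β ≥ β₀, b' ≤ b, b' ≠ ⊥, e₁, t with Ext {z | b' ≤ A' z} e₁ r.e, b' ≤ μ_β(val (Df f) Ψ e₁ t),
b' ≤ μ_β(w ↦ lit (t = true) (g ζ (crit w))). exists_node for γ = β, b', e₁, X = A', Y = A',
W w := val .. e₁ t w ⊓ lit (t = true) (g ζ (crit w)) ⊓ (⨅ e : VLP, ⨅ _ : rk e < crit w, PP e (sg h (crit w)) w):
w with rk e₁ < crit w and b₂ := b' ⊓ A' w ⊓ inF A' w ⊓ W w ≠ ⊥. Refine: n and b₃ ≤ b₂, b₃ ≠ ⊥ with b₃ ≤
eqv (Df f) w n and b₃ ≤ Ψ w e₁ n t = PP e₁ (lit (t = true) (ψ w n)) w. Also b₃ ≤ PP e₁ (sg h (crit w)) w, so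
b₃ ≤ PP e₁ (lit .. ⊓ sg ..) w (PP_inf). r₁ := (b₃, e₁, A') is a condition, r₁ ≤ r (b₃ ≤ r.b;
Ext {z | b₃ ≤ r.A z} e₁ r.e by mono; A' ≤ r.A). adjoin: s ≤ r₁, s.b ≤ b₃, em s ≤ lit (t = true) (ψ w n) ⊓
sg h (crit w), s.A ≤ A', s.e = (w,a)::e₁, s.b ≤ A' z for z ∈ a. names for s: em s ≤ ⨅ ξ, bi (f ξ) (yy w n ξ).
With hF (and bi_comm) em s ≤ bi (F (crit w) (f below)) (ψ w n). em s ≤ lit (t = true) (iota (g ζ (crit w)))
because s.b ≤ lit (t = true) (g ζ (crit w)) (em_le_iota, iota_compl). Cases on t: em s ≤ bi (F ..) (iota ..).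
em s ≤ X (crit w): em s ≤ em r ≤ BClub X, second part with α = crit w (⊥ < crit w as rk e₁ < crit w):
em s ≤ (⨅ ξ < crit w, ⨆ η, ⨆ _ : ξ < η ∧ η < crit w, X η) ⇨ X (crit w), and em s ≤ sg h (crit w) gives the
premise: h ξ η ⊓ em r ≤ X η and h ξ η = ⊥ unless ξ < η.
-/

set_option autoImplicit false

namespace Pool.Agent.Lib.WkD

open Set Cardinal

variable {K Θ C : Type} [LinearOrder K] [OrderBot K] [LinearOrder Θ] [CompleteBooleanAlgebra C]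

namespace PhiTAux

variable {R : RSys K Θ C}

open Classical in
/-- the relation used for the closure points -/
noncomputable def hh (r : Cond R) (X : K → BR R) (ξ η : K) : BR R :=
  if ξ < η then (em r)ᶜ ⊔ X η else ⊥

theorem hh_top (H : Setup K Θ C) (r : Cond R) (X : K → BR R) (hX : em r ≤ BClub X) (ξ : K) :
    ⨆ η, hh r X ξ η = ⊤ := by
  rw [← top_le_iff, ← sup_compl_eq_top (x := em r)]
  refine sup_le ?_ ?_
  · have h1 : em r ≤ ⨆ η : K, ⨆ _ : ξ < η, X η := hX.trans (inf_le_left.trans (iInf_le _ ξ))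
    refine h1.trans (iSup_le fun η => iSup_le fun hη => le_iSup_of_le η ?_)
    rw [hh, if_pos hη]
    exact le_sup_right
  · obtain ⟨η, hη⟩ := exists_gt H.inacc H.small ξ
    refine le_iSup_of_le η ?_
    rw [hh, if_pos hη]
    exact le_sup_left

theorem mem_X (r q : Cond R) (X : K → BR R) (hX : em r ≤ BClub X) (hq : em q ≤ em r) {α : K}
    (hα : ⊥ < α) (hs : em q ≤ sg (hh r X) α) : em q ≤ X α := by
  have h1 : em q ≤ ((⨅ ξ : K, ⨅ _ : ξ < α, ⨆ η : K, ⨆ _ : ξ < η ∧ η < α, X η) ⇨ X α) :=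
    hq.trans (hX.trans (inf_le_right.trans (iInf_le_of_le α (iInf_le _ ⟨⊥, hα⟩))))
  have h2 : em q ≤ ⨅ ξ : K, ⨅ _ : ξ < α, ⨆ η : K, ⨆ _ : ξ < η ∧ η < α, X η := by
    refine le_iInf fun ξ => le_iInf fun hξ => ?_
    have h3 : em q ≤ ⨆ η, ⨆ _ : η < α, hh r X ξ η := hs.trans (iInf_le_of_le ξ (iInf_le _ hξ))
    have h4 : em q ≤ (⨆ η, ⨆ _ : η < α, hh r X ξ η) ⊓ em r := le_inf h3 hq
    refine h4.trans ?_
    rw [iSup_inf_eq]
    refine iSup_le fun η => ?_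
    rw [iSup_inf_eq]
    refine iSup_le fun hη => ?_
    by_cases hlt : ξ < η
    · rw [hh, if_pos hlt, inf_sup_right, compl_inf_self, bot_sup_eq]
      exact inf_le_left.trans (le_iSup_of_le η (le_iSup_of_le ⟨hlt, hη⟩ le_rfl))
    · rw [hh, if_neg hlt, bot_inf_eq]
      exact bot_le
  have h5 := le_himp_iff.1 h1
  exact (le_inf le_rfl h2).trans h5

theorem le_bi_F {α : K} {F : (Iio α → BR R) → BR R}
    (hF : ∀ x y, F x ⊓ (⨅ ξ, bi (x ξ) (y ξ)) ≤ F y) {x y : Iio α → BR R} {c : BR R}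
    (h : c ≤ ⨅ ξ, bi (x ξ) (y ξ)) : c ≤ bi (F x) (F y) := by
  rw [le_bi_iff]
  constructor
  · exact (le_inf inf_le_right (inf_le_left.trans h)).trans (hF x y)
  · refine (le_inf inf_le_right (inf_le_left.trans (h.trans (le_of_eq ?_)))).trans (hF y x)
    exact iInf_congr fun ξ => bi_comm _ _

theorem bi_of_lit {c u v i : BR R} {t : Bool} (h : c ≤ bi u v) (h1 : c ≤ lit (t = true) v)
    (h2 : c ≤ lit (t = true) i) : c ≤ bi u i := by
  rw [le_bi_iff] at h ⊢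
  cases t with
  | true =>
    rw [lit_true rfl] at h1 h2
    exact ⟨inf_le_left.trans h2, (le_inf inf_le_left (inf_le_left.trans h1)).trans h.2⟩
  | false =>
    rw [lit_false Bool.false_ne_true] at h1 h2
    constructor
    · have h3 : c ⊓ u ≤ v ⊓ vᶜ := le_inf h.1 (inf_le_left.trans h1)
      rw [inf_compl_self] at h3
      exact h3.trans bot_le
    · have h3 : c ⊓ i ≤ i ⊓ iᶜ := le_inf inf_le_right (inf_le_left.trans h2)
      rw [inf_compl_self] at h3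
      exact h3.trans bot_le

theorem em_le_lit_iota {q : Cond R} {c : C} {t : Bool} (h : q.b ≤ lit (t = true) c) :
    em q ≤ lit (t = true) (iota R c) := by
  cases t with
  | true =>
    rw [lit_true rfl] at h ⊢
    exact em_le_iota.2 h
  | false =>
    rw [lit_false Bool.false_ne_true] at h ⊢
    rw [← iota_compl]
    exact em_le_iota.2 h

theorem core (H : Setup K Θ C) (R : RSys K Θ C) (g0 : K → C)
    (F : (α : K) → (Iio α → BR R) → BR R)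
    (hF : ∀ α x y, F α x ⊓ (⨅ ξ, bi (x ξ) (y ξ)) ≤ F α y) (b₁ : C)
    (hζ : ∀ D : II R.S → C, ∀ b ≤ b₁, b ≠ ⊥ →
      ∀ e : VLP R.S, ∀ A : K → C, b ≤ R.Phi A → ∀ β₀ : Θ, ∃ β, β₀ ≤ β ∧ ∃ b' ≤ b, b' ≠ ⊥ ∧
        ∃ (e₁ : VLP R.S) (t : Bool), Ext {z | b' ≤ A z} e₁.1 e.1 ∧
          b' ≤ R.μ β (fun w => val R.S D (Psi R (fun w n => F (R.S.crit w) (yy R w n))) e₁ t w) ∧
          b' ≤ R.μ β (fun w => lit (t = true) (g0 (R.S.crit w))))
    (f X : K → BR R) (r : Cond R) (hr : r.b ≤ b₁) (hX : em r ≤ BClub X) :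
    ∃ s ≤ r, em s ≤ ⨆ α : K, X α ⊓ bi (F α (fun ξ => f ξ.1)) (iota R (g0 α)) := by
  have hK : ℵ₀ ≤ #K := H.inacc.aleph0_lt.le
  have hΘ := H.nonempty
  obtain ⟨b, hbr, hb0, β₀, hβ₀⟩ := cp H R (hh r X) (hh_top H r X hX) r.ne
  set A' : K → C := fun z => r.A z ⊓ good R f z with hA'
  have hPhi : b ≤ R.Phi A' := by
    have h1 : R.Phi A' = R.Phi r.A ⊓ R.Phi (good R f) := R.Phi_inf hK _ _
    rw [h1, R.Phi_eq_top (mu_good H f), inf_top_eq]
    exact hbr.trans r.le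
  obtain ⟨β, hβ, b', hb'b, hb'0, e₁, t, hE, hv, hl⟩ :=
    hζ (Df R f) b (hbr.trans hr) hb0 ⟨r.e, r.val⟩ A' hPhi β₀
  set W : K → C := fun w =>
    val R.S (Df R f) (Psi R (fun w n => F (R.S.crit w) (yy R w n))) e₁ t w ⊓
      (lit (t = true) (g0 (R.S.crit w)) ⊓
        (⨅ e : VLP R.S, ⨅ _ : rk e.1 < R.S.crit w, PP R e.1 (sg (hh r X) (R.S.crit w)) w))
    with hW
  have hWb : b' ≤ R.μ β W := by
    have h1 : R.μ β W = R.μ β (fun w =>
        val R.S (Df R f) (Psi R (fun w n => F (R.S.crit w) (yy R w n))) e₁ t w) ⊓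
        R.μ β (fun w => lit (t = true) (g0 (R.S.crit w)) ⊓
        (⨅ e : VLP R.S, ⨅ _ : rk e.1 < R.S.crit w, PP R e.1 (sg (hh r X) (R.S.crit w)) w)) :=
      (R.meas β).bm.inf hK _ _
    have h2 : R.μ β (fun w => lit (t = true) (g0 (R.S.crit w)) ⊓
        (⨅ e : VLP R.S, ⨅ _ : rk e.1 < R.S.crit w, PP R e.1 (sg (hh r X) (R.S.crit w)) w)) =
        R.μ β (fun w => lit (t = true) (g0 (R.S.crit w))) ⊓
        R.μ β (fun w => ⨅ e : VLP R.S, ⨅ _ : rk e.1 < R.S.crit w,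
          PP R e.1 (sg (hh r X) (R.S.crit w)) w) := (R.meas β).bm.inf hK _ _
    rw [h1, h2]
    exact le_inf hv (le_inf hl (hb'b.trans (hβ₀ β hβ)))
  obtain ⟨w, hw1, hw2, hw3⟩ := R.exists_node hK β hb'0 e₁.1 (X := A') (Y := A') (W := W)
    (hb'b.trans (hPhi.trans (R.Phi_le_mu β _))) (hb'b.trans (hPhi.trans (R.Phi_le_phi β _)))
    hWb ⊥
  set b₂ : C := b' ⊓ A' w ⊓ inF R.S A' w ⊓ W w with hb₂
  have h2W : b₂ ≤ W w := inf_le_right
  have h2b : b₂ ≤ b' := inf_le_left.trans (inf_le_left.trans inf_le_left)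
  have h2A : b₂ ≤ A' w := inf_le_left.trans (inf_le_left.trans inf_le_right)
  have h2F : b₂ ≤ inF R.S A' w := inf_le_left.trans inf_le_right
  have h2v : b₂ ≤ ⨆ n : Nm R.S w, eqv R.S (Df R f) w n ⊓
      Psi R (fun w n => F (R.S.crit w) (yy R w n)) w e₁ n t := h2W.trans inf_le_left
  have h2l : b₂ ≤ lit (t = true) (g0 (R.S.crit w)) :=
    h2W.trans (inf_le_right.trans inf_le_left)
  have h2P : b₂ ≤ PP R e₁.1 (sg (hh r X) (R.S.crit w)) w :=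
    h2W.trans (inf_le_right.trans (inf_le_right.trans (iInf_le_of_le e₁ (iInf_le _ hw1))))
  obtain ⟨n, hn⟩ := exists_inf_ne_bot hw3 h2v
  set b₃ : C := b₂ ⊓ (eqv R.S (Df R f) w n ⊓
      Psi R (fun w n => F (R.S.crit w) (yy R w n)) w e₁ n t) with hb₃
  have h32 : b₃ ≤ b₂ := inf_le_left
  have h3e : b₃ ≤ eqv R.S (Df R f) w n := inf_le_right.trans inf_le_left
  have h3P : b₃ ≤ PP R e₁.1 (lit (t = true) (F (R.S.crit w) (yy R w n))) w :=
    inf_le_right.trans inf_le_right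
  have h3PP : b₃ ≤ PP R e₁.1 (lit (t = true) (F (R.S.crit w) (yy R w n)) ⊓
      sg (hh r X) (R.S.crit w)) w :=
    (le_inf h3P (h32.trans h2P)).trans (PP_inf hK hΘ _ _ _ _)
  have h3b : b₃ ≤ b := h32.trans (h2b.trans hb'b)
  let r₁ : Cond R := ⟨b₃, e₁.1, A', hn, e₁.2, h3b.trans hPhi⟩
  have hr₁ : r₁ ≤ r := by
    refine cond_le_iff.2 ⟨h3b.trans hbr, hE.mono ?_, fun z => ?_⟩
    · intro z hz
      exact (h32.trans h2b).trans (le_trans hz inf_le_left)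
    · exact inf_le_right.trans inf_le_left
  obtain ⟨q, hq1, hq2, hq3, hq4, a, hq5, hq6⟩ := adjoin H (p := r₁) (w := w)
    (s := lit (t = true) (F (R.S.crit w) (yy R w n)) ⊓ sg (hh r X) (R.S.crit w)) (b := b₃)
    hn le_rfl (h32.trans h2A) (h32.trans h2F) h3PP
  have hnm := names H f q hq5 ((hq2.trans (h32.trans h2A)).trans inf_le_right)
    (fun z hz => (hq6 z hz).trans inf_le_right)
    (fun z => inf_le_right.trans ((hq4 z).trans inf_le_right)) n (hq2.trans h3e)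
  have hqr : em q ≤ em r := em_mono (hq1.trans hr₁)
  refine ⟨q, hq1.trans hr₁, le_iSup_of_le (R.S.crit w) (le_inf ?_ ?_)⟩
  · exact mem_X r q X hX hqr hw2 (hq3.trans inf_le_right)
  · exact bi_of_lit (le_bi_F (hF (R.S.crit w)) hnm) (hq3.trans inf_le_left)
      (em_le_lit_iota (hq2.trans (h32.trans h2l)))

end PhiTAux

open PhiTAux in
theorem bweakDiamond (H : Setup K Θ C) (R : RSys K Θ C) {Z : Type} (g : Z → K → C)
    (hG : Guess R g) : BWeakDiamond (BR R) K := by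
  intro F hF
  apply eq_top_of_em
  intro p
  obtain ⟨b₁, hb₁, hb₁0, ζ, hζ⟩ := hG (Psi R (fun w n => F (R.S.crit w) (yy R w n)))
    (decided_Psi H R _) p.b p.ne
  let p' : Cond R := ⟨b₁, p.e, p.A, hb₁0, p.val, hb₁.trans p.le⟩
  have hp' : p' ≤ p := cond_le_iff.2 ⟨hb₁, Ext.refl _ _, fun z => inf_le_right⟩
  refine ⟨p', hp', le_iSup_of_le (fun α => iota R (g ζ α)) ?_⟩
  refine le_iInf fun f => le_iInf fun X => em_le_himp_iff.2 fun r hr hX => ?_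
  apply em_le_of_dense
  intro r' hr'
  exact core H R (g ζ) F hF b₁ hζ f X r' (hr'.1.trans hr.1) ((em_mono hr').trans hX)

end Pool.Agent.Lib.WkD
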