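import Pool.Agent.Lib.WkD.CP
import Pool.Agent.Lib.WkD.Adj

/-!
# K is regular in the generic extension

PROOF. Let α, h be given; h' ξ η := h ⟨ξ, _⟩ η if ξ < α and ⊤ otherwise (K → K → BR R); ⨆ η, h' ξ η = ⊤.
eq_top_of_em: let p be a condition. cp for h' and b₀ = p.b: b ≤ p.b, b ≠ ⊥, β₀. exists_node for γ = β₀,
b, e = p.e, X = Y = p.A (b ≤ Phi p.A), W w := ⨅ e : VLP, ⨅ _ : rk e < crit w, PP e (sg h' (crit w)) w,
ξ := α gives w with rk p.e < crit w, α < crit w and b₁ := b ⊓ p.A w ⊓ inF p.A w ⊓ W w ≠ ⊥.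
b₁ ≤ PP p.e (sg h' (crit w)) w. adjoin: q ≤ p with em q ≤ sg h' (crit w) ≤
⨅ ξ : Iio α, ⨆ η' , ⨆ _ : η' < crit w, h ξ η' ≤ ⨆ η ....
-/

set_option autoImplicit false

namespace Pool.Agent.Lib.WkD

open Set Cardinal

variable {K Θ C : Type} [LinearOrder K] [OrderBot K] [LinearOrder Θ] [CompleteBooleanAlgebra C]

theorem bregular (H : Setup K Θ C) (R : RSys K Θ C) : BRegular (BR R) K := by
  classical
  intro α h hh
  have hK : ℵ₀ ≤ #K := H.inacc.aleph0_lt.le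
  let h' : K → K → BR R := fun ξ η => if hξ : ξ < α then h ⟨ξ, hξ⟩ η else ⊤
  have hh' : ∀ ξ, ⨆ η, h' ξ η = ⊤ := by
    intro ξ
    by_cases hξ : ξ < α
    · simp only [h', dif_pos hξ]
      exact hh ⟨ξ, hξ⟩
    · simp only [h', dif_neg hξ]
      exact iSup_const
  refine eq_top_of_em fun p => ?_
  obtain ⟨b, hb1, hb2, β₀, hβ⟩ := cp H R h' hh' p.ne
  obtain ⟨w, hw1, hw2, hw3⟩ := R.exists_node hK β₀ hb2 p.e (X := p.A) (Y := p.A)
    (W := fun w => ⨅ e : VLP R.S, ⨅ _ : rk e.1 < R.S.crit w, PP R e.1 (sg h' (R.S.crit w)) w)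
    ((hb1.trans p.le).trans (R.Phi_le_mu β₀ _)) ((hb1.trans p.le).trans (R.Phi_le_phi β₀ _))
    (hβ β₀ le_rfl) α
  obtain ⟨q, hq1, _, hq3, _⟩ := adjoin H (p := p) (s := sg h' (R.S.crit w)) hw3
    ((inf_le_left.trans (inf_le_left.trans inf_le_left)).trans hb1)
    (inf_le_left.trans (inf_le_left.trans inf_le_right))
    (inf_le_left.trans inf_le_right)
    (inf_le_right.trans ((iInf_le _ (⟨p.e, p.val⟩ : VLP R.S)).trans (iInf_le _ hw1)))
  refine ⟨q, hq1, hq3.trans ?_⟩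
  refine le_trans ?_ (le_iSup _ (R.S.crit w))
  refine le_iInf fun ξ => ?_
  refine (iInf_le _ ξ.1).trans ((iInf_le _ (lt_trans ξ.2 hw2)).trans ?_)
  refine iSup_mono fun η => iSup_mono fun _ => ?_
  have hξ : (ξ : K) < α := ξ.2
  simp only [h', dif_pos hξ]
  exact le_rfl

end Pool.Agent.Lib.WkD
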