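import Pool.Agent.Lib.WkD.Glue

/-!
# General assumptions for the algebra of the product; antichains

PROOF of `setup_C`. distr: distr_of_chainClosed and chainClosed_prod (chainClosed_Qs with bdd and
chainClosed_mono). nontriv: em x ≠ ⊥ for some x (ne, neΘ). reg: let h : I → Θ → C, #I ≤ #K, ⨆ t, h i t = ⊤;
eq_top_of_em: x₀ = (p₀, g₀). O i = {x | ∃ s, em x ≤ h i s} is open and dense (exists_em_iSup). fusion gives g ≤
g₀, 𝒜. For (i, p) with p ∈ 𝒜 i choose s with em (p,g) ≤ h i s; the type Σ i, 𝒜 i has size ≤ #K, let t be a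
bound (bdd). Claim em (p₀,g) ≤ ⨅ i, ⨆ s, ⨆ _ : s < t, h i s: em_le_of_dense: (p₁,g₁) ≤ (p₀,g): there are
p' ∈ 𝒜 i, r ≤ p₁, p'; (r,g₁) ≤ (p',g), so em (r,g₁) ≤ h i s with s < t.
PROOF of `anti_C`. For i : Θ × VLP S let N i = {η | t i η ≠ ⊥}. CLAIM #(N i) ≤ 2 ^ #K. For η ∈ N i choose x η = (p η,
g η) with em (x η) ≤ t i η; for η ≠ η' there is no common lower bound (t i η ⊓ t i η' = ⊥). Let c η := ((g η).len,
fun δ => if δ < (g η).len then (g η).t δ else none) in Θ × (Θ → Option Z). The set of such values has size ≤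
2 ^ #K: for each l : Θ the functions vanishing outside Iio l are at most #(Option Z) ^ #(Iio l) ≤
(2 ^ #K) ^ #K = 2 ^ #K (hZ, iioΘ), and #Θ ≤ 2 ^ #K. On a fiber of c all g η are equivalent (g η ≤ g η'), so the
p η are pairwise incompatible and different; the fiber has size ≤ #K (cc). So #(N i) ≤ 2 ^ #K * #K = 2 ^ #K. The
union of N i over i : Θ × VLP S (#(VLP S) ≤ #K: mk_le_of_smallRk, smallRk_VLP) has size ≤ 2 ^ #K < #Λ, so some
η is in no N i.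
-/

set_option autoImplicit false

namespace Pool.Agent.Lib.WkD

open Set Cardinal

variable {K Θ Z P₀ : Type} [LinearOrder K] [OrderBot K] [WellFoundedLT K] [LinearOrder Θ]
  [WellFoundedLT Θ] [Preorder P₀] {S : Sys K} {bit : Z → K → ROP P₀}
  {π : Z → K → ROP P₀ → ROP P₀} {m : (Pk (#K) (HH K (ROP P₀)) → ROP P₀) → ROP P₀}

namespace SetupCAux

theorem le_of_code {Θ Z : Type} [LinearOrder Θ] (g g' : Qs Θ Z)
    (h : (⟨g.len, fun δ => g.t δ.1⟩ : Σ l : Θ, (Iio l → Option Z)) =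
      ⟨g'.len, fun δ => g'.t δ.1⟩) : g ≤ g' := by
  obtain ⟨l, t⟩ := g
  obtain ⟨l', t'⟩ := g'
  simp only [Sigma.mk.injEq] at h
  obtain ⟨h1, h2⟩ := h
  subst h1
  have h3 := eq_of_heq h2
  refine ⟨le_rfl, fun δ hδ => ?_⟩
  exact congrFun h3 ⟨δ, hδ⟩

theorem two_pow_inf {κ : Cardinal.{0}} (hκ : ℵ₀ ≤ κ) : ℵ₀ ≤ (2 : Cardinal.{0}) ^ κ :=
  hκ.trans (Cardinal.cantor κ).le

theorem mk_code {κ : Cardinal.{0}} (hκ : ℵ₀ ≤ κ) {Θ Z : Type} [LinearOrder Θ]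
    (hi : ∀ t : Θ, #(Iio t) ≤ κ) (hΘ : #Θ ≤ 2 ^ κ) (hZ : #Z ≤ 2 ^ κ) :
    #(Σ l : Θ, (Iio l → Option Z)) ≤ 2 ^ κ := by
  have h2 := two_pow_inf hκ
  have hO : #(Option Z) ≤ 2 ^ κ := by
    rw [Cardinal.mk_option]
    exact Cardinal.add_le_of_le h2 hZ (Cardinal.one_lt_aleph0.le.trans h2)
  rw [Cardinal.mk_sigma]
  calc Cardinal.sum (fun l : Θ => #(Iio l → Option Z)) ≤ Cardinal.sum (fun _ : Θ => (2 : Cardinal.{0}) ^ κ) := by
        refine Cardinal.sum_le_sum _ _ fun l => ?_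
        have h3 : #(Iio l → Option Z) = #(Option Z) ^ #(Iio l) := by
          rw [Cardinal.power_def]
        rw [h3]
        calc #(Option Z) ^ #(Iio l) ≤ ((2 : Cardinal.{0}) ^ κ) ^ #(Iio l) :=
              Cardinal.power_le_power_right hO
          _ ≤ ((2 : Cardinal.{0}) ^ κ) ^ κ :=
              Cardinal.power_le_power_left (by
                intro h0
                rw [h0] at h2
                exact absurd h2 (not_le.2 Cardinal.aleph0_pos)) (hi l)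
          _ = 2 ^ κ := by
              rw [← Cardinal.power_mul, Cardinal.mul_eq_self hκ]
    _ = #Θ * 2 ^ κ := by rw [Cardinal.sum_const']
    _ ≤ 2 ^ κ * 2 ^ κ := by gcongr
    _ = 2 ^ κ := Cardinal.mul_eq_self h2

end SetupCAux

theorem setup_C (hB : Base Θ S bit π m) : Setup K Θ (ROP (P₀ × Qs Θ Z)) := by
  have hK0 : ℵ₀ ≤ #K := hB.inacc.aleph0_lt.le
  have hQ : ChainClosed (Order.succ (#K)) (Qs Θ Z) := chainClosed_Qs hB.bdd
  refine ⟨hB.inacc, hB.small, hB.neΘ, hB.noMax, ?_, ?_, ?_⟩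
  · obtain ⟨p⟩ := hB.ne
    obtain ⟨θ⟩ := hB.neΘ
    intro h
    have h1 := em_ne_bot ((p, ⟨θ, fun _ => none⟩) : P₀ × Qs Θ Z)
    apply h1
    rw [← le_bot_iff, h]
    exact le_top
  · exact distr_of_chainClosed hK0 (chainClosed_prod hB.chain
      (chainClosed_mono (Order.le_succ _) hQ))
  · intro I h hI hh
    apply eq_top_of_em
    rintro ⟨p₀, g₀⟩
    obtain ⟨g, hg, 𝒜, hA, hO, hpre⟩ := fusion hK0 hB.cc hQ hI
      (fun i => {x : P₀ × Qs Θ Z | ∃ s, em x ≤ h i s})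
      (fun i x y hyx hx => by
        obtain ⟨s, hs⟩ := hx
        exact ⟨s, (em_mono hyx).trans hs⟩)
      (fun i x => by
        obtain ⟨q, hq, s, hs⟩ := exists_em_iSup (p := x) (t := h i) (by rw [hh i]; exact le_top)
        exact ⟨q, hq, s, hs⟩) g₀
    have hO' : ∀ x : Σ i : I, 𝒜 i, ∃ s, em ((x.2.1, g) : P₀ × Qs Θ Z) ≤ h x.1 s :=
      fun x => hO x.1 x.2.1 x.2.2
    choose s hs using hO'
    obtain ⟨t, ht⟩ := hB.bdd (Σ i : I, 𝒜 i) s (by
      rw [Cardinal.mk_sigma]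
      calc Cardinal.sum (fun i : I => #(𝒜 i)) ≤ Cardinal.sum (fun _ : I => #K) :=
            Cardinal.sum_le_sum _ _ hA
        _ = #I * #K := by rw [Cardinal.sum_const']
        _ ≤ #K * #K := by gcongr
        _ = #K := Cardinal.mul_eq_self hK0)
    refine ⟨(p₀, g), ⟨le_rfl, hg⟩, ?_⟩
    refine le_trans ?_ (le_iSup (fun t => ⨅ i, ⨆ s, ⨆ _ : s < t, h i s) t)
    refine le_iInf fun i => em_le_of_dense ?_
    rintro ⟨p₁, g₁⟩ ⟨hp₁, hg₁⟩
    obtain ⟨p', hp', r, hr1, hr2⟩ := hpre i p₁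
    refine ⟨(r, g₁), ⟨hr1, le_rfl⟩, ?_⟩
    have h1 : ((r, g₁) : P₀ × Qs Θ Z) ≤ (p', g) := ⟨hr2, hg₁⟩
    exact ((em_mono h1).trans (hs ⟨i, p', hp'⟩)).trans
      (le_iSup₂_of_le (s ⟨i, p', hp'⟩) (ht ⟨i, p', hp'⟩) le_rfl)

theorem anti_C (hB : Base Θ S bit π m) (hΘ : #Θ ≤ 2 ^ #K) (hZ : #Z ≤ 2 ^ #K) {Λ : Type}
    (hΛ : (2 : Cardinal) ^ #K < #Λ) (t : Θ × VLP S → Λ → ROP (P₀ × Qs Θ Z))
    (ht : ∀ i η η', η ≠ η' → t i η ⊓ t i η' = ⊥) : ∃ η, ∀ i, t i η = ⊥ := by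
  classical
  have hK0 : ℵ₀ ≤ #K := hB.inacc.aleph0_lt.le
  have h2 := SetupCAux.two_pow_inf hK0
  have hcl : ∀ i, #{η | t i η ≠ ⊥} ≤ 2 ^ #K := by
    intro i
    have hx : ∀ η : {η | t i η ≠ ⊥}, ∃ x, em x ≤ t i η.1 := fun η => exists_em η.2
    choose x hx using hx
    have hinc : ∀ η η', η ≠ η' → ¬ ∃ r, r ≤ x η ∧ r ≤ x η' := by
      rintro η η' hne ⟨r, h3, h4⟩
      apply em_ne_bot r
      rw [← le_bot_iff, ← ht i η.1 η'.1 (fun h => hne (Subtype.ext h))]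
      exact le_inf ((em_mono h3).trans (hx η)) ((em_mono h4).trans (hx η'))
    let c : {η | t i η ≠ ⊥} → (Σ l : Θ, (Iio l → Option Z)) :=
      fun η => ⟨(x η).2.len, fun δ => (x η).2.t δ.1⟩
    have hfib : ∀ v, #{η // c η = v} ≤ #K := by
      intro v
      have hno : ∀ η η' : {η // c η = v}, η ≠ η' → ¬ ∃ r, r ≤ (x η.1).1 ∧ r ≤ (x η'.1).1 := by
        rintro η η' hne ⟨r, h3, h4⟩
        apply hinc η.1 η'.1 (fun h => hne (Subtype.ext h))
        refine ⟨(r, (x η.1).2), ⟨h3, le_rfl⟩, ⟨h4, ?_⟩⟩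
        exact SetupCAux.le_of_code _ _ (η.2.trans η'.2.symm)
      have hinj : Function.Injective (fun η : {η // c η = v} => (x η.1).1) := by
        intro η η' h3
        by_contra hne
        apply hno η η' hne
        have h3' : (x η.1).1 = (x η'.1).1 := h3
        exact ⟨(x η.1).1, le_rfl, h3'.le⟩
      rw [← Cardinal.mk_range_eq _ hinj]
      apply hB.cc
      rintro _ ⟨η, rfl⟩ _ ⟨η', rfl⟩ hne
      exact hno η η' (fun h => hne (by rw [h]))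
    have h3 : #{η | t i η ≠ ⊥} ≤ #(Σ v, {η // c η = v}) := by
      refine Cardinal.mk_le_of_injective (f := fun η => ⟨c η, η, rfl⟩) ?_
      intro η η' h
      exact congrArg (fun z : Σ v, {η // c η = v} => z.2.1) h
    refine h3.trans ?_
    rw [Cardinal.mk_sigma]
    calc Cardinal.sum (fun v => #{η // c η = v}) ≤
          Cardinal.sum (fun _ : (Σ l : Θ, (Iio l → Option Z)) => #K) :=
          Cardinal.sum_le_sum _ _ hfib
      _ = #(Σ l : Θ, (Iio l → Option Z)) * #K := by rw [Cardinal.sum_const']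
      _ ≤ 2 ^ #K * 2 ^ #K :=
          mul_le_mul' (SetupCAux.mk_code hK0 hB.iioΘ hΘ hZ) (Cardinal.cantor _).le
      _ = 2 ^ #K := Cardinal.mul_eq_self h2
  have hU : #(⋃ i, {η | t i η ≠ ⊥}) ≤ 2 ^ #K := by
    refine (Cardinal.mk_iUnion_le_sum_mk).trans ?_
    have hV : #(VLP S) ≤ #K := mk_le_of_smallRk hK0 (smallRk_VLP hB.inacc hB.small S)
    calc Cardinal.sum (fun i : Θ × VLP S => #{η | t i η ≠ ⊥}) ≤
          Cardinal.sum (fun _ : Θ × VLP S => (2 : Cardinal.{0}) ^ #K) :=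
          Cardinal.sum_le_sum _ _ hcl
      _ = #(Θ × VLP S) * 2 ^ #K := by rw [Cardinal.sum_const']
      _ = (#Θ * #(VLP S)) * 2 ^ #K := by
          rw [Cardinal.mk_prod, Cardinal.lift_id, Cardinal.lift_id]
      _ ≤ (2 ^ #K * 2 ^ #K) * 2 ^ #K :=
          mul_le_mul' (mul_le_mul' hΘ (hV.trans (Cardinal.cantor _).le)) le_rfl
      _ = 2 ^ #K := by rw [Cardinal.mul_eq_self h2, Cardinal.mul_eq_self h2]
  by_contra hcon
  push Not at hcon
  have h3 : (⋃ i, {η | t i η ≠ ⊥}) = (univ : Set Λ) := by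
    rw [eq_univ_iff_forall]
    intro η
    obtain ⟨i, hi⟩ := hcon η
    exact mem_iUnion.2 ⟨i, hi⟩
  rw [h3, Cardinal.mk_univ] at hU
  exact absurd hΛ (not_lt.2 hU)

end Pool.Agent.Lib.WkD
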