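import Pool.Agent.Lib.WkD.Cnt

/-!
# Fullness (maximum principle) and enumerations

PROOF of `exists_full`. exists_disjoint for x ↦ G x (index ι → B): a x ≤ G x, disjoint, ⨆ a x = ⨆ G x.
Put x₀ i := ⨆ x, a x ⊓ x i. For each x: a x ≤ bi (x i) (x₀ i) for all i: a x ⊓ x i ≤ x₀ i, and
a x ⊓ x₀ i = ⨆ y, a x ⊓ a y ⊓ y i ≤ x i by disjointness. So a x ≤ G x ⊓ ⨅ i, bi (x i) (x₀ i) ≤ G x₀.
PROOF of `exists_surj`. There is an injection N → K with range T, #T = #N < #K; by exists_bound the
range is contained in Iio m. An injection N → Iio m with N nonempty has a left inverse, a surjection.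
-/

set_option autoImplicit false

namespace Pool.Agent.Lib.WkD

open Set Cardinal

theorem exists_full {B : Type} [CompleteBooleanAlgebra B] {ι : Type} (G : (ι → B) → B)
    (hG : ∀ x y, G x ⊓ (⨅ i, bi (x i) (y i)) ≤ G y) : ∃ x₀, ⨆ x, G x ≤ G x₀ := by
  obtain ⟨a, ha, hdis, hsup⟩ := exists_disjoint G
  refine ⟨fun i => ⨆ x, a x ⊓ x i, ?_⟩
  rw [← hsup]
  refine iSup_le fun x => ?_
  refine (le_inf (ha x) (le_iInf fun i => ?_)).trans (hG x _)
  rw [le_bi_iff]
  constructor
  · exact le_iSup (fun y : ι → B => a y ⊓ y i) x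
  · rw [inf_iSup_eq]
    refine iSup_le fun y => ?_
    by_cases hxy : x = y
    · subst hxy
      exact inf_le_right.trans inf_le_right
    · rw [← inf_assoc, hdis x y hxy, bot_inf_eq]
      exact bot_le

theorem exists_surj {K : Type} [LinearOrder K] (hK : (#K).IsInaccessible)
    (hs : ∀ a : K, #(Iio a) < #K) {N : Type} [Nonempty N] (hN : #N < #K) :
    ∃ (m : K) (f : Iio m → N), Function.Surjective f := by
  obtain ⟨g⟩ := (le_def N K).1 hN.le
  obtain ⟨m, hm⟩ := exists_bound hK hs hN g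
  have hinj : Function.Injective (fun n : N => (⟨g n, hm n⟩ : Iio m)) := fun n n' h =>
    g.injective (congrArg Subtype.val h)
  obtain ⟨f, hf⟩ := hinj.hasLeftInverse
  exact ⟨m, f, hf.surjective⟩

end Pool.Agent.Lib.WkD
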