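import Pool.Agent.Lib.WkD.Strip
import Pool.Agent.Lib.WkD.FExt
import Pool.Agent.Lib.WkD.Full

/-!
# K is a strong limit in the generic extension

PROOF. Fix α. Suppose u := (⨆ m, ⨆ e, ⨅ x, ⨆ i, ⨅ ξ, bi (x ξ) (e i ξ))ᶜ ≠ ⊥; let em p₀ ≤ u (exists_em),
i := rk p₀.e, p := p₀. Let V := {e : VLP // rk e ≤ i} (size < #K, smallRk_VLP) and
Cd := V × Set (Iio α × V), #Cd < #K (strong limit, products), nonempty. For (e, n) : Cd let
en (e, n) ξ := ⨆ e' : V, ⨆ _ : (ξ, e') ∈ n ∧ Ext ∅ e' e, ge R e'. By exists_surj there are m and a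
surjection f : Iio m → Cd. u ≤ (⨅ x, ⨆ j, ⨅ ξ, bi (x ξ) (en (f j) ξ))ᶜ = ⨆ x, G x where
G x := ⨅ j, (⨅ ξ, bi (x ξ) (en (f j) ξ))ᶜ. G is extensional, so by exists_full there is x with u ≤ G x.
Let r = (p.b, p.e, p.A ⊓ stripI R rr x ⊓ homI R rr x ⊓ tv (α < crit z)) with the family x : Iio α → BR R and
ranks rr ξ = ξ.1 (SmallRk by smallRk_of_small); r is a condition (mu_stripI, mu_homI, Phi_tail, Phi_inf)
and r ≤ p, so em r ≤ G x. By H.distr for J = Iio α × V and c (ξ, e') = dd e' (x ξ) there is n with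
b' := p.b ⊓ ⨅ j, lit (j ∈ n) (c j) ≠ ⊥. Let r' = (b', p.e, r.A) ≤ r, e := ⟨p.e, _⟩ : V.
CLAIM em r' ≤ ⨅ ξ, bi (x ξ) (en (e, n) ξ). As (e, n) = f j for some j, this contradicts em r' ≤ G x.
Proof of the claim, em_le_bi_iff. (→) q ≤ r', em q ≤ x ξ: q.b ≤ dd q.e (x ξ). From q ≤ r': Ext {z | q.b ≤
r'.A z} q.e p.e, mono to Ext {z | q.b ≤ stripI z ∧ ξ < crit z} (tv: le_tv_iff, q.b ≠ ⊥; ξ < α). strip_ext:
e₀ valid, Ext ∅ e₀ p.e, q.b ≤ dd e₀ (x ξ), q.e = l ++ e₀. rk e₀ = i (Ext.rk_eq), so e₀ ∈ V, and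
(ξ, e₀) ∈ n by of_le_lit. em q ≤ ge e₀ (Ext.univ_append). (←) q ≤ r', em q ≤ en (e, n) ξ: exists_em_iSup:
q₁ ≤ q, e' ∈ V with (ξ, e') ∈ n, Ext ∅ e' p.e, em q₁ ≤ ge e'; of_em_ge: q₂ ≤ q₁ with Ext univ q₂.e e'.
q₂ ≤ r' gives Ext {z | q₂.b ≤ r'.A z} q₂.e p.e, Ext.transfer gives Ext {z | q₂.b ≤ r'.A z} q₂.e e', mono
to {z | q₂.b ≤ homI z ∧ ξ < crit z}. q₂.b ≤ b' ≤ dd e' (x ξ) (lit_true). dd_extI: q₂.b ≤ dd q₂.e (x ξ).
`real` with p := q₂: r₃ ≤ q₂, em r₃ ≤ x ξ. To conclude em q ≤ x ξ use em_le_of_dense: apply this to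
every q' ≤ q instead of q.
-/

set_option autoImplicit false

namespace Pool.Agent.Lib.WkD

open Set Cardinal

variable {K Θ C : Type} [LinearOrder K] [OrderBot K] [LinearOrder Θ] [CompleteBooleanAlgebra C]

/-- If a condition forces that `e` is in the generic filter, some stronger one extends `e`. -/
theorem of_em_ge {R : RSys K Θ C} {q : Cond R} {e : LP K} (h : em q ≤ ge R e) :
    ∃ r ≤ q, Ext univ r.e e := by
  obtain ⟨q₁, h1, p, h2⟩ := exists_em_iSup h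
  obtain ⟨q₂, h3, hp, h4⟩ := exists_em_iSup h2
  obtain ⟨q₃, h5, h6⟩ := compat_of (p := q₂) (q := p) (by
    rw [inf_eq_left.2 h4]; exact em_ne_bot q₂)
  exact ⟨q₃, h5.trans (h3.trans h1), (h6.2.1.mono (subset_univ _)).trans hp⟩

theorem em_le_ge {R : RSys K Θ C} {q : Cond R} {e : LP K} (h : Ext univ q.e e) :
    em q ≤ ge R e := le_iSup_of_le q (le_iSup_of_le h le_rfl)

private theorem StrongAux_bi_trans {B : Type} [CompleteBooleanAlgebra B] (a b c : B) :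
    bi a b ⊓ bi b c ≤ bi a c := by
  rw [le_bi_iff]
  have h1 : bi a b ⊓ a ≤ b := (le_bi_iff.1 le_rfl).1
  have h2 : bi a b ⊓ b ≤ a := (le_bi_iff.1 le_rfl).2
  have h3 : bi b c ⊓ b ≤ c := (le_bi_iff.1 le_rfl).1
  have h4 : bi b c ⊓ c ≤ b := (le_bi_iff.1 le_rfl).2
  constructor
  · refine (le_inf (inf_le_left.trans inf_le_right) ?_).trans h3
    exact (inf_le_inf_right _ inf_le_left).trans h1
  · refine (le_inf (inf_le_left.trans inf_le_left) ?_).trans h2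
    exact (inf_le_inf_right _ inf_le_right).trans h4

theorem bstrong (H : Setup K Θ C) (R : RSys K Θ C) : BStrongLimit (BR R) K := by
  classical
  intro α
  have hK : ℵ₀ ≤ #K := H.inacc.aleph0_lt.le
  by_contra hne
  have hu : (⨆ m : K, ⨆ e : Iio m → Iio α → BR R,
      ⨅ x : Iio α → BR R, ⨆ i, ⨅ ξ, bi (x ξ) (e i ξ))ᶜ ≠ ⊥ := by
    intro h
    exact hne (compl_eq_bot.1 h)
  obtain ⟨p, hp⟩ := exists_em hu
  let V : Type := {e : VLP R.S // rk e.1 ≤ rk p.e}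
  have hV : #V < #K := smallRk_VLP H.inacc H.small R.S (rk p.e)
  have hJ : #(Iio α × V) < #K := by
    rw [mk_prod, lift_id, lift_id]
    exact mul_lt_of_lt hK (H.small α) hV
  have hCd : #(V × Set (Iio α × V)) < #K := by
    rw [mk_prod, lift_id, lift_id]
    refine mul_lt_of_lt hK hV ?_
    rw [mk_set]
    exact H.inacc.isStrongPrelimit hJ
  let e0 : V := ⟨⟨p.e, p.val⟩, le_rfl⟩
  have : Nonempty (V × Set (Iio α × V)) := ⟨(e0, ∅)⟩
  let en : V × Set (Iio α × V) → Iio α → BR R := fun c ξ =>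
    ⨆ e' : V, ⨆ _ : (ξ, e') ∈ c.2 ∧ Ext ∅ e'.1.1 c.1.1.1, ge R e'.1.1
  obtain ⟨m, f, hf⟩ := exists_surj H.inacc H.small hCd
  let G : (Iio α → BR R) → BR R := fun x => ⨅ j : Iio m, (⨅ ξ, bi (x ξ) (en (f j) ξ))ᶜ
  have hG1 : (⨆ m : K, ⨆ e : Iio m → Iio α → BR R,
      ⨅ x : Iio α → BR R, ⨆ i, ⨅ ξ, bi (x ξ) (e i ξ))ᶜ ≤ ⨆ x, G x := by
    have h1 : (⨅ x : Iio α → BR R, ⨆ j : Iio m, ⨅ ξ, bi (x ξ) (en (f j) ξ)) ≤
        ⨆ m : K, ⨆ e : Iio m → Iio α → BR R,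
          ⨅ x : Iio α → BR R, ⨆ i, ⨅ ξ, bi (x ξ) (e i ξ) :=
      le_iSup_of_le m (le_iSup_of_le (fun j ξ => en (f j) ξ) le_rfl)
    refine (compl_le_compl h1).trans ?_
    rw [compl_iInf]
    refine iSup_mono fun x => ?_
    rw [compl_iSup]
  have hG2 : ∀ x y, G x ⊓ (⨅ i, bi (x i) (y i)) ≤ G y := by
    intro x y
    refine le_iInf fun j => ?_
    rw [le_compl_iff_disjoint_right, disjoint_iff_inf_le]
    have h1 : (⨅ i, bi (x i) (y i)) ⊓ (⨅ ξ, bi (y ξ) (en (f j) ξ)) ≤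
        ⨅ ξ, bi (x ξ) (en (f j) ξ) := by
      refine le_iInf fun ξ => ?_
      exact (inf_le_inf (iInf_le _ ξ) (iInf_le _ ξ)).trans (StrongAux_bi_trans _ _ _)
    have h2 : G x ≤ (⨅ ξ, bi (x ξ) (en (f j) ξ))ᶜ := iInf_le _ j
    calc G x ⊓ (⨅ i, bi (x i) (y i)) ⊓ (⨅ ξ, bi (y ξ) (en (f j) ξ))
        = G x ⊓ ((⨅ i, bi (x i) (y i)) ⊓ (⨅ ξ, bi (y ξ) (en (f j) ξ))) := inf_assoc _ _ _
      _ ≤ (⨅ ξ, bi (x ξ) (en (f j) ξ))ᶜ ⊓ (⨅ ξ, bi (x ξ) (en (f j) ξ)) := inf_le_inf h2 h1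
      _ ≤ ⊥ := (compl_inf_self _).le
  obtain ⟨x, hx⟩ := exists_full G hG2
  have hpx : em p ≤ G x := hp.trans (hG1.trans hx)
  let rr : Iio α → K := fun ξ => ξ.1
  have hrr : SmallRk rr := smallRk_of_small hK (H.small α) rr
  let A' : K → C := fun z =>
    p.A z ⊓ (stripI R rr x z ⊓ (homI R rr x z ⊓ tv C (α < R.S.crit z)))
  have hA' : p.b ≤ R.Phi A' := by
    have h1 : R.Phi A' = R.Phi p.A ⊓ R.Phi (fun z =>
        stripI R rr x z ⊓ (homI R rr x z ⊓ tv C (α < R.S.crit z))) :=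
      R.Phi_inf hK p.A _
    have h2 : R.Phi (fun z => stripI R rr x z ⊓ (homI R rr x z ⊓ tv C (α < R.S.crit z))) =
        R.Phi (stripI R rr x) ⊓ R.Phi (fun z => homI R rr x z ⊓ tv C (α < R.S.crit z)) :=
      R.Phi_inf hK (stripI R rr x) _
    have h3 : R.Phi (fun z => homI R rr x z ⊓ tv C (α < R.S.crit z)) =
        R.Phi (homI R rr x) ⊓ R.Phi (fun z => tv C (α < R.S.crit z)) :=
      R.Phi_inf hK (homI R rr x) _
    rw [h1, h2, h3, R.Phi_eq_top fun γ => mu_stripI H hrr γ,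
      R.Phi_eq_top fun γ => mu_homI H hrr x γ, R.Phi_tail α]
    simp only [inf_top_eq]
    exact p.le
  let c : Iio α × V → C := fun j => dd R j.2.1.1 (x j.1)
  have hd := H.distr (Iio α × V) c hJ
  obtain ⟨n, hn⟩ := exists_inf_ne_bot p.ne (le_top.trans hd.ge)
  let r' : Cond R := ⟨p.b ⊓ ⨅ j, lit (j ∈ n) (c j), p.e, A', hn, p.val, inf_le_left.trans hA'⟩
  have hr' : r' ≤ p := ⟨inf_le_left, Ext.refl _ _, fun z => inf_le_right.trans inf_le_left⟩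
  have claim : em r' ≤ ⨅ ξ, bi (x ξ) (en (e0, n) ξ) := by
    refine le_iInf fun ξ => em_le_bi_iff.2 ⟨?_, ?_⟩
    · intro q hq hqx
      have h1 : q.b ≤ dd R q.e (x ξ) := le_dd q hqx
      obtain ⟨hb, hext, hA⟩ := cond_le_iff.1 hq
      have hE : Ext {z | q.b ≤ stripI R rr x z ∧ rr ξ < R.S.crit z} q.e p.e := by
        refine hext.mono fun z hz => ?_
        have hz' : q.b ≤ A' z := hz
        refine ⟨hz'.trans (inf_le_right.trans inf_le_left), ?_⟩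
        have h2 : q.b ≤ tv C (α < R.S.crit z) :=
          hz'.trans (inf_le_right.trans (inf_le_right.trans inf_le_right))
        exact lt_trans ξ.2 ((le_tv_iff q.ne).1 h2)
      obtain ⟨e₀, h2, h3, h4, l, h5⟩ := strip_ext q.val hE h1
      have hrk : rk e₀ = rk p.e := h3.rk_eq h2 p.val
      have hmem : (ξ, (⟨⟨e₀, h2⟩, hrk.le⟩ : V)) ∈ n := by
        refine of_le_lit q.ne ((hb.trans inf_le_right).trans
          (iInf_le _ (ξ, (⟨⟨e₀, h2⟩, hrk.le⟩ : V)))) h4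
      refine le_iSup_of_le (⟨⟨e₀, h2⟩, hrk.le⟩ : V) (le_iSup_of_le ⟨hmem, h3⟩ ?_)
      refine em_le_ge ?_
      rw [h5]
      exact Ext.univ_append l e₀
    · intro q hq hqe
      refine em_le_of_dense fun q₀ hq₀ => ?_
      have h0 : em q₀ ≤ en (e0, n) ξ := (em_mono hq₀).trans hqe
      obtain ⟨q₁, h1, e', h2⟩ := exists_em_iSup h0
      obtain ⟨q₁', h1', ⟨hmem, hext'⟩, h3⟩ := exists_em_iSup h2
      obtain ⟨q₂, h4, h5⟩ := of_em_ge h3
      have hq2r : q₂ ≤ r' := h4.trans (h1'.trans (h1.trans (hq₀.trans hq)))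
      obtain ⟨hb, hext, hA⟩ := cond_le_iff.1 hq2r
      have h6 : Ext {z | q₂.b ≤ A' z} q₂.e e'.1.1 := Ext.transfer q₂.val hext' h5 hext
      have h7 : q₂.b ≤ dd R e'.1.1 (x ξ) := by
        refine (hb.trans inf_le_right).trans ((iInf_le _ (ξ, e')).trans ?_)
        rw [lit_true hmem]
      have h8 : q₂.b ≤ dd R q₂.e (x ξ) := by
        refine dd_extI (r := rr) (s := x) hK H.nonempty e'.1.2 q₂.val h7 (h6.mono fun z hz => ?_)
        have hz' : q₂.b ≤ A' z := hz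
        refine ⟨hz'.trans (inf_le_right.trans (inf_le_right.trans inf_le_left)), ?_⟩
        have h9 : q₂.b ≤ tv C (α < R.S.crit z) :=
          hz'.trans (inf_le_right.trans (inf_le_right.trans inf_le_right))
        exact lt_trans ξ.2 ((le_tv_iff q₂.ne).1 h9)
      obtain ⟨r₃, h9, -, -, h10, -⟩ :=
        real hK H.nonempty q₂.ne h8 le_rfl q₂.val (Ext.refl _ _)
      exact ⟨r₃, h9.trans (h4.trans (h1'.trans h1)), h10⟩
  obtain ⟨j, hj⟩ := hf (e0, n)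
  have h1 : em r' ≤ (⨅ ξ, bi (x ξ) (en (f j) ξ))ᶜ :=
    (em_mono hr').trans (hpx.trans (iInf_le _ j))
  rw [hj] at h1
  exact not_em_compl claim h1

end Pool.Agent.Lib.WkD
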