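import Pool.Agent.Lib.WkD.CDefs
import Pool.Agent.Lib.WkD.Cnt

/-!
# Existence of a full node system

PROOF. For α : K let Fl α = {ℱ : Filter K // Iio α ∈ ℱ}. ℱ is determined by {Z : Set K | Z ∈ ℱ, Z ⊆ Iio α}
(Y ∈ ℱ iff Y ∩ Iio α ∈ ℱ), so #(Fl α) ≤ 2 ^ #{Z // Z ⊆ Iio α} < #K (mk_sets, strong limit). There is an
injection f : (Σ α, Fl α) → K with α ≤ f ⟨α, ℱ⟩: let e : K × K ≃ K (#K * #K = #K). For α the set
{b | α ≤ e (α, b)} has size #K, because its complement injects into Iio α, of size < #K, and #K is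
infinite. So there is an injection i_α : Fl α → {b | α ≤ e (α, b)}; f ⟨α, ℱ⟩ = e (α, i_α ℱ).
Define crit w = α if w = f ⟨α, ℱ⟩ and crit w = w if w is not in the range of f (crit w ≤ w). F w = ℱ if
w = f ⟨α, ℱ⟩ and {z | ξ < crit z} ∈ ℱ for all ξ < α, and F w = ⊥ (the improper filter) otherwise. This is a
Sys. FullSys: for α, ℱ as required take w = f ⟨α, ℱ⟩.
-/

set_option autoImplicit false

namespace Pool.Agent.Lib.WkD

open Set Cardinal

namespace SysExAux

variable {K : Type} [LinearOrder K]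

theorem mk_filt (hK : (#K).IsInaccessible) (hs : ∀ a : K, #(Iio a) < #K) (α : K) :
    #{ℱ : Filter K // Iio α ∈ ℱ} < #K := by
  have h1 : #{ℱ : Filter K // Iio α ∈ ℱ} ≤ #(Set {a : Set K // a ⊆ Iio α}) := by
    refine mk_le_of_injective (f := fun ℱ : {ℱ : Filter K // Iio α ∈ ℱ} =>
      ({a | a.1 ∈ ℱ.1} : Set {a : Set K // a ⊆ Iio α})) ?_
    intro ℱ 𝒢 h
    apply Subtype.ext
    apply Filter.ext
    intro s
    have h2 : ∀ ℋ : {ℱ : Filter K // Iio α ∈ ℱ}, s ∈ ℋ.1 ↔ s ∩ Iio α ∈ ℋ.1 := by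
      intro ℋ
      rw [Filter.inter_mem_iff]
      exact ⟨fun h => ⟨h, ℋ.2⟩, fun h => h.1⟩
    rw [h2, h2]
    exact Set.ext_iff.mp h ⟨s ∩ Iio α, inter_subset_right⟩
  refine h1.trans_lt ?_
  rw [mk_set]
  exact hK.isStrongPrelimit (mk_sets hK hs α)

theorem exists_code (hK : (#K).IsInaccessible) (hs : ∀ a : K, #(Iio a) < #K) :
    ∃ f : (Σ α : K, {ℱ : Filter K // Iio α ∈ ℱ}) → K, Function.Injective f ∧ ∀ p, p.1 ≤ f p := by
  have hinf : ℵ₀ ≤ #K := hK.isRegular.aleph0_le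
  have he : Nonempty (K × K ≃ K) := by
    rw [← Cardinal.eq, mk_prod, lift_id]
    exact mul_eq_self hinf
  obtain ⟨e⟩ := he
  have hi : ∀ α : K, Nonempty ({ℱ : Filter K // Iio α ∈ ℱ} ↪ {b : K // α ≤ e (α, b)}) := by
    intro α
    rw [← Cardinal.le_def]
    refine (mk_filt hK hs α).le.trans ?_
    by_contra hcon
    push Not at hcon
    have h1 : #({b : K | α ≤ e (α, b)}ᶜ : Set K) < #K := by
      refine (mk_le_of_injective (f := fun b : ({b : K | α ≤ e (α, b)}ᶜ : Set K) =>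
        (⟨e (α, b.1), not_le.1 b.2⟩ : Iio α)) ?_).trans_lt (hs α)
      intro b b' hbb
      have h2 := congrArg Subtype.val hbb
      have h3 := e.injective h2
      exact Subtype.ext (Prod.ext_iff.mp h3).2
    have h2 := add_lt_of_lt hinf hcon h1
    have h3 : #({b : K | α ≤ e (α, b)} : Set K) + #({b : K | α ≤ e (α, b)}ᶜ : Set K) = #K :=
      mk_sum_compl _
    exact absurd h2 (not_lt.2 h3.ge)
  let i := fun α => (hi α).some
  refine ⟨fun p => e (p.1, (i p.1 p.2).1), ?_, fun p => (i p.1 p.2).2⟩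
  rintro ⟨α, ℱ⟩ ⟨β, 𝒢⟩ h
  have h1 := Prod.ext_iff.mp (e.injective h)
  obtain ⟨h2, h3⟩ := h1
  simp only at h2 h3
  subst h2
  have h4 := (i α).injective (Subtype.ext h3)
  rw [h4]

end SysExAux

theorem exists_fullSys {K : Type} [LinearOrder K] [WellFoundedLT K] (hK : (#K).IsInaccessible)
    (hs : ∀ a : K, #(Iio a) < #K) : ∃ S : Sys K, FullSys S := by
  classical
  obtain ⟨f, hf, hle⟩ := SysExAux.exists_code hK hs
  let crit : K → K := fun w => if h : ∃ p, f p = w then h.choose.1 else w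
  have hcrit : ∀ p, crit (f p) = p.1 := by
    intro p
    have h : ∃ q, f q = f p := ⟨p, rfl⟩
    have h1 : crit (f p) = h.choose.1 := dif_pos h
    rw [h1, hf h.choose_spec]
  have hcle : ∀ w, crit w ≤ w := by
    intro w
    by_cases h : ∃ p, f p = w
    · obtain ⟨p, rfl⟩ := h
      rw [hcrit]
      exact hle p
    · have h1 : crit w = w := dif_neg h
      rw [h1]
  let F : K → Filter K := fun w => if h : ∃ p, f p = w then
    (if ∀ ξ, ξ < h.choose.1 → {z | ξ < crit z} ∈ h.choose.2.1 then h.choose.2.1 else ⊥) else ⊥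
  have hF1 : ∀ p, F (f p) = if ∀ ξ, ξ < p.1 → {z | ξ < crit z} ∈ p.2.1 then p.2.1 else ⊥ := by
    intro p
    have h : ∃ q, f q = f p := ⟨p, rfl⟩
    have h1 : F (f p) = if ∀ ξ, ξ < h.choose.1 → {z | ξ < crit z} ∈ h.choose.2.1 then
      h.choose.2.1 else ⊥ := dif_pos h
    rw [h1, hf h.choose_spec]
  have hF2 : ∀ w, (¬ ∃ p, f p = w) → F w = ⊥ := fun w h => dif_neg h
  refine ⟨⟨crit, F, hcle, ?_, ?_⟩, ?_⟩
  · intro w
    by_cases h : ∃ p, f p = w
    · obtain ⟨p, rfl⟩ := h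
      rw [hcrit, hF1]
      split_ifs
      · exact p.2.2
      · exact Filter.mem_bot
    · rw [hF2 w h]
      exact Filter.mem_bot
  · intro w ξ hξ
    by_cases h : ∃ p, f p = w
    · obtain ⟨p, rfl⟩ := h
      rw [hcrit] at hξ
      rw [hF1]
      split_ifs with hh
      · exact hh ξ hξ
      · exact Filter.mem_bot
    · rw [hF2 w h]
      exact Filter.mem_bot
  · intro α ℱ h1 h2
    refine ⟨f ⟨α, ℱ, h1⟩, hcrit _, ?_⟩
    show F (f ⟨α, ℱ, h1⟩) = ℱ
    rw [hF1, if_pos h2]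

end Pool.Agent.Lib.WkD
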