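import Pool.Agent.Lib.WkD.Spec
import Pool.Agent.Lib.WkD.HxC
import Pool.Agent.Lib.WkD.SetupC
import Pool.Agent.Lib.WkD.GuessC
import Pool.Agent.Lib.WkD.SysEx
import Pool.Agent.Lib.WkD.Reg
import Pool.Agent.Lib.WkD.Strong
import Pool.Agent.Lib.WkD.PhiT
import Pool.Agent.Lib.WkD.NotD
import Pool.Agent.Lib.WkD.MFinal

/-!
# The final theorem
-/

set_option autoImplicit false

namespace Pool.Agent.Lib.WkD

open Set Cardinal Pool.Agent.Lib.BVM

namespace FinalAux

/-- the order of type `κ⁺` -/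
abbrev Th (K : Type) := (Order.succ (#K)).ord.ToType

theorem mk_Th (K : Type) : #(Th K) = Order.succ (#K) := mk_ord_toType _

theorem iio_Th (K : Type) (t : Th K) : #(Iio t) ≤ #K :=
  Order.lt_succ_iff.1 (mk_Iio_toType_ord_lt t)

theorem bdd_Th {K : Type} (hK : ℵ₀ ≤ #K) (T : Type) (f : T → Th K) (hT : #T ≤ #K) :
    ∃ t, ∀ a, f a < t := by
  by_contra hcon
  push Not at hcon
  have h1 : (univ : Set (Th K)) ⊆ ⋃ a, Iic (f a) := by
    intro t _
    obtain ⟨a, ha⟩ := hcon t
    exact mem_iUnion.2 ⟨a, ha⟩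
  have h2 : ∀ t : Th K, #(Iic t) ≤ #K := by
    intro t
    have : Iic t ⊆ Iio t ∪ {t} := by
      intro s hs
      rcases lt_or_eq_of_le (mem_Iic.1 hs) with h | h
      · exact Or.inl h
      · exact Or.inr h
    refine (mk_le_mk_of_subset this).trans ((mk_union_le _ _).trans ?_)
    refine (add_le_add (iio_Th K t) (?_ : #({t} : Set (Th K)) ≤ #K)).trans
      (Cardinal.add_eq_self hK).le
    rw [mk_singleton]
    exact (one_lt_aleph0.trans_le hK).le
  have h3 : #(Th K) ≤ #K := by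
    rw [← mk_univ (α := Th K)]
    refine (mk_le_mk_of_subset h1).trans ((mk_iUnion_le _).trans ?_)
    refine (mul_le_mul' hT (ciSup_le' fun a => h2 (f a))).trans (mul_eq_self hK).le
  rw [mk_Th] at h3
  exact absurd (Order.lt_succ (#K)) (not_lt.2 h3)

theorem ccle_mono {κ κ' : Cardinal.{0}} (h : κ ≤ κ') {P : Type} [Preorder P] (hP : CCle κ P) :
    CCle κ' P := fun s hs => (hP s hs).trans h

theorem exists_infinite {K : Type} [LinearOrder K] (hK : (#K).IsInaccessible)
    (hs : ∀ a : K, #(Iio a) < #K) : ∃ a : K, (Iio a).Infinite := by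
  obtain ⟨f⟩ : Nonempty (ℕ ↪ K) := by
    rw [← Cardinal.le_def, mk_nat]
    exact hK.1.le
  obtain ⟨b, hb⟩ := exists_bound hK hs (I := ℕ) (by rw [mk_nat]; exact hK.1) f
  refine ⟨b, ?_⟩
  refine (infinite_range_of_injective f.injective).mono ?_
  rintro _ ⟨n, rfl⟩
  exact hb n

end FinalAux

open FinalAux

/-- The final theorem for a well-order `K` of type `κ`. -/
theorem main_K {K : Type} [LinearOrder K] [OrderBot K] [WellFoundedLT K]
    (hK : (#K).IsInaccessible) (hs : ∀ a : K, #(Iio a) < #K)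
    (h : ∀ (C : Type) [CompleteBooleanAlgebra C], HasDCD (#K) C →
      ∀ H : Type, ∃ m : (Pk (#K) H → C) → C, NMeas (#K) H C m) :
    ∃ (M : Type 1) (E : M → M → Prop), ModelZFC M E ∧ ∃ lam, IsStronglyInaccessible E lam ∧
      WeakDiamond E lam ∧ ¬ Diamond E lam := by
  obtain ⟨S, hS⟩ := exists_fullSys hK hs
  have hK0 : ℵ₀ ≤ #K := hK.1.le
  let Θ : Type := Th K
  let Λ : Type := Set (Set K)
  let J : Type := (Θ ⊕ Λ) × K
  let P : Type := AddC (#K) J
  have hreg : (#K).IsRegular := hK.isRegular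
  obtain ⟨m, hm⟩ := h (ROP P) (hasDCD_AddC hreg) (HH K (ROP P))
  let jΘ : Θ × K → J := fun p => (Sum.inl p.1, p.2)
  let jΛ : Λ × K → J := fun p => (Sum.inr p.1, p.2)
  have hjΘ : Function.Injective jΘ := by
    rintro ⟨a, b⟩ ⟨c, d⟩ hab
    have h1 : (Sum.inl a : Θ ⊕ Λ) = Sum.inl c := congrArg Prod.fst hab
    have h2 : b = d := congrArg Prod.snd hab
    exact Prod.ext (Sum.inl_injective h1) h2
  have hjΛ : Function.Injective jΛ := by
    rintro ⟨a, b⟩ ⟨c, d⟩ hab
    have h1 : (Sum.inr a : Θ ⊕ Λ) = Sum.inr c := congrArg Prod.fst hab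
    have h2 : b = d := congrArg Prod.snd hab
    exact Prod.ext (Sum.inr_injective h1) h2
  let bit : Θ → K → ROP P := fun ζ α => bitA (jΘ (ζ, α))
  let π : Θ → K → ROP P → ROP P := fun ζ α => piA (jΘ (ζ, α))
  have hflip : Flip bit π := flip_AddC hK hs jΘ hjΘ
  have hchain : ChainClosed (#K) P := chainClosed_AddC hreg
  have hΘ : #Θ = Order.succ (#K) := mk_Th K
  have hB : Base Θ S bit π m :=
    { inacc := hK
      small := hs
      ne := ⟨⟨fun _ => none, by simpa using (aleph0_pos.trans_le hK0)⟩⟩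
      neΘ := by
        rw [← mk_ne_zero_iff, hΘ]
        exact (aleph0_pos.trans_le (hK0.trans (Order.le_succ _))).ne'
      iioΘ := iio_Th K
      bdd := fun T f hT => bdd_Th hK0 T f hT
      chain := hchain
      cc := ccle_AddC hK J
      distr := distr_of_chainClosed hK0 hchain
      full := hS
      nm := hm
      flip := hflip }
  have H : Setup K Θ (ROP (P × Qs Θ Θ)) := setup_C hB
  have h1 := bregular H (RG hB)
  have h2 := bstrong H (RG hB)
  have h3 := bweakDiamond H (RG hB) _ (guess_C hB (by rw [hΘ]; exact Order.lt_succ _))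
  have hΘ2 : #Θ ≤ 2 ^ #K := by
    rw [hΘ]
    exact Order.succ_le_of_lt (cantor _)
  have h4 := bnotDiamond H (RG hB) (Λ := Λ) (fun η ξ => jj (bitA (jΛ (η, ξ))))
    (fun η η' hne => hx_C hK0 jΛ hjΛ η η' hne)
    (fun t ht => anti_C hB hΘ2 hΘ2 (by
      show (2 : Cardinal) ^ #K < #(Set (Set K))
      rw [mk_set, mk_set]
      exact cantor _) t ht)
  have : Nontrivial (BR (RG hB)) := by
    have hp : ⊤ ≤ (RG hB).Phi (fun _ => ⊤) :=
      le_iInf fun δ => (((RG hB).meas δ).bm.const ⊤).ge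
    exact ⟨⟨em ⟨⊤, [], fun _ => ⊤, H.nontriv.symm, trivial, hp⟩, ⊥, em_ne_bot _⟩⟩
  exact exists_model _ K (exists_infinite hK hs) h1 h2 h3 h4

theorem nmeas_of {κ : Cardinal.{0}} {H C : Type} [CompleteBooleanAlgebra C]
    {m : (Pk κ H → C) → C} (h : NormalFineMeasure κ H C m) : NMeas κ H C m where
  bm := ⟨h.const, h.compl, h.complete⟩
  fine a := by
    have h1 := h.fine a
    convert h1 using 3
    unfold tv
    congr
  normal := h.normal

/-- If there is an indestructibly supercompact cardinal, there is a model of ZFC with a strongly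
inaccessible cardinal at which weak diamond holds and diamond fails. -/
theorem main (κ : Cardinal.{0}) (h : IndestructiblySupercompact κ) :
    ∃ (M : Type 1) (E : M → M → Prop), ModelZFC M E ∧ ∃ lam, IsStronglyInaccessible E lam ∧
      WeakDiamond E lam ∧ ¬ Diamond E lam := by
  obtain ⟨hκ, h⟩ := h
  have hc : #κ.ord.ToType = κ := mk_ord_toType κ
  have hne : Nonempty κ.ord.ToType := by
    rw [← mk_ne_zero_iff, hc]
    exact (aleph0_pos.trans hκ.1).ne'
  let _ : OrderBot κ.ord.ToType := WellFoundedLT.toOrderBot _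
  have hs : ∀ a : κ.ord.ToType, #(Iio a) < κ := fun a => mk_Iio_toType_ord_lt a
  refine main_K (K := κ.ord.ToType) (by rw [hc]; exact hκ) (fun a => by rw [hc]; exact hs a) ?_
  intro C _ hC H
  rw [hc] at hC ⊢
  obtain ⟨m, hm⟩ := h C hC H
  exact ⟨m, nmeas_of hm⟩

end Pool.Agent.Lib.WkD
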