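import Pool.Agent.Lib.WkD.Kx

/-!
# The twisted measure

PROOF. π ζ α preserves complements and suprema (Flip), so ⊤, ⊥, infima (of any families), tv, ⊓, is
monotone and preserves bi.
(L) twist_const: m (x ↦ π ζ (kx x) c) = c. For c' ≠ ⊥ with π ζ α c' = c' for all α ≥ α₀: α₀ ≤ kx x almost
everywhere (tail of normMeas_kx), so m (x ↦ π ζ (kx x) c') = c' (congr_ae). If c' ≤ c then
c' ≤ m (x ↦ π ζ (kx x) c). Such c' are dense below c (loc), so c ≤ m (x ↦ π ζ (kx x) c) (le_of_dense). The same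
for cᶜ: cᶜ ≤ m (x ↦ π ζ (kx x) cᶜ) = (m (x ↦ π ζ (kx x) c))ᶜ.
twist_inv: m (x ↦ bi (π ζ (kx x) c) c) = bi (m (x ↦ π ζ (kx x) c)) c = ⊤ (BMeas.bi).
nmeas_mtw: const = (L); compl, iInf: π preserves them; fine: π (tv p) = tv p; normal:
π (⨅ a ∈ x, A a x) = ⨅ a ∈ x, π (A a x).
-/

set_option autoImplicit false

namespace Pool.Agent.Lib.WkD

open Set Cardinal

variable {K C : Type} [LinearOrder K] [WellFoundedLT K] [CompleteBooleanAlgebra C]
  {m : (Pk (#K) (HH K C) → C) → C} {Z : Type} {bit : Z → K → C} {π : Z → K → C → C}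

theorem Flip.iSup (h : Flip bit π) (ζ : Z) (α : K) {ι : Sort*} (c : ι → C) :
    π ζ α (⨆ i, c i) = ⨆ i, π ζ α (c i) := by
  rw [_root_.iSup, h.sSup, ← Set.range_comp]
  rfl

theorem Flip.iInf (h : Flip bit π) (ζ : Z) (α : K) {ι : Sort*} (c : ι → C) :
    π ζ α (⨅ i, c i) = ⨅ i, π ζ α (c i) := by
  have h1 : (⨅ i, c i) = (⨆ i, (c i)ᶜ)ᶜ := by
    rw [compl_iSup]
    simp only [compl_compl]
  rw [h1, h.compl, h.iSup, compl_iSup]
  refine iInf_congr fun i => ?_
  rw [h.compl, compl_compl]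

theorem Flip.tv (h : Flip bit π) (ζ : Z) (α : K) (p : Prop) : π ζ α (tv C p) = tv C p := by
  by_cases hp : p
  · rw [tv_true hp]
    have h1 := h.iInf ζ α (fun i : PEmpty.{1} => (⊤ : C))
    rw [iInf_of_empty, iInf_of_empty] at h1
    exact h1
  · rw [tv_false hp]
    have h1 := h.iSup ζ α (fun i : PEmpty.{1} => (⊤ : C))
    rw [iSup_of_empty, iSup_of_empty] at h1
    exact h1

theorem Flip.inf (h : Flip bit π) (ζ : Z) (α : K) (c d : C) :
    π ζ α (c ⊓ d) = π ζ α c ⊓ π ζ α d := by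
  have h1 := h.iInf ζ α (fun b : Bool => cond b c d)
  rw [iInf_bool_eq, iInf_bool_eq] at h1
  exact h1

namespace TwistAux

theorem mono (h : Flip bit π) (ζ : Z) (α : K) {c d : C} (hcd : c ≤ d) :
    π ζ α c ≤ π ζ α d := by
  have h1 := h.inf ζ α c d
  rw [inf_eq_left.2 hcd] at h1
  rw [h1]
  exact inf_le_right

theorem le_twist (hK : ℵ₀ ≤ #K) (hs : ∀ a : K, #(Iio a) < #K)
    (hm : NMeas (#K) (HH K C) C m) (h : Flip bit π) (ζ : Z) (c : C) :
    c ≤ m (fun x => π ζ (kx x) c) := by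
  refine le_of_dense fun b' hb' hb0 => ?_
  obtain ⟨c', hc', hc0, α₀, hα⟩ := h.loc ζ b' hb0
  refine ⟨c', hc', hc0, ?_⟩
  have h1 : m (fun x => π ζ (kx x) c') = m (fun _ => c') := by
    refine hm.bm.congr_ae hK ((normMeas_kx hK hs hm).tail α₀) fun x => ?_
    by_cases hx : α₀ < kx x
    · rw [hα _ hx.le, bi_self]
      exact le_top
    · rw [tv_false hx]
      exact bot_le
  rw [hm.bm.const] at h1
  calc c' = m (fun x => π ζ (kx x) c') := h1.symm
    _ ≤ m (fun x => π ζ (kx x) c) :=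
      hm.bm.mono hK fun x => mono h ζ (kx x) (hc'.trans hb')

end TwistAux

open TwistAux

theorem twist_const (hK : ℵ₀ ≤ #K) (hs : ∀ a : K, #(Iio a) < #K)
    (hm : NMeas (#K) (HH K C) C m) (h : Flip bit π) (ζ : Z) (c : C) :
    m (fun x => π ζ (kx x) c) = c := by
  refine le_antisymm ?_ (le_twist hK hs hm h ζ c)
  have h1 := le_twist hK hs hm h ζ cᶜ
  have h2 : (fun x : Pk (#K) (HH K C) => π ζ (kx x) cᶜ) = fun x => (π ζ (kx x) c)ᶜ := by
    funext x
    exact h.compl ζ (kx x) c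
  rw [h2, hm.bm.compl] at h1
  exact compl_le_compl_iff_le.1 h1

theorem twist_inv (hK : ℵ₀ ≤ #K) (hs : ∀ a : K, #(Iio a) < #K)
    (hm : NMeas (#K) (HH K C) C m) (h : Flip bit π) (ζ : Z) (c : C) :
    m (fun x => bi (π ζ (kx x) c) c) = ⊤ := by
  have h1 := hm.bm.bi hK (fun x => π ζ (kx x) c) (fun _ => c)
  rw [twist_const hK hs hm h ζ c, hm.bm.const, bi_self] at h1
  exact h1

theorem nmeas_mtw (hK : ℵ₀ ≤ #K) (hs : ∀ a : K, #(Iio a) < #K)
    (hm : NMeas (#K) (HH K C) C m) (h : Flip bit π) (ζ : Z) :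
    NMeas (#K) (HH K C) C (mtw π m ζ) where
  bm :=
    { const := fun b => twist_const hK hs hm h ζ b
      compl := fun A => by
        have h2 : (fun x : Pk (#K) (HH K C) => π ζ (kx x) (A x)ᶜ) =
            fun x => (π ζ (kx x) (A x))ᶜ := by
          funext x
          exact h.compl ζ (kx x) (A x)
        show m (fun x => π ζ (kx x) (A x)ᶜ) = (m (fun x => π ζ (kx x) (A x)))ᶜ
        rw [h2, hm.bm.compl]
      iInf := fun I A hI => by
        have h2 : (fun x : Pk (#K) (HH K C) => π ζ (kx x) (⨅ i, A i x)) =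
            fun x => ⨅ i, π ζ (kx x) (A i x) := by
          funext x
          exact h.iInf ζ (kx x) _
        show m (fun x => π ζ (kx x) (⨅ i, A i x)) = ⨅ i, m (fun x => π ζ (kx x) (A i x))
        rw [h2]
        exact hm.bm.iInf I (fun i x => π ζ (kx x) (A i x)) hI }
  fine := fun a => by
    have h2 : (fun x : Pk (#K) (HH K C) => π ζ (kx x) (tv C (a ∈ x.1))) =
        fun x => tv C (a ∈ x.1) := by
      funext x
      exact h.tv ζ (kx x) _
    show m (fun x => π ζ (kx x) (tv C (a ∈ x.1))) = ⊤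
    rw [h2]
    exact hm.fine a
  normal := fun A => by
    have h2 : (fun x : Pk (#K) (HH K C) => π ζ (kx x) (⨅ a, ⨅ _ : a ∈ x.1, A a x)) =
        fun x => ⨅ a, ⨅ _ : a ∈ x.1, π ζ (kx x) (A a x) := by
      funext x
      rw [h.iInf ζ (kx x)]
      refine iInf_congr fun a => ?_
      exact h.iInf ζ (kx x) _
    show m (fun x => π ζ (kx x) (⨅ a, ⨅ _ : a ∈ x.1, A a x)) =
      ⨅ a, m (fun x => π ζ (kx x) (A a x))
    rw [h2]
    exact hm.normal (fun a x => π ζ (kx x) (A a x))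

theorem nmeas_mop (hK : ℵ₀ ≤ #K) (hs : ∀ a : K, #(Iio a) < #K)
    (hm : NMeas (#K) (HH K C) C m) (h : Flip bit π) (i : Option Z) :
    NMeas (#K) (HH K C) C (mop π m i) := by
  cases i with
  | none => exact hm
  | some ζ => exact nmeas_mtw hK hs hm h ζ

end Pool.Agent.Lib.WkD
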