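import Pool.Agent.Lib.WkD.Nxt
import Pool.Agent.Lib.WkD.Twist

/-!
# The measure sequence of a sequence of options

PROOF. By well-founded induction on β: if all seqm t δ, δ < β, are NormMeas then
φ A := ⨅ δ, ⨅ _ : δ < β, seqm t δ A is PhiOK (top, inf: BMeas; const: each seqm t δ (fun _ => b) = b; tail), and
seqm t β = Next S φ (mop π m (t β)) (seqm_eq) is NormMeas by normMeas_next and nmeas_mop. r3: next_inF.
seqm_congr: well-founded induction on β: the functions φ agree since ∀ δ' ≤ δ < β the options agree.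
-/

set_option autoImplicit false

namespace Pool.Agent.Lib.WkD

open Set Cardinal

variable {K Θ C : Type} [LinearOrder K] [WellFoundedLT K] [LinearOrder Θ] [WellFoundedLT Θ]
  [CompleteBooleanAlgebra C] {m : (Pk (#K) (HH K C) → C) → C} {S : Sys K}
  {Z : Type} {bit : Z → K → C} {π : Z → K → C → C}

private theorem phiOK_of (hK : ℵ₀ ≤ #K) (t : Θ → Option Z) (β : Θ)
    (h : ∀ δ, δ < β → NormMeas S.crit (seqm S π m t δ)) :
    PhiOK S (fun A => ⨅ δ : Θ, ⨅ _ : δ < β, seqm S π m t δ A) where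
  top := by
    refine iInf_eq_top.2 (fun δ => iInf_eq_top.2 (fun hδ => ?_))
    exact (h δ hδ).bm.top
  inf A B := by
    change (⨅ δ : Θ, ⨅ _ : δ < β, seqm S π m t δ (fun z => A z ⊓ B z)) =
      (⨅ δ : Θ, ⨅ _ : δ < β, seqm S π m t δ A) ⊓ ⨅ δ : Θ, ⨅ _ : δ < β, seqm S π m t δ B
    rw [← iInf_inf_eq]
    refine iInf_congr (fun δ => ?_)
    rw [← iInf_inf_eq]
    exact iInf_congr (fun hδ => (h δ hδ).bm.inf hK A B)
  const b := by
    refine le_iInf (fun δ => le_iInf (fun hδ => ?_))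
    rw [(h δ hδ).bm.const]
  tail ξ := by
    refine iInf_eq_top.2 (fun δ => iInf_eq_top.2 (fun hδ => ?_))
    exact (h δ hδ).tail ξ

theorem normMeas_seqm (hK : (#K).IsInaccessible) (hs : ∀ a : K, #(Iio a) < #K)
    (hd : Distr (#K) C) (hS : FullSys S) (hm : NMeas (#K) (HH K C) C m) (h : Flip bit π)
    (t : Θ → Option Z) (β : Θ) : NormMeas S.crit (seqm S π m t β) := by
  have hK0 : ℵ₀ ≤ #K := hK.aleph0_lt.le
  induction β using WellFoundedLT.induction with
  | ind β ih =>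
    rw [seqm_eq]
    exact normMeas_next hK hs hd hS (nmeas_mop hK0 hs hm h (t β)) (phiOK_of hK0 t β ih)

theorem phiOK_seqm (hK : (#K).IsInaccessible) (hs : ∀ a : K, #(Iio a) < #K)
    (hd : Distr (#K) C) (hS : FullSys S) (hm : NMeas (#K) (HH K C) C m) (h : Flip bit π)
    (t : Θ → Option Z) (β : Θ) :
    PhiOK S (fun A => ⨅ δ : Θ, ⨅ _ : δ < β, seqm S π m t δ A) :=
  phiOK_of hK.aleph0_lt.le t β (fun δ _ => normMeas_seqm hK hs hd hS hm h t δ)

theorem seqm_inF (hK : (#K).IsInaccessible) (hs : ∀ a : K, #(Iio a) < #K)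
    (hd : Distr (#K) C) (hS : FullSys S) (hm : NMeas (#K) (HH K C) C m) (h : Flip bit π)
    (t : Θ → Option Z) (β : Θ) (A : K → C) :
    seqm S π m t β (fun w => inF S A w) = ⨅ δ : Θ, ⨅ _ : δ < β, seqm S π m t δ A := by
  have hK0 : ℵ₀ ≤ #K := hK.aleph0_lt.le
  rw [seqm_eq]
  exact next_inF hK hs hd hS (nmeas_mop hK0 hs hm h (t β))
    (phiOK_seqm hK hs hd hS hm h t β) A

theorem seqm_congr (S : Sys K) (π : Z → K → C → C) (m : (Pk (#K) (HH K C) → C) → C)
    (t t' : Θ → Option Z) (β : Θ) (h : ∀ δ, δ ≤ β → t δ = t' δ) :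
    seqm S π m t β = seqm S π m t' β := by
  induction β using WellFoundedLT.induction with
  | ind β ih =>
    rw [seqm_eq, seqm_eq, h β le_rfl]
    congr 1
    funext A
    refine iInf_congr (fun δ => iInf_congr (fun hδ => ?_))
    rw [ih δ hδ (fun δ' hδ' => h δ' (hδ'.trans hδ.le))]

end Pool.Agent.Lib.WkD
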