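import Pool.Agent.Lib.WkD.DcL
import Pool.Agent.Lib.WkD.Seq

/-!
# The measure sequence with values in the algebra of the product

PROOF of `Dc_gmu`. Let h' ≤ h. (←) em p ≤ seqm h.t β Y: the pair (p,h') is in the index set of the
supremum: β < h'.len, Dc h' (X z) (Y z) (mono), and seqm h'.t β = seqm h.t β by seqm_congr (δ ≤ β < h.len). (→)
em (p,h') ≤ gmu β X: em_le_of_dense: p₁ ≤ p; exists_em_iSup (twice) for (p₁,h'): y ≤ (p₁,h') and x in the index
set with em y ≤ em x; compat_of: z ≤ y, x. β < x.2.len, Y' with Dc x.2 (X z) (Y' z), em x.1 ≤ seqm x.2.t β Y'.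
z.2 ≤ h' ≤ h and z.2 ≤ x.2, so Y = Y' (Dc.unique after mono), and seqm z.2.t β is equal to seqm h.t β and
to seqm x.2.t β (seqm_congr). em z.1 ≤ em x.1 ≤ seqm h.t β Y and z.1 ≤ p₁.
normMeas_gmu: each identity by Dc.eq_of_dense: given h₀ first take h₁ ≤ h₀ with β < h₁.len (Qs.exists_len; Θ
has no maximum by bdd), then h ≤ h₁ deciding all the sets involved (exists_Dc with index types of size
≤ #K: X : K → .., families I → K → .. with #I < #K, K → K → ..; chainClosed_Qs with bdd), then Dc_gmu,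
Dc.compl, Dc.iInf, Dc.tv, and the same identity for seqm h.t β (normMeas_seqm). For `const`:
Dc h (gmu β (fun _ => b)) (seqm h.t β (fun _ => c)) = c.
gmu_inF: Dc.inF, Dc_gmu and seqm_inF; Dc h (⨅ δ, ⨅ _ : δ < β, gmu δ X) (⨅ δ, ⨅ _ : δ < β, seqm h.t δ Y)
(δ < β < h.len).
-/

set_option autoImplicit false

namespace Pool.Agent.Lib.WkD

open Set Cardinal

variable {K Θ Z P₀ : Type} [LinearOrder K] [WellFoundedLT K] [LinearOrder Θ] [WellFoundedLT Θ]
  [Preorder P₀] {S : Sys K} {bit : Z → K → ROP P₀} {π : Z → K → ROP P₀ → ROP P₀}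
  {m : (Pk (#K) (HH K (ROP P₀)) → ROP P₀) → ROP P₀}

theorem Base.noMax (hB : Base Θ S bit π m) (t : Θ) : ∃ s, t < s := by
  obtain ⟨s, hs⟩ := hB.bdd Unit (fun _ => t) (by
    rw [mk_fintype]
    simpa using (one_lt_aleph0.trans hB.inacc.1).le)
  exact ⟨s, hs ()⟩

namespace GlueAux

theorem seqm_Qs {β : Θ} {h h' : Qs Θ Z} (hβ : β < h.len) (hh : h' ≤ h) :
    seqm S π m h'.t β = seqm S π m h.t β :=
  seqm_congr S π m h'.t h.t β fun δ hδ => hh.2 δ (hδ.trans_lt hβ)

theorem exists_Dc_len (hB : Base Θ S bit π m) (β : Θ) {I : Type} (hI : #I ≤ #K)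
    (X : I → ROP (P₀ × Qs Θ Z)) (h₀ : Qs Θ Z) :
    ∃ h ≤ h₀, β < h.len ∧ ∃ Y : I → ROP P₀, ∀ i, Dc h (X i) (Y i) := by
  obtain ⟨h₁, h1, h2⟩ := Qs.exists_len hB.noMax h₀ β
  obtain ⟨h, h3, Y, h4⟩ := exists_Dc hB.inacc.aleph0_lt.le hB.cc (chainClosed_Qs hB.bdd) hI X h₁
  exact ⟨h, h3.trans h1, h2.trans_le h3.1, Y, h4⟩

theorem normMeas' (hB : Base Θ S bit π m) (t : Θ → Option Z) (β : Θ) :
    NormMeas S.crit (seqm S π m t β) :=
  normMeas_seqm hB.inacc hB.small hB.distr hB.full hB.nm hB.flip t β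

end GlueAux

open GlueAux

theorem Dc_gmu {β : Θ} {h : Qs Θ Z} (hβ : β < h.len) {X : K → ROP (P₀ × Qs Θ Z)}
    {Y : K → ROP P₀} (hX : ∀ z, Dc h (X z) (Y z)) :
    Dc h (gmu S π m β X) (seqm S π m h.t β Y) := by
  intro p h' hh'
  constructor
  · intro hp
    apply em_le_of_dense
    intro q hq
    have h1 : em (q, h') ≤ gmu S π m β X := (em_mono (⟨hq, le_rfl⟩ : (q, h') ≤ (p, h'))).trans hp
    obtain ⟨y, hy, x, hx⟩ := exists_em_iSup h1
    obtain ⟨y', hy', hc, hx'⟩ := exists_em_iSup hx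
    have h3 : em y' ⊓ em x ≠ ⊥ := by
      rw [inf_eq_left.2 hx']
      exact em_ne_bot y'
    obtain ⟨z, hz1, hz2⟩ := compat_of h3
    obtain ⟨hc1, Y', hY', hc2⟩ := hc
    have hz : z ≤ (q, h') := hz1.trans (hy'.trans hy)
    have hzq : z.1 ≤ q := hz.1
    have hzh : z.2 ≤ h := le_trans hz.2 hh'
    have hzx : z.2 ≤ x.2 := hz2.2
    have hYY : Y = Y' := by
      funext w
      exact ((hX w).mono hzh).unique ((hY' w).mono hzx)
    have hs : seqm S π m h.t β = seqm S π m x.2.t β :=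
      (seqm_Qs hβ hzh).symm.trans (seqm_Qs hc1 hzx)
    refine ⟨z.1, hzq, ?_⟩
    rw [hs, hYY]
    exact (em_mono hz2.1).trans hc2
  · intro hp
    have h1 : β < h'.len := hβ.trans_le hh'.1
    refine le_iSup_of_le (p, h') (le_iSup_of_le ⟨h1, Y, fun z => (hX z).mono hh', ?_⟩ le_rfl)
    change em p ≤ seqm S π m h'.t β Y
    rw [seqm_Qs hβ hh']
    exact hp

theorem normMeas_gmu (hB : Base Θ S bit π m) (β : Θ) :
    NormMeas S.crit (gmu (Z := Z) S π m β) where
  bm :=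
    { const := by
        intro b
        apply Dc.eq_of_dense
        intro h₀
        obtain ⟨h, hh, hl, Y, hY⟩ := exists_Dc_len hB β (I := Unit) (by
          rw [mk_fintype]
          simpa using (one_lt_aleph0.trans hB.inacc.1).le) (fun _ => b) h₀
        refine ⟨h, hh, Y (), ?_, hY ()⟩
        have h1 := Dc_gmu (S := S) (π := π) (m := m) hl (X := fun _ : K => b)
          (Y := fun _ => Y ()) (fun _ => hY ())
        rwa [(normMeas' hB h.t β).bm.const] at h1
      compl := by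
        intro A
        apply Dc.eq_of_dense
        intro h₀
        obtain ⟨h, hh, hl, Y, hY⟩ := exists_Dc_len hB β (I := K) le_rfl A h₀
        refine ⟨h, hh, (seqm S π m h.t β Y)ᶜ, ?_, (Dc_gmu hl hY).compl⟩
        have h1 := Dc_gmu (S := S) (π := π) (m := m) hl (X := fun z : K => (A z)ᶜ)
          (Y := fun z => (Y z)ᶜ) (fun z => (hY z).compl)
        rwa [(normMeas' hB h.t β).bm.compl] at h1
      iInf := by
        intro I A hI
        apply Dc.eq_of_dense
        intro h₀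
        have hc : #(I × K) ≤ #K := by
          rw [Cardinal.mk_prod, Cardinal.lift_id, Cardinal.lift_id]
          exact Cardinal.mul_le_of_le hB.inacc.aleph0_lt.le hI.le le_rfl
        obtain ⟨h, hh, hl, Y, hY⟩ := exists_Dc_len hB β (I := I × K) hc
          (fun x => A x.1 x.2) h₀
        refine ⟨h, hh, ⨅ i, seqm S π m h.t β (fun z => Y (i, z)), ?_,
          Dc.iInf fun i => Dc_gmu hl (fun z => hY (i, z))⟩
        have h1 := Dc_gmu (S := S) (π := π) (m := m) hl (X := fun z : K => ⨅ i, A i z)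
          (Y := fun z => ⨅ i, Y (i, z)) (fun z => Dc.iInf fun i => hY (i, z))
        rwa [(normMeas' hB h.t β).bm.iInf I (fun i z => Y (i, z)) hI] at h1 }
  tail := by
    intro ξ
    apply Dc.eq_of_dense
    intro h₀
    obtain ⟨h, hh, hl⟩ := Qs.exists_len hB.noMax h₀ β
    refine ⟨h, hh, ⊤, ?_, Dc.top h⟩
    have h1 := Dc_gmu (S := S) (π := π) (m := m) hl
      (X := fun z : K => tv (ROP (P₀ × Qs Θ Z)) (ξ < S.crit z))
      (Y := fun z => tv (ROP P₀) (ξ < S.crit z)) (fun z => Dc.tv h _)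
    rwa [(normMeas' hB h.t β).tail] at h1
  diag := by
    intro A
    apply Dc.eq_of_dense
    intro h₀
    have hc : #(K × K) ≤ #K := by
      rw [Cardinal.mk_prod, Cardinal.lift_id]
      exact Cardinal.mul_le_of_le hB.inacc.aleph0_lt.le le_rfl le_rfl
    obtain ⟨h, hh, hl, Y, hY⟩ := exists_Dc_len hB β (I := K × K) hc
      (fun x => A x.1 x.2) h₀
    refine ⟨h, hh, ⨅ v, seqm S π m h.t β (fun z => Y (v, z)), ?_,
      Dc.iInf fun v => Dc_gmu hl (fun z => hY (v, z))⟩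
    have h1 := Dc_gmu (S := S) (π := π) (m := m) hl
      (X := fun z : K => ⨅ v, ⨅ _ : v < S.crit z, A v z)
      (Y := fun z => ⨅ v, ⨅ _ : v < S.crit z, Y (v, z))
      (fun z => Dc.iInf fun v => Dc.iInf fun _ => hY (v, z))
    rwa [(normMeas' hB h.t β).diag (fun v z => Y (v, z))] at h1

theorem gmu_inF (hB : Base Θ S bit π m) (β : Θ) (X : K → ROP (P₀ × Qs Θ Z)) :
    gmu S π m β (fun w => inF S X w) = ⨅ δ : Θ, ⨅ _ : δ < β, gmu S π m δ X := by
  apply Dc.eq_of_dense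
  intro h₀
  obtain ⟨h, hh, hl, Y, hY⟩ := exists_Dc_len hB β (I := K) le_rfl X h₀
  refine ⟨h, hh, ⨅ δ : Θ, ⨅ _ : δ < β, seqm S π m h.t δ Y, ?_,
    Dc.iInf fun δ => Dc.iInf fun hδ => Dc_gmu (hδ.trans hl) hY⟩
  have h1 := Dc_gmu (S := S) (π := π) (m := m) hl (X := fun w : K => inF S X w)
    (Y := fun w => inF S Y w) (fun w => Dc.inF S hY w)
  rwa [seqm_inF hB.inacc hB.small hB.distr hB.full hB.nm hB.flip h.t β Y] at h1

/-- the measure sequence -/
noncomputable def RG (hB : Base Θ S bit π m) : RSys K Θ (ROP (P₀ × Qs Θ Z)) where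
  S := S
  μ := gmu S π m
  meas := normMeas_gmu hB
  r3 := gmu_inF hB

end Pool.Agent.Lib.WkD
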