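import Pool.Agent.Lib.WkD.RBasic

/-!
# Homogenization

PROOF SKETCH.
* `exists_hom`. Let I = {p : Cond R // p.e = e ∧ em p ≤ s}. exists_disjoint for x i = i.b gives a i ≤
  x i, pairwise disjoint, with ⨆ a i = ⨆ x i = dd R e s. Put X z = ⨆ i, a i ⊓ (p i).A z. Since
  a i ≤ (p i).b ≤ R.Phi (p i).A, we get a i ≤ R.Phi (z ↦ a i ⊓ (p i).A z) ≤ R.Phi X
  (Phi_inf, Phi_const), so dd R e s ≤ R.Phi X. Let p be a condition with p.e = e, p.b ≤ dd R e s,
  p.b ⊓ p.A z ≤ X z. By em_le_of_dense it is enough: for q ≤ p there is r ≤ q with em r ≤ s. As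
  q.b ≤ p.b ≤ ⨆ a i there is i with q.b ⊓ a i ≠ ⊥; let r = (q.b ⊓ a i, q.e, q.A) ≤ q (Ext mono). Claim
  r ≤ p i: r.b ≤ a i ≤ (p i).b; Ext {z | r.b ≤ (p i).A z} q.e e: from
  Ext {z | q.b ≤ p.A z} q.e p.e and: if q.b ≤ p.A z then r.b ≤ q.b ≤ p.b ⊓ p.A z ≤ X z and r.b ≤ a i so
  r.b ≤ X z ⊓ a i ≤ (p i).A z (disjointness: (⨆ j, a j ⊓ A_j z) ⊓ a i = a i ⊓ A_i z). Similarly
  r.b ⊓ r.A z ≤ (p i).A z. So em r ≤ em (p i) ≤ s.
* `dd_ext`: if b = ⊥ trivial. Otherwise the condition p = (b, e₂, hom R e s) exists (b ≤ dd ≤ Phi hom);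
  e is valid (exists_of_dd), so p₀ = (b, e, hom R e s) is a condition, em p₀ ≤ s by hom_spec, and
  p ≤ p₀. So em p ≤ s and b = p.b ≤ dd R e₂ s (le_dd).
* `dd_shrink`: dd_ext with b = dd R e s and mono of Ext.
* `dd_inf`: ≥: by density / directly: let b = dd e s ⊓ dd e t; if b ≠ ⊥ the condition
  (b, e, hom e s ⊓ hom e t) forces s and t (hom_spec twice), so b ≤ dd e (s ⊓ t). ≤ by dd_mono.
* `PP_inf`: PP e s w ⊓ PP e t w ≤ PP e (s ⊓ t) w: for a, a' use a ∩ a' (Valid.shrink) and dd_shrink,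
  dd_inf.
* `real`: q = (b, e, fun z => p.A z ⊓ hom R e s z); b ≤ Phi p.A since b ≤ p.b; em q ≤ s by hom_spec.
* `mu_homI`: fix i, e: R.μ γ (z ↦ dd e (s i) ⇨ hom e (s i) z) = dd ⇨ R.μ γ (hom) = ⊤ as
  dd ≤ Phi hom ≤ R.μ γ hom. Then NormMeas.diagI twice (ranks r and smallRk_VLP); note
  homI z = ⨅ i, ⨅ _ : r i < crit z, (⨅ e, ⨅ _ : rk e < crit z, ..).
* `dd_extI`: by Ext.of_sub: from Ext {z | b ≤ homI z ∧ r i < crit z} e₂ e and Valid e₂ get
  Ext {z | b ≤ hom R e (s i) z} e₂ e, because for z in the set with rk e < crit z we have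
  b ≤ homI z ≤ (dd e (s i) ⇨ hom e (s i) z) and b ≤ dd e (s i). Then dd_ext.
-/

set_option autoImplicit false

namespace Pool.Agent.Lib.WkD

open Set Cardinal

variable {K Θ C : Type} [LinearOrder K] [OrderBot K] [LinearOrder Θ] [CompleteBooleanAlgebra C]

theorem exists_hom (hK : ℵ₀ ≤ #K) (hΘ : Nonempty Θ) (R : RSys K Θ C) (e : LP K) (s : BR R) :
    ∃ X : K → C, dd R e s ≤ R.Phi X ∧ ∀ p : Cond R, p.e = e → p.b ≤ dd R e s →
      (∀ z, p.b ⊓ p.A z ≤ X z) → em p ≤ s := by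
  obtain ⟨a, ha1, ha2, ha3⟩ :=
    exists_disjoint (fun i : {p : Cond R // p.e = e ∧ em p ≤ s} => i.1.b)
  have hdd : dd R e s = ⨆ i : {p : Cond R // p.e = e ∧ em p ≤ s}, i.1.b := by
    unfold dd
    rw [iSup_subtype]
  refine ⟨fun z => ⨆ i, a i ⊓ i.1.A z, ?_, ?_⟩
  · rw [hdd, ← ha3]
    refine iSup_le fun i => ?_
    have h1 : a i ≤ R.Phi (fun z => a i ⊓ i.1.A z) := by
      rw [R.Phi_inf hK (fun _ => a i) i.1.A, R.Phi_const hΘ]
      exact le_inf le_rfl ((ha1 i).trans i.1.le)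
    exact h1.trans (R.Phi_mono hK fun z => le_iSup (fun i => a i ⊓ i.1.A z) i)
  · intro p hpe hpb hpA
    refine em_le_of_dense fun q hq => ?_
    obtain ⟨hb, hext, hA⟩ := cond_le_iff.1 hq
    have h1 : q.b ≤ ⨆ i, a i := by
      rw [ha3, ← hdd]
      exact hb.trans hpb
    obtain ⟨i, hi⟩ := exists_inf_ne_bot q.ne h1
    have key : ∀ (z : K) (c : C), c ≤ a i → c ≤ p.b → c ≤ p.A z → c ≤ i.1.A z := by
      intro z c h2 h3 h4
      refine (le_inf ((le_inf h3 h4).trans (hpA z)) h2).trans ?_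
      rw [iSup_inf_eq]
      refine iSup_le fun j => ?_
      by_cases hij : j = i
      · rw [hij]
        exact inf_le_left.trans inf_le_right
      · have h5 : a j ⊓ i.1.A z ≤ a j := inf_le_left
        refine le_trans (le_trans (le_inf (inf_le_left.trans inf_le_left) inf_le_right)
          (ha2 j i hij).le) bot_le
    let r : Cond R := ⟨q.b ⊓ a i, q.e, q.A, hi, q.val, inf_le_left.trans q.le⟩
    have hrq : r ≤ q := ⟨inf_le_left, Ext.refl _ _, fun z => inf_le_right⟩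
    have hri : r ≤ i.1 := by
      refine ⟨inf_le_right.trans (ha1 i), ?_, fun z => ?_⟩
      · have h6 : Ext {z | q.b ≤ p.A z} q.e i.1.e := by
          rw [i.2.1, ← hpe]
          exact hext
        refine h6.mono fun z hz => ?_
        exact key z _ inf_le_right (inf_le_left.trans hb) (inf_le_left.trans hz)
      · refine key z _ (inf_le_left.trans inf_le_right)
          ((inf_le_left.trans inf_le_left).trans hb) ?_
        exact (inf_le_inf_right _ inf_le_left).trans (hA z)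
    exact ⟨r, hrq, (em_mono hri).trans i.2.2⟩

open Classical in
/-- a homogenizing set -/
noncomputable def hom (R : RSys K Θ C) (e : LP K) (s : BR R) : K → C :=
  if h : ∃ X : K → C, dd R e s ≤ R.Phi X ∧ ∀ p : Cond R, p.e = e → p.b ≤ dd R e s →
      (∀ z, p.b ⊓ p.A z ≤ X z) → em p ≤ s then h.choose else fun _ => ⊤

variable {R : RSys K Θ C}

theorem le_Phi_hom (hK : ℵ₀ ≤ #K) (hΘ : Nonempty Θ) (e : LP K) (s : BR R) :
    dd R e s ≤ R.Phi (hom R e s) := by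
  have h := exists_hom hK hΘ R e s
  unfold hom
  rw [dif_pos h]
  exact h.choose_spec.1

theorem hom_spec (hK : ℵ₀ ≤ #K) (hΘ : Nonempty Θ) {e : LP K} {s : BR R} {p : Cond R}
    (h1 : p.e = e) (h2 : p.b ≤ dd R e s) (h3 : ∀ z, p.b ⊓ p.A z ≤ hom R e s z) : em p ≤ s := by
  have h := exists_hom hK hΘ R e s
  unfold hom at h3
  rw [dif_pos h] at h3
  exact h.choose_spec.2 p h1 h2 h3

theorem dd_ext (hK : ℵ₀ ≤ #K) (hΘ : Nonempty Θ) {e e₂ : LP K} {s : BR R} {b : C}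
    (hb : b ≤ dd R e s) (he₂ : Valid R.S e₂) (hX : Ext {z | b ≤ hom R e s z} e₂ e) :
    b ≤ dd R e₂ s := by
  by_cases hb0 : b = ⊥
  · rw [hb0]
    exact bot_le
  · obtain ⟨p1, hp1, -, -⟩ := exists_of_dd hb0 hb
    have hval : Valid R.S e := hp1 ▸ p1.val
    have hle : b ≤ R.Phi (hom R e s) := hb.trans (le_Phi_hom hK hΘ e s)
    let p0 : Cond R := ⟨b, e, hom R e s, hb0, hval, hle⟩
    have hp0 : em p0 ≤ s := hom_spec hK hΘ rfl hb fun z => inf_le_right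
    let p : Cond R := ⟨b, e₂, hom R e s, hb0, he₂, hle⟩
    have hp : p ≤ p0 := ⟨le_rfl, hX, fun z => inf_le_right⟩
    exact le_dd p ((em_mono hp).trans hp0)

theorem dd_shrink (hK : ℵ₀ ≤ #K) (hΘ : Nonempty Θ) {e e₂ : LP K} (s : BR R)
    (he₂ : Valid R.S e₂) (hX : Ext ∅ e₂ e) : dd R e s ≤ dd R e₂ s := by
  exact dd_ext hK hΘ le_rfl he₂ (hX.mono (Set.empty_subset _))

theorem dd_inf (hK : ℵ₀ ≤ #K) (hΘ : Nonempty Θ) (e : LP K) (s t : BR R) :
    dd R e (s ⊓ t) = dd R e s ⊓ dd R e t := by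
  refine le_antisymm (le_inf (dd_mono e inf_le_left) (dd_mono e inf_le_right)) ?_
  by_cases hb0 : dd R e s ⊓ dd R e t = ⊥
  · rw [hb0]
    exact bot_le
  · obtain ⟨p1, hp1, -, -⟩ := exists_of_dd hb0 (inf_le_left : dd R e s ⊓ dd R e t ≤ dd R e s)
    have hval : Valid R.S e := hp1 ▸ p1.val
    have hle : dd R e s ⊓ dd R e t ≤ R.Phi (fun z => hom R e s z ⊓ hom R e t z) := by
      rw [R.Phi_inf hK (hom R e s) (hom R e t)]
      exact inf_le_inf (le_Phi_hom hK hΘ e s) (le_Phi_hom hK hΘ e t)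
    let p : Cond R := ⟨dd R e s ⊓ dd R e t, e, fun z => hom R e s z ⊓ hom R e t z, hb0, hval, hle⟩
    have hp1 : em p ≤ s := hom_spec hK hΘ rfl inf_le_left fun z => inf_le_right.trans inf_le_left
    have hp2 : em p ≤ t := hom_spec hK hΘ rfl inf_le_right fun z => inf_le_right.trans inf_le_right
    exact le_dd p (le_inf hp1 hp2)

theorem PP_inf (hK : ℵ₀ ≤ #K) (hΘ : Nonempty Θ) (e : LP K) (s t : BR R) (w : K) :
    PP R e s w ⊓ PP R e t w ≤ PP R e (s ⊓ t) w := by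
  unfold PP
  rw [iSup_inf_eq]
  refine iSup_le fun a => ?_
  rw [iSup_inf_eq]
  refine iSup_le fun ha => ?_
  rw [inf_iSup_eq]
  refine iSup_le fun a' => ?_
  rw [inf_iSup_eq]
  refine iSup_le fun ha' => ?_
  have hv : Valid R.S ((w, a ∩ a') :: e) :=
    ha.shrink (Filter.inter_mem ha.mem ha'.mem) Set.inter_subset_left
  refine le_iSup_of_le (a ∩ a') (le_iSup_of_le hv ?_)
  rw [dd_inf hK hΘ]
  exact inf_le_inf (dd_shrink hK hΘ s hv (Ext.old Set.inter_subset_left (Ext.refl _ _)))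
    (dd_shrink hK hΘ t hv (Ext.old Set.inter_subset_right (Ext.refl _ _)))

theorem real (hK : ℵ₀ ≤ #K) (hΘ : Nonempty Θ) {p : Cond R} {e : LP K} {s : BR R} {b : C}
    (hb : b ≠ ⊥) (hbd : b ≤ dd R e s) (hbp : b ≤ p.b) (hv : Valid R.S e)
    (hE : Ext {z | b ≤ p.A z} e p.e) :
    ∃ q ≤ p, q.b = b ∧ q.e = e ∧ em q ≤ s ∧ ∀ z, q.A z ≤ p.A z := by
  have hle : b ≤ R.Phi (fun z => p.A z ⊓ hom R e s z) := by
    rw [R.Phi_inf hK p.A (hom R e s)]
    exact le_inf (hbp.trans p.le) (hbd.trans (le_Phi_hom hK hΘ e s))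
  let q : Cond R := ⟨b, e, fun z => p.A z ⊓ hom R e s z, hb, hv, hle⟩
  have hqp : q ≤ p := ⟨hbp, hE, fun z => inf_le_right.trans inf_le_left⟩
  have hqs : em q ≤ s := hom_spec hK hΘ rfl hbd fun z => inf_le_right.trans inf_le_right
  exact ⟨q, hqp, rfl, rfl, hqs, fun z => inf_le_left⟩

/-- common homogenizing set for a family with small ranks -/
noncomputable def homI (R : RSys K Θ C) {I : Type} (r : I → K) (s : I → BR R) (z : K) : C :=
  ⨅ i, ⨅ _ : r i < R.S.crit z, ⨅ e : VLP R.S, ⨅ _ : rk e.1 < R.S.crit z,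
    (dd R e.1 (s i) ⇨ hom R e.1 (s i) z)

theorem mu_homI (H : Setup K Θ C) {I : Type} {r : I → K} (hr : SmallRk r) (s : I → BR R)
    (γ : Θ) : R.μ γ (homI R r s) = ⊤ := by
  have hK : ℵ₀ ≤ #K := H.inacc.aleph0_lt.le
  have hF : ∀ (i : I) (e : VLP R.S),
      R.μ γ (fun z => dd R e.1 (s i) ⇨ hom R e.1 (s i) z) = ⊤ := by
    intro i e
    rw [(R.meas γ).bm.const_himp hK, himp_eq_top_iff]
    exact (le_Phi_hom hK H.nonempty e.1 (s i)).trans (R.Phi_le_mu γ _)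
  have hA : ∀ i : I, R.μ γ (fun z => ⨅ e : VLP R.S, ⨅ _ : rk e.1 < R.S.crit z,
      (dd R e.1 (s i) ⇨ hom R e.1 (s i) z)) = ⊤ := by
    intro i
    rw [(R.meas γ).diagI (fun e : VLP R.S => rk e.1) (smallRk_VLP H.inacc H.small R.S)
      (fun e z => dd R e.1 (s i) ⇨ hom R e.1 (s i) z)]
    simp only [hF, iInf_top]
  have h := (R.meas γ).diagI r hr (fun i z => ⨅ e : VLP R.S, ⨅ _ : rk e.1 < R.S.crit z,
      (dd R e.1 (s i) ⇨ hom R e.1 (s i) z))
  simp only [hA, iInf_top] at h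
  exact h

theorem dd_extI (hK : ℵ₀ ≤ #K) (hΘ : Nonempty Θ) {I : Type} {r : I → K} {s : I → BR R} {i : I}
    {e e₂ : LP K} {b : C} (he : Valid R.S e) (he₂ : Valid R.S e₂) (hb : b ≤ dd R e (s i))
    (hX : Ext {z | b ≤ homI R r s z ∧ r i < R.S.crit z} e₂ e) : b ≤ dd R e₂ (s i) := by
  refine dd_ext hK hΘ hb he₂ (hX.of_sub he₂ fun z hz _ hz2 => ?_)
  have h1 : homI R r s z ≤ (dd R e (s i) ⇨ hom R e (s i) z) :=
    iInf_le_of_le i (iInf_le_of_le hz.2 (iInf_le_of_le (⟨e, he⟩ : VLP R.S) (iInf_le _ hz2)))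
  have h2 := le_himp_iff.1 (hz.1.trans h1)
  exact (le_inf le_rfl hb).trans h2

end Pool.Agent.Lib.WkD
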