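import Pool.Agent.Lib.WkD.CDefs
import Pool.Agent.Lib.WkD.Cnt

/-!
# Normality of the supercompactness measure with respect to kx

PROOF. Let κ = #K.
tail: ξ < kx x iff all u ≤ ξ are in x (lt_kx_iff), so tv (ξ < kx x) = ⨅ u : Iic ξ, tv (inl u ∈ x); #(Iic ξ)
< #K (smallRk_id); BMeas.iInf and fine.
diag: (≥) ⨅ v, m (A v) = m (x ↦ ⨅ a, ⨅ _ : a ∈ x, A' a x) (normal) with A' (inl v) = A v, A' (inr _) = ⊤;
pointwise this is ≤ ⨅ v, ⨅ _ : v < kx x, A v x since inl v ∈ x for v < kx x (inl_mem_of_lt). (≤) for each v,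
m(⨅ ..) ≤ m (A v) by mono_ae with N x = tv (v < kx x).
normal_inr: normal with A' (inl _) = ⊤, A' (inr X) = A X; and the same for suprema by complements
(normal_inr_sup): m (x ↦ ⨆ X, ⨆ _ : inr X ∈ x, A X x) = ⨆ X, m (A X).
-/

set_option autoImplicit false

namespace Pool.Agent.Lib.WkD

open Set Cardinal

variable {K C : Type} [LinearOrder K] [WellFoundedLT K] [CompleteBooleanAlgebra C]
  {m : (Pk (#K) (HH K C) → C) → C}

private theorem kx_tail (hK : ℵ₀ ≤ #K) (hs : ∀ a : K, #(Iio a) < #K)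
    (hm : NMeas (#K) (HH K C) C m) (ξ : K) :
    m (fun x : Pk (#K) (HH K C) => tv C (ξ < kx x)) = ⊤ := by
  have h1 := hm.bm.iInf {u : K // u ≤ ξ}
    (fun u x => tv C ((Sum.inl u.1 : HH K C) ∈ x.1)) (smallRk_id hK hs ξ)
  have h2 : (fun x : Pk (#K) (HH K C) => ⨅ u : {u : K // u ≤ ξ},
      tv C ((Sum.inl u.1 : HH K C) ∈ x.1)) = fun x => tv C (ξ < kx x) := by
    funext x
    by_cases h : ξ < kx x
    · rw [tv_true h]
      refine iInf_eq_top.2 fun u => tv_true ?_
      exact lt_kx_iff.1 h u.1 u.2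
    · rw [tv_false h]
      rw [lt_kx_iff] at h
      push Not at h
      obtain ⟨u, hu, hux⟩ := h
      refine le_antisymm ?_ bot_le
      refine (iInf_le _ (⟨u, hu⟩ : {u : K // u ≤ ξ})).trans ?_
      exact (tv_false hux).le
  rw [h2] at h1
  rw [h1]
  exact iInf_eq_top.2 fun u => hm.fine (Sum.inl u.1)

theorem normMeas_kx (hK : ℵ₀ ≤ #K) (hs : ∀ a : K, #(Iio a) < #K)
    (hm : NMeas (#K) (HH K C) C m) :
    NormMeas (fun x : Pk (#K) (HH K C) => kx x) m := by
  refine ⟨hm.bm, kx_tail hK hs hm, ?_⟩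
  intro A
  apply le_antisymm
  · refine le_iInf fun v => ?_
    refine hm.bm.mono_ae hK (kx_tail hK hs hm v) (fun x => ?_)
    by_cases h : v < kx x
    · exact inf_le_right.trans ((iInf_le _ v).trans (iInf_le _ h))
    · rw [tv_false h, bot_inf_eq]
      exact bot_le
  · have h1 := hm.normal (fun a x => Sum.elim (fun v => A v x) (fun _ => (⊤ : C)) a)
    have h2 : ⨅ v, m (A v) ≤
        ⨅ a : HH K C, m (fun x => Sum.elim (fun v => A v x) (fun _ => (⊤ : C)) a) := by
      refine le_iInf fun a => ?_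
      rcases a with v | X
      · exact iInf_le (fun v => m (A v)) v
      · exact le_of_le_of_eq le_top (hm.bm.top).symm
    refine h2.trans ?_
    rw [← h1]
    refine hm.bm.mono hK fun x => ?_
    refine le_iInf fun v => le_iInf fun hv => ?_
    exact (iInf_le _ (Sum.inl v : HH K C)).trans (iInf_le _ (inl_mem_of_lt hv))

theorem normal_inr (hm : NMeas (#K) (HH K C) C m)
    (A : (K → C) → Pk (#K) (HH K C) → C) :
    m (fun x => ⨅ X : K → C, ⨅ _ : (Sum.inr X : HH K C) ∈ x.1, A X x) = ⨅ X, m (A X) := by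
  have h1 := hm.normal (fun a x => Sum.elim (fun _ => (⊤ : C)) (fun X => A X x) a)
  have h2 : (fun x : Pk (#K) (HH K C) => ⨅ a : HH K C, ⨅ _ : a ∈ x.1,
      Sum.elim (fun _ => (⊤ : C)) (fun X => A X x) a) =
      fun x => ⨅ X : K → C, ⨅ _ : (Sum.inr X : HH K C) ∈ x.1, A X x := by
    funext x
    apply le_antisymm
    · refine le_iInf fun X => le_iInf fun hX => ?_
      exact (iInf_le _ (Sum.inr X : HH K C)).trans (iInf_le _ hX)
    · refine le_iInf fun a => le_iInf fun ha => ?_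
      rcases a with v | X
      · exact le_top
      · exact (iInf_le _ X).trans (iInf_le _ ha)
  rw [h2] at h1
  rw [h1]
  apply le_antisymm
  · refine le_iInf fun X => ?_
    exact iInf_le (fun a : HH K C => m (fun x => Sum.elim (fun _ => (⊤ : C))
      (fun X => A X x) a)) (Sum.inr X)
  · refine le_iInf fun a => ?_
    rcases a with v | X
    · exact le_of_le_of_eq le_top (hm.bm.top).symm
    · exact iInf_le (fun X => m (A X)) X

theorem normal_inr_sup (hm : NMeas (#K) (HH K C) C m)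
    (A : (K → C) → Pk (#K) (HH K C) → C) :
    m (fun x => ⨆ X : K → C, ⨆ _ : (Sum.inr X : HH K C) ∈ x.1, A X x) = ⨆ X, m (A X) := by
  have h1 := normal_inr hm (fun X x => (A X x)ᶜ)
  have h2 : (fun x : Pk (#K) (HH K C) => ⨅ X : K → C,
      ⨅ _ : (Sum.inr X : HH K C) ∈ x.1, (A X x)ᶜ) =
      fun x => (⨆ X : K → C, ⨆ _ : (Sum.inr X : HH K C) ∈ x.1, A X x)ᶜ := by
    funext x
    simp only [compl_iSup]
  have h3 : ∀ X, m (fun x => (A X x)ᶜ) = (m (A X))ᶜ := fun X => hm.bm.compl (A X)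
  rw [h2, hm.bm.compl] at h1
  simp only [h3] at h1
  rw [← compl_iSup] at h1
  exact compl_injective h1

end Pool.Agent.Lib.WkD
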