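import Pool.Agent.Lib.WkD.MCheck

/-!
# Names of functions to 2 and of subsets

`c : ι → bSet B` is a family of names which are pairwise different (hypothesis hc).

PROOF SKETCH. App of a graphName: BVM.app_graph. All the terms of the supremum with index
(j, t) have j = i (hc) and t determined by the value (num_inj: num 0 and num 1 are different in
every quotient; beq_num_ne). isFun_chiN: as BVM.isFun_fnN (first coordinates: case analysis; unique
value: value num 1 if x i ∈ U, num 0 otherwise; values are in num 2 by E_num).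
fun_eq_chiN: as BVM.fun_repr: let x i = bv (App f (c i) 1) (BV.app). By ext_mod: an element z of f is
a pair (X, Y) with X in domN c, Y in num 2 (E_two); case X = c i, Y = num 0 or num 1; then use
app_chiN_one / app_chiN_zero and app_iff, bpair_inj; conversely for z in chiN: case analysis
(BVM.of_mem with index (i, t)), App f (c i) (num 1) iff x i ∈ U by (BV.app ..).iff, and if x i ∉ U
the value of f at c i (exists, in num 2) must be num 0.
bi_le_beq_chiN: Ultra.le_of_forall; if (⨅ i, bi (x i) (y i)) ∈ U then for the two names: use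
bSet.le_beq_mk, or: fun_eq_chiN applied to chiN c x inside every U containing b (work with ext_mod and
case analysis, Q = fun U => b ∈ U).
isTwo_iff: E_num, emp_unique, succ_unique, upair_unique from BVM/Facts.lean.
-/

set_option autoImplicit false

namespace Pool.Agent.Lib.WkD

open Set Pool.Agent.Lib.BVM Pool.Agent.Lib.BVM.bSet

variable {B : Type} [CompleteBooleanAlgebra B]

theorem E_two {U : Ultra B} {m : Mod U} :
    E U m (q U (num 2)) ↔ m = q U (num 0) ∨ m = q U (num 1) := by
  rw [E_num]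
  constructor
  · rintro ⟨k, hk, h⟩
    interval_cases k
    · exact Or.inl h
    · exact Or.inr h
  · rintro (h | h)
    · exact ⟨0, by norm_num, h⟩
    · exact ⟨1, by norm_num, h⟩

theorem num_zero_ne_one (U : Ultra B) : q U (num 0) ≠ q U (num 1) := fun h => by
  have := num_inj h
  omega

theorem isTwo_iff {U : Ultra B} {t : Mod U} : IsTwo (E U) t ↔ t = q U (num 2) := by
  constructor
  · rintro ⟨z, o, hz, ho, ht⟩
    have h0 : z = q U (num 0) := emp_unique (ext_mod U) hz (fun m => E_emp m)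
    subst h0
    have h1 : o = q U (num 1) := succ_unique (ext_mod U) ho (isSucc_num U 0)
    subst h1
    exact upair_unique (ext_mod U) ht (fun m => E_two)
  · rintro rfl
    exact ⟨q U (num 0), q U (num 1), fun m => E_emp m, isSucc_num U 0, fun m => E_two⟩

theorem BV_isTwo (t : bSet B) : BV (fun U => IsTwo (E U) (q U t)) := by
  have h : (fun U : Ultra B => IsTwo (E U) (q U t)) = fun U => q U t = q U (num 2) := by
    funext U
    exact propext isTwo_iff
  rw [h]
  exact BV.eq _ _

variable {ι : Type} {c : ι → bSet B}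

theorem E_subN (hc : ∀ i j, i ≠ j → beq (c i) (c j) = ⊥) {x : ι → B} {U : Ultra B} {i : ι} :
    E U (q U (c i)) (q U (subN c x)) ↔ x i ∈ U := by
  unfold subN
  rw [E_mk]
  have h : (⨆ a, x a ⊓ beq (c i) (c a)) = x i := by
    apply le_antisymm
    · refine iSup_le fun a => ?_
      by_cases h : i = a
      · subst h
        exact inf_le_left
      · rw [hc i a h, inf_bot_eq]
        exact bot_le
    · refine le_iSup_of_le i ?_
      rw [beq_refl, inf_top_eq]
  rw [h]

namespace MChiAux

theorem of_mem_chiN {c : ι → bSet B} {x : ι → B} {Z : bSet B} {P Q : Ultra B → Prop}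
    (hP : BV P) (hQ : BV Q)
    (h1 : ∀ i U, x i ∈ U → q U Z = q U (bpair (c i) (num 1)) → Q U → P U)
    (h0 : ∀ i U, x i ∉ U → q U Z = q U (bpair (c i) (num 0)) → Q U → P U) {U : Ultra B}
    (h : E U (q U Z) (q U (chiN c x))) (h2 : Q U) : P U := by
  refine of_mem (X := chiN c x) hP hQ (fun p U hp hZ hQ => ?_) h h2
  obtain ⟨i, t⟩ := p
  cases t with
  | false =>
    refine h0 i U ?_ ?_ hQ
    · have h3 : (x i)ᶜ ∈ U := hp
      exact Ultra.not_iff.1 h3
    · exact hZ
  | true => exact h1 i U hp hZ hQ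

theorem app_one {c : ι → bSet B} {x : ι → B} {U : Ultra B} {i : ι} (h : x i ∈ U) :
    App (E U) (q U (chiN c x)) (q U (c i)) (q U (num 1)) := by
  rw [app_iff]
  exact E_func (X := chiN c x) ((i, true) : ι × Bool) h

theorem app_zero {c : ι → bSet B} {x : ι → B} {U : Ultra B} {i : ι} (h : x i ∉ U) :
    App (E U) (q U (chiN c x)) (q U (c i)) (q U (num 0)) := by
  rw [app_iff]
  exact E_func (X := chiN c x) ((i, false) : ι × Bool) (Ultra.not_iff.2 h)

theorem ck_eq_of (hc : ∀ i j, i ≠ j → beq (c i) (c j) = ⊥) {U : Ultra B} {i j : ι}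
    (h : q U (c i) = q U (c j)) : i = j := by
  by_contra hne
  have h1 := q_eq.1 h
  rw [hc i j hne] at h1
  exact Ultra.bot h1

end MChiAux

open MChiAux

theorem app_chiN_one (hc : ∀ i j, i ≠ j → beq (c i) (c j) = ⊥) {x : ι → B} {U : Ultra B} {i : ι} :
    App (E U) (q U (chiN c x)) (q U (c i)) (q U (num 1)) ↔ x i ∈ U := by
  constructor
  · intro h
    rw [app_iff] at h
    refine of_mem_chiN (P := fun U => x i ∈ U) (Q := fun _ => True) (BV.of_mem _) (BV.const _)
      (fun j U hj hZ _ => ?_) (fun j U hj hZ _ => ?_) h trivial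
    · obtain ⟨h3, h4⟩ := bpair_inj.1 hZ
      have h5 := ck_eq_of hc h3
      rw [h5]
      exact hj
    · obtain ⟨h3, h4⟩ := bpair_inj.1 hZ
      exact absurd h4.symm (num_zero_ne_one U)
  · exact app_one

theorem app_chiN_zero (hc : ∀ i j, i ≠ j → beq (c i) (c j) = ⊥) {x : ι → B} {U : Ultra B} {i : ι} :
    App (E U) (q U (chiN c x)) (q U (c i)) (q U (num 0)) ↔ x i ∉ U := by
  constructor
  · intro h
    rw [app_iff] at h
    refine of_mem_chiN (P := fun U => x i ∉ U) (Q := fun _ => True) (BV.of_mem _).not (BV.const _)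
      (fun j U hj hZ _ => ?_) (fun j U hj hZ _ => ?_) h trivial
    · obtain ⟨h3, h4⟩ := bpair_inj.1 hZ
      exact absurd h4 (num_zero_ne_one U)
    · obtain ⟨h3, h4⟩ := bpair_inj.1 hZ
      have h5 := ck_eq_of hc h3
      rw [h5]
      exact hj
  · exact app_zero

theorem isFun_chiN (hc : ∀ i j, i ≠ j → beq (c i) (c j) = ⊥) (x : ι → B) (U : Ultra B) :
    IsFun (E U) (q U (chiN c x)) (q U (domN c)) (q U (num 2)) := by
  refine ⟨⟨?_, ?_⟩, ?_⟩
  · intro p hp
    obtain ⟨Z, rfl⟩ := q_surj p
    refine of_mem_chiN (P := fun U => ∃ x y', E U x (q U (domN c)) ∧ IsPair (E U) x y' (q U Z))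
      (Q := fun _ => True)
      (BV.ex fun x => BV.ex fun y' => (BV.mem _ _).and (BV.isPair x y' Z)) (BV.const True)
      (fun i U _ hZ _ => ?_) (fun i U _ hZ _ => ?_) hp trivial
    · exact ⟨q U (c i), q U (num 1), E_domN c i U, isPair_iff.2 hZ⟩
    · exact ⟨q U (c i), q U (num 0), E_domN c i U, isPair_iff.2 hZ⟩
  · intro a ha
    obtain ⟨A, rfl⟩ := q_surj a
    refine of_mem_domN (P := fun U => ∃! y', App (E U) (q U (chiN c x)) (q U A) y')
      (Q := fun _ => True)
      (BV.exUnique fun y' => BV.app _ A y') (BV.const _)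
      (fun i U hA _ => ?_) ha trivial
    rw [hA]
    by_cases hi : x i ∈ U
    · refine ⟨q U (num 1), app_one hi, fun y' hy' => ?_⟩
      obtain ⟨Y, rfl⟩ := q_surj y'
      rw [app_iff] at hy'
      refine of_mem_chiN (Z := bpair (c i) Y) (P := fun U => q U Y = q U (num 1))
        (Q := fun U => x i ∈ U) (BV.eq _ _) (BV.of_mem _) (fun j U hj hZ _ => ?_)
        (fun j U hj hZ hi => ?_) hy' hi
      · exact (bpair_inj.1 hZ).2
      · exfalso
        have h5 := ck_eq_of hc (bpair_inj.1 hZ).1
        rw [h5] at hi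
        exact hj hi
    · refine ⟨q U (num 0), app_zero hi, fun y' hy' => ?_⟩
      obtain ⟨Y, rfl⟩ := q_surj y'
      rw [app_iff] at hy'
      refine of_mem_chiN (Z := bpair (c i) Y) (P := fun U => q U Y = q U (num 0))
        (Q := fun U => x i ∉ U) (BV.eq _ _) (BV.of_mem _).not (fun j U hj hZ hi => ?_)
        (fun j U hj hZ _ => ?_) hy' hi
      · exfalso
        have h5 := ck_eq_of hc (bpair_inj.1 hZ).1
        rw [h5] at hi
        exact hi hj
      · exact (bpair_inj.1 hZ).2
  · intro a y' hxy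
    obtain ⟨A, rfl⟩ := q_surj a
    obtain ⟨Y, rfl⟩ := q_surj y'
    rw [app_iff] at hxy
    refine of_mem_chiN (Z := bpair A Y) (P := fun U => E U (q U Y) (q U (num 2)))
      (Q := fun _ => True) (BV.mem _ _)
      (BV.const True) (fun i U _ hZ _ => ?_) (fun i U _ hZ _ => ?_) hxy trivial
    · exact E_two.2 (Or.inr (bpair_inj.1 hZ).2)
    · exact E_two.2 (Or.inl (bpair_inj.1 hZ).2)

theorem fun_eq_chiN (hc : ∀ i j, i ≠ j → beq (c i) (c j) = ⊥) (f : bSet B) {U : Ultra B}
    (h : IsFun (E U) (q U f) (q U (domN c)) (q U (num 2))) :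
    q U f = q U (chiN c (fun i => bv (fun U => App (E U) (q U f) (q U (c i)) (q U (num 1))))) := by
  have hx : ∀ i (U : Ultra B), App (E U) (q U f) (q U (c i)) (q U (num 1)) ↔
      bv (fun U => App (E U) (q U f) (q U (c i)) (q U (num 1))) ∈ U :=
    fun i U => (BV.app f (c i) (num 1)).iff U
  set x : ι → B := fun i => bv (fun U => App (E U) (q U f) (q U (c i)) (q U (num 1))) with hxdef
  apply ext_mod
  intro z
  obtain ⟨Z, rfl⟩ := q_surj z
  constructor
  · intro hz
    obtain ⟨a, y', ha, hp⟩ := h.1.1 _ hz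
    have hy' : E U y' (q U (num 2)) := h.2 _ _ ⟨_, hp, hz⟩
    obtain ⟨A, rfl⟩ := q_surj a
    obtain ⟨Y, rfl⟩ := q_surj y'
    refine of_mem_domN (Z := A) (P := fun U => E U (q U Z) (q U (chiN c x)))
      (Q := fun U => IsFun (E U) (q U f) (q U (domN c)) (q U (num 2)) ∧
        E U (q U Y) (q U (num 2)) ∧ IsPair (E U) (q U A) (q U Y) (q U Z) ∧ E U (q U Z) (q U f))
      (BV.mem _ _)
      ((BV.isFun _ _ _).and ((BV.mem _ _).and ((BV.isPair _ _ _).and (BV.mem _ _))))
      (fun i U hA hQ => ?_) ha ⟨h, hy', hp, hz⟩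
    obtain ⟨h, hy', hp, hz⟩ := hQ
    rw [hA] at hp
    rcases E_two.1 hy' with h0 | h1
    · rw [h0] at hp
      have h3 : App (E U) (q U f) (q U (c i)) (q U (num 0)) := ⟨_, hp, hz⟩
      have h4 : x i ∉ U := by
        intro h5
        have h6 := (hx i U).2 h5
        exact num_zero_ne_one U (app_unique h.1 (E_domN c i U) h3 h6)
      rw [isPair_iff.1 hp, ← app_iff]
      exact app_zero h4
    · rw [h1] at hp
      have h3 : App (E U) (q U f) (q U (c i)) (q U (num 1)) := ⟨_, hp, hz⟩
      rw [isPair_iff.1 hp, ← app_iff]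
      exact app_one ((hx i U).1 h3)
  · intro hz
    refine of_mem_chiN (P := fun U => E U (q U Z) (q U f))
      (Q := fun U => IsFun (E U) (q U f) (q U (domN c)) (q U (num 2))) (BV.mem _ _)
      (BV.isFun _ _ _) (fun i U hi hZ h => ?_) (fun i U hi hZ h => ?_) hz h
    · rw [hZ, ← app_iff]
      exact (hx i U).2 hi
    · obtain ⟨y', hy', -⟩ := h.1.2 _ (E_domN c i U)
      rcases E_two.1 (h.2 _ _ hy') with h0 | h1
      · rw [hZ, ← app_iff, ← h0]
        exact hy'
      · exfalso
        rw [h1] at hy'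
        exact hi ((hx i U).1 hy')

/-- a subset of `domN c` is given by its Boolean values -/
theorem sub_eq_subN (z : bSet B) {U : Ultra B} (h : ∀ w, E U w (q U z) → E U w (q U (domN c))) :
    q U z = q U (subN c (fun i => bmem (c i) z)) := by
  apply ext_mod
  intro w
  obtain ⟨W, rfl⟩ := q_surj w
  constructor
  · intro hw
    refine of_mem_domN (P := fun U => E U (q U W) (q U (subN c (fun i => bmem (c i) z))))
      (Q := fun U => E U (q U W) (q U z)) (BV.mem _ _) (BV.mem _ _) (fun i U hW hQ => ?_)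
      (h _ hw) hw
    rw [hW] at hQ ⊢
    exact E_func (X := subN c (fun i => bmem (c i) z)) i hQ
  · intro hw
    refine of_mem_subN (P := fun U => E U (q U W) (q U z)) (Q := fun _ => True)
      (BV.mem _ _) (BV.const _) (fun i U hi hW _ => ?_) hw trivial
    rw [hW]
    exact hi

theorem bi_le_beq_chiN (x y : ι → B) : (⨅ i, bi (x i) (y i)) ≤ beq (chiN c x) (chiN c y) := by
  refine Ultra.le_of_forall fun U hU => ?_
  have key : ∀ x y : ι → B, (⨅ i, bi (x i) (y i)) ∈ U → ∀ Z : bSet B,
      E U (q U Z) (q U (chiN c x)) → E U (q U Z) (q U (chiN c y)) := by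
    intro x y hU Z hZ
    have hb : ∀ (i : ι) (U : Ultra B), (⨅ i, bi (x i) (y i)) ∈ U → (x i ∈ U ↔ y i ∈ U) := by
      intro i U hU
      obtain ⟨h1, h2⟩ := Ultra.inf_iff.1 (Ultra.mono hU (iInf_le _ i))
      exact ⟨Ultra.himp_iff.1 h1, Ultra.himp_iff.1 h2⟩
    refine of_mem_chiN (P := fun U => E U (q U Z) (q U (chiN c y)))
      (Q := fun U => (⨅ i, bi (x i) (y i)) ∈ U) (BV.mem _ _) (BV.of_mem _)
      (fun i U hi hZ hQ => ?_) (fun i U hi hZ hQ => ?_) hZ hU
    · rw [hZ, ← app_iff]
      exact app_one ((hb i U hQ).1 hi)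
    · rw [hZ, ← app_iff]
      exact app_zero (fun h => hi ((hb i U hQ).2 h))
  rw [← q_eq]
  apply ext_mod
  intro z
  obtain ⟨Z, rfl⟩ := q_surj z
  refine ⟨key x y hU Z, key y x ?_ Z⟩
  have h1 : (⨅ i, bi (y i) (x i)) = ⨅ i, bi (x i) (y i) := by
    congr 1
    funext i
    exact inf_comm _ _
  rw [h1]
  exact hU

/-- restriction of a function name -/
theorem chiN_restrict {ι' : Type} (j : ι' → ι) (x : ι → B) {U : Ultra B} {y z : Mod U}
    (h : App (E U) (q U (chiN (fun i => c (j i)) (fun i => x (j i)))) y z) :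
    App (E U) (q U (chiN c x)) y z := by
  obtain ⟨Y, rfl⟩ := q_surj y
  obtain ⟨Z, rfl⟩ := q_surj z
  rw [app_iff] at h ⊢
  refine of_mem_chiN (P := fun U => E U (q U (bpair Y Z)) (q U (chiN c x))) (Q := fun _ => True)
    (BV.mem _ _) (BV.const _) (fun i U hi hZ _ => ?_) (fun i U hi hZ _ => ?_) h trivial
  · rw [hZ, ← app_iff]
    exact app_one hi
  · rw [hZ, ← app_iff]
    exact app_zero hi

end Pool.Agent.Lib.WkD
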