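import Pool.Agent.Lib.WkD.FBasic

/-!
# Boolean valued measures: basic facts and normality for families with small ranks

PROOF SKETCH.
* `inf`: BMeas.iInf with I = Bool (or ULift Bool, Fin 2), #I < κ since ℵ₀ ≤ κ, and iInf_bool_eq.
  mono: A x = A x ⊓ B x. sup, himp, bi, iSup, bot from compl and inf (de Morgan: sup = compl of inf
  of compls; himp_eq: x ⇨ y = y ⊔ xᶜ). top = const ⊤.
* `mono_ae`: m A = m N ⊓ m A = m (N ⊓ A) ≤ m B. `congr_ae`: two applications of mono_ae.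
* `exists_point`: otherwise b ⊓ A x = ⊥ for all x, so (x ↦ b ⊓ A x) is the constant ⊥ and
  b = b ⊓ m A = m (const b) ⊓ m A = m (b ⊓ A) = ⊥.
* `indep_const`: m (bi (A x) (m A)) = bi (m A) (m (const (m A))) = bi (m A) (m A) = ⊤.
* `diagI`: for v : K let A' v x = ⨅ i : {i // r i ≤ v}, A i x. The index type has size < #K, so
  m (A' v) = ⨅ i : {i // r i ≤ v}, m (A i). By diag, m (x ↦ ⨅ v, ⨅ _ : v < c x, A' v x) =
  ⨅ v, m (A' v) = ⨅ i, m (A i) (each i occurs for v = r i). And pointwise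
  ⨅ v, ⨅ _ : v < c x, A' v x = ⨅ i, ⨅ _ : r i < c x, A i x (take v = r i; r i ≤ v < c x).
  `diagI_sup` by complements. `diagI_le`: from diagI.
* smallRk_id: Iic ξ = insert ξ (Iio ξ), #K infinite. smallRk_prod: {p // max (r p.1) (r' p.2) ≤ ξ}
  embeds into the product of the two fibers (Cardinal.mul_lt_of_lt). smallRk_sum similarly
  (Cardinal.add_lt_of_lt). mk_le_of_smallRk: I is the union of the fibers {i // r i ≤ ξ}, ξ : K
  (i ↦ ⟨r i, i⟩ embeds I into Σ ξ, {i // r i ≤ ξ}, Cardinal.mk_sigma, sum_le..., #K * #K = #K).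
-/

set_option autoImplicit false

namespace Pool.Agent.Lib.WkD

open Set Cardinal

section bmeas

variable {X C : Type} [CompleteBooleanAlgebra C] {κ : Cardinal.{0}} {m : (X → C) → C}

theorem BMeas.inf (h : BMeas κ m) (hκ : ℵ₀ ≤ κ) (A B : X → C) :
    m (fun x => A x ⊓ B x) = m A ⊓ m B := by
  have h2 : #Bool < κ := by
    rw [Cardinal.mk_bool]
    exact (Cardinal.natCast_lt_aleph0 (n := 2)).trans_le hκ
  have h1 := h.iInf Bool (fun b => cond b A B) h2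
  rw [iInf_bool_eq] at h1
  have h3 : (fun x => ⨅ b : Bool, (cond b A B) x) = fun x => A x ⊓ B x := by
    funext x
    rw [iInf_bool_eq]
    rfl
  rw [h3] at h1
  exact h1

theorem BMeas.mono (h : BMeas κ m) (hκ : ℵ₀ ≤ κ) {A B : X → C} (hAB : ∀ x, A x ≤ B x) :
    m A ≤ m B := by
  have h1 := h.inf hκ A B
  have h2 : (fun x => A x ⊓ B x) = A := by
    funext x
    exact inf_eq_left.2 (hAB x)
  rw [h2] at h1
  rw [h1]
  exact inf_le_right

theorem BMeas.top (h : BMeas κ m) : m (fun _ => ⊤) = ⊤ := h.const ⊤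

theorem BMeas.bot (h : BMeas κ m) : m (fun _ => ⊥) = ⊥ := h.const ⊥

theorem BMeas.sup (h : BMeas κ m) (hκ : ℵ₀ ≤ κ) (A B : X → C) :
    m (fun x => A x ⊔ B x) = m A ⊔ m B := by
  have h1 := h.inf hκ (fun x => (A x)ᶜ) (fun x => (B x)ᶜ)
  rw [h.compl, h.compl] at h1
  have h2 : (fun x => (A x)ᶜ ⊓ (B x)ᶜ) = fun x => (A x ⊔ B x)ᶜ := by
    funext x
    rw [compl_sup]
  rw [h2, h.compl, ← compl_sup] at h1
  exact compl_injective h1

theorem BMeas.himp (h : BMeas κ m) (hκ : ℵ₀ ≤ κ) (A B : X → C) :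
    m (fun x => A x ⇨ B x) = m A ⇨ m B := by
  have h1 := h.sup hκ B (fun x => (A x)ᶜ)
  rw [h.compl] at h1
  have h2 : (fun x => B x ⊔ (A x)ᶜ) = fun x => A x ⇨ B x := by
    funext x
    rw [himp_eq]
  rw [h2] at h1
  rw [h1, himp_eq]

theorem BMeas.bi (h : BMeas κ m) (hκ : ℵ₀ ≤ κ) (A B : X → C) :
    m (fun x => bi (A x) (B x)) = bi (m A) (m B) := by
  have h1 := h.inf hκ (fun x => A x ⇨ B x) (fun x => B x ⇨ A x)
  rw [h.himp hκ, h.himp hκ] at h1
  exact h1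

theorem BMeas.inf_const (h : BMeas κ m) (hκ : ℵ₀ ≤ κ) (A : X → C) (b : C) :
    m (fun x => A x ⊓ b) = m A ⊓ b := by
  have h1 := h.inf hκ A (fun _ => b)
  rw [h.const] at h1
  exact h1

theorem BMeas.const_inf (h : BMeas κ m) (hκ : ℵ₀ ≤ κ) (A : X → C) (b : C) :
    m (fun x => b ⊓ A x) = b ⊓ m A := by
  have h1 := h.inf hκ (fun _ => b) A
  rw [h.const] at h1
  exact h1

theorem BMeas.const_himp (h : BMeas κ m) (hκ : ℵ₀ ≤ κ) (A : X → C) (b : C) :
    m (fun x => b ⇨ A x) = b ⇨ m A := by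
  have h1 := h.himp hκ (fun _ => b) A
  rw [h.const] at h1
  exact h1

theorem BMeas.iSup (h : BMeas κ m) (I : Type) (A : I → X → C) (hI : #I < κ) :
    m (fun x => ⨆ i, A i x) = ⨆ i, m (A i) := by
  have h1 := h.iInf I (fun i x => (A i x)ᶜ) hI
  have h2 : (fun x => ⨅ i, (A i x)ᶜ) = fun x => (⨆ i, A i x)ᶜ := by
    funext x
    rw [compl_iSup]
  have h3 : ∀ i, m (fun x => (A i x)ᶜ) = (m (A i))ᶜ := fun i => h.compl (A i)
  rw [h2, h.compl] at h1
  simp only [h3] at h1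
  rw [← compl_iSup] at h1
  exact compl_injective h1

theorem BMeas.mono_ae (h : BMeas κ m) (hκ : ℵ₀ ≤ κ) {N A B : X → C} (hN : m N = ⊤)
    (hAB : ∀ x, N x ⊓ A x ≤ B x) : m A ≤ m B := by
  have h1 := h.inf hκ N A
  rw [hN, top_inf_eq] at h1
  rw [← h1]
  exact h.mono hκ hAB

theorem BMeas.congr_ae (h : BMeas κ m) (hκ : ℵ₀ ≤ κ) {N A B : X → C} (hN : m N = ⊤)
    (hAB : ∀ x, N x ≤ WkD.bi (A x) (B x)) : m A = m B := by
  apply le_antisymm
  · exact h.mono_ae hκ hN fun x => le_himp_iff.1 ((hAB x).trans inf_le_left)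
  · exact h.mono_ae hκ hN fun x => le_himp_iff.1 ((hAB x).trans inf_le_right)

theorem BMeas.exists_point (h : BMeas κ m) (hκ : ℵ₀ ≤ κ) {A : X → C} {b : C} (hb : b ≠ ⊥)
    (hA : b ≤ m A) : ∃ x, b ⊓ A x ≠ ⊥ := by
  by_contra hcon
  push Not at hcon
  have h1 := h.const_inf hκ A b
  have h2 : (fun x => b ⊓ A x) = fun _ => ⊥ := by
    funext x
    exact hcon x
  rw [h2, h.bot, inf_eq_left.2 hA] at h1
  exact hb h1.symm

theorem BMeas.indep_const (h : BMeas κ m) (hκ : ℵ₀ ≤ κ) (A : X → C) :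
    m (fun x => WkD.bi (A x) (m A)) = ⊤ := by
  have h1 := h.bi hκ A (fun _ => m A)
  rw [h.const] at h1
  rw [h1]
  simp [WkD.bi]

end bmeas

section norm

variable {K X C : Type} [LinearOrder K] [CompleteBooleanAlgebra C] {c : X → K} {m : (X → C) → C}

/-- the fibers of the rank function `r` are small -/
def SmallRk {I : Type} (r : I → K) : Prop := ∀ ξ : K, #{i // r i ≤ ξ} < #K

theorem NormMeas.diagI (h : NormMeas c m) {I : Type} (r : I → K) (hr : SmallRk r)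
    (A : I → X → C) : m (fun x => ⨅ i, ⨅ _ : r i < c x, A i x) = ⨅ i, m (A i) := by
  have h1 := h.diag (fun v x => ⨅ i : {i // r i ≤ v}, A i x)
  have h2 : ∀ v, m (fun x => ⨅ i : {i // r i ≤ v}, A i x) = ⨅ i : {i // r i ≤ v}, m (A i) :=
    fun v => h.bm.iInf {i // r i ≤ v} (fun i => A i) (hr v)
  have h3 : (fun x => ⨅ v, ⨅ _ : v < c x, ⨅ i : {i // r i ≤ v}, A i x) =
      fun x => ⨅ i, ⨅ _ : r i < c x, A i x := by
    funext x
    apply le_antisymm
    · refine le_iInf fun i => le_iInf fun hi => ?_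
      exact (iInf_le _ (r i)).trans ((iInf_le _ hi).trans
        (iInf_le (fun i' : {i' // r i' ≤ r i} => A i' x) ⟨i, le_rfl⟩))
    · refine le_iInf fun v => le_iInf fun hv => le_iInf fun i => ?_
      exact (iInf_le _ i.1).trans (iInf_le _ (i.2.trans_lt hv))
  rw [h3] at h1
  rw [h1]
  apply le_antisymm
  · refine le_iInf fun i => ?_
    refine (iInf_le _ (r i)).trans ?_
    show m (fun x => ⨅ i' : {i' // r i' ≤ r i}, A i' x) ≤ m (A i)
    rw [h2]
    exact iInf_le (fun i' : {i' // r i' ≤ r i} => m (A i')) ⟨i, le_rfl⟩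
  · refine le_iInf fun v => ?_
    show ⨅ i, m (A i) ≤ m (fun x => ⨅ i' : {i' // r i' ≤ v}, A i' x)
    rw [h2]
    exact le_iInf fun i => iInf_le _ i.1

theorem NormMeas.diagI_sup (h : NormMeas c m) {I : Type} (r : I → K) (hr : SmallRk r)
    (A : I → X → C) : m (fun x => ⨆ i, ⨆ _ : r i < c x, A i x) = ⨆ i, m (A i) := by
  have h1 := h.diagI r hr (fun i x => (A i x)ᶜ)
  have h2 : (fun x => ⨅ i, ⨅ _ : r i < c x, (A i x)ᶜ) =
      fun x => (⨆ i, ⨆ _ : r i < c x, A i x)ᶜ := by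
    funext x
    simp only [compl_iSup]
  have h3 : ∀ i, m (fun x => (A i x)ᶜ) = (m (A i))ᶜ := fun i => h.bm.compl (A i)
  rw [h2, h.bm.compl] at h1
  simp only [h3] at h1
  rw [← compl_iSup] at h1
  exact compl_injective h1

theorem smallRk_id (hK : ℵ₀ ≤ #K) (hs : ∀ a : K, #(Iio a) < #K) : SmallRk (fun v : K => v) := by
  intro ξ
  have h1 : #{i : K // i ≤ ξ} ≤ #(Iio ξ) + 1 := by
    have h2 : #(insert ξ (Iio ξ) : Set K) ≤ #(Iio ξ) + 1 := Cardinal.mk_insert_le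
    have h3 : #{i : K // i ≤ ξ} = #(insert ξ (Iio ξ) : Set K) := by
      have h4 : (insert ξ (Iio ξ) : Set K) = {i : K | i ≤ ξ} := by
        ext i
        rw [Set.mem_insert_iff, Set.mem_Iio]
        exact ⟨fun hh => hh.elim (fun h => h.le) (fun h => h.le), fun hh => (eq_or_lt_of_le hh)⟩
      rw [h4]
      rfl
    rw [h3]
    exact h2
  exact h1.trans_lt (Cardinal.add_lt_of_lt hK (hs ξ) (Cardinal.one_lt_aleph0.trans_le hK))

theorem smallRk_prod (hK : ℵ₀ ≤ #K) {I J : Type} {r : I → K} {r' : J → K} (hr : SmallRk r)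
    (hr' : SmallRk r') : SmallRk (fun p : I × J => max (r p.1) (r' p.2)) := by
  intro ξ
  have h1 : #{p : I × J // max (r p.1) (r' p.2) ≤ ξ} ≤ #({i // r i ≤ ξ} × {j // r' j ≤ ξ}) := by
    refine Cardinal.mk_le_of_injective
      (f := fun p : {p : I × J // max (r p.1) (r' p.2) ≤ ξ} =>
        ((⟨p.1.1, (le_max_left _ _).trans p.2⟩, ⟨p.1.2, (le_max_right _ _).trans p.2⟩) :
          {i // r i ≤ ξ} × {j // r' j ≤ ξ})) ?_
    intro p q hpq
    have h2 := congrArg (fun z => (z.1.1, z.2.1)) hpq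
    exact Subtype.ext h2
  refine h1.trans_lt ?_
  rw [Cardinal.mk_prod, Cardinal.lift_id, Cardinal.lift_id]
  exact Cardinal.mul_lt_of_lt hK (hr ξ) (hr' ξ)

theorem smallRk_sum (hK : ℵ₀ ≤ #K) {I J : Type} {r : I → K} {r' : J → K} (hr : SmallRk r)
    (hr' : SmallRk r') : SmallRk (Sum.elim r r') := by
  intro ξ
  have h1 : #{s : I ⊕ J // Sum.elim r r' s ≤ ξ} ≤ #({i // r i ≤ ξ} ⊕ {j // r' j ≤ ξ}) := by
    refine Cardinal.mk_le_of_surjective
      (f := fun s : {i // r i ≤ ξ} ⊕ {j // r' j ≤ ξ} =>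
        (Sum.elim (fun i => ⟨Sum.inl i.1, i.2⟩) (fun j => ⟨Sum.inr j.1, j.2⟩) s :
          {s : I ⊕ J // Sum.elim r r' s ≤ ξ})) ?_
    rintro ⟨s, hs⟩
    rcases s with i | j
    · exact ⟨Sum.inl ⟨i, hs⟩, rfl⟩
    · exact ⟨Sum.inr ⟨j, hs⟩, rfl⟩
  refine h1.trans_lt ?_
  rw [Cardinal.mk_sum, Cardinal.lift_id, Cardinal.lift_id]
  exact Cardinal.add_lt_of_lt hK (hr ξ) (hr' ξ)

theorem smallRk_of_small (hK : ℵ₀ ≤ #K) {I : Type} (hI : #I < #K) (r : I → K) : SmallRk r := by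
  intro ξ
  exact (Cardinal.mk_subtype_le _).trans_lt hI

theorem mk_le_of_smallRk (hK : ℵ₀ ≤ #K) {I : Type} {r : I → K} (hr : SmallRk r) : #I ≤ #K := by
  have h1 : #I ≤ #(Σ ξ : K, {i // r i ≤ ξ}) := by
    refine Cardinal.mk_le_of_injective
      (f := fun i : I => (⟨r i, ⟨i, le_rfl⟩⟩ : Σ ξ : K, {i // r i ≤ ξ})) ?_
    intro i j hij
    exact congrArg (fun z : Σ ξ : K, {i // r i ≤ ξ} => z.2.1) hij
  refine h1.trans ?_
  rw [Cardinal.mk_sigma]
  calc Cardinal.sum (fun ξ : K => #{i // r i ≤ ξ}) ≤ Cardinal.sum (fun _ : K => #K) :=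
        Cardinal.sum_le_sum _ _ fun ξ => (hr ξ).le
    _ = #K * #K := by rw [Cardinal.sum_const']
    _ = #K := Cardinal.mul_eq_self hK

end norm

end Pool.Agent.Lib.WkD
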