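import Pool.Agent.Lib.WkD.Strip
import Pool.Agent.Lib.WkD.FExt
import Pool.Agent.Lib.WkD.GDefs

/-!
# Names of initial segments

`yy w n ξ`: the name of the subset of Iio (crit w) coded by the data n at the node w. `Df f`: the data of a
name f of a subset of K.

THEOREM names. PROOF. em_le_iInf: fix ξ < crit w; em_le_bi_iff. Write G := good f (= homI ⊓ stripI for the
family f : K → BR R with rank id).
General fact: if r ≤ q then by cons_iff r.e = l ++ (w,a')::e', a' ⊆ a, Ext a e' e₁, nodes (v,c) of l have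
v ∈ {z | r.b ≤ q.A z}, c ⊆ it; since r.b ≤ q.b and q.b ⊓ q.A z ≤ G z (h3): r.b ≤ G on v and c. For
z ∈ a': r.b ≤ G z (h2). r.b ≤ G w (h1). ξ < crit w ≤ w < crit v for the nodes v of l and for z ∈ c
(Valid.of_mem_append with rk ((w,a')::e') = w).
(→) Let r ≤ q, em r ≤ f ξ. Show em r ≤ yy w n ξ: em_le_of_dense, let r ≤ r₀ (rename). r.b ≤ dd r.e (f ξ)
(le_dd). strip_list with l ++ [(w,a')]: r.b ≤ dd e' (f ξ) = Df f (inl (ξ, e')), and max ξ (rk e') < crit w. As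
r.b ≤ q.b ≤ eqv .. n, of_le_lit gives ⟨inl (ξ, e'), _⟩ ∈ n. Let r' = (r.b, l ++ (w, a' ∩ {z | ξ < crit z})::e',
r.A) ≤ r (Valid.shrink, replace_append, append_of_all old). The set a'' = a' ∩ {z | ξ < crit z} is contained
in An w n ξ e': z < crit w, rk e' < crit z (valid), ξ < crit z, and ⟨inr z, _⟩ ∈ n by of_le_lit because
r.b ≤ G z ≤ homI z = Df f (inr z) and r.b ≤ eqv. So Ext univ r'.e ((w, An w n ξ e')::e') (cons_iff), em r' ≤
ge (..) ≤ yy w n ξ (em_le_ge is in Strong.lean; here: le_iSup).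
(←) Let r₀ ≤ q, em r₀ ≤ yy w n ξ. em_le_of_dense for f ξ: let r ≤ r₀. exists_em_iSup: r₁ ≤ r, e with
⟨inl (ξ, e), _⟩ ∈ n and em r₁ ≤ ge ((w, An w n ξ e)::e); r₂ ≤ r₁ with Ext univ r₂.e ((w, An ..)::e) (as
of_em_ge: exists_em_iSup, compat_of). So r₂.e = l ++ (w,a'')::e'' with a'' ⊆ An, Ext An e'' e; by the general
fact and Valid.unique also nodes of l are good. r₂.b ≤ eqv gives r₂.b ≤ Df f (inl (ξ, e)) = dd e (f ξ)
(lit_true). For z ∈ An: ⟨inr z, _⟩ ∈ n so r₂.b ≤ homI z, and ξ < crit z. dd_extI (i = ξ) from e to r₂.e: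
Ext {z | r₂.b ≤ homI z ∧ ξ < crit z} r₂.e e by append_new, new (w, a'' ⊆ An), mono. So r₂.b ≤ dd r₂.e (f ξ)
and `real` gives r₃ ≤ r₂ with em r₃ ≤ f ξ.
-/

set_option autoImplicit false

namespace Pool.Agent.Lib.WkD

open Set Cardinal

variable {K Θ C : Type} [LinearOrder K] [OrderBot K] [LinearOrder Θ] [CompleteBooleanAlgebra C]
  (R : RSys K Θ C)

/-- homogeneous and stripping set of a name -/
noncomputable def good (f : K → BR R) (z : K) : C :=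
  homI R (fun ξ : K => ξ) f z ⊓ stripI R (fun ξ : K => ξ) f z

/-- the data of a name -/
noncomputable def Df (f : K → BR R) : II R.S → C :=
  Sum.elim (fun p => dd R p.2.1 (f p.1)) (fun z => homI R (fun ξ : K => ξ) f z)

/-- the set coded by the data -/
def An (w : K) (n : Nm R.S w) (ξ : K) (e : LP K) : Set K :=
  {z | z < R.S.crit w ∧ rk e < R.S.crit z ∧ ξ < R.S.crit z ∧
    ∃ h : rI R.S (Sum.inr z) < R.S.crit w, (⟨Sum.inr z, h⟩ : {i : II R.S // rI R.S i < R.S.crit w}) ∈ n}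

/-- the name of a subset of `Iio (crit w)` coded by the data -/
noncomputable def yy (w : K) (n : Nm R.S w) (ξ : Iio (R.S.crit w)) : BR R :=
  ⨆ e : VLP R.S, ⨆ _ : ∃ h : rI R.S (Sum.inl (ξ.1, e)) < R.S.crit w,
    (⟨Sum.inl (ξ.1, e), h⟩ : {i : II R.S // rI R.S i < R.S.crit w}) ∈ n, ge R ((w, An R w n ξ.1 e.1) :: e.1)

variable {R}

theorem mu_good (H : Setup K Θ C) (f : K → BR R) (γ : Θ) : R.μ γ (good R f) = ⊤ := by
  have hK : ℵ₀ ≤ #K := H.inacc.aleph0_lt.le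
  have h1 : R.μ γ (good R f) = R.μ γ (homI R (fun ξ : K => ξ) f) ⊓
      R.μ γ (stripI R (fun ξ : K => ξ) f) := (R.meas γ).bm.inf hK _ _
  rw [h1, mu_homI H (smallRk_id hK H.small), mu_stripI H (smallRk_id hK H.small), inf_top_eq]

private theorem of_em_ge' {q : Cond R} {e : LP K} (h : em q ≤ ge R e) :
    ∃ r ≤ q, Ext univ r.e e := by
  obtain ⟨q₁, h1, p, h2⟩ := exists_em_iSup h
  obtain ⟨q₂, h3, hp, h4⟩ := exists_em_iSup h2
  obtain ⟨q₃, h5, h6⟩ := compat_of (p := q₂) (q := p) (by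
    rw [inf_eq_left.2 h4]; exact em_ne_bot q₂)
  exact ⟨q₃, h5.trans (h3.trans h1), (h6.2.1.mono (subset_univ _)).trans hp⟩

private theorem gen (f : K → BR R) {q r : Cond R} {w : K} {a : Set K} {e₁ : LP K}
    (hq : q.e = (w, a) :: e₁) (h1 : q.b ≤ good R f w) (h2 : ∀ z ∈ a, q.b ≤ good R f z)
    (h3 : ∀ z, q.b ⊓ q.A z ≤ good R f z) (hr : r ≤ q) :
    ∃ (l : LP K) (a' : Set K) (e' : LP K), r.e = l ++ (w, a') :: e' ∧
      (∀ p ∈ l, r.b ≤ good R f p.1 ∧ ∀ z ∈ p.2, r.b ≤ good R f z) ∧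
      (∀ p ∈ l, w < R.S.crit p.1 ∧ ∀ z ∈ p.2, w < R.S.crit z) ∧
      r.b ≤ good R f w ∧ ∀ z ∈ a', r.b ≤ good R f z := by
  obtain ⟨hb, hE, -⟩ := cond_le_iff.1 hr
  rw [hq] at hE
  obtain ⟨l, a', e', h4, h5, h6, -⟩ := Ext.cons_iff.1 hE
  have hv : Valid R.S (l ++ (w, a') :: e') := by
    rw [← h4]
    exact r.val
  have hrk : rk ((w, a') :: e') = w := (Valid.of_append hv).rk_cons
  have hG : ∀ z, r.b ≤ q.A z → r.b ≤ good R f z := fun z hz => (le_inf hb hz).trans (h3 z)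
  refine ⟨l, a', e', h4, fun p hp => ⟨hG _ (h5 p hp).1, fun z hz => hG _ ((h5 p hp).2 hz)⟩,
    fun p hp => ?_, hb.trans h1, fun z hz => hb.trans (h2 z (h6 hz))⟩
  have h7 := hv.of_mem_append hp
  rw [hrk] at h7
  exact h7

theorem names (H : Setup K Θ C) (f : K → BR R) (q : Cond R) {w : K} {a : Set K} {e₁ : LP K}
    (hq : q.e = (w, a) :: e₁) (h1 : q.b ≤ good R f w) (h2 : ∀ z ∈ a, q.b ≤ good R f z)
    (h3 : ∀ z, q.b ⊓ q.A z ≤ good R f z) (n : Nm R.S w) (h4 : q.b ≤ eqv R.S (Df R f) w n) :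
    em q ≤ ⨅ ξ : Iio (R.S.crit w), bi (f ξ.1) (yy R w n ξ) := by
  have hK : ℵ₀ ≤ #K := H.inacc.aleph0_lt.le
  have hΘ : Nonempty Θ := H.nonempty
  have hD : ∀ b : C, b ≤ q.b → ∀ i : {i : II R.S // rI R.S i < R.S.crit w},
      b ≤ lit (i ∈ n) (Df R f i.1) := fun b hb i => hb.trans (h4.trans (iInf_le _ i))
  refine le_iInf fun ξ => em_le_bi_iff.2 ⟨fun r hr hf => ?_, fun r hr hf => ?_⟩
  · apply em_le_of_dense
    intro r₁ hr₁
    obtain ⟨l, a', e', g1, g2, g3, g4, g5⟩ := gen f hq h1 h2 h3 (hr₁.trans hr)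
    have hb : r₁.b ≤ q.b := (hr₁.trans hr).1
    have hv : Valid R.S (l ++ (w, a') :: e') := by
      rw [← g1]
      exact r₁.val
    have hv1 : Valid R.S ((w, a') :: e') := Valid.of_append hv
    have hξ : ξ.1 < R.S.crit w := ξ.2
    have k1 : r₁.b ≤ dd R ((l ++ [(w, a')]) ++ e') (f ξ.1) := by
      have k2 : r₁.b ≤ dd R r₁.e (f ξ.1) := le_dd r₁ ((em_mono hr₁).trans hf)
      rw [g1] at k2
      simpa using k2
    have k3 : r₁.b ≤ dd R e' (f ξ.1) := by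
      refine strip_list (r := fun ξ : K => ξ) (s := f) (i := ξ.1) (l := l ++ [(w, a')])
        (by simpa using hv) ?_ k1
      intro p hp
      rcases List.mem_append.1 hp with hp | hp
      · exact ⟨(g2 p hp).1.trans inf_le_right,
          hξ.trans ((R.S.crit_le w).trans_lt (g3 p hp).1)⟩
      · rw [List.mem_singleton] at hp
        subst hp
        exact ⟨g4.trans inf_le_right, hξ⟩
    have k4 : rI R.S (Sum.inl (ξ.1, (⟨e', hv1.tail⟩ : VLP R.S))) < R.S.crit w :=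
      max_lt hξ hv1.crit_lt
    have k5 : (⟨Sum.inl (ξ.1, (⟨e', hv1.tail⟩ : VLP R.S)), k4⟩ :
        {i : II R.S // rI R.S i < R.S.crit w}) ∈ n :=
      of_le_lit r₁.ne (hD _ hb _) k3
    have hv2 : Valid R.S ((w, a' ∩ {z | ξ.1 < R.S.crit z}) :: e') :=
      hv1.shrink (Filter.inter_mem hv1.mem (R.S.tail_mem w _ hξ)) inter_subset_left
    let r' : Cond R := ⟨r₁.b, l ++ (w, a' ∩ {z | ξ.1 < R.S.crit z}) :: e', r₁.A, r₁.ne,
      Valid.replace_append hv hv2, r₁.le⟩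
    have k6 : r' ≤ r₁ := by
      refine cond_le_iff.2 ⟨le_rfl, ?_, fun z => inf_le_right⟩
      rw [g1]
      exact Ext.append_of_all (fun A => Ext.old inter_subset_left (Ext.refl _ _)) l _
    refine ⟨r', k6, ?_⟩
    have k7 : Ext univ r'.e ((w, An R w n ξ.1 e') :: e') := by
      refine Ext.cons_iff.2 ⟨l, _, e', rfl, fun p _ => ⟨mem_univ _, subset_univ _⟩, ?_,
        Ext.refl _ _⟩
      rintro z ⟨hz1, hz2⟩
      have k8 : rI R.S (Sum.inr z) < R.S.crit w := hv1.sub hz1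
      refine ⟨hv1.sub hz1, hv1.lt_crit hz1, hz2, k8, ?_⟩
      exact of_le_lit r₁.ne (hD _ hb ⟨Sum.inr z, k8⟩) ((g5 z hz1).trans inf_le_left)
    exact le_iSup_of_le (⟨e', hv1.tail⟩ : VLP R.S) (le_iSup_of_le ⟨k4, k5⟩
      (le_iSup_of_le r' (le_iSup_of_le k7 le_rfl)))
  · apply em_le_of_dense
    intro r₁ hr₁
    have hf1 : em r₁ ≤ yy R w n ξ := (em_mono hr₁).trans hf
    obtain ⟨r₂, hr₂, e, hf2⟩ := exists_em_iSup hf1
    obtain ⟨r₃, hr₃, ⟨hm, hmem⟩, hf3⟩ := exists_em_iSup hf2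
    obtain ⟨r₄, hr₄, hE⟩ := of_em_ge' hf3
    have hrq : r₄ ≤ q := hr₄.trans (hr₃.trans (hr₂.trans (hr₁.trans hr)))
    obtain ⟨l, a', e', g1, g2, g3, g4, g5⟩ := gen f hq h1 h2 h3 hrq
    have hb : r₄.b ≤ q.b := hrq.1
    have hξ : ξ.1 < R.S.crit w := ξ.2
    have hv : Valid R.S (l ++ (w, a') :: e') := by
      rw [← g1]
      exact r₄.val
    obtain ⟨l', a'', e'', g6, -, g7, g8⟩ := Ext.cons_iff.1 hE
    obtain ⟨g9, g10, g11⟩ := Valid.unique hv (g1.symm.trans g6)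
    subst g9 g10 g11
    have k1 : r₄.b ≤ dd R e.1 (f ξ.1) := by
      have := hD r₄.b hb ⟨Sum.inl (ξ.1, e), hm⟩
      rw [lit_true hmem] at this
      exact this
    have k2 : An R w n ξ.1 e.1 ⊆
        {z | r₄.b ≤ homI R (fun ξ : K => ξ) f z ∧ ξ.1 < R.S.crit z} := by
      rintro z ⟨-, -, hz3, hz4, hz5⟩
      have := hD r₄.b hb ⟨Sum.inr z, hz4⟩
      rw [lit_true hz5] at this
      exact ⟨this, hz3⟩
    have k3 : r₄.b ≤ dd R r₄.e (f ξ.1) := by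
      refine dd_extI hK hΘ (r := fun ξ : K => ξ) (s := f) (i := ξ.1) e.2 r₄.val k1 ?_
      rw [g1]
      refine Ext.append_new (Ext.new ⟨g4.trans inf_le_left, hξ⟩ (g7.trans k2) (g8.mono k2)) ?_
      intro p hp
      refine ⟨⟨(g2 p hp).1.trans inf_le_left, hξ.trans ((R.S.crit_le w).trans_lt (g3 p hp).1)⟩,
        fun z hz => ⟨((g2 p hp).2 z hz).trans inf_le_left,
          hξ.trans ((R.S.crit_le w).trans_lt ((g3 p hp).2 z hz))⟩⟩
    obtain ⟨r₅, hr₅, -, -, k4, -⟩ :=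
      real hK hΘ r₄.ne k3 le_rfl r₄.val (Ext.refl {z | r₄.b ≤ r₄.A z} r₄.e)
    exact ⟨r₅, hr₅.trans (hr₄.trans (hr₃.trans hr₂)), k4⟩

end Pool.Agent.Lib.WkD
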