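import Pool.Agent.Lib.BVM.Notions

/-!
# Strongly inaccessible cardinals, diamond and weak diamond inside a structure `(M, E)`
-/

namespace Pool.Agent.Lib.WkD

open Pool.Agent.Lib.BVM

universe u

variable {M : Type u} (E : M → M → Prop)

/-- `x` is a transitive set. -/
def IsTrans (x : M) : Prop := ∀ y, E y x → ∀ z, E z y → E z x

/-- `x` is an ordinal: a transitive set of transitive sets. -/
def IsOrd (x : M) : Prop := IsTrans E x ∧ ∀ y, E y x → IsTrans E y

/-- `lam` is strongly inaccessible: an ordinal above omega such that every function from an element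
of `lam` to `lam` is bounded in `lam`, and for every `a` in `lam` there is `b` in `lam` which is
mapped onto the power set of `a`. -/
def IsStronglyInaccessible (lam : M) : Prop :=
  IsOrd E lam ∧ (∃ w, IsOmega E w ∧ E w lam) ∧
  (∀ a f, E a lam → IsFun E f a lam → ∃ b, E b lam ∧ ∀ x y, App E f x y → E y b) ∧
  (∀ a, E a lam → ∃ b p f, E b lam ∧ (∀ z, E z p ↔ ∀ w, E w z → E w a) ∧ IsSurj E f b p)

/-- `c` is a closed unbounded subset of `lam`. -/
def IsClub (c lam : M) : Prop :=
  (∀ x, E x c → E x lam) ∧
  (∀ x, E x lam → ∃ y, E y c ∧ E x y) ∧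
  (∀ a, E a lam → (∃ x, E x a) → (∀ x, E x a → ∃ y, E y c ∧ E x y ∧ E y a) → E a c)

/-- Diamond: there is a function `S` on `lam` with `S(a) ⊆ a` such that for every `X ⊆ lam` and
every closed unbounded `c` there is `a` in `c` with `S(a) = X ∩ a`. -/
def Diamond (lam : M) : Prop :=
  ∃ S, IsFunOn E S lam ∧ (∀ a s, App E S a s → ∀ x, E x s → E x a) ∧
    ∀ X, (∀ x, E x X → E x lam) → ∀ c, IsClub E c lam →
      ∃ a s, E a c ∧ App E S a s ∧ ∀ x, E x s ↔ (E x X ∧ E x a)

/-- `t = {0, 1}`. -/
def IsTwo (t : M) : Prop := ∃ z o, IsEmp E z ∧ IsSucc E z o ∧ IsUPair E z o t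

/-- Weak diamond: let `T` be the set of all functions from an element of `lam` to `2`. For every
function `F` from `T` to `2` there is `g` from `lam` to `2` such that for every `f` from `lam`
to `2` and every closed unbounded `c` there is `a` in `c` with `F(f restricted to a) = g(a)`. -/
def WeakDiamond (lam : M) : Prop :=
  ∀ two T F, IsTwo E two → (∀ t, E t T ↔ ∃ a, E a lam ∧ IsFun E t a two) → IsFun E F T two →
    ∃ g, IsFun E g lam two ∧ ∀ f, IsFun E f lam two → ∀ c, IsClub E c lam →
      ∃ a r v, E a c ∧ IsFun E r a two ∧ (∀ x y, App E r x y → App E f x y) ∧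
        App E F r v ∧ App E g a v

end Pool.Agent.Lib.WkD
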