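import Pool.Agent.Lib.WkD.Uv

/-!
# The next measure

Write p x w = uv S φ x w. For x with GX x it is a partition of ⊤ (uv_disjoint, uv_cover); two elements
are equal if they are equal below every p x w.
-/

set_option autoImplicit false

namespace Pool.Agent.Lib.WkD

open Set Cardinal

variable {K C : Type} [LinearOrder K] [WellFoundedLT K] [CompleteBooleanAlgebra C]
  {m : (Pk (#K) (HH K C) → C) → C} {S : Sys K} {φ : (K → C) → C}

/-- the coded node determines the value -/
theorem next_partition (S : Sys K) (φ : (K → C) → C) (x : Pk (#K) (HH K C))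
    (A : K → C) (w : K) : uv S φ x w ⊓ (⨆ w', uv S φ x w' ⊓ A w') = uv S φ x w ⊓ A w := by
  apply le_antisymm
  · rw [inf_iSup_eq]
    refine iSup_le fun w' => ?_
    by_cases h : w = w'
    · subst h
      exact inf_le_right
    · rw [← inf_assoc, uv_disjoint x h, bot_inf_eq]
      exact bot_le
  · exact le_inf inf_le_left (le_iSup (fun w' => uv S φ x w' ⊓ A w') w)

namespace NxtAux

theorem ext_part {p : K → C} (hp : ⨆ w, p w = ⊤) {a b : C} (h : ∀ w, p w ⊓ a = p w ⊓ b) :
    a = b := by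
  have h1 : ∀ c : C, c = ⨆ w, p w ⊓ c := by
    intro c
    rw [← iSup_inf_eq, hp, top_inf_eq]
  rw [h1 a, h1 b]
  simp only [h]

theorem inf_compl_inf (p x : C) : p ⊓ xᶜ = p ⊓ (p ⊓ x)ᶜ := by
  rw [compl_inf, inf_sup_left, inf_compl_self, bot_sup_eq]

theorem inf_iInf_inf {ι : Sort*} (p : C) (x : ι → C) : p ⊓ ⨅ i, x i = p ⊓ ⨅ i, (p ⊓ x i) := by
  apply le_antisymm
  · refine le_inf inf_le_left (le_iInf fun i => inf_le_inf_left _ (iInf_le _ i))
  · exact inf_le_inf_left _ (iInf_mono fun i => inf_le_right)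

theorem ae (hK : ℵ₀ ≤ #K) (hs : ∀ a : K, #(Iio a) < #K) (hm : NMeas (#K) (HH K C) C m)
    (S : Sys K) {A B : Pk (#K) (HH K C) → C} (h : ∀ x, GX S x → A x = B x) : m A = m B := by
  refine hm.bm.congr_ae hK (good_ae hK hs hm S) fun x => ?_
  by_cases hx : GX S x
  · rw [h x hx, bi_self]
    exact le_top
  · rw [tv_false hx]
    exact bot_le

theorem inf_crit (x : Pk (#K) (HH K C)) (w : K) (g : K → C) :
    uv S φ x w ⊓ g (S.crit w) = uv S φ x w ⊓ g (kx x) := by
  by_cases h : uv S φ x w = ⊥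
  · rw [h, bot_inf_eq, bot_inf_eq]
  · rw [(UvAux.of_uv_ne_bot h).1]

end NxtAux

open NxtAux

/-- the next measure of a set which depends only on the critical point -/
private theorem next_crit' (hK : (#K).IsInaccessible) (hs : ∀ a : K, #(Iio a) < #K)
    (hd : Distr (#K) C) (hS : FullSys S) (hm : NMeas (#K) (HH K C) C m) (hφ : PhiOK S φ)
    (g : K → C) : Next S φ m (fun w => g (S.crit w)) = m (fun x => g (kx x)) := by
  have hK' : ℵ₀ ≤ #K := hK.aleph0_lt.le
  unfold Next
  refine ae hK' hs hm S fun x hx => ?_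
  refine ext_part (uv_cover hK hs hd hS hφ hx) fun w => ?_
  rw [next_partition, inf_crit]

theorem normMeas_next (hK : (#K).IsInaccessible) (hs : ∀ a : K, #(Iio a) < #K)
    (hd : Distr (#K) C) (hS : FullSys S) (hm : NMeas (#K) (HH K C) C m) (hφ : PhiOK S φ) :
    NormMeas S.crit (Next S φ m) := by
  have hK' : ℵ₀ ≤ #K := hK.aleph0_lt.le
  have hcov : ∀ {x : Pk (#K) (HH K C)}, GX S x → ⨆ w, uv S φ x w = ⊤ := fun hx =>
    uv_cover hK hs hd hS hφ hx
  refine ⟨⟨?_, ?_, ?_⟩, ?_, ?_⟩
  · intro b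
    rw [← hm.bm.const b]
    conv_rhs => rw [hm.bm.const b]
    unfold Next
    rw [hm.bm.const b]
    conv_rhs => rw [← hm.bm.const b]
    refine ae hK' hs hm S fun x hx => ?_
    refine ext_part (hcov hx) fun w => ?_
    rw [next_partition]
  · intro A
    unfold Next
    rw [← hm.bm.compl]
    refine ae hK' hs hm S fun x hx => ?_
    refine ext_part (hcov hx) fun w => ?_
    rw [next_partition, inf_compl_inf (uv S φ x w) (⨆ w', uv S φ x w' ⊓ A w'), next_partition,
      ← inf_compl_inf]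
  · intro I A hI
    unfold Next
    rw [← hm.bm.iInf I (fun i x => ⨆ w, uv S φ x w ⊓ A i w) hI]
    refine ae hK' hs hm S fun x hx => ?_
    refine ext_part (hcov hx) fun w => ?_
    rw [next_partition, inf_iInf_inf (uv S φ x w) (fun i => ⨆ w', uv S φ x w' ⊓ A i w')]
    simp only [next_partition]
    rw [← inf_iInf_inf]
  · intro ξ
    rw [next_crit' hK hs hd hS hm hφ (fun α => tv C (ξ < α))]
    exact (normMeas_kx hK' hs hm).tail ξ
  · intro A
    unfold Next
    rw [← (normMeas_kx hK' hs hm).diag (fun v x => ⨆ w, uv S φ x w ⊓ A v w)]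
    refine ae hK' hs hm S fun x hx => ?_
    refine ext_part (hcov hx) fun w => ?_
    rw [next_partition]
    by_cases h : uv S φ x w = ⊥
    · rw [h, bot_inf_eq, bot_inf_eq]
    · rw [(UvAux.of_uv_ne_bot h).1]
      rw [inf_iInf_inf (uv S φ x w) (fun v => ⨅ _ : v < kx x, A v w),
        inf_iInf_inf (uv S φ x w) (fun v => ⨅ _ : v < kx x, ⨆ w', uv S φ x w' ⊓ A v w')]
      congr 1
      refine iInf_congr fun v => ?_
      rw [inf_iInf_inf (uv S φ x w) (fun _ : v < kx x => A v w),
        inf_iInf_inf (uv S φ x w) (fun _ : v < kx x => ⨆ w', uv S φ x w' ⊓ A v w')]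
      simp only [next_partition]

theorem next_inF (hK : (#K).IsInaccessible) (hs : ∀ a : K, #(Iio a) < #K)
    (hd : Distr (#K) C) (hS : FullSys S) (hm : NMeas (#K) (HH K C) C m) (hφ : PhiOK S φ)
    (A : K → C) : Next S φ m (fun w => inF S A w) = φ A := by
  have hK' : ℵ₀ ≤ #K := hK.aleph0_lt.le
  have hcov : ∀ {x : Pk (#K) (HH K C)}, GX S x → ⨆ w, uv S φ x w = ⊤ := fun hx =>
    uv_cover hK hs hd hS hφ hx
  have hmono : ∀ {X Y : K → C}, (∀ z, X z ≤ Y z) → φ X ≤ φ Y := by
    intro X Y hXY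
    have h1 := hφ.inf X Y
    have h2 : (fun z => X z ⊓ Y z) = X := by
      funext z
      exact inf_eq_left.2 (hXY z)
    rw [h2] at h1
    rw [h1]
    exact inf_le_right
  set M : Pk (#K) (HH K C) → C := fun x => ⨆ Z : Set K, ⨆ _ : Z ⊆ Iio (kx x),
    Fv φ x Z ⊓ ⨅ z, ⨅ _ : z ∈ Z, A z with hM
  have h0 : Next S φ m (fun w => inF S A w) = m M := by
    unfold Next
    refine ae hK' hs hm S fun x hx => ?_
    refine ext_part (hcov hx) fun w => ?_
    rw [next_partition]
    by_cases h : uv S φ x w = ⊥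
    · rw [h, bot_inf_eq, bot_inf_eq]
    obtain ⟨hc, _⟩ := UvAux.of_uv_ne_bot h
    apply le_antisymm
    · refine le_inf inf_le_left ?_
      unfold inF
      rw [inf_iSup_eq]
      refine iSup_le fun Z => ?_
      rw [inf_iSup_eq]
      refine iSup_le fun hZ => ?_
      have hZ' : Z ∩ Iio (kx x) ∈ S.F w := by
        have h4 := S.iio_mem w
        rw [hc] at h4
        exact Filter.inter_mem hZ h4
      have h5 := UvAux.uv_le_lit (S := S) (φ := φ) x w (Z := Z ∩ Iio (kx x)) inter_subset_right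
      rw [lit_true hZ'] at h5
      refine le_iSup₂_of_le (Z ∩ Iio (kx x)) inter_subset_right (inf_le_inf h5 ?_)
      refine le_iInf₂ fun z hz => iInf₂_le z hz.1
    · refine le_inf inf_le_left ?_
      rw [hM]
      simp only
      rw [inf_iSup_eq]
      refine iSup_le fun Z => ?_
      rw [inf_iSup_eq]
      refine iSup_le fun hZ => ?_
      by_cases hZF : Z ∈ S.F w
      · exact (inf_le_right.trans inf_le_right).trans
          (le_iSup₂_of_le (f := fun (Z : Set K) (_ : Z ∈ S.F w) => ⨅ z, ⨅ _ : z ∈ Z, A z) Z hZF le_rfl)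
      · have h5 := UvAux.uv_le_lit (S := S) (φ := φ) x w hZ
        rw [lit_false hZF] at h5
        have h6 : uv S φ x w ⊓ (Fv φ x Z ⊓ ⨅ z, ⨅ _ : z ∈ Z, A z) ≤ ⊥ := by
          rw [← compl_inf_self (Fv φ x Z)]
          exact inf_le_inf h5 inf_le_left
        exact h6.trans bot_le
  rw [h0]
  apply le_antisymm
  · have h1 : m M ≤ m (fun x => ⨆ X : K → C, ⨆ _ : (Sum.inr X : HH K C) ∈ x.1,
        (φ X ⊓ ⨅ z, ⨅ _ : z < kx x, (X z ⇨ A z))) := by
      refine hm.bm.mono hK' fun x => ?_
      rw [hM]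
      refine iSup₂_le fun Z hZ => ?_
      unfold Fv
      rw [iSup_inf_eq]
      refine iSup_le fun X => ?_
      rw [iSup_inf_eq]
      refine iSup_le fun hX => ?_
      refine le_iSup₂_of_le X hX ?_
      refine le_inf (inf_le_left.trans inf_le_left) ?_
      refine le_iInf₂ fun z hz => ?_
      by_cases hzZ : z ∈ Z
      · refine (inf_le_right.trans (iInf₂_le z hzZ)).trans ?_
        rw [le_himp_iff]
        exact inf_le_left
      · refine ((inf_le_left.trans inf_le_right).trans (iInf₂_le z ⟨hz, hzZ⟩)).trans ?_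
        rw [le_himp_iff, compl_inf_self]
        exact bot_le
    refine h1.trans ?_
    rw [normal_inr_sup hm (fun X x => φ X ⊓ ⨅ z, ⨅ _ : z < kx x, (X z ⇨ A z))]
    refine iSup_le fun X => ?_
    have h2 : m (fun x => φ X ⊓ ⨅ z, ⨅ _ : z < kx x, (X z ⇨ A z)) =
        φ X ⊓ ⨅ z, (X z ⇨ A z) := by
      rw [hm.bm.const_inf hK', (normMeas_kx hK' hs hm).diag (fun z _ => X z ⇨ A z)]
      simp only [hm.bm.const]
    change m (fun x => φ X ⊓ ⨅ z, ⨅ _ : z < kx x, (X z ⇨ A z)) ≤ φ A
    rw [h2]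
    refine (inf_le_inf_left _ (hφ.const _)).trans ?_
    rw [← hφ.inf]
    refine hmono fun z => ?_
    rw [inf_comm, ← le_himp_iff]
    exact iInf_le _ z
  · have h1 : φ A = m (fun _ => φ A) := (hm.bm.const _).symm
    rw [h1]
    refine hm.bm.mono_ae hK' (hm.fine (Sum.inr A)) fun x => ?_
    rw [tv_inf_le_iff]
    intro hA
    have h2 := hd (Iio (kx x)) (fun z => A z.1) (hs (kx x))
    calc φ A = φ A ⊓ ⨆ n : Set (Iio (kx x)), ⨅ j, lit (j ∈ n) (A j.1) := by rw [h2, inf_top_eq]
      _ ≤ M x := by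
        rw [inf_iSup_eq]
        refine iSup_le fun n => ?_
        refine le_iSup₂_of_le (Subtype.val '' n) (by rintro _ ⟨z, _, rfl⟩; exact z.2) ?_
        refine le_inf ?_ ?_
        · refine le_iSup₂_of_le A hA (le_inf inf_le_left ?_)
          refine le_iInf₂ fun z hz => ?_
          refine inf_le_right.trans ((iInf_le _ (⟨z, hz.1⟩ : Iio (kx x))).trans ?_)
          rw [lit_false]
          intro hzn
          exact hz.2 ⟨⟨z, hz.1⟩, hzn, rfl⟩
        · refine le_iInf₂ fun z hz => ?_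
          obtain ⟨z', hz', rfl⟩ := hz
          refine inf_le_right.trans ((iInf_le _ z').trans ?_)
          rw [lit_true hz']

/-- the next measure of a set which depends only on the critical point -/
theorem next_crit (hK : (#K).IsInaccessible) (hs : ∀ a : K, #(Iio a) < #K)
    (hd : Distr (#K) C) (hS : FullSys S) (hm : NMeas (#K) (HH K C) C m) (hφ : PhiOK S φ)
    (g : K → C) : Next S φ m (fun w => g (S.crit w)) = m (fun x => g (kx x)) :=
  next_crit' hK hs hd hS hm hφ g

end Pool.Agent.Lib.WkD
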