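import Pool.Agent.Lib.WkD.OSDefs

/-!
# One step lemma: the combinatorial claim

Facts used: (H) `hom1_ext`: if b' ≤ dd e₁ s, e₁, e₂ valid and Ext {z | b' ≤ hom1 s z} e₂ e₁ then
b' ≤ dd e₂ s. Proof: dd_extI (I = Unit) needs also ⊥ < crit z, which follows from rk e₁ < crit z by
Ext.of_sub.
`of_Cw`: if b' ≠ ⊥, b' ≤ Cw w then there are b'' ≤ b', b'' ≠ ⊥ and a₂ with Valid ((w,a₂)::e),
b'' ≤ dd ((w,a₂)::e) s, b'' ≤ eqs B (crit w) a₂ (exists_inf_ne_bot twice).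
`Cw_step`: if b' ≠ ⊥, Valid ((w,a₂)::e), b' ≤ dd ((w,a₂)::e) s, b' ≤ eqs B (crit w) a₂,
e₁ valid, rk e₁ < crit w, Ext {z | b' ≤ B z} e₁ e, Z ∈ F w, then
e₃ = (w, (Z ∩ a₂) ∩ {z | rk e₁ < crit z})::e₁ is valid and b' ≤ dd e₃ s. Proof: valid: Z ∩ a₂ ∈ F w,
elements are < crit w since in a₂, tail_mem. Ext ∅ e₃ ((w,a₂)::e) by old: needs Ext a₂ e₁ e: from
Ext {z | b' ≤ B z} e₁ e by Ext.of_sub: z ≤ rk e₁ < crit w and b' ≤ B z give z ∈ a₂ (mem_of_eqs). Then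
dd_shrink.

THEOREM os_claim. PROOF. Induction on e' (cases of Ext). nil: e = [], e'' = [], (i). old: e' =
(w,a')::e₁', e = (w,a)::e₁: e'' = e' and (i) holds because Ext.old does not use the set (Ext.refl for
Ext ∅). new: e' = (v,c)::e₁', b' ≤ AA v, c ⊆ {z | b' ≤ AA z}, Ext .. e₁' e. By induction (b', e₁' valid)
there are b₁ ≤ b' and e₁'' for e₁' (rk e₁'' = rk e₁' by Ext.rk_eq, so rk e₁'' < crit v).
 Case (ii) for e₁'': take e'' = (v, c ∩ {z | rk e₁'' < crit z})::e₁'' (Valid.replace),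
 Ext ∅ e'' e' by old (Ext c e₁'' e₁' from Ext ∅ by mono), and (H) from e₁'' to e'' with Ext.new
 (b₁ ≤ AA ≤ hom1 on v and c) and Ext.refl.
 Case (i) for e₁'': b₁ ≤ B1 v ⊔ Cw v ⊔ Ev v. Let b₂ ≤ b₁, b₂ ≠ ⊥ be below one of them.
  B1: b₂ ≤ B v and (refine b₂) b₂ ≤ B z for all z ∈ Z, Z ∈ F v. e'' = (v, (c ∩ Z) ∩ {z |
  rk e₁'' < crit z})::e₁'' and (i) by Ext.new.
  Cw: of_Cw and Cw_step with w = v, Z = c: e'' = (v, (c ∩ a₂) ∩ {z | rk e₁'' < crit z})::e₁''. (ii).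
  Ev: with a₃ = c (c ∈ F v, c ⊆ Iio (crit v)) and e₂ = e₁'': b₂ ≤ (Yv ..)ᶜ = ⨆ w ..: there is w ∈ c,
  rk e₁'' < crit w with (refine) b₃ ≤ Cw w ⊓ inF (B ⊓ tv(∈ c)) w; Z ∈ F w with b₃ ≤ B z ⊓ tv(z ∈ c) for
  z ∈ Z, so Z ⊆ c (le_tv_iff); of_Cw: b₃ ≤ dd ((w,a₂)::e) s ⊓ eqs B (crit w) a₂. By Cw_step
  e₃ = (w, (Z ∩ a₂) ∩ {z | rk e₁'' < crit z})::e₁'' is valid and b₃ ≤ dd e₃ s. w < crit v since w ∈ c
  (Valid.sub). Let e'' = (v, c ∩ {z | rk e₃ < crit z})::e₃ (rk e₃ = w < crit v; Valid.replace).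
  Ext ∅ e'' e': old with Ext c e₃ e₁' = new (w ∈ c, Z ∩ .. ⊆ c) from Ext ∅ e₁'' e₁' (mono).
  b₃ ≤ dd e'' s by (H) from e₃: new, v and c in {z | b₃ ≤ hom1 z}. (ii).
-/

set_option autoImplicit false

namespace Pool.Agent.Lib.WkD

open Set Cardinal

variable {K Θ C : Type} [LinearOrder K] [OrderBot K] [LinearOrder Θ] [CompleteBooleanAlgebra C]
  {R : RSys K Θ C}

namespace OSBAux

theorem below_sup {b x y : C} (hb : b ≠ ⊥) (h : b ≤ x ⊔ y) : b ⊓ x ≠ ⊥ ∨ b ⊓ y ≠ ⊥ := by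
  by_contra hcon
  push Not at hcon
  apply hb
  rw [← inf_eq_left.2 h, inf_sup_left, hcon.1, hcon.2, sup_bot_eq]

omit [OrderBot K] in
theorem of_inF {S : Sys K} {X : K → C} {w : K} {b : C} (hb : b ≠ ⊥) (h : b ≤ inF S X w) :
    ∃ b' ≤ b, b' ≠ ⊥ ∧ ∃ Z ∈ S.F w, ∀ z ∈ Z, b' ≤ X z := by
  obtain ⟨Z, hZ⟩ := exists_inf_ne_bot hb h
  obtain ⟨hZ', hZ2⟩ := exists_inf_ne_bot hZ inf_le_right
  refine ⟨_, inf_le_left.trans inf_le_left, hZ2, Z, hZ', fun z hz => ?_⟩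
  exact inf_le_right.trans (iInf_le_of_le z (iInf_le _ hz))

end OSBAux

open OSBAux

theorem hom1_ext (H : Setup K Θ C) {s : BR R} {e e₂ : LP K} {b : C} (he : Valid R.S e)
    (he₂ : Valid R.S e₂) (hb : b ≤ dd R e s) (hX : Ext {z | b ≤ hom1 R s z} e₂ e) :
    b ≤ dd R e₂ s := by
  refine dd_extI (r := fun _ : Unit => (⊥ : K)) (s := fun _ => s) (i := ())
    H.inacc.aleph0_lt.le H.nonempty he he₂ hb ?_
  exact hX.of_sub he₂ fun z hz _ hz2 => ⟨hz, bot_le.trans_lt hz2⟩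

theorem of_Cw {e : LP K} {s : BR R} {B : K → C} {b : C} {w : K} (hb : b ≠ ⊥)
    (h : b ≤ Cw R e s B w) : ∃ b' ≤ b, b' ≠ ⊥ ∧ ∃ a₂ : Set K, Valid R.S ((w, a₂) :: e) ∧
      b' ≤ dd R ((w, a₂) :: e) s ∧ b' ≤ eqs B (R.S.crit w) a₂ := by
  obtain ⟨a, ha⟩ := exists_inf_ne_bot hb h
  obtain ⟨hv, hv2⟩ := exists_inf_ne_bot ha inf_le_right
  exact ⟨_, inf_le_left.trans inf_le_left, hv2, a, hv, inf_le_right.trans inf_le_left,
    inf_le_right.trans inf_le_right⟩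

theorem Cw_step (H : Setup K Θ C) {e e₁ : LP K} {s : BR R} {B : K → C} {b : C} {w : K}
    {a₂ Z : Set K} (hb : b ≠ ⊥) (h1 : Valid R.S ((w, a₂) :: e)) (h2 : b ≤ dd R ((w, a₂) :: e) s)
    (h3 : b ≤ eqs B (R.S.crit w) a₂) (h4 : Valid R.S e₁) (h5 : rk e₁ < R.S.crit w)
    (h6 : Ext {z | b ≤ B z} e₁ e) (h7 : Z ∈ R.S.F w) :
    Valid R.S ((w, (Z ∩ a₂) ∩ {z | rk e₁ < R.S.crit z}) :: e₁) ∧
      b ≤ dd R ((w, (Z ∩ a₂) ∩ {z | rk e₁ < R.S.crit z}) :: e₁) s := by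
  have hv : Valid R.S ((w, (Z ∩ a₂) ∩ {z | rk e₁ < R.S.crit z}) :: e₁) := by
    rw [valid_cons_iff]
    refine ⟨Filter.inter_mem (Filter.inter_mem h7 h1.mem) (R.S.tail_mem w _ h5), ?_, h5, h4⟩
    intro z hz
    exact ⟨h1.sub hz.1.2, hz.2⟩
  refine ⟨hv, h2.trans (dd_shrink H.inacc.aleph0_lt.le H.nonempty s hv (Ext.old ?_ ?_))⟩
  · exact fun z hz => hz.1.2
  · exact h6.of_sub h4 fun z hz hz1 _ => mem_of_eqs hb h3 hz (hz1.trans_lt h5)

theorem os_claim (H : Setup K Θ C) {e : LP K} {s : BR R} {B : K → C} (e' : LP K) (b : C)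
    (hb : b ≠ ⊥) (he : Valid R.S e) (he' : Valid R.S e') (hE : Ext {z | b ≤ AA R e s B z} e' e) :
    ∃ b' ≤ b, b' ≠ ⊥ ∧ ∃ e'' : LP K, Valid R.S e'' ∧ Ext ∅ e'' e' ∧
      (Ext {z | b' ≤ B z} e'' e ∨ b' ≤ dd R e'' s) := by
  induction e' generalizing b with
  | nil =>
    cases hE
    exact ⟨b, le_rfl, hb, [], he', Ext.nil _, Or.inl (Ext.nil _)⟩
  | cons p e₁' ih =>
    cases hE with
    | old ha h =>
      exact ⟨b, le_rfl, hb, _, he', Ext.refl _ _, Or.inl (Ext.old ha h)⟩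
    | @new _ v c _ _ hvA hcA h1 =>
      obtain ⟨b₁, hb1, hb1n, e₂, hval, hExt, hor⟩ := ih b hb he'.tail h1
      have hrk : rk e₂ < R.S.crit v := by
        rw [hExt.rk_eq hval he'.tail]
        exact he'.crit_lt
      have hAA : ∀ z, b ≤ AA R e s B z → b₁ ≤ hom1 R s z := fun z hz =>
        (hb1.trans hz).trans inf_le_left
      rcases hor with hi | hii
      · have hv1 : b₁ ≤ B1 R B v ⊔ Cw R e s B v ⊔ Ev R e s B v :=
          (hb1.trans hvA).trans inf_le_right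
        rcases below_sup hb1n hv1 with hBC | hE3
        · rcases below_sup (b := b₁ ⊓ (B1 R B v ⊔ Cw R e s B v)) hBC inf_le_right with hB | hC
          · -- the case B1
            have hBle : b₁ ⊓ (B1 R B v ⊔ Cw R e s B v) ⊓ B1 R B v ≤ inF R.S B v :=
              inf_le_right.trans inf_le_right
            obtain ⟨b₃, hb3, hb3n, Z, hZ, hZ2⟩ := of_inF hB hBle
            have hb31 : b₃ ≤ b₁ := hb3.trans (inf_le_left.trans inf_le_left)
            have hval2 : Valid R.S ((v, (c ∩ Z) ∩ {z | rk e₂ < R.S.crit z}) :: e₂) :=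
              (he'.shrink (Filter.inter_mem he'.mem hZ) inter_subset_left).replace hval hrk
            refine ⟨b₃, hb31.trans hb1, hb3n, _, hval2, Ext.old ?_ (hExt.mono (empty_subset _)),
              Or.inl (Ext.new ?_ ?_ (hi.mono ?_))⟩
            · exact fun z hz => hz.1.1
            · exact hb3.trans (inf_le_right.trans inf_le_left)
            · exact fun z hz => hZ2 z hz.1.2
            · exact fun z hz => hb31.trans hz
          · -- the case Cw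
            obtain ⟨b₃, hb3, hb3n, a₂, hv2, hd, heq⟩ := of_Cw hC inf_le_right
            have hb31 : b₃ ≤ b₁ := hb3.trans (inf_le_left.trans inf_le_left)
            obtain ⟨hval2, hd2⟩ := Cw_step H hb3n hv2 hd heq hval hrk
              (hi.mono fun z hz => hb31.trans hz) he'.mem
            refine ⟨b₃, hb31.trans hb1, hb3n, _, hval2, Ext.old ?_ (hExt.mono (empty_subset _)),
              Or.inr hd2⟩
            exact fun z hz => hz.1.1
        · -- the case Ev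
          have hEle : b₁ ⊓ Ev R e s B v ≤ ⨆ w : K, ⨆ _ : w ∈ c ∧ rk e₂ < R.S.crit w,
              (Cw R e s B w ⊓ inF R.S (fun z => B z ⊓ tv C (z ∈ c)) w) := by
            have h0 : Ev R e s B v ≤ (Yv R e s B e₂ c)ᶜ := by
              unfold Ev
              exact iInf_le_of_le (⟨e₂, hval⟩ : VLP R.S) (iInf_le_of_le hrk
                (iInf_le_of_le c (iInf_le_of_le ⟨he'.mem, he'.sub⟩ le_rfl)))
            refine (inf_le_right.trans h0).trans ?_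
            unfold Yv
            rw [compl_compl]
          obtain ⟨w, hw⟩ := exists_inf_ne_bot hE3 hEle
          have hw' : b₁ ⊓ Ev R e s B v ⊓ (⨆ _ : w ∈ c ∧ rk e₂ < R.S.crit w,
              (Cw R e s B w ⊓ inF R.S (fun z => B z ⊓ tv C (z ∈ c)) w)) ≠ ⊥ := hw
          obtain ⟨⟨hwc, hwr⟩, hw2⟩ := exists_inf_ne_bot hw' inf_le_right
          obtain ⟨b₄, hb4, hb4n, Z, hZ, hZ2⟩ := of_inF hw2 (inf_le_right.trans inf_le_right)
          obtain ⟨b₅, hb5, hb5n, a₂, hv2, hd, heq⟩ :=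
            of_Cw hb4n (hb4.trans (inf_le_right.trans inf_le_left))
          have hb51 : b₅ ≤ b₁ := (hb5.trans hb4).trans
            ((inf_le_left.trans inf_le_left).trans inf_le_left)
          obtain ⟨hval3, hd3⟩ := Cw_step H hb5n hv2 hd heq hval hwr
            (hi.mono fun z hz => hb51.trans hz) hZ
          have hrk3 : rk ((w, (Z ∩ a₂) ∩ {z | rk e₂ < R.S.crit z}) :: e₂) < R.S.crit v := by
            rw [hval3.rk_cons]
            exact he'.sub hwc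
          have hval4 := he'.replace hval3 hrk3
          refine ⟨b₅, hb51.trans hb1, hb5n, _, hval4, Ext.old inter_subset_left
            (Ext.new hwc ?_ (hExt.mono (empty_subset _))), Or.inr ?_⟩
          · intro z hz
            have h5 : b₄ ≤ tv C (z ∈ c) := (hZ2 z hz.1.1).trans inf_le_right
            exact (le_tv_iff hb4n).1 h5
          · refine hom1_ext H hval3 hval4 hd3 (Ext.new ?_ ?_ (Ext.refl _ _))
            · exact hb51.trans (hAA v hvA)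
            · exact fun z hz => hb51.trans (hAA z (hcA hz.1))
      · have hval2 := he'.replace hval hrk
        refine ⟨b₁, hb1, hb1n, _, hval2, Ext.old inter_subset_left (hExt.mono (empty_subset _)),
          Or.inr ?_⟩
        refine hom1_ext H hval hval2 hii (Ext.new ?_ ?_ (Ext.refl _ _))
        · exact hAA v hvA
        · exact fun z hz => hAA z (hcA hz.1)

end Pool.Agent.Lib.WkD
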