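import Pool.Agent.Lib.WkD.OSA
import Pool.Agent.Lib.WkD.OSB

/-!
# The one step lemma

THEOREM os. If (with Boolean value b) for almost all w with respect to μ_γ the node w can be put on top
of e with some set so that s is forced, then e with some set forces s.

PROOF. It suffices (le_of_dense, or directly) to show: b := μ_γ(PP e s) is ≤ dd e s; b = ⊥ is trivial,
let b ≠ ⊥. e is valid: PP e s w ≠ ⊥ for some w (exists_point). Apply sel to
g w a = ⨆ _ : Valid ((w,a)::e), dd ((w,a)::e) s (Valid gives a ∈ F w and a ⊆ Iio (crit w)): there is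
B : K → C with b ≤ μ_γ(Cw) and b ≤ μ_γ(inF B) = phi γ B (sel_inF, mu_inF). By os_measure
b ≤ Phi AA. Let p = (b, e, AA). em p ≤ s: em_le_of_dense: let q ≤ p. os_claim for e' = q.e and q.b
(q.b ≤ b; Ext {z | q.b ≤ AA z} q.e e from q ≤ p) gives b'', e''. Case b'' ≤ dd e'' s: `real` with
p := q, Ext {z | b'' ≤ q.A z} e'' q.e (mono of Ext ∅) gives r ≤ q with em r ≤ s. Case
Ext {z | b'' ≤ B z} e'' e: b'' ≤ q.b ≤ Phi q.A; let X = q.A. b'' ≤ μ_γ X, b'' ≤ phi γ (X ⊓ B),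
b'' ≤ μ_γ Cw, so by exists_node there is w with rk e'' < crit w,
b₁ := b'' ⊓ X w ⊓ inF (X ⊓ B) w ⊓ Cw w ≠ ⊥; refine: b₂ ≤ X z ⊓ B z for z ∈ Z, Z ∈ F w; of_Cw:
b₃ ≤ dd ((w,a₂)::e) s ⊓ eqs B (crit w) a₂, Valid ((w,a₂)::e). Cw_step with e₁ = e'':
e₃ = (w, (Z ∩ a₂) ∩ {z | rk e'' < crit z})::e'' is valid, b₃ ≤ dd e₃ s; Ext {z | b₃ ≤ X z} e₃ q.e
(new: b₃ ≤ X w, the set is contained in Z; then mono of Ext ∅ e'' q.e). `real` gives r ≤ q with
em r ≤ s. So em p ≤ s and b ≤ dd e s (le_dd).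
-/

set_option autoImplicit false

namespace Pool.Agent.Lib.WkD

open Set Cardinal

variable {K Θ C : Type} [LinearOrder K] [OrderBot K] [LinearOrder Θ] [CompleteBooleanAlgebra C]

theorem os (H : Setup K Θ C) (R : RSys K Θ C) (γ : Θ) (e : LP K) (s : BR R) :
    R.μ γ (fun w => PP R e s w) ≤ dd R e s := by
  have hK : ℵ₀ ≤ #K := H.inacc.aleph0_lt.le
  have hΘ : Nonempty Θ := H.nonempty
  by_cases hb : R.μ γ (fun w => PP R e s w) = ⊥
  · rw [hb]; exact bot_le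
  have he : Valid R.S e := by
    obtain ⟨w, hw⟩ := (R.meas γ).bm.exists_point hK hb (le_refl _)
    by_contra hcon
    apply hw
    rw [← le_bot_iff]
    refine inf_le_right.trans ?_
    refine iSup_le fun a => iSup_le fun ha => absurd ha.tail hcon
  obtain ⟨B, hB⟩ := sel hK (R.meas γ)
    (fun w a => ⨆ _ : Valid R.S ((w, a) :: e), dd R ((w, a) :: e) s)
  have hB2 := sel_inF hK (R.meas γ)
    (fun w a => ⨆ _ : Valid R.S ((w, a) :: e), dd R ((w, a) :: e) s) B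
  have h0 : R.μ γ (fun w => PP R e s w) ≤ R.μ γ (fun w => ⨆ a : Set K,
      ⨆ _ : a ∈ R.S.F w ∧ a ⊆ Iio (R.S.crit w),
        ⨆ _ : Valid R.S ((w, a) :: e), dd R ((w, a) :: e) s) := by
    apply R.mu_mono hK γ
    intro w
    refine iSup_le fun a => iSup_le fun ha => ?_
    exact le_iSup_of_le a (le_iSup_of_le ⟨ha.mem, ha.sub⟩ (le_iSup_of_le ha le_rfl))
  have h1 : R.μ γ (fun w => PP R e s w) ≤ R.μ γ (Cw R e s B) := by
    refine (h0.trans hB).trans (R.mu_mono hK γ fun w => ?_)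
    refine iSup_le fun a => iSup_le fun ha => ?_
    rw [iSup_inf_eq]
    refine iSup_le fun hv => ?_
    exact le_iSup_of_le a (le_iSup_of_le hv le_rfl)
  have h2 : R.μ γ (fun w => PP R e s w) ≤ R.phi γ B := by
    rw [← R.mu_inF γ B]
    exact (h0.trans hB).trans hB2
  have h3 : R.μ γ (fun w => PP R e s w) ≤ R.Phi (AA R e s B) :=
    os_measure H R γ e s B _ h1 h2
  let p : Cond R := ⟨R.μ γ (fun w => PP R e s w), e, AA R e s B, hb, he, h3⟩
  have h4 : em p ≤ s := by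
    apply em_le_of_dense
    intro q hq
    obtain ⟨hq1, hq2, hq3⟩ := cond_le_iff.1 hq
    have hq2' : Ext {z | q.b ≤ AA R e s B z} q.e e := hq2
    have hq1' : q.b ≤ R.μ γ (fun w => PP R e s w) := hq1
    obtain ⟨b'', hb1, hb2, e'', he1, he2, he3⟩ :=
      os_claim H (e := e) (s := s) (B := B) q.e q.b q.ne he q.val hq2'
    rcases he3 with he3 | he3
    · have g1 : b'' ≤ R.μ γ q.A := hb1.trans (q.le.trans (R.Phi_le_mu γ _))
      have g2 : b'' ≤ R.phi γ (fun z => q.A z ⊓ B z) := by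
        rw [R.phi_inf hK]
        exact le_inf (hb1.trans (q.le.trans (R.Phi_le_phi γ _)))
          (hb1.trans (hq1'.trans h2))
      have g3 : b'' ≤ R.μ γ (Cw R e s B) := hb1.trans (hq1'.trans h1)
      obtain ⟨w, hw1, -, hw2⟩ := R.exists_node hK γ hb2 e'' g1 g2 g3 (rk e'')
      have g4 : b'' ⊓ q.A w ⊓ inF R.S (fun z => q.A z ⊓ B z) w ⊓ Cw R e s B w ≤
          inF R.S (fun z => q.A z ⊓ B z) w := inf_le_left.trans inf_le_right
      obtain ⟨Z, hZ⟩ := exists_inf_ne_bot hw2 g4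
      obtain ⟨hZF, hZ2⟩ := exists_inf_ne_bot hZ inf_le_right
      have k1 : b'' ⊓ q.A w ⊓ inF R.S (fun z => q.A z ⊓ B z) w ⊓ Cw R e s B w ⊓
          (⨆ _ : Z ∈ R.S.F w, ⨅ z, ⨅ _ : z ∈ Z, (q.A z ⊓ B z)) ⊓
          (⨅ z, ⨅ _ : z ∈ Z, (q.A z ⊓ B z)) ≤ Cw R e s B w :=
        (inf_le_left.trans inf_le_left).trans inf_le_right
      obtain ⟨b₃, hb3, hb3', a₂, c1, c2, c3⟩ := of_Cw hZ2 k1
      have k2 : b₃ ≤ b'' := hb3.trans ((inf_le_left.trans inf_le_left).trans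
        (inf_le_left.trans (inf_le_left.trans inf_le_left)))
      have k3 : b₃ ≤ q.A w := hb3.trans ((inf_le_left.trans inf_le_left).trans
        (inf_le_left.trans (inf_le_left.trans inf_le_right)))
      have k4 : ∀ z ∈ Z, b₃ ≤ q.A z ⊓ B z := fun z hz =>
        hb3.trans (inf_le_right.trans (iInf_le_of_le z (iInf_le _ hz)))
      obtain ⟨d1, d2⟩ := Cw_step H hb3' c1 c2 c3 he1 hw1
        (he3.mono fun z (hz : b'' ≤ B z) => k2.trans hz) hZF
      have k5 : Ext {z | b₃ ≤ q.A z}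
          ((w, (Z ∩ a₂) ∩ {z | rk e'' < R.S.crit z}) :: e'') q.e :=
        Ext.new k3 (fun z hz => (k4 z hz.1.1).trans inf_le_left)
          (he2.mono (Set.empty_subset _))
      obtain ⟨r, r1, -, -, r2, -⟩ := real hK hΘ hb3' d2 (k2.trans hb1) d1 k5
      exact ⟨r, r1, r2⟩
    · obtain ⟨r, r1, -, -, r2, -⟩ := real hK hΘ hb2 he3 hb1 he1
        (he2.mono (Set.empty_subset {z | b'' ≤ q.A z}))
      exact ⟨r, r1, r2⟩
  exact le_dd p h4

end Pool.Agent.Lib.WkD
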