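import Pool.Agent.Lib.WkD.OSDefs

/-!
# One step lemma: measure one

THEOREM. If b ≤ μ_γ(Cw) and b ≤ phi γ B then b ≤ Phi AA.

PROOF. By Phi as infimum and mu_homI (all measures of hom1 are ⊤; SmallRk of the constant rank on
Unit: smallRk_of_small) and BMeas.inf it suffices that b ≤ μ_δ(B1 ⊔ Cw ⊔ Ev) for all δ.
 δ < γ: b ≤ phi γ B ≤ μ_δ B (phi_le_mu) and b ≤ phi γ B ≤ phi δ B = μ_δ(inF B), so b ≤ μ_δ B1.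
 δ = γ: b ≤ μ_γ Cw.
 γ < δ: b ≤ μ_δ Ev. Otherwise b' := b ⊓ (μ_δ Ev)ᶜ ≠ ⊥, b' ≤ μ_δ(Evᶜ) and (Ev v)ᶜ =
 ⨆ e₂ : VLP, ⨆ _ : rk e₂ < crit v, ⨆ a₃, ⨆ _ : (a₃ ∈ F v ∧ a₃ ⊆ Iio (crit v)), Yv e₂ a₃. By
 diagI_sup (smallRk_VLP) there are e₂ and b₁ ≤ b', b₁ ≠ ⊥ with b₁ ≤ μ_δ(v ↦ ⨆ a₃ .. Yv e₂ a₃). By sel
 (for g v a₃ = Yv e₂ a₃) there is B₃ with b₁ ≤ μ_δ(v ↦ ⨆ a₃.., Yv e₂ a₃ ⊓ eqs B₃ (crit v) a₃) and
 (sel_inF, mu_inF) b₁ ≤ phi δ B₃. As γ < δ: b₁ ≤ μ_γ B₃ (phi_le_mu) and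
 b₁ ≤ phi δ B₃ ≤ phi γ B₃ (phi_anti), so b₁ ≤ phi γ (B₃ ⊓ B), and b₁ ≤ μ_γ Cw. So (exists_node with
 X = B₃, Y = B₃ ⊓ B, W = Cw) there is w with rk e₂ < crit w and
 b₂ := b₁ ⊓ B₃ w ⊓ inF (B₃ ⊓ B) w ⊓ Cw w ≠ ⊥. CLAIM: for v with w < crit v and a₃ ∈ F v,
 b₂ ⊓ (Yv e₂ a₃ ⊓ eqs B₃ (crit v) a₃) = ⊥. Otherwise call it b₃ ≠ ⊥; b₃ ≤ B₃ w so w ∈ a₃
 (mem_of_eqs, w < crit v); b₃ ≤ inF (B₃ ⊓ B) w, so for some Z ∈ F w and b₄ ≤ b₃, b₄ ≠ ⊥: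
 b₄ ≤ B₃ z ⊓ B z for all z ∈ Z (exists_inf_ne_bot); replace Z by Z ∩ Iio (crit w) ∈ F w. Each z in it is
 < crit w ≤ w < crit v so z ∈ a₃ (mem_of_eqs). So b₄ ≤ inF (B ⊓ tv(∈ a₃)) w, b₄ ≤ Cw w, hence b₄ ≤
 (Yv e₂ a₃)ᶜ (definition of Yv: compl of a supremum containing the term of w) and b₄ ≤ Yv e₂ a₃,
 contradiction. So b₂ = b₂ ⊓ μ_δ(v ↦ ⨆ a₃.., ..) ⊓ μ_δ(tv (w < crit v)) = μ_δ(v ↦ ⊥) = ⊥
 (BMeas.const_inf, inf, tail), a contradiction.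
-/

set_option autoImplicit false

namespace Pool.Agent.Lib.WkD

open Set Cardinal

variable {K Θ C : Type} [LinearOrder K] [OrderBot K] [LinearOrder Θ] [CompleteBooleanAlgebra C]

namespace OSAAux

/-- the claim for one node `v` and one set -/
theorem claim (R : RSys K Θ C) (e : LP K) (s : BR R) (B B₃ : K → C) (e₂ : LP K) {w v : K}
    {a₃ : Set K} {b₂ : C} (hw : rk e₂ < R.S.crit w) (hwv : w < R.S.crit v) (h1 : b₂ ≤ B₃ w)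
    (h2 : b₂ ≤ inF R.S (fun z => B₃ z ⊓ B z) w) (h3 : b₂ ≤ Cw R e s B w) :
    b₂ ⊓ (Yv R e s B e₂ a₃ ⊓ eqs B₃ (R.S.crit v) a₃) = ⊥ := by
  by_contra hne
  set b₃ := b₂ ⊓ (Yv R e s B e₂ a₃ ⊓ eqs B₃ (R.S.crit v) a₃) with hb₃
  have h4 : b₃ ≤ eqs B₃ (R.S.crit v) a₃ := inf_le_right.trans inf_le_right
  have h5 : b₃ ≤ Yv R e s B e₂ a₃ := inf_le_right.trans inf_le_left
  have h6 : b₃ ≤ b₂ := inf_le_left
  have hwa : w ∈ a₃ := mem_of_eqs hne h4 (h6.trans h1) hwv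
  have h7 : b₃ ≤ ⨆ Z : Set K, ⨆ _ : Z ∈ R.S.F w, ⨅ z, ⨅ _ : z ∈ Z, (B₃ z ⊓ B z) := h6.trans h2
  obtain ⟨Z, hZ⟩ := exists_inf_ne_bot hne h7
  obtain ⟨hZF, hZ'⟩ := exists_inf_ne_bot hZ inf_le_right
  set b₄ := b₃ ⊓ (⨆ _ : Z ∈ R.S.F w, ⨅ z, ⨅ _ : z ∈ Z, (B₃ z ⊓ B z)) ⊓
    (⨅ z, ⨅ _ : z ∈ Z, (B₃ z ⊓ B z)) with hb₄
  have h8 : b₄ ≤ b₃ := inf_le_left.trans inf_le_left
  have h9 : ∀ z ∈ Z, b₄ ≤ B₃ z ⊓ B z := fun z hz =>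
    inf_le_right.trans (iInf_le_of_le z (iInf_le _ hz))
  have h10 : b₄ ≤ inF R.S (fun z => B z ⊓ tv C (z ∈ a₃)) w := by
    refine le_iSup_of_le (Z ∩ Iio (R.S.crit w))
      (le_iSup_of_le (Filter.inter_mem hZF (R.S.iio_mem w)) ?_)
    refine le_iInf fun z => le_iInf fun hz => le_inf ((h9 z hz.1).trans inf_le_right) ?_
    have hzv : z < R.S.crit v := ((mem_Iio.1 hz.2).trans_le (R.S.crit_le w)).trans hwv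
    have hza : z ∈ a₃ := mem_of_eqs hZ' (h8.trans h4) ((h9 z hz.1).trans inf_le_left) hzv
    rw [tv_true hza]
    exact le_top
  have h11 : b₄ ≤ ⨆ w : K, ⨆ _ : w ∈ a₃ ∧ rk e₂ < R.S.crit w,
      (Cw R e s B w ⊓ inF R.S (fun z => B z ⊓ tv C (z ∈ a₃)) w) :=
    le_iSup_of_le w (le_iSup_of_le ⟨hwa, hw⟩ (le_inf ((h8.trans h6).trans h3) h10))
  have h12 : b₄ ≤ (⨆ w : K, ⨆ _ : w ∈ a₃ ∧ rk e₂ < R.S.crit w,
      (Cw R e s B w ⊓ inF R.S (fun z => B z ⊓ tv C (z ∈ a₃)) w))ᶜ := h8.trans h5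
  exact hZ' (le_bot_iff.1 ((le_inf h11 h12).trans (inf_compl_self _).le))

/-- the complement of `Ev` -/
theorem compl_Ev (R : RSys K Θ C) (e : LP K) (s : BR R) (B : K → C) (v : K) :
    (Ev R e s B v)ᶜ = ⨆ e₂ : VLP R.S, ⨆ _ : rk e₂.1 < R.S.crit v, ⨆ a₃ : Set K,
      ⨆ _ : a₃ ∈ R.S.F v ∧ a₃ ⊆ Iio (R.S.crit v), Yv R e s B e₂.1 a₃ := by
  unfold Ev
  simp only [compl_iInf, compl_compl]

theorem le_mu_Ev (H : Setup K Θ C) (R : RSys K Θ C) {γ δ : Θ} (hγδ : γ < δ) (e : LP K)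
    (s : BR R) (B : K → C) (b : C) (h1 : b ≤ R.μ γ (Cw R e s B)) (h2 : b ≤ R.phi γ B) :
    b ≤ R.μ δ (Ev R e s B) := by
  have hK : ℵ₀ ≤ #K := H.inacc.aleph0_lt.le
  by_contra hcon
  have hb' : b ⊓ (R.μ δ (Ev R e s B))ᶜ ≠ ⊥ := by
    intro h
    exact hcon (by rwa [← disjoint_iff, disjoint_compl_right_iff] at h)
  have h3 : (R.μ δ (Ev R e s B))ᶜ = ⨆ e₂ : VLP R.S, R.μ δ (fun v => ⨆ a₃ : Set K,
      ⨆ _ : a₃ ∈ R.S.F v ∧ a₃ ⊆ Iio (R.S.crit v), Yv R e s B e₂.1 a₃) := by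
    rw [← (R.meas δ).bm.compl]
    rw [← (R.meas δ).diagI_sup (fun e : VLP R.S => rk e.1) (smallRk_VLP H.inacc H.small R.S)]
    congr 1
    funext v
    exact compl_Ev R e s B v
  obtain ⟨e₂, he₂⟩ := exists_inf_ne_bot hb' (inf_le_right.trans h3.le)
  set b₁ := b ⊓ (R.μ δ (Ev R e s B))ᶜ ⊓ R.μ δ (fun v => ⨆ a₃ : Set K,
      ⨆ _ : a₃ ∈ R.S.F v ∧ a₃ ⊆ Iio (R.S.crit v), Yv R e s B e₂.1 a₃) with hb₁
  obtain ⟨B₃, hB₃⟩ := sel hK (R.meas δ) (fun _ a₃ => Yv R e s B e₂.1 a₃)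
  have h4 := sel_inF hK (R.meas δ) (fun _ a₃ => Yv R e s B e₂.1 a₃) B₃
  rw [R.mu_inF] at h4
  have h5 : b₁ ≤ R.μ δ (fun w => ⨆ a, ⨆ _ : a ∈ R.S.F w ∧ a ⊆ Iio (R.S.crit w),
      Yv R e s B e₂.1 a ⊓ eqs B₃ (R.S.crit w) a) := inf_le_right.trans hB₃
  have h6 : b₁ ≤ R.phi δ B₃ := h5.trans h4
  have h7 : b₁ ≤ b := inf_le_left.trans inf_le_left
  have h8 : b₁ ≤ R.phi γ (fun z => B₃ z ⊓ B z) := by
    rw [R.phi_inf hK]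
    exact le_inf (h6.trans (R.phi_anti hγδ.le B₃)) (h7.trans h2)
  obtain ⟨w, _, hw2, hw3⟩ := R.exists_node hK γ he₂ e (h6.trans (R.phi_le_mu hγδ B₃)) h8
    (h7.trans h1) (rk e₂.1)
  set b₂ := b₁ ⊓ B₃ w ⊓ inF R.S (fun z => B₃ z ⊓ B z) w ⊓ Cw R e s B w with hb₂
  have h9 : b₂ ≤ b₁ := (inf_le_left.trans inf_le_left).trans inf_le_left
  have h10 : b₂ ≤ B₃ w := (inf_le_left.trans inf_le_left).trans inf_le_right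
  have h11 : b₂ ≤ inF R.S (fun z => B₃ z ⊓ B z) w := inf_le_left.trans inf_le_right
  have h12 : b₂ ≤ Cw R e s B w := inf_le_right
  have h13 : R.μ δ (fun v => b₂ ⊓ ⨆ a, ⨆ _ : a ∈ R.S.F v ∧ a ⊆ Iio (R.S.crit v),
      Yv R e s B e₂.1 a ⊓ eqs B₃ (R.S.crit v) a) ≤ R.μ δ (fun _ => ⊥) := by
    refine (R.meas δ).bm.mono_ae hK ((R.meas δ).tail w) fun v => ?_
    rw [tv_inf_le_iff]
    intro hwv
    rw [inf_iSup_eq]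
    refine iSup_le fun a₃ => ?_
    rw [inf_iSup_eq]
    refine iSup_le fun _ => ?_
    exact (claim R e s B B₃ e₂.1 hw2 hwv h10 h11 h12).le
  rw [(R.meas δ).bm.const_inf hK, (R.meas δ).bm.bot] at h13
  exact hw3 (le_bot_iff.1 ((le_inf le_rfl (h9.trans h5)).trans h13))

end OSAAux

open OSAAux

theorem os_measure (H : Setup K Θ C) (R : RSys K Θ C) (γ : Θ) (e : LP K) (s : BR R) (B : K → C)
    (b : C) (h1 : b ≤ R.μ γ (Cw R e s B)) (h2 : b ≤ R.phi γ B) : b ≤ R.Phi (AA R e s B) := by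
  have hK : ℵ₀ ≤ #K := H.inacc.aleph0_lt.le
  refine le_iInf fun δ => ?_
  have h3 : R.μ δ (AA R e s B) = R.μ δ (hom1 R s) ⊓
      R.μ δ (fun z => B1 R B z ⊔ Cw R e s B z ⊔ Ev R e s B z) :=
    (R.meas δ).bm.inf hK (hom1 R s) (fun z => B1 R B z ⊔ Cw R e s B z ⊔ Ev R e s B z)
  have h4 : R.μ δ (hom1 R s) = ⊤ := by
    have hu : #Unit < #K := by
      rw [Cardinal.mk_fintype, Fintype.card_unit, Nat.cast_one]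
      exact Cardinal.one_lt_aleph0.trans_le hK
    exact mu_homI H (smallRk_of_small hK hu _) (fun _ => s) δ
  rw [h3, h4, top_inf_eq]
  rcases lt_trichotomy δ γ with hlt | heq | hgt
  · have h5 : b ≤ R.μ δ (B1 R B) := by
      have h6 : R.μ δ (B1 R B) = R.μ δ B ⊓ R.μ δ (fun v => inF R.S B v) :=
        (R.meas δ).bm.inf hK B (fun v => inF R.S B v)
      rw [h6, R.mu_inF]
      exact le_inf (h2.trans (R.phi_le_mu hlt B)) (h2.trans (R.phi_anti hlt.le B))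
    exact h5.trans (R.mu_mono hK δ fun z => le_sup_left.trans le_sup_left)
  · subst heq
    exact h1.trans (R.mu_mono hK δ fun z => le_sup_right.trans le_sup_left)
  · exact (le_mu_Ev H R hgt e s B b h1 h2).trans (R.mu_mono hK δ fun z => le_sup_right)

end Pool.Agent.Lib.WkD
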