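import Pool.Agent.Lib.WkD.Meas

/-!
# The selection lemma

PROOF SKETCH (`sel`). For every w apply exists_disjoint to x : Set K → C,
x a = ⨆ _ : a ∈ F w ∧ a ⊆ Iio (crit w), g w a: there is g' w : Set K → C with g' w a ≤ x a,
g' w a ⊓ g' w a' = ⊥ for a ≠ a', ⨆ a, g' w a = ⨆ a, x a. Put X z = m (w ↦ ⨆ a, ⨆ _ : z ∈ a, g' w a).
For fixed z, m (w ↦ bi (⨆ a, ⨆ _ : z ∈ a, g' w a) (X z)) = ⊤ (BMeas.indep_const). By diag,
N w := ⨅ z, ⨅ _ : z < crit w, bi (⨆ a, ⨆ _ : z ∈ a, g' w a) (X z) satisfies m N = ⊤. Claim: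
N w ⊓ g' w a ≤ eqs X (crit w) a: for z < crit w, if z ∈ a then g' w a ≤ ⨆ a' ∋ z, g' w a', so
N w ⊓ g' w a ≤ X z; if z ∉ a then g' w a ⊓ ⨆ a' ∋ z, g' w a' = ⊥ (disjointness), so
N w ⊓ g' w a ⊓ X z ≤ ⊥ and N w ⊓ g' w a ≤ (X z)ᶜ. Hence
N w ⊓ ⨆ a, ⨆ _ : (..), g w a = N w ⊓ ⨆ a, g' w a ≤ ⨆ a, ⨆ _ : (..), g w a ⊓ eqs X (crit w) a
(g' w a ≤ x a; if a is not in the filter then g' w a ≤ ⊥). Conclude with BMeas.mono_ae.
-/

set_option autoImplicit false

namespace Pool.Agent.Lib.WkD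

open Set Cardinal

variable {K C : Type} [LinearOrder K] [CompleteBooleanAlgebra C] {S : Sys K} {m : (K → C) → C}

theorem sel (hK : ℵ₀ ≤ #K) (h : NormMeas S.crit m) (g : K → Set K → C) : ∃ X : K → C,
    m (fun w => ⨆ a, ⨆ _ : a ∈ S.F w ∧ a ⊆ Iio (S.crit w), g w a) ≤
      m (fun w => ⨆ a, ⨆ _ : a ∈ S.F w ∧ a ⊆ Iio (S.crit w), g w a ⊓ eqs X (S.crit w) a) := by
  have hex : ∀ w : K, ∃ g' : Set K → C,
      (∀ a, g' a ≤ ⨆ _ : a ∈ S.F w ∧ a ⊆ Iio (S.crit w), g w a) ∧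
      (∀ a b, a ≠ b → g' a ⊓ g' b = ⊥) ∧
      (⨆ a, g' a = ⨆ a, ⨆ _ : a ∈ S.F w ∧ a ⊆ Iio (S.crit w), g w a) :=
    fun w => exists_disjoint _
  choose g' h1 h2 h3 using hex
  set T : K → K → C := fun z w => ⨆ a, ⨆ _ : z ∈ a, g' w a with hT
  refine ⟨fun z => m (T z), ?_⟩
  have hN : m (fun w => ⨅ z, ⨅ _ : z < S.crit w, bi (T z w) (m (T z))) = ⊤ := by
    rw [h.diag (fun z w => bi (T z w) (m (T z)))]
    rw [iInf_eq_top]
    intro z
    exact h.bm.indep_const hK (T z)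
  refine h.bm.mono_ae hK hN ?_
  intro w
  rw [← h3 w, inf_iSup_eq]
  refine iSup_le fun a => ?_
  by_cases ha : a ∈ S.F w ∧ a ⊆ Iio (S.crit w)
  · refine le_iSup_of_le a (le_iSup_of_le ha (le_inf ?_ ?_))
    · refine inf_le_right.trans ((h1 w a).trans ?_)
      exact iSup_le fun _ => le_rfl
    · refine le_iInf fun z => le_iInf fun hz => ?_
      have hNz : (⨅ z, ⨅ _ : z < S.crit w, bi (T z w) (m (T z))) ≤ bi (T z w) (m (T z)) :=
        (iInf_le _ z).trans (iInf_le _ hz)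
      by_cases hza : z ∈ a
      · rw [lit_true hza]
        have h4 : g' w a ≤ T z w := le_iSup_of_le a (le_iSup_of_le hza le_rfl)
        calc (⨅ z, ⨅ _ : z < S.crit w, bi (T z w) (m (T z))) ⊓ g' w a
            ≤ (T z w ⇨ m (T z)) ⊓ T z w := inf_le_inf (hNz.trans inf_le_left) h4
          _ ≤ m (T z) := himp_inf_le
      · rw [lit_false hza, le_compl_iff_disjoint_right, disjoint_iff_inf_le]
        have h4 : g' w a ⊓ T z w ≤ ⊥ := by
          rw [hT]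
          simp only
          rw [inf_iSup_eq]
          refine iSup_le fun b => ?_
          rw [inf_iSup_eq]
          refine iSup_le fun hb => ?_
          rw [h2 w a b (fun hab => hza (hab ▸ hb))]
        calc ((⨅ z, ⨅ _ : z < S.crit w, bi (T z w) (m (T z))) ⊓ g' w a) ⊓ m (T z)
            ≤ ((m (T z) ⇨ T z w) ⊓ g' w a) ⊓ m (T z) :=
              inf_le_inf (inf_le_inf (hNz.trans inf_le_right) le_rfl) le_rfl
          _ = g' w a ⊓ ((m (T z) ⇨ T z w) ⊓ m (T z)) := by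
              rw [inf_comm (m (T z) ⇨ T z w) (g' w a), inf_assoc]
          _ ≤ g' w a ⊓ T z w := inf_le_inf le_rfl himp_inf_le
          _ ≤ ⊥ := h4
  · have h5 : g' w a ≤ ⊥ := (h1 w a).trans (iSup_le fun h6 => absurd h6 ha)
    exact (inf_le_right.trans h5).trans bot_le

/-- the selected set is in the filter almost everywhere -/
theorem sel_inF (hK : ℵ₀ ≤ #K) (h : NormMeas S.crit m) (g : K → Set K → C) (X : K → C) :
    m (fun w => ⨆ a, ⨆ _ : a ∈ S.F w ∧ a ⊆ Iio (S.crit w), g w a ⊓ eqs X (S.crit w) a) ≤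
      m (fun w => inF S X w) := by
  refine h.bm.mono hK fun w => ?_
  refine iSup_le fun a => iSup_le fun ha => ?_
  refine le_iSup_of_le a (le_iSup_of_le ha.1 ?_)
  refine le_iInf fun z => le_iInf fun hz => ?_
  refine inf_le_right.trans (((iInf_le _ z).trans (iInf_le _ (ha.2 hz))).trans ?_)
  rw [lit_true hz]

end Pool.Agent.Lib.WkD
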