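import Pool.Agent.Lib.WkD.Homog
import Pool.Agent.Lib.WkD.Sel

/-!
# Definitions for the one step lemma
-/

set_option autoImplicit false

namespace Pool.Agent.Lib.WkD

open Set Cardinal

variable {K Θ C : Type} [LinearOrder K] [OrderBot K] [LinearOrder Θ] [CompleteBooleanAlgebra C]

/-- the node `w` with the set named by `B` can be put on top of `e` so that `s` is forced -/
noncomputable def Cw (R : RSys K Θ C) (e : LP K) (s : BR R) (B : K → C) (w : K) : C :=
  ⨆ a : Set K, ⨆ _ : Valid R.S ((w, a) :: e),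
    dd R ((w, a) :: e) s ⊓ eqs B (R.S.crit w) a

/-- `v` is in `B` and `B` is in the filter of `v` -/
noncomputable def B1 (R : RSys K Θ C) (B : K → C) (v : K) : C := B v ⊓ inF R.S B v

/-- complement of the property of `v` in `Ev` for one set and one lower part -/
noncomputable def Yv (R : RSys K Θ C) (e : LP K) (s : BR R) (B : K → C) (e₂ : LP K)
    (a₃ : Set K) : C :=
  (⨆ w : K, ⨆ _ : w ∈ a₃ ∧ rk e₂ < R.S.crit w,
    (Cw R e s B w ⊓ inF R.S (fun z => B z ⊓ tv C (z ∈ a₃)) w))ᶜ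

/-- the nodes `w` as in `Cw` are positive for the filter of `v` -/
noncomputable def Ev (R : RSys K Θ C) (e : LP K) (s : BR R) (B : K → C) (v : K) : C :=
  ⨅ e₂ : VLP R.S, ⨅ _ : rk e₂.1 < R.S.crit v, ⨅ a₃ : Set K,
    ⨅ _ : a₃ ∈ R.S.F v ∧ a₃ ⊆ Iio (R.S.crit v), (Yv R e s B e₂.1 a₃)ᶜ

/-- homogenizing set for one element -/
noncomputable def hom1 (R : RSys K Θ C) (s : BR R) (z : K) : C :=
  homI R (fun _ : Unit => (⊥ : K)) (fun _ => s) z

/-- the set used in the one step lemma -/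
noncomputable def AA (R : RSys K Θ C) (e : LP K) (s : BR R) (B : K → C) (z : K) : C :=
  hom1 R s z ⊓ (B1 R B z ⊔ Cw R e s B z ⊔ Ev R e s B z)

end Pool.Agent.Lib.WkD
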