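import Pool.Agent.Lib.WkD.Nxt
import Pool.Agent.Lib.WkD.Twist

/-!
# Both options give the same value for sets which do not depend on the bit

PROOF of `opt_val`. Write val e t w = ⨆ n, eqv S D w n ⊓ Ψ w e n t and
T x := ⨆ w, uv S φ x w ⊓ val S D Ψ e t w. Next S φ (mtw π m ζ) (val ..) = m (x ↦ π ζ (kx x) (T x)) and Next S φ m
(val ..) = m T, so by congr_ae it is enough: N x ≤ bi (π ζ (kx x) (T x)) (T x) with m N = ⊤, where
N x := (⨅ X, ⨅ _ : inr X ∈ x, bi (π (φ X)) (φ X)) ⊓ (⨅ z, ⨅ _ : z < kx x, ⨅ X, ⨅ _ : inr X ∈ x, bi (π (X z)) (X z))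
⊓ ⨅ i : II S, ⨅ _ : rI S i < kx x, bi (π (D i)) (D i), with π = π ζ (kx x). m N = ⊤ by twist_inv for each
constant, normal_inr, diag and diagI of normMeas_kx (the rank rI S has small fibers: smallRk_sum,
smallRk_prod, smallRk_id, smallRk_VLP).
For fixed x and u : C the set Cl u := {c | u ≤ bi (π c) c} contains tv p, and all c with π c = c, is closed
under complements (bi_compl), arbitrary suprema (le_bi_iSup) and infima, ⊓, lit. With u = N x: φ X and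
X z for inr X ∈ x, z < kx x are in Cl u, so Fv φ x Z ∈ Cl u and uv S φ x w ∈ Cl u. For w with crit w = kx x:
D i ∈ Cl u for rI S i < crit w, so eqv S D w n ∈ Cl u; Ψ w e n t ∈ Cl u by hinv. For w with crit w ≠ kx x the
term uv S φ x w ⊓ .. is ⊥ (uv_crit). So T x ∈ Cl u.
PROOF of `opt_bit`. By next_crit for m and for mtw π m ζ (NMeas by nmeas_mtw) the two sides are
m (x ↦ π ζ (kx x) (bit ζ (kx x))) and (m (x ↦ bit ζ (kx x)))ᶜ; use Flip.bit.
-/

set_option autoImplicit false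

namespace Pool.Agent.Lib.WkD

open Set Cardinal

variable {K C : Type} [LinearOrder K] [OrderBot K] [WellFoundedLT K] [CompleteBooleanAlgebra C]
  {m : (Pk (#K) (HH K C) → C) → C} {S : Sys K} {φ : (K → C) → C}
  {Z : Type} {bit : Z → K → C} {π : Z → K → C → C}

namespace OptAAux

theorem cl_compl (h : Flip bit π) (ζ : Z) (α : K) {u c : C} (hc : u ≤ bi (π ζ α c) c) :
    u ≤ bi (π ζ α cᶜ) cᶜ := by
  rw [h.compl, bi_compl]
  exact hc

theorem cl_iSup (h : Flip bit π) (ζ : Z) (α : K) {ι : Sort*} {u : C} {f : ι → C}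
    (hf : ∀ i, u ≤ bi (π ζ α (f i)) (f i)) : u ≤ bi (π ζ α (⨆ i, f i)) (⨆ i, f i) := by
  rw [h.iSup]
  exact (le_iInf hf).trans (le_bi_iSup _ _)

theorem cl_iInf (h : Flip bit π) (ζ : Z) (α : K) {ι : Sort*} {u : C} {f : ι → C}
    (hf : ∀ i, u ≤ bi (π ζ α (f i)) (f i)) : u ≤ bi (π ζ α (⨅ i, f i)) (⨅ i, f i) := by
  rw [h.iInf]
  exact (le_iInf hf).trans (le_bi_iInf _ _)

theorem cl_inf (h : Flip bit π) (ζ : Z) (α : K) {u a b : C} (ha : u ≤ bi (π ζ α a) a)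
    (hb : u ≤ bi (π ζ α b) b) : u ≤ bi (π ζ α (a ⊓ b)) (a ⊓ b) := by
  rw [h.inf]
  rw [le_bi_iff] at ha hb ⊢
  constructor
  · exact le_inf ((inf_le_inf_left _ inf_le_left).trans ha.1)
      ((inf_le_inf_left _ inf_le_right).trans hb.1)
  · exact le_inf ((inf_le_inf_left _ inf_le_left).trans ha.2)
      ((inf_le_inf_left _ inf_le_right).trans hb.2)

theorem cl_fix (ζ : Z) (α : K) {u c : C} (hc : π ζ α c = c) : u ≤ bi (π ζ α c) c := by
  rw [hc, bi_self]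
  exact le_top

theorem cl_lit (h : Flip bit π) (ζ : Z) (α : K) {u c : C} (p : Prop)
    (hc : u ≤ bi (π ζ α c) c) : u ≤ bi (π ζ α (lit p c)) (lit p c) := by
  by_cases hp : p
  · rw [lit_true hp]
    exact hc
  · rw [lit_false hp]
    exact cl_compl h ζ α hc

end OptAAux

open OptAAux

theorem smallRk_rI (hK : (#K).IsInaccessible) (hs : ∀ a : K, #(Iio a) < #K) (S : Sys K) :
    SmallRk (rI S) := by
  have hκ := hK.isRegular.aleph0_le
  exact smallRk_sum hκ (smallRk_prod hκ (smallRk_id hκ hs) (smallRk_VLP hK hs S))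
    (smallRk_id hκ hs)

theorem opt_val (hK : (#K).IsInaccessible) (hs : ∀ a : K, #(Iio a) < #K)
    (hd : Distr (#K) C) (hS : FullSys S) (hm : NMeas (#K) (HH K C) C m) (hφ : PhiOK S φ)
    (h : Flip bit π) (ζ : Z) (D : II S → C) (Ψ : (w : K) → VLP S → Nm S w → Bool → C)
    (hinv : ∀ w e n t α, π ζ α (Ψ w e n t) = Ψ w e n t) (e : VLP S) (t : Bool) :
    Next S φ (mtw π m ζ) (fun w => val S D Ψ e t w) = Next S φ m (fun w => val S D Ψ e t w) := by
  have hκ := hK.isRegular.aleph0_le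
  have hn := normMeas_kx hκ hs hm
  let N1 : Pk (#K) (HH K C) → C := fun x =>
    ⨅ X : K → C, ⨅ _ : (Sum.inr X : HH K C) ∈ x.1, bi (π ζ (kx x) (φ X)) (φ X)
  let N2 : Pk (#K) (HH K C) → C := fun x =>
    ⨅ z, ⨅ _ : z < kx x, ⨅ X : K → C, ⨅ _ : (Sum.inr X : HH K C) ∈ x.1,
      bi (π ζ (kx x) (X z)) (X z)
  let N3 : Pk (#K) (HH K C) → C := fun x =>
    ⨅ i : II S, ⨅ _ : rI S i < kx x, bi (π ζ (kx x) (D i)) (D i)
  have h1 : m N1 = ⊤ := by
    have h2 := normal_inr hm (fun X x => bi (π ζ (kx x) (φ X)) (φ X))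
    rw [show m N1 = _ from h2]
    rw [iInf_eq_top]
    intro X
    exact twist_inv hκ hs hm h ζ (φ X)
  have h2 : m N2 = ⊤ := by
    have h3 := hn.diag (fun z x => ⨅ X : K → C, ⨅ _ : (Sum.inr X : HH K C) ∈ x.1,
      bi (π ζ (kx x) (X z)) (X z))
    rw [show m N2 = _ from h3]
    rw [iInf_eq_top]
    intro z
    have h4 := normal_inr hm (fun X x => bi (π ζ (kx x) (X z)) (X z))
    refine h4.trans ?_
    rw [iInf_eq_top]
    intro X
    exact twist_inv hκ hs hm h ζ (X z)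
  have h3 : m N3 = ⊤ := by
    have h4 := hn.diagI (rI S) (smallRk_rI hK hs S) (fun i x => bi (π ζ (kx x) (D i)) (D i))
    rw [show m N3 = _ from h4]
    rw [iInf_eq_top]
    intro i
    exact twist_inv hκ hs hm h ζ (D i)
  have hN : m (fun x => (N1 x ⊓ N2 x) ⊓ N3 x) = ⊤ := by
    rw [hm.bm.inf hκ (fun x => N1 x ⊓ N2 x) N3, hm.bm.inf hκ N1 N2, h1, h2, h3]
    simp
  show m (fun x => π ζ (kx x) (⨆ w, uv S φ x w ⊓ val S D Ψ e t w)) =
    m (fun x => ⨆ w, uv S φ x w ⊓ val S D Ψ e t w)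
  refine hm.bm.congr_ae hκ hN fun x => ?_
  have hu1 : ∀ X : K → C, (Sum.inr X : HH K C) ∈ x.1 →
      N1 x ⊓ N2 x ⊓ N3 x ≤ bi (π ζ (kx x) (φ X)) (φ X) := fun X hX =>
    (inf_le_left.trans inf_le_left).trans ((iInf_le _ X).trans (iInf_le _ hX))
  have hu2 : ∀ X : K → C, (Sum.inr X : HH K C) ∈ x.1 → ∀ z, z < kx x →
      N1 x ⊓ N2 x ⊓ N3 x ≤ bi (π ζ (kx x) (X z)) (X z) := fun X hX z hz =>
    (inf_le_left.trans inf_le_right).trans ((iInf_le _ z).trans ((iInf_le _ hz).trans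
      ((iInf_le _ X).trans (iInf_le _ hX))))
  have hu3 : ∀ i : II S, rI S i < kx x →
      N1 x ⊓ N2 x ⊓ N3 x ≤ bi (π ζ (kx x) (D i)) (D i) := fun i hi =>
    inf_le_right.trans ((iInf_le _ i).trans (iInf_le _ hi))
  have hFv : ∀ Y : Set K, N1 x ⊓ N2 x ⊓ N3 x ≤ bi (π ζ (kx x) (Fv φ x Y)) (Fv φ x Y) := by
    intro Y
    refine cl_iSup h ζ _ fun A => cl_iSup h ζ _ fun hA => cl_inf h ζ _ (hu1 A hA) ?_
    exact cl_iInf h ζ _ fun z => cl_iInf h ζ _ fun hz => cl_compl h ζ _ (hu2 A hA z hz.1)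
  refine cl_iSup h ζ _ fun w => ?_
  by_cases hw : S.crit w = kx x
  · refine cl_inf h ζ _ (cl_inf h ζ _ (cl_fix ζ _ (h.tv ζ _ _)) ?_) ?_
    · exact cl_iInf h ζ _ fun Y => cl_iInf h ζ _ fun _ => cl_lit h ζ _ _ (hFv Y)
    · refine cl_iSup h ζ _ fun n => cl_inf h ζ _ ?_ (cl_fix ζ _ (hinv w e n t _))
      exact cl_iInf h ζ _ fun i => cl_lit h ζ _ _ (hu3 i.1 (hw ▸ i.2))
  · have h4 : uv S φ x w ⊓ val S D Ψ e t w = tv C False := by
      rw [tv_false not_false, ← le_bot_iff]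
      refine inf_le_left.trans ((uv_crit x w).trans ?_)
      rw [tv_false hw]
    rw [h4]
    exact cl_fix ζ _ (h.tv ζ _ _)

theorem opt_bit (hK : (#K).IsInaccessible) (hs : ∀ a : K, #(Iio a) < #K)
    (hd : Distr (#K) C) (hS : FullSys S) (hm : NMeas (#K) (HH K C) C m) (hφ : PhiOK S φ)
    (h : Flip bit π) (ζ : Z) :
    Next S φ (mtw π m ζ) (fun w => bit ζ (S.crit w)) =
      (Next S φ m (fun w => bit ζ (S.crit w)))ᶜ := by
  have hκ := hK.isRegular.aleph0_le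
  rw [next_crit hK hs hd hS (nmeas_mtw hκ hs hm h ζ) hφ (bit ζ),
    next_crit hK hs hd hS hm hφ (bit ζ)]
  rw [← hm.bm.compl]
  show m (fun x => π ζ (kx x) (bit ζ (kx x))) = _
  have h1 : (fun x : Pk (#K) (HH K C) => π ζ (kx x) (bit ζ (kx x))) =
      fun x => (bit ζ (kx x))ᶜ := by
    funext x
    exact h.bit ζ (kx x)
  rw [h1]

end Pool.Agent.Lib.WkD
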