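import Pool.Agent.Lib.WkD.CDefs

/-!
# Cohen conditions, sequences of options, and the product
-/

set_option autoImplicit false

namespace Pool.Agent.Lib.WkD

open Set Cardinal

/-- every chain of conditions indexed by a type of size `< κ` has a lower bound -/
def ChainClosed (κ : Cardinal.{0}) (P : Type) [Preorder P] : Prop :=
  ∀ (T : Type) (f : T → P), #T < κ → (∀ a b, f a ≤ f b ∨ f b ≤ f a) → ∃ q, ∀ a, q ≤ f a

/-- every antichain has size `≤ κ` -/
def CCle (κ : Cardinal.{0}) (P : Type) [Preorder P] : Prop :=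
  ∀ s : Set P, (∀ p ∈ s, ∀ q ∈ s, p ≠ q → ¬ ∃ r, r ≤ p ∧ r ≤ q) → #s ≤ κ

/-- partial functions from `J` to `Bool` with domain of size `< κ` -/
def AddC (κ : Cardinal.{0}) (J : Type) := {p : J → Option Bool // #{i // p i ≠ none} < κ}

instance (κ : Cardinal.{0}) (J : Type) : PartialOrder (AddC κ J) where
  le q p := ∀ i, p.1 i ≠ none → q.1 i = p.1 i
  le_refl p i _ := rfl
  le_trans r q p h1 h2 i hi := by
    rw [← h2 i hi]
    exact h1 i (by rw [h2 i hi]; exact hi)
  le_antisymm p q h1 h2 := by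
    apply Subtype.ext
    funext i
    by_cases hp : p.1 i = none
    · by_cases hq : q.1 i = none
      · rw [hp, hq]
      · exact h1 i hq
    · exact (h2 i hp).symm

/-- the name of the generic bit at `i` -/
noncomputable def bitA {κ : Cardinal.{0}} {J : Type} (i : J) : ROP (AddC κ J) :=
  ⨆ p : AddC κ J, ⨆ _ : p.1 i = some true, em p

/-- sequences of options with a length in `Θ` -/
structure Qs (Θ Z : Type) where
  len : Θ
  t : Θ → Option Z

instance (Θ Z : Type) [LinearOrder Θ] : Preorder (Qs Θ Z) where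
  le q p := p.len ≤ q.len ∧ ∀ δ, δ < p.len → q.t δ = p.t δ
  le_refl p := ⟨le_rfl, fun _ _ => rfl⟩
  le_trans r q p h1 h2 := ⟨h2.1.trans h1.1, fun δ hδ => by
    rw [h1.2 δ (hδ.trans_le h2.1), h2.2 δ hδ]⟩

section product

variable {P₀ Q : Type} [Preorder P₀] [Preorder Q]

/-- the embedding of the algebra of the first factor -/
noncomputable def jj (c : ROP P₀) : ROP (P₀ × Q) := ⨆ x : P₀ × Q, ⨆ _ : em x.1 ≤ c, em x

/-- `h` decides the element `X` of the algebra of the product to be `Y`. -/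
def Dc (h : Q) (X : ROP (P₀ × Q)) (Y : ROP P₀) : Prop :=
  ∀ (p : P₀) (h' : Q), h' ≤ h → (em (p, h') ≤ X ↔ em p ≤ Y)

end product

section glue

variable {K Θ Z P₀ : Type} [LinearOrder K] [WellFoundedLT K] [LinearOrder Θ] [WellFoundedLT Θ]
  [Preorder P₀]

/-- the measures with values in the algebra of the product -/
noncomputable def gmu (S : Sys K) (π : Z → K → ROP P₀ → ROP P₀)
    (m : (Pk (#K) (HH K (ROP P₀)) → ROP P₀) → ROP P₀) (β : Θ)
    (X : K → ROP (P₀ × Qs Θ Z)) : ROP (P₀ × Qs Θ Z) :=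
  ⨆ x : P₀ × Qs Θ Z, ⨆ _ : β < x.2.len ∧ ∃ Y : K → ROP P₀,
    (∀ z, Dc x.2 (X z) (Y z)) ∧ em x.1 ≤ seqm S π m x.2.t β Y, em x

/-- general assumptions for the construction -/
structure Base (Θ : Type) [LinearOrder Θ] (S : Sys K) (bit : Z → K → ROP P₀)
    (π : Z → K → ROP P₀ → ROP P₀) (m : (Pk (#K) (HH K (ROP P₀)) → ROP P₀) → ROP P₀) :
    Prop where
  inacc : (#K).IsInaccessible
  small : ∀ a : K, #(Iio a) < #K
  ne : Nonempty P₀
  neΘ : Nonempty Θ
  iioΘ : ∀ t : Θ, #(Iio t) ≤ #K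
  bdd : ∀ (T : Type) (f : T → Θ), #T ≤ #K → ∃ t, ∀ a, f a < t
  chain : ChainClosed (#K) P₀
  cc : CCle (#K) P₀
  distr : Distr (#K) (ROP P₀)
  full : FullSys S
  nm : NMeas (#K) (HH K (ROP P₀)) (ROP P₀) m
  flip : Flip bit π

end glue

end Pool.Agent.Lib.WkD
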