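import Pool.Agent.Lib.WkD.Cnt

/-!
# Basic facts on measure sequences

PROOF SKETCH. All statements follow from the definitions of phi and Phi (infima of the measures
R.μ δ, which are BMeas by R.meas δ), Meas.lean and r3.
* phi_inf, Phi_inf: BMeas.inf under the infimum (iInf_inf_eq).
* Phi_const: R.μ δ (fun _ => b) = b; Θ is nonempty.
* Phi_himp: R.μ δ (b ⇨ X) = b ⇨ R.μ δ X = ⊤ if b ≤ R.Phi X (BMeas.const_himp).
* mu_inF: r3 (definition of phi).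
* exists_node: the measure R.μ γ of the infimum of the four sets is ≥ b (BMeas.inf, mu_inF,
  tail), so BMeas.exists_point.
* PP_mono, dd_mono: iSup_mono and le_trans. le_dd: le_iSup_of_le. exists_of_dd: b ⊓ p.b ≠ ⊥ for some
  p with p.e = e, em p ≤ s (exists_inf_ne_bot twice); take (b ⊓ p.b, e, p.A) ≤ p.
* dd_inf_compl: otherwise there are conditions p, q with p.e = q.e = e, em p ≤ s, em q ≤ sᶜ,
  p.b ⊓ q.b ≠ ⊥; r = (p.b ⊓ q.b, e, p.A ⊓ q.A) is a condition (Phi_inf) below both (Ext.refl);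
  not_em_compl.
* em_le_iota: (←) le_iSup. (→) if p.b ≤ c fails let p' = (p.b ⊓ cᶜ, p.e, p.A) ≤ p; em p' ≤ iota c, so by
  exists_em_iSup (twice, for the two suprema) there are q ≤ p' and r with r.b ≤ c, em q ≤ em r;
  compat_of gives t ≤ q, r, so t.b ≤ c and t.b ≤ cᶜ, t.b = ⊥, contradiction with t.ne.
  dd_iota: for p in the supremum em p ≤ iota c gives p.b ≤ c. iota_compl: em p ≤ (iota c)ᶜ iff no q ≤ p
  has q.b ≤ c iff p.b ≤ cᶜ (as before) and le_of_em in both directions. iota_iInf: em p ≤ both sides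
  iff p.b ≤ c i for all i; le_of_em.
-/

set_option autoImplicit false

namespace Pool.Agent.Lib.WkD

open Set Cardinal

variable {K Θ C : Type} [LinearOrder K] [OrderBot K] [LinearOrder Θ] [CompleteBooleanAlgebra C]

namespace RSys

variable (R : RSys K Θ C)

theorem mu_inF (γ : Θ) (X : K → C) : R.μ γ (fun w => inF R.S X w) = R.phi γ X := R.r3 γ X

theorem mu_mono (hK : ℵ₀ ≤ #K) (γ : Θ) {X Y : K → C} (h : ∀ z, X z ≤ Y z) :
    R.μ γ X ≤ R.μ γ Y := (R.meas γ).bm.mono hK h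

theorem phi_mono (hK : ℵ₀ ≤ #K) (γ : Θ) {X Y : K → C} (h : ∀ z, X z ≤ Y z) :
    R.phi γ X ≤ R.phi γ Y :=
  iInf_mono fun δ => iInf_mono fun _ => R.mu_mono hK δ h

theorem phi_anti {γ γ' : Θ} (h : γ ≤ γ') (X : K → C) : R.phi γ' X ≤ R.phi γ X :=
  le_iInf fun δ => le_iInf fun hδ => iInf_le_of_le δ (iInf_le _ (hδ.trans_le h))

theorem phi_le_mu {δ γ : Θ} (h : δ < γ) (X : K → C) : R.phi γ X ≤ R.μ δ X :=
  iInf_le_of_le δ (iInf_le _ h)

theorem Phi_le_mu (γ : Θ) (X : K → C) : R.Phi X ≤ R.μ γ X :=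
  iInf_le _ γ

theorem Phi_le_phi (γ : Θ) (X : K → C) : R.Phi X ≤ R.phi γ X :=
  le_iInf fun δ => le_iInf fun _ => iInf_le _ δ

theorem phi_inf (hK : ℵ₀ ≤ #K) (γ : Θ) (X Y : K → C) :
    R.phi γ (fun z => X z ⊓ Y z) = R.phi γ X ⊓ R.phi γ Y := by
  have h1 : ∀ δ, R.μ δ (fun z => X z ⊓ Y z) = R.μ δ X ⊓ R.μ δ Y := fun δ =>
    (R.meas δ).bm.inf hK X Y
  show (⨅ δ, ⨅ _ : δ < γ, R.μ δ (fun z => X z ⊓ Y z)) =
    (⨅ δ, ⨅ _ : δ < γ, R.μ δ X) ⊓ ⨅ δ, ⨅ _ : δ < γ, R.μ δ Y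
  simp only [h1, iInf_inf_eq]

theorem Phi_inf (hK : ℵ₀ ≤ #K) (X Y : K → C) :
    R.Phi (fun z => X z ⊓ Y z) = R.Phi X ⊓ R.Phi Y := by
  have h1 : ∀ δ, R.μ δ (fun z => X z ⊓ Y z) = R.μ δ X ⊓ R.μ δ Y := fun δ =>
    (R.meas δ).bm.inf hK X Y
  show (⨅ δ, R.μ δ (fun z => X z ⊓ Y z)) = (⨅ δ, R.μ δ X) ⊓ ⨅ δ, R.μ δ Y
  simp only [h1, iInf_inf_eq]

theorem Phi_mono (hK : ℵ₀ ≤ #K) {X Y : K → C} (h : ∀ z, X z ≤ Y z) : R.Phi X ≤ R.Phi Y :=
  iInf_mono fun δ => R.mu_mono hK δ h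

theorem Phi_const (h : Nonempty Θ) (b : C) : R.Phi (fun _ => b) = b := by
  show (⨅ δ, R.μ δ (fun _ => b)) = b
  have h1 : ∀ δ, R.μ δ (fun _ => b) = b := fun δ => (R.meas δ).bm.const b
  simp only [h1]
  exact iInf_const

theorem Phi_himp (hK : ℵ₀ ≤ #K) {b : C} {X : K → C} (h : b ≤ R.Phi X) :
    R.Phi (fun z => b ⇨ X z) = ⊤ := by
  show (⨅ δ, R.μ δ (fun z => b ⇨ X z)) = ⊤
  rw [iInf_eq_top]
  intro δ
  rw [(R.meas δ).bm.const_himp hK, himp_eq_top_iff]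
  exact h.trans (R.Phi_le_mu δ X)

theorem Phi_eq_top {X : K → C} (h : ∀ γ, R.μ γ X = ⊤) : R.Phi X = ⊤ :=
  iInf_eq_top.2 h

theorem phi_eq_top {X : K → C} (γ : Θ) (h : ∀ γ, R.μ γ X = ⊤) : R.phi γ X = ⊤ :=
  iInf_eq_top.2 fun δ => iInf_eq_top.2 fun _ => h δ

/-- tails have measure one -/
theorem Phi_tail (ξ : K) : R.Phi (fun w => tv C (ξ < R.S.crit w)) = ⊤ :=
  R.Phi_eq_top fun γ => (R.meas γ).tail ξ

/-- a node for a given condition -/
theorem exists_node (hK : ℵ₀ ≤ #K) (γ : Θ) {b : C} (hb : b ≠ ⊥) (e : LP K) {X Y W : K → C}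
    (hX : b ≤ R.μ γ X) (hY : b ≤ R.phi γ Y) (hW : b ≤ R.μ γ W) (ξ : K) :
    ∃ w, rk e < R.S.crit w ∧ ξ < R.S.crit w ∧ b ⊓ X w ⊓ inF R.S Y w ⊓ W w ≠ ⊥ := by
  have h1 : b ≤ R.μ γ (fun w => tv C (max (rk e) ξ < R.S.crit w) ⊓
      (X w ⊓ (inF R.S Y w ⊓ W w))) := by
    rw [(R.meas γ).bm.inf hK (fun w => tv C (max (rk e) ξ < R.S.crit w))
      (fun w => X w ⊓ (inF R.S Y w ⊓ W w)), (R.meas γ).tail,
      (R.meas γ).bm.inf hK X (fun w => inF R.S Y w ⊓ W w),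
      (R.meas γ).bm.inf hK (fun w => inF R.S Y w) W, R.mu_inF, top_inf_eq]
    exact le_inf hX (le_inf hY hW)
  obtain ⟨w, hw⟩ := (R.meas γ).bm.exists_point hK hb h1
  by_cases hp : max (rk e) ξ < R.S.crit w
  · rw [tv_true hp, top_inf_eq] at hw
    refine ⟨w, (le_max_left _ _).trans_lt hp, (le_max_right _ _).trans_lt hp, ?_⟩
    rw [inf_assoc, inf_assoc]
    exact hw
  · rw [tv_false hp, bot_inf_eq, inf_bot_eq] at hw
    exact absurd rfl hw

end RSys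

variable {R : RSys K Θ C}

namespace RBasicAux

/-- restrict a condition to a smaller Boolean value -/
def restr (p : Cond R) (c : C) (hc : c ≠ ⊥) (h : c ≤ p.b) : Cond R :=
  ⟨c, p.e, p.A, hc, p.val, h.trans p.le⟩

theorem restr_le (p : Cond R) (c : C) (hc : c ≠ ⊥) (h : c ≤ p.b) : restr p c hc h ≤ p :=
  ⟨h, Ext.refl _ _, fun _ => inf_le_right⟩

end RBasicAux

theorem PP_mono (e : LP K) {s t : BR R} (h : s ≤ t) (w : K) : PP R e s w ≤ PP R e t w := by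
  exact iSup_mono fun a => iSup_mono fun _ => iSup_mono fun p =>
    iSup_mono' fun hp => ⟨⟨hp.1, hp.2.trans h⟩, le_rfl⟩

theorem dd_mono (e : LP K) {s t : BR R} (h : s ≤ t) : dd R e s ≤ dd R e t := by
  exact iSup_mono fun p => iSup_mono' fun hp => ⟨⟨hp.1, hp.2.trans h⟩, le_rfl⟩

theorem le_dd (p : Cond R) {s : BR R} (h : em p ≤ s) : p.b ≤ dd R p.e s :=
  le_iSup_of_le p (le_iSup_of_le ⟨rfl, h⟩ le_rfl)

/-- below any nonzero part of `dd` there is a condition -/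
theorem exists_of_dd {e : LP K} {s : BR R} {b : C} (hb : b ≠ ⊥) (h : b ≤ dd R e s) :
    ∃ p : Cond R, p.e = e ∧ p.b ≤ b ∧ em p ≤ s := by
  obtain ⟨p, hp⟩ := exists_inf_ne_bot hb h
  have h1 : p.e = e ∧ em p ≤ s := by
    by_contra hcon
    apply hp
    rw [iSup_neg hcon, inf_bot_eq]
  rw [iSup_pos h1] at hp
  refine ⟨RBasicAux.restr p (b ⊓ p.b) hp inf_le_right, h1.1, inf_le_left, ?_⟩
  exact (em_mono (RBasicAux.restr_le p (b ⊓ p.b) hp inf_le_right)).trans h1.2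

theorem dd_inf_compl (hK : ℵ₀ ≤ #K) (e : LP K) (s : BR R) : dd R e s ⊓ dd R e sᶜ = ⊥ := by
  by_contra hcon
  obtain ⟨p, hp1, hp2, hp3⟩ := exists_of_dd hcon (inf_le_left : dd R e s ⊓ dd R e sᶜ ≤ dd R e s)
  obtain ⟨q, hq1, hq2, hq3⟩ := exists_of_dd p.ne (hp2.trans inf_le_right)
  have hA : q.b ≤ R.Phi (fun z => p.A z ⊓ q.A z) := by
    rw [R.Phi_inf hK]
    exact le_inf (hq2.trans p.le) q.le
  obtain ⟨r, hr1, hr2, hr3⟩ : ∃ r : Cond R, r.b = q.b ∧ r.e = q.e ∧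
      r.A = fun z => p.A z ⊓ q.A z := ⟨⟨q.b, q.e, _, q.ne, q.val, hA⟩, rfl, rfl, rfl⟩
  have h1 : r ≤ p := by
    refine ⟨hr1 ▸ hq2, ?_, fun z => ?_⟩
    · rw [hr2, hq1, ← hp1]
      exact Ext.refl _ _
    · rw [hr3]
      exact inf_le_right.trans inf_le_left
  have h2 : r ≤ q := by
    refine ⟨hr1.le, ?_, fun z => ?_⟩
    · rw [hr2]
      exact Ext.refl _ _
    · rw [hr3]
      exact inf_le_right.trans inf_le_right
  apply em_ne_bot r
  rw [← le_bot_iff, ← inf_compl_self s]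
  exact le_inf ((em_mono h1).trans hp3) ((em_mono h2).trans hq3)

theorem em_le_iota {p : Cond R} {c : C} : em p ≤ iota R c ↔ p.b ≤ c := by
  constructor
  · intro h
    by_contra hcon
    have h1 : p.b ⊓ cᶜ ≠ ⊥ := by
      intro h2
      exact hcon (by rwa [← disjoint_iff, disjoint_compl_right_iff] at h2)
    have h2 := (em_mono (RBasicAux.restr_le p (p.b ⊓ cᶜ) h1 inf_le_left)).trans h
    obtain ⟨q, hq, r, hr⟩ := exists_em_iSup h2
    obtain ⟨q', hq', hrc, hr'⟩ := exists_em_iSup hr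
    have h3 : em q' ⊓ em r ≠ ⊥ := by
      rw [inf_eq_left.2 hr']
      exact em_ne_bot q'
    obtain ⟨t, ht1, ht2⟩ := compat_of h3
    apply t.ne
    rw [← le_bot_iff, ← inf_compl_self c]
    refine le_inf (ht2.1.trans hrc) ?_
    exact (ht1.trans (hq'.trans hq)).1.trans inf_le_right
  · intro h
    exact le_iSup_of_le p (le_iSup_of_le h le_rfl)

theorem dd_iota (e : LP K) (c : C) : dd R e (iota R c) ≤ c :=
  iSup_le fun _ => iSup_le fun hp => em_le_iota.1 hp.2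

theorem iota_compl (c : C) : iota R cᶜ = (iota R c)ᶜ := by
  apply le_antisymm
  · apply le_of_em
    intro p hp
    refine ⟨p, le_rfl, ?_⟩
    rw [le_compl_iff_disjoint_right, disjoint_iff]
    by_contra hcon
    obtain ⟨q, hq1, hq2⟩ := exists_em_le hcon
    apply q.ne
    rw [← le_bot_iff, ← inf_compl_self c]
    exact le_inf (em_le_iota.1 hq2) (hq1.1.trans (em_le_iota.1 hp))
  · apply le_of_em
    intro p hp
    refine ⟨p, le_rfl, em_le_iota.2 ?_⟩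
    rw [le_compl_iff_disjoint_right, disjoint_iff]
    by_contra hcon
    apply em_ne_bot (RBasicAux.restr p (p.b ⊓ c) hcon inf_le_left)
    rw [← le_bot_iff, ← inf_compl_self (iota R c)]
    refine le_inf (em_le_iota.2 inf_le_right) ?_
    exact (em_mono (RBasicAux.restr_le p (p.b ⊓ c) hcon inf_le_left)).trans hp

theorem iota_iInf {ι : Sort*} (c : ι → C) : iota R (⨅ i, c i) = ⨅ i, iota R (c i) := by
  have h1 : ∀ p : Cond R, em p ≤ iota R (⨅ i, c i) ↔ em p ≤ ⨅ i, iota R (c i) := by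
    intro p
    rw [em_le_iota, le_iInf_iff, le_iInf_iff]
    exact forall_congr' fun i => em_le_iota.symm
  apply le_antisymm
  · exact le_of_em fun p hp => ⟨p, le_rfl, (h1 p).1 hp⟩
  · exact le_of_em fun p hp => ⟨p, le_rfl, (h1 p).2 hp⟩

end Pool.Agent.Lib.WkD
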