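import Pool.Agent.Lib.WkD.RefA

/-!
# Reflection

PROOF of `ref`. For β : Θ and e let J β e be the type of pairs (X, b') : (K → C) × C with b' ≤ phi β X
and (bad) for all b'' ≤ b', b'' ≠ ⊥, and all valid e' with Ext {z | b'' ≤ X z} e' e, not b'' ≤ D e'. Let
bad β e := ⨆ j : J β e, j.b'.
(1) There is X β e with bad β e ≤ phi β (X β e) and for all b'' ≤ bad β e, b'' ≠ ⊥, valid e' with
Ext {z | b'' ≤ X β e z} e' e: not b'' ≤ D e'. Proof: exists_disjoint for j ↦ j.b': a j ≤ j.b', disjoint,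
⨆ a j = bad β e; X β e z := ⨆ j, a j ⊓ j.X z. a j ≤ phi β (j.X), and a j ⊓ j.X z ≤ X β e z, so a j ≤
phi β (X β e) (phi_inf with the constant a j, phi_mono; phi of a constant c is ≥ c). If b'' is as above
with b'' ≤ D e': some b₃ := b'' ⊓ a j ≠ ⊥; b'' ≤ X β e z implies b₃ ≤ X β e z ⊓ a j ≤ j.X z; so
Ext {z | b₃ ≤ j.X z} e' e, b₃ ≤ D e', b₃ ≤ j.b', contradicting (bad) of j.
(2) It is enough that ⨆ t, ⨅ β, ⨅ _ : t ≤ β, ⨅ e : VLP, (bad β e)ᶜ = ⊤: then for some t,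
b := b₀ ⊓ ⨅ .. ≠ ⊥, β₀ := t; given β, e, X, b' as in the conclusion with no b'', e': then (X, b') ∈ J β e,
so b' ≤ bad β e and b' ≤ b ≤ (bad β e)ᶜ, contradiction.
(3) Suppose b₁ := (the supremum in (2))ᶜ ≠ ⊥; so for all t: b₁ ≤ ⨆ β ≥ t, ⨆ e : VLP, bad β e. For
e : VLP let h e t := (⨆ β ≥ t, bad β e)ᶜ ⊔ (⨅ t', ⨆ β ≥ t', bad β e); ⨆ t, h e t = ⊤, h monotone in t.
H.reg (I = VLP) gives t and b₂ ≤ b₁, b₂ ≠ ⊥ with b₂ ≤ h e t for all e. From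
b₂ ≤ ⨆ β ≥ t, ⨆ e, bad β e = ⨆ e, ⨆ β ≥ t, bad β e there are e and b₃ ≤ b₂, b₃ ≠ ⊥,
b₃ ≤ ⨆ β ≥ t, bad β e; with b₃ ≤ h e t: b₃ ≤ ⨅ t', ⨆ β ≥ t', bad β e. Apply ref_core with
c β := bad β e, X β := X β e: β, b' ≤ bad β e, e'' contradict (1).
PROOF of `refI`. For i : I and t let T i t := ⨆ b, ⨆ _ : Pr i b t, b where Pr i b t is: for all β ≥ t,
valid e, X, b' ≤ b, b' ≠ ⊥, b' ≤ phi β X there are b'' ≤ b', b'' ≠ ⊥, e' as in the conclusion. Pr passes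
to smaller b and larger t, and Pr i (T i t) t holds (a nonzero b' ≤ T i t meets some b with Pr i b t).
⨆ t, T i t = ⊤ by `ref` (eq_top_of_dense). H.reg: ⨆ t, ⨅ i, ⨆ s < t, T i s = ⊤; ⨆ s < t, T i s ≤ T i t.
So for some t, b := b₀ ⊓ ⨅ i, T i t ≠ ⊥, β₀ := t.
-/

set_option autoImplicit false

namespace Pool.Agent.Lib.WkD

open Set Cardinal

variable {K Θ C : Type} [LinearOrder K] [OrderBot K] [LinearOrder Θ] [CompleteBooleanAlgebra C]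

namespace RefAux

/-- below `b'` the set `X` gives no extension of `e` in `D` -/
def Bad (R : RSys K Θ C) (D : LP K → C) (β : Θ) (e : LP K) (X : K → C) (b' : C) : Prop :=
  b' ≤ R.phi β X ∧ ∀ b'' ≤ b', b'' ≠ ⊥ → ∀ e' : LP K, Valid R.S e' →
    Ext {z | b'' ≤ X z} e' e → ¬ b'' ≤ D e'

noncomputable def bad (R : RSys K Θ C) (D : LP K → C) (β : Θ) (e : LP K) : C :=
  ⨆ j : {p : (K → C) × C // Bad R D β e p.1 p.2}, j.1.2

noncomputable def UU (R : RSys K Θ C) (D : LP K → C) (e : LP K) (t : Θ) : C :=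
  ⨆ β, ⨆ _ : t ≤ β, bad R D β e

theorem bad_spec (hK : ℵ₀ ≤ #K) (R : RSys K Θ C) (D : LP K → C) (β : Θ) (e : LP K) :
    ∃ X : K → C, Bad R D β e X (bad R D β e) := by
  obtain ⟨a, ha1, ha2, ha3⟩ :=
    exists_disjoint (fun j : {p : (K → C) × C // Bad R D β e p.1 p.2} => j.1.2)
  have hbad : bad R D β e = ⨆ j, a j := ha3.symm
  refine ⟨fun z => ⨆ j, a j ⊓ j.1.1 z, ?_, ?_⟩
  · rw [hbad]
    refine iSup_le fun j => ?_
    have h1 : a j ≤ R.phi β (fun _ => a j) := by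
      unfold RSys.phi
      refine le_iInf fun δ => le_iInf fun _ => ?_
      rw [(R.meas δ).bm.const]
    have h2 : a j ≤ R.phi β j.1.1 := (ha1 j).trans j.2.1
    have h3 : a j ≤ R.phi β (fun z => a j ⊓ j.1.1 z) := by
      rw [R.phi_inf hK β (fun _ => a j) j.1.1]
      exact le_inf h1 h2
    exact h3.trans (R.phi_mono hK β fun z => le_iSup (fun j => a j ⊓ j.1.1 z) j)
  · intro b'' hb'' hb0 e' he' hE hD
    rw [hbad] at hb''
    obtain ⟨j, hj⟩ := exists_inf_ne_bot hb0 hb''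
    refine j.2.2 (b'' ⊓ a j) (inf_le_right.trans (ha1 j)) hj e' he' (hE.mono ?_)
      (inf_le_left.trans hD)
    intro z hz
    have h1 : b'' ⊓ a j ≤ (⨆ i, a i ⊓ i.1.1 z) ⊓ a j := inf_le_inf_right _ hz
    refine h1.trans ?_
    rw [iSup_inf_eq]
    refine iSup_le fun i => ?_
    by_cases hij : i = j
    · subst hij
      exact inf_le_left.trans inf_le_right
    · have h2 : a i ⊓ i.1.1 z ⊓ a j ≤ a i ⊓ a j := inf_le_inf_right _ inf_le_left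
      rw [ha2 i j hij] at h2
      exact h2.trans bot_le

end RefAux

open RefAux in
theorem ref (H : Setup K Θ C) (R : RSys K Θ C) (D : LP K → C)
    (hD : ∀ p : Cond R, ∃ q ≤ p, q.b ≤ D q.e)
    (hS : ∀ e' e : LP K, Valid R.S e' → Ext ∅ e' e → D e ≤ D e')
    {b₀ : C} (hb₀ : b₀ ≠ ⊥) :
    ∃ b ≤ b₀, b ≠ ⊥ ∧ ∃ β₀ : Θ, ∀ β, β₀ ≤ β → ∀ e : LP K, Valid R.S e → ∀ X : K → C,
      ∀ b' ≤ b, b' ≠ ⊥ → b' ≤ R.phi β X →
        ∃ b'' ≤ b', b'' ≠ ⊥ ∧ ∃ e' : LP K, Valid R.S e' ∧ Ext {z | b'' ≤ X z} e' e ∧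
          b'' ≤ D e' := by
  have hK : ℵ₀ ≤ #K := H.inacc.aleph0_lt.le
  set Q : Θ → C := fun t => ⨅ β, ⨅ _ : t ≤ β, ⨅ e : VLP R.S, (bad R D β e.1)ᶜ with hQ
  have hQtop : ⨆ t, Q t = ⊤ := by
    by_contra hne
    set b₁ : C := (⨆ t, Q t)ᶜ with hb₁
    have hb₁0 : b₁ ≠ ⊥ := fun h => hne (compl_eq_bot.1 h)
    have hb₁t : ∀ t, b₁ ≤ ⨆ e : VLP R.S, UU R D e.1 t := by
      intro t
      have h1 : b₁ ≤ (Q t)ᶜ := compl_le_compl (le_iSup Q t)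
      refine h1.trans ?_
      simp only [hQ, compl_iInf, compl_compl]
      refine iSup_le fun β => iSup_le fun hβ => iSup_le fun e => ?_
      exact le_iSup_of_le e (le_iSup_of_le β (le_iSup_of_le hβ le_rfl))
    have hU_anti : ∀ (i : VLP R.S) (s t : Θ), s ≤ t → UU R D i.1 t ≤ UU R D i.1 s := by
      intro i s t hst
      exact iSup_mono fun β => iSup_le fun hβ => le_iSup_of_le (hst.trans hβ) le_rfl
    have hreg := H.reg (VLP R.S) (fun i t => (UU R D i.1 t)ᶜ ⊔ ⨅ t', UU R D i.1 t')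
      (mk_le_of_smallRk hK (smallRk_VLP H.inacc H.small R.S)) (by
        intro i
        obtain ⟨t0⟩ := H.nonempty
        rw [eq_top_iff, ← compl_sup_eq_top (x := ⨅ t', UU R D i.1 t')]
        refine sup_le ?_ (le_iSup_of_le t0 le_sup_right)
        rw [compl_iInf]
        exact iSup_mono fun t => le_sup_left)
    obtain ⟨t, ht⟩ := exists_inf_ne_bot hb₁0 (le_top.trans hreg.ge)
    set b₂ : C := b₁ ⊓ ⨅ i : VLP R.S, ⨆ s, ⨆ _ : s < t,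
      ((UU R D i.1 s)ᶜ ⊔ ⨅ t', UU R D i.1 t') with hb₂
    have h2 : ∀ i : VLP R.S, b₂ ≤ (UU R D i.1 t)ᶜ ⊔ ⨅ t', UU R D i.1 t' := by
      intro i
      refine inf_le_right.trans ((iInf_le _ i).trans ?_)
      refine iSup_le fun s => iSup_le fun hs => sup_le_sup_right ?_ _
      exact compl_le_compl (hU_anti i s t hs.le)
    obtain ⟨e, he⟩ := exists_inf_ne_bot ht (inf_le_left.trans (hb₁t t) : b₂ ≤ _)
    have h3 : b₂ ⊓ UU R D e.1 t ≤ ⨅ t', UU R D e.1 t' := by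
      calc b₂ ⊓ UU R D e.1 t
          ≤ ((UU R D e.1 t)ᶜ ⊔ ⨅ t', UU R D e.1 t') ⊓ UU R D e.1 t := inf_le_inf_right _ (h2 e)
        _ = (⨅ t', UU R D e.1 t') ⊓ UU R D e.1 t := by
          rw [inf_sup_right, compl_inf_self, bot_sup_eq]
        _ ≤ ⨅ t', UU R D e.1 t' := inf_le_left
    choose X hX using fun β : Θ => bad_spec hK R D β e.1
    obtain ⟨β, b', hb', hb'0, e'', hv, hE, hbD⟩ := ref_core H R D hD hS e.2
      (fun β => bad R D β e.1) X (fun β => (hX β).1) he h3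
    exact (hX β).2 b' (hb'.trans inf_le_right) hb'0 e'' hv hE hbD
  obtain ⟨t, ht⟩ := exists_inf_ne_bot hb₀ (le_top.trans hQtop.ge)
  refine ⟨b₀ ⊓ Q t, inf_le_left, ht, t, ?_⟩
  intro β hβ e he X b' hb' hb'0 hphi
  by_contra hno
  have hBad : Bad R D β e X b' := by
    refine ⟨hphi, ?_⟩
    intro b'' hb'' hb''0 e' he' hE hbD
    exact hno ⟨b'', hb'', hb''0, e', he', hE, hbD⟩
  have h1 : b' ≤ bad R D β e :=
    le_iSup (fun j : {p : (K → C) × C // Bad R D β e p.1 p.2} => j.1.2) ⟨(X, b'), hBad⟩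
  have h2 : b' ≤ (bad R D β e)ᶜ := by
    refine (hb'.trans inf_le_right).trans ?_
    exact (iInf_le _ β).trans ((iInf_le _ hβ).trans (iInf_le _ (⟨e, he⟩ : VLP R.S)))
  exact hb'0 (le_bot_iff.1 ((le_inf h1 h2).trans (inf_compl_self _).le))

theorem refI (H : Setup K Θ C) (R : RSys K Θ C) {I : Type} (hI : #I ≤ #K) (D : I → LP K → C)
    (hD : ∀ i, ∀ p : Cond R, ∃ q ≤ p, q.b ≤ D i q.e)
    (hS : ∀ i, ∀ e' e : LP K, Valid R.S e' → Ext ∅ e' e → D i e ≤ D i e')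
    {b₀ : C} (hb₀ : b₀ ≠ ⊥) :
    ∃ b ≤ b₀, b ≠ ⊥ ∧ ∃ β₀ : Θ, ∀ β, β₀ ≤ β → ∀ i, ∀ e : LP K, Valid R.S e → ∀ X : K → C,
      ∀ b' ≤ b, b' ≠ ⊥ → b' ≤ R.phi β X →
        ∃ b'' ≤ b', b'' ≠ ⊥ ∧ ∃ e' : LP K, Valid R.S e' ∧ Ext {z | b'' ≤ X z} e' e ∧
          b'' ≤ D i e' := by
  set Pr : I → C → Θ → Prop := fun i b t => ∀ β, t ≤ β → ∀ e : LP K, Valid R.S e →
    ∀ X : K → C, ∀ b' ≤ b, b' ≠ ⊥ → b' ≤ R.phi β X →
        ∃ b'' ≤ b', b'' ≠ ⊥ ∧ ∃ e' : LP K, Valid R.S e' ∧ Ext {z | b'' ≤ X z} e' e ∧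
          b'' ≤ D i e' with hPr
  set T : I → Θ → C := fun i t => ⨆ b : C, ⨆ _ : Pr i b t, b with hT
  have hTmono : ∀ i s t, s ≤ t → T i s ≤ T i t := by
    intro i s t hst
    refine iSup_mono fun b => iSup_le fun hb => le_iSup_of_le ?_ le_rfl
    intro β hβ
    exact hb β (hst.trans hβ)
  have hPrT : ∀ i t, Pr i (T i t) t := by
    intro i t β hβ e he X b' hb' hb'0 hphi
    obtain ⟨b, hb⟩ := exists_inf_ne_bot hb'0 hb'
    have hPb : Pr i b t := by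
      by_contra hcon
      apply hb
      rw [← le_bot_iff]
      exact inf_le_right.trans (iSup_le fun h => absurd h hcon)
    have hb2 : b' ⊓ b ≠ ⊥ := ne_bot_mono (inf_le_inf_left b' (iSup_le fun _ => le_rfl)) hb
    obtain ⟨b'', h1, h2, h3⟩ := hPb β hβ e he X (b' ⊓ b) inf_le_right hb2
      (inf_le_left.trans hphi)
    exact ⟨b'', h1.trans inf_le_left, h2, h3⟩
  have hTtop : ∀ i, ⨆ t, T i t = ⊤ := by
    intro i
    refine eq_top_of_dense fun b hb => ?_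
    obtain ⟨b₁, h1, h2, β₀, h3⟩ := ref H R (D i) (hD i) (hS i) hb
    exact ⟨b₁, h1, h2, le_iSup_of_le β₀ (le_iSup_of_le b₁ (le_iSup_of_le h3 le_rfl))⟩
  have hreg := H.reg I T hI hTtop
  obtain ⟨t, ht⟩ := exists_inf_ne_bot hb₀ (le_top.trans hreg.ge)
  refine ⟨b₀ ⊓ ⨅ i, ⨆ s, ⨆ _ : s < t, T i s, inf_le_left, ht, t, ?_⟩
  intro β hβ i e he X b' hb' hb'0 hphi
  have h1 : b' ≤ T i t := by
    refine (hb'.trans inf_le_right).trans ((iInf_le _ i).trans ?_)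
    exact iSup_le fun s => iSup_le fun hs => hTmono i s t hs.le
  exact hPrT i t β hβ e he X b' h1 hb'0 hphi

end Pool.Agent.Lib.WkD
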