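import Pool.Agent.Lib.WkD.Homog
import Pool.Agent.Lib.WkD.FExt

/-!
# Reflection, core argument

D e is the Boolean value of: e is in an open dense set of lower parts (hD: dense, hS: closed under
shrinking below the top). A lower part e is given, and for every β a set X β, c β ≤ phi β (X β).
CONCLUSION: if b₀ forces c β for unboundedly many β, then for some β and b' ≤ b₀ ⊓ c β some
extension e'' of e with new nodes from X β is in D.
-/

set_option autoImplicit false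

namespace Pool.Agent.Lib.WkD

open Set Cardinal

variable {K Θ C : Type} [LinearOrder K] [OrderBot K] [LinearOrder Θ] [CompleteBooleanAlgebra C]

namespace RefAAux

/-- value of: `e'` extends `e` with new nodes from `X` -/
noncomputable def EE (e : LP K) (X : K → C) (e' : LP K) : C :=
  ⨆ b : C, ⨆ _ : Ext {z | b ≤ X z} e' e, b

noncomputable def YY (e : LP K) (c : Θ → C) (X : Θ → K → C) (β : Θ) (e' : LP K) : C :=
  c β ⊓ EE e (X β) e'

noncomputable def XX (e : LP K) (c : Θ → C) (X : Θ → K → C) (e' : LP K) : C :=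
  ⨅ t : Θ, ⨆ β, ⨆ _ : t ≤ β, YY e c X β e'

noncomputable def GG (S : Sys K) (e : LP K) (c : Θ → C) (X : Θ → K → C) (e' : LP K) (v : K) : C :=
  ⨆ a : Set K, ⨆ _ : Valid S ((v, a) :: e'), XX e c X ((v, a) :: e')

noncomputable def AA (S : Sys K) (e : LP K) (c : Θ → C) (X : Θ → K → C) (z : K) : C :=
  ⨅ e' : VLP S, ⨅ _ : rk e'.1 < S.crit z, (XX e c X e'.1 ⇨ GG S e c X e'.1 z)

theorem le_EE {e e' : LP K} {X : K → C} {b : C} (h : Ext {z | b ≤ X z} e' e) : b ≤ EE e X e' :=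
  le_iSup_of_le b (le_iSup_of_le h le_rfl)

theorem exists_of_YY {e e' : LP K} {c : Θ → C} {X : Θ → K → C} {β : Θ} {b : C} (hb : b ≠ ⊥)
    (h : b ≤ YY e c X β e') : ∃ b' ≤ b, b' ≠ ⊥ ∧ b' ≤ c β ∧ Ext {z | b' ≤ X β z} e' e := by
  obtain ⟨b1, h1⟩ := exists_inf_ne_bot hb (h.trans inf_le_right)
  by_cases hE : Ext {z | b1 ≤ X β z} e' e
  · refine ⟨b ⊓ b1, inf_le_left, ?_, inf_le_left.trans (h.trans inf_le_left), hE.mono ?_⟩
    · refine ne_bot_mono (inf_le_inf_left b ?_) h1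
      exact iSup_le fun _ => le_rfl
    · intro z hz
      exact (inf_le_right : b ⊓ b1 ≤ b1).trans hz
  · exfalso
    apply h1
    rw [← le_bot_iff]
    refine inf_le_right.trans (iSup_le fun h' => absurd h' hE)

theorem le_XX_of_all {e e' : LP K} {c : Θ → C} {X : Θ → K → C} (h : ∀ W : Set K, Ext W e' e) :
    (⨅ t : Θ, ⨆ β, ⨆ _ : t ≤ β, c β) ≤ XX e c X e' := by
  refine iInf_mono fun t => iSup_mono fun β => iSup_mono fun _ => le_inf le_rfl ?_
  exact le_top.trans (le_EE (h _))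

theorem XX_mono {e e₁ e₂ : LP K} {c : Θ → C} {X : Θ → K → C}
    (h : ∀ W : Set K, Ext W e₁ e → Ext W e₂ e) : XX e c X e₁ ≤ XX e c X e₂ := by
  refine iInf_mono fun t => iSup_mono fun β => iSup_mono fun _ => inf_le_inf_left _ ?_
  exact iSup_mono fun b => iSup_le fun hb => le_iSup_of_le (h _ hb) le_rfl

theorem ext_cases {W : Set K} {e' e : LP K} (h : Ext W e' e) : (∀ W' : Set K, Ext W' e' e) ∨
    ∃ (v : K) (a : Set K) (e₁ : LP K), e' = (v, a) :: e₁ ∧ v ∈ W ∧ a ⊆ W ∧ Ext W e₁ e := by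
  cases h with
  | nil => exact Or.inl fun W' => Ext.nil W'
  | new hv ha h1 => exact Or.inr ⟨_, _, _, rfl, hv, ha, h1⟩
  | old ha h1 => exact Or.inl fun W' => Ext.old ha h1

theorem claim1 (H : Setup K Θ C) (R : RSys K Θ C) {e : LP K} (c : Θ → C) (X : Θ → K → C)
    (hc : ∀ β, c β ≤ R.phi β (X β)) (δ : Θ) {e' : LP K} (he' : Valid R.S e') :
    XX e c X e' ≤ R.μ δ (GG R.S e c X e') := by
  have hK : ℵ₀ ≤ #K := H.inacc.aleph0_lt.le
  have hbm := (R.meas δ).bm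
  refine le_of_dense fun b₁ hb₁ hb₁' => ?_
  set U : VLP R.S → Θ → C := fun i t => ⨆ β, ⨆ _ : t ≤ β, YY e c X β i.1 with hU
  have hU_anti : ∀ i s t, s ≤ t → U i t ≤ U i s := by
    intro i s t hst
    exact iSup_mono fun β => iSup_le fun hβ => le_iSup_of_le (hst.trans hβ) le_rfl
  have hreg := H.reg (VLP R.S) (fun i t => (U i t)ᶜ ⊔ XX e c X i.1)
    (mk_le_of_smallRk hK (smallRk_VLP H.inacc H.small R.S)) (by
      intro i
      obtain ⟨t0⟩ := H.nonempty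
      rw [eq_top_iff, ← compl_sup_eq_top (x := XX e c X i.1)]
      refine sup_le ?_ (le_iSup_of_le t0 le_sup_right)
      have h1 : (XX e c X i.1)ᶜ = ⨆ t, (U i t)ᶜ := compl_iInf
      rw [h1]
      exact iSup_mono fun t => le_sup_left)
  obtain ⟨t, ht⟩ := exists_inf_ne_bot hb₁' (le_top.trans hreg.ge)
  set b₂ : C := b₁ ⊓ ⨅ i : VLP R.S, ⨆ s, ⨆ _ : s < t, ((U i s)ᶜ ⊔ XX e c X i.1) with hb₂
  have h2 : ∀ i, b₂ ≤ (U i t)ᶜ ⊔ XX e c X i.1 := by
    intro i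
    refine inf_le_right.trans ((iInf_le _ i).trans ?_)
    refine iSup_le fun s => iSup_le fun hs => sup_le_sup_right ?_ _
    exact compl_le_compl (hU_anti i s t hs.le)
  have h3 : ∀ β, t ≤ β → ∀ i : VLP R.S, b₂ ⊓ YY e c X β i.1 ≤ XX e c X i.1 := by
    intro β hβ i
    have h4 : YY e c X β i.1 ≤ U i t := le_iSup_of_le β (le_iSup_of_le hβ le_rfl)
    calc b₂ ⊓ YY e c X β i.1 ≤ ((U i t)ᶜ ⊔ XX e c X i.1) ⊓ U i t := inf_le_inf (h2 i) h4
      _ = XX e c X i.1 ⊓ U i t := by rw [inf_sup_right, compl_inf_self, bot_sup_eq]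
      _ ≤ XX e c X i.1 := inf_le_left
  obtain ⟨t', ht'⟩ := H.noMax (max t δ)
  have htt' : t ≤ t' := (le_max_left _ _).trans ht'.le
  have hδt' : δ < t' := (le_max_right _ _).trans_lt ht'
  have h5 : b₂ ≤ ⨆ β, ⨆ _ : t' ≤ β, YY e c X β e' :=
    inf_le_left.trans (hb₁.trans (iInf_le _ t'))
  obtain ⟨β, hβ⟩ := exists_inf_ne_bot ht h5
  have hβ1 : t' ≤ β := by
    by_contra hcon
    apply hβ
    rw [← le_bot_iff]
    exact inf_le_right.trans (iSup_le fun h => absurd h hcon)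
  have hβ2 : b₂ ⊓ YY e c X β e' ≠ ⊥ := ne_bot_mono (inf_le_inf_left b₂ (iSup_le fun _ => le_rfl)) hβ
  obtain ⟨b₃, hb₃, hb₃', hb₃c, hb₃E⟩ := exists_of_YY hβ2 inf_le_right
  have hb₃2 : b₃ ≤ b₂ := hb₃.trans inf_le_left
  refine ⟨b₃, hb₃2.trans inf_le_left, hb₃', ?_⟩
  have hδβ : δ < β := hδt'.trans_le hβ1
  have h6 : b₃ ≤ R.μ δ (X β) := hb₃c.trans ((hc β).trans (R.phi_le_mu hδβ (X β)))
  have h7 : b₃ ≤ R.μ δ (fun w => inF R.S (X β) w) := by
    rw [R.mu_inF]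
    exact hb₃c.trans ((hc β).trans (R.phi_anti hδβ.le (X β)))
  have h8 : b₃ ≤ R.μ δ (fun v => b₃ ⊓ (X β v ⊓ (inF R.S (X β) v ⊓ tv C (rk e' < R.S.crit v)))) := by
    rw [hbm.const_inf hK, hbm.inf hK, hbm.inf hK, (R.meas δ).tail, inf_top_eq]
    exact le_inf le_rfl (le_inf h6 h7)
  refine h8.trans (hbm.mono hK fun v => ?_)
  by_cases hv : rk e' < R.S.crit v
  · rw [tv_true hv, inf_top_eq]
    unfold inF
    rw [inf_iSup_eq, inf_iSup_eq]
    refine iSup_le fun Z => ?_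
    rw [inf_iSup_eq, inf_iSup_eq]
    refine iSup_le fun hZ => ?_
    set b₄ : C := b₃ ⊓ (X β v ⊓ ⨅ z, ⨅ _ : z ∈ Z, X β z) with hb₄
    have hval := Valid.cons_of (w := v) hZ he' hv
    have hE : Ext {z | b₄ ≤ X β z} ((v, Z ∩ {z | z < R.S.crit v ∧ rk e' < R.S.crit z}) :: e') e := by
      refine Ext.new ?_ ?_ (hb₃E.mono ?_)
      · exact inf_le_right.trans inf_le_left
      · intro z hz
        exact inf_le_right.trans (inf_le_right.trans (iInf_le_of_le z (iInf_le _ hz.1)))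
      · intro z hz
        exact (inf_le_left : b₄ ≤ b₃).trans hz
    have h9 : b₄ ≤ b₂ ⊓ YY e c X β
        ((v, Z ∩ {z | z < R.S.crit v ∧ rk e' < R.S.crit z}) :: e') :=
      le_inf (inf_le_left.trans hb₃2) (le_inf (inf_le_left.trans hb₃c) (le_EE hE))
    have h10 := h9.trans (h3 β (htt'.trans hβ1) ⟨_, hval⟩)
    exact h10.trans (le_iSup_of_le _ (le_iSup_of_le hval le_rfl))
  · rw [tv_false hv, inf_bot_eq, inf_bot_eq, inf_bot_eq]
    exact bot_le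

theorem claim2 (R : RSys K Θ C) {e : LP K} (c : Θ → C) (X : Θ → K → C) {b₀ : C}
    (hb : b₀ ≤ ⨅ t : Θ, ⨆ β, ⨆ _ : t ≤ β, c β) (e' : LP K) :
    ∀ b : C, b ≠ ⊥ → b ≤ b₀ → Valid R.S e' → Ext {z | b ≤ AA R.S e c X z} e' e →
      ∃ b' ≤ b, b' ≠ ⊥ ∧ ∃ e'' : LP K, Valid R.S e'' ∧ Ext ∅ e'' e' ∧ b' ≤ XX e c X e'' := by
  induction e' with
  | nil =>
    intro b hb1 hb2 hv hE
    rcases ext_cases hE with h | ⟨v, a, e₁, h, _⟩
    · exact ⟨b, le_rfl, hb1, [], hv, Ext.refl _ _, hb2.trans (hb.trans (le_XX_of_all h))⟩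
    · exact absurd h (by simp)
  | cons p e₁ ih =>
    intro b hb1 hb2 hv hE
    rcases ext_cases hE with h | ⟨v, a, e₁', h, hvA, haA, hE1⟩
    · exact ⟨b, le_rfl, hb1, _, hv, Ext.refl _ _, hb2.trans (hb.trans (le_XX_of_all h))⟩
    · obtain ⟨h1, h2⟩ := List.cons.inj h
      subst h1
      subst h2
      obtain ⟨b₁, hb₁, hb₁', e₁'', hv1, hE2, hX⟩ := ih b hb1 hb2 hv.tail hE1
      have hr : rk e₁'' < R.S.crit v := by
        rw [hE2.rk_eq hv1 hv.tail]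
        exact hv.crit_lt
      have h3 : b₁ ≤ GG R.S e c X e₁'' v := by
        have h4 : b₁ ≤ XX e c X e₁'' ⇨ GG R.S e c X e₁'' v := by
          refine hb₁.trans (le_trans hvA ?_)
          exact (iInf_le _ (⟨e₁'', hv1⟩ : VLP R.S)).trans (iInf_le _ hr)
        rw [le_himp_iff, inf_eq_left.2 hX] at h4
        exact h4
      obtain ⟨a₂, ha₂⟩ := exists_inf_ne_bot hb₁' h3
      have hval : Valid R.S ((v, a₂) :: e₁'') := by
        by_contra hcon
        apply ha₂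
        rw [← le_bot_iff]
        exact inf_le_right.trans (iSup_le fun h => absurd h hcon)
      have h5 : b₁ ⊓ XX e c X ((v, a₂) :: e₁'') ≠ ⊥ :=
        ne_bot_mono (inf_le_inf_left b₁ (iSup_le fun _ => le_rfl)) ha₂
      refine ⟨b₁ ⊓ XX e c X ((v, a₂) :: e₁''), inf_le_left.trans hb₁, h5, (v, a ∩ a₂) :: e₁'',
        hval.shrink (Filter.inter_mem hv.mem hval.mem) inter_subset_right,
        Ext.old inter_subset_left (hE2.mono (empty_subset _)), inf_le_right.trans (XX_mono ?_)⟩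
      intro W hW
      cases hW with
      | new h6 h7 h8 => exact Ext.new h6 (inter_subset_right.trans h7) h8
      | old h6 h7 => exact Ext.old (inter_subset_right.trans h6) h7

end RefAAux

open RefAAux in
theorem ref_core (H : Setup K Θ C) (R : RSys K Θ C) (D : LP K → C)
    (hD : ∀ p : Cond R, ∃ q ≤ p, q.b ≤ D q.e)
    (hS : ∀ e' e : LP K, Valid R.S e' → Ext ∅ e' e → D e ≤ D e')
    {e : LP K} (he : Valid R.S e) (c : Θ → C) (X : Θ → K → C) (hc : ∀ β, c β ≤ R.phi β (X β))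
    {b₀ : C} (hb₀ : b₀ ≠ ⊥) (hb : b₀ ≤ ⨅ t : Θ, ⨆ β, ⨆ _ : t ≤ β, c β) :
    ∃ β, ∃ b' ≤ b₀ ⊓ c β, b' ≠ ⊥ ∧ ∃ e'' : LP K, Valid R.S e'' ∧
      Ext {z | b' ≤ X β z} e'' e ∧ b' ≤ D e'' := by
  have hK : ℵ₀ ≤ #K := H.inacc.aleph0_lt.le
  have hA : R.Phi (AA R.S e c X) = ⊤ := by
    refine R.Phi_eq_top fun δ => ?_
    have h1 := (R.meas δ).diagI (fun i : VLP R.S => rk i.1) (smallRk_VLP H.inacc H.small R.S)
      (fun i z => XX e c X i.1 ⇨ GG R.S e c X i.1 z)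
    refine Eq.trans h1 ?_
    rw [iInf_eq_top]
    intro i
    rw [(R.meas δ).bm.const_himp hK, himp_eq_top_iff]
    exact claim1 H R c X hc δ i.2
  obtain ⟨q, hq, hqD⟩ := hD ⟨b₀, e, AA R.S e c X, hb₀, he, by rw [hA]; exact le_top⟩
  obtain ⟨hq1, hq2, _⟩ := cond_le_iff.1 hq
  obtain ⟨b', hb', hb'0, e'', hv'', hE'', hX⟩ := claim2 R c X hb q.e q.b q.ne hq1 q.val hq2
  obtain ⟨t0⟩ := H.nonempty
  obtain ⟨β, hβ⟩ := exists_inf_ne_bot hb'0 (hX.trans (iInf_le _ t0))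
  have hβ2 : b' ⊓ YY e c X β e'' ≠ ⊥ := ne_bot_mono (inf_le_inf_left b' (iSup_le fun _ => le_rfl)) hβ
  obtain ⟨b'', hb'', hb''0, hb''c, hb''E⟩ := exists_of_YY hβ2 inf_le_right
  have h3 : b'' ≤ q.b := hb''.trans (inf_le_left.trans hb')
  exact ⟨β, b'', le_inf (h3.trans hq1) hb''c, hb''0, e'', hv'', hb''E,
    h3.trans (hqD.trans (hS e'' q.e hv'' hE''))⟩

end Pool.Agent.Lib.WkD
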