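import Pool.Agent.Lib.WkD.Ref
import Pool.Agent.Lib.WkD.Sel

/-!
# Reflection to almost all nodes

PROOF. Take b, β₀ from refI (#I ≤ #K by mk_le_of_smallRk). Let β ≥ β₀. The infimum over i, e is
⨅ i, ⨅ _ : r i < crit w, (⨅ e : VLP, ⨅ _ : rk e < crit w, W i e w) so by diagI twice (hr, smallRk_VLP) it
is enough that b ≤ μ_β(W i e) for fixed i, e, where W i e w := ⨅ a, ⨅ _ : (..), ⨆ e', ⨆ _ : (..), D i e'.
Otherwise b₁ := b ⊓ (μ_β (W i e))ᶜ ≠ ⊥, and (W i e w)ᶜ = ⨆ a, ⨆ _ : (..), G w a with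
G w a := (⨆ e' : VLP, ⨆ _ : rk e' < crit w ∧ Ext a e' e, D i e')ᶜ. By sel there is X with
b₁ ≤ μ_β(w ↦ ⨆ a, ⨆ _ : (..), G w a ⊓ eqs X (crit w) a) and b₁ ≤ μ_β(inF X) = phi β X. By the property
of b, β₀ with b' = b₁: b₂ ≤ b₁, b₂ ≠ ⊥, e' valid, Ext {z | b₂ ≤ X z} e' e, b₂ ≤ D i e'. For w with
rk e' < crit w (tail) and every a: b₂ ⊓ (G w a ⊓ eqs X (crit w) a) = ⊥: otherwise call it b₃ ≠ ⊥;
Ext a e' e by Ext.of_sub: z ≤ rk e' < crit w and b₂ ≤ X z give z ∈ a by mem_of_eqs (b₃). So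
b₃ ≤ D i e' ≤ ⨆ .. and b₃ ≤ G w a, contradiction. Hence b₂ = b₂ ⊓ μ_β(..) ⊓ μ_β(tv ..) = ⊥.
-/

set_option autoImplicit false

namespace Pool.Agent.Lib.WkD

open Set Cardinal

variable {K Θ C : Type} [LinearOrder K] [OrderBot K] [LinearOrder Θ] [CompleteBooleanAlgebra C]

theorem refW (H : Setup K Θ C) (R : RSys K Θ C) {I : Type} {r : I → K} (hr : SmallRk r)
    (D : I → LP K → C)
    (hD : ∀ i, ∀ p : Cond R, ∃ q ≤ p, q.b ≤ D i q.e)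
    (hS : ∀ i, ∀ e' e : LP K, Valid R.S e' → Ext ∅ e' e → D i e ≤ D i e')
    {b₀ : C} (hb₀ : b₀ ≠ ⊥) :
    ∃ b ≤ b₀, b ≠ ⊥ ∧ ∃ β₀ : Θ, ∀ β, β₀ ≤ β →
      b ≤ R.μ β (fun w => ⨅ i, ⨅ _ : r i < R.S.crit w, ⨅ e : VLP R.S, ⨅ _ : rk e.1 < R.S.crit w,
        ⨅ a : Set K, ⨅ _ : a ∈ R.S.F w ∧ a ⊆ Iio (R.S.crit w),
          ⨆ e' : VLP R.S, ⨆ _ : rk e'.1 < R.S.crit w ∧ Ext a e'.1 e.1, D i e'.1) := by
  have hK : ℵ₀ ≤ #K := H.inacc.aleph0_lt.le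
  obtain ⟨b, hb, hb0, β₀, hmain⟩ := refI H R (mk_le_of_smallRk hK hr) D hD hS hb₀
  refine ⟨b, hb, hb0, β₀, fun β hβ => ?_⟩
  rw [(R.meas β).diagI r hr (fun i w => ⨅ e : VLP R.S, ⨅ _ : rk e.1 < R.S.crit w,
        ⨅ a : Set K, ⨅ _ : a ∈ R.S.F w ∧ a ⊆ Iio (R.S.crit w),
          ⨆ e' : VLP R.S, ⨆ _ : rk e'.1 < R.S.crit w ∧ Ext a e'.1 e.1, D i e'.1)]
  refine le_iInf fun i => ?_
  rw [(R.meas β).diagI (fun e : VLP R.S => rk e.1) (smallRk_VLP H.inacc H.small R.S)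
    (fun e w => ⨅ a : Set K, ⨅ _ : a ∈ R.S.F w ∧ a ⊆ Iio (R.S.crit w),
          ⨆ e' : VLP R.S, ⨆ _ : rk e'.1 < R.S.crit w ∧ Ext a e'.1 e.1, D i e'.1)]
  refine le_iInf fun e => ?_
  by_contra hcon
  have hb₁ : b ⊓ (R.μ β (fun w => ⨅ a : Set K, ⨅ _ : a ∈ R.S.F w ∧ a ⊆ Iio (R.S.crit w),
          ⨆ e' : VLP R.S, ⨆ _ : rk e'.1 < R.S.crit w ∧ Ext a e'.1 e.1, D i e'.1))ᶜ ≠ ⊥ := by
    intro h
    apply hcon
    have h1 := (disjoint_iff.2 h).le_compl_right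
    rwa [compl_compl] at h1
  obtain ⟨X, hX⟩ := sel hK (R.meas β)
    (fun w a => (⨆ e' : VLP R.S, ⨆ _ : rk e'.1 < R.S.crit w ∧ Ext a e'.1 e.1, D i e'.1)ᶜ)
  have hV : b ⊓ (R.μ β (fun w => ⨅ a : Set K, ⨅ _ : a ∈ R.S.F w ∧ a ⊆ Iio (R.S.crit w),
          ⨆ e' : VLP R.S, ⨆ _ : rk e'.1 < R.S.crit w ∧ Ext a e'.1 e.1, D i e'.1))ᶜ ≤
      R.μ β (fun w => ⨆ a, ⨆ _ : a ∈ R.S.F w ∧ a ⊆ Iio (R.S.crit w),
        (⨆ e' : VLP R.S, ⨆ _ : rk e'.1 < R.S.crit w ∧ Ext a e'.1 e.1, D i e'.1)ᶜ ⊓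
          eqs X (R.S.crit w) a) := by
    refine inf_le_right.trans ?_
    rw [← (R.meas β).bm.compl]
    refine le_trans (le_of_eq ?_) hX
    congr 1
    funext w
    rw [compl_iInf]
    simp only [compl_iInf]
  have hphi : b ⊓ (R.μ β (fun w => ⨅ a : Set K, ⨅ _ : a ∈ R.S.F w ∧ a ⊆ Iio (R.S.crit w),
          ⨆ e' : VLP R.S, ⨆ _ : rk e'.1 < R.S.crit w ∧ Ext a e'.1 e.1, D i e'.1))ᶜ ≤
      R.phi β X := by
    refine (hV.trans (sel_inF hK (R.meas β) _ X)).trans ?_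
    rw [R.r3]
    exact le_rfl
  obtain ⟨b₂, hb₂, hb₂0, e', hv, hE, hbD⟩ := hmain β hβ i e.1 e.2 X _ inf_le_left hb₁ hphi
  have hpt : b₂ ≤ R.μ β (fun w => tv C (rk e' < R.S.crit w) ⊓
      (⨆ a, ⨆ _ : a ∈ R.S.F w ∧ a ⊆ Iio (R.S.crit w),
        (⨆ e' : VLP R.S, ⨆ _ : rk e'.1 < R.S.crit w ∧ Ext a e'.1 e.1, D i e'.1)ᶜ ⊓
          eqs X (R.S.crit w) a)) := by
    rw [(R.meas β).bm.inf hK, (R.meas β).tail, top_inf_eq]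
    exact hb₂.trans hV
  obtain ⟨w, hw⟩ := (R.meas β).bm.exists_point hK hb₂0 hpt
  by_cases hcw : rk e' < R.S.crit w
  · apply hw
    rw [← le_bot_iff]
    refine (inf_le_inf_left b₂ inf_le_right).trans ?_
    rw [inf_iSup_eq]
    refine iSup_le fun a => ?_
    rw [inf_iSup_eq]
    refine iSup_le fun ha => ?_
    by_contra h3
    have h30 : b₂ ⊓ ((⨆ e' : VLP R.S, ⨆ _ : rk e'.1 < R.S.crit w ∧ Ext a e'.1 e.1, D i e'.1)ᶜ ⊓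
        eqs X (R.S.crit w) a) ≠ ⊥ := fun h => h3 h.le
    have hEa : Ext a e' e.1 := by
      refine hE.of_sub hv fun z hz hz1 _ => ?_
      exact mem_of_eqs h30 (inf_le_right.trans inf_le_right) (inf_le_left.trans hz)
        (hz1.trans_lt hcw)
    apply h30
    rw [← le_bot_iff]
    have h4 : b₂ ≤ ⨆ e' : VLP R.S, ⨆ _ : rk e'.1 < R.S.crit w ∧ Ext a e'.1 e.1, D i e'.1 :=
      hbD.trans (le_iSup_of_le (⟨e', hv⟩ : VLP R.S) (le_iSup_of_le ⟨hcw, hEa⟩ le_rfl))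
    refine (inf_le_inf h4 inf_le_left).trans ?_
    rw [inf_compl_self]
  · apply hw
    rw [tv_false hcw, bot_inf_eq, inf_bot_eq]

end Pool.Agent.Lib.WkD
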