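import Pool.Agent.Lib.WkD.OS

/-!
# Stripping top nodes; deciding by lower parts

`stripI` is the set of the nodes v such that for all i of rank < crit v and all valid e below crit v:
if some (v,a)::e forces s i then e forces s i.

PROOF SKETCH.
* mu_stripI: for fixed i, e: R.μ γ (PP e (s i) ⇨ dd e (s i)) = μ_γ(PP ..) ⇨ dd = ⊤ by os
  (BMeas.himp and const). Then diagI twice (r, smallRk_VLP).
* strip_one: e is valid with rk e < crit v (Valid.crit_lt). b ≤ dd ((v,a)::e) (s i) ≤ PP e (s i) v, and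
  b ≤ stripI v ≤ (PP e (s i) v ⇨ dd e (s i)).
* strip_list: induction on l.
* decide: let b ≠ ⊥ (eq_top_of_dense). Use the family s' : Bool → BR R, s' true = s, s' false = sᶜ,
  rank ⊥. The condition p = (b, e, stripI) exists (Phi_eq_top). exists_decide: q ≤ p with em q ≤ s or
  em q ≤ sᶜ, so q.b ≤ dd q.e (s' t) for some t (le_dd). By induction on Ext {z | q.b ≤ stripI z} q.e e
  (general claim: if b' ≤ dd e₂ (s' t), e₂ valid, Ext {z | b' ≤ stripI z} e₂ e then there is e₀ valid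
  with Ext ∅ e₀ e and b' ≤ dd e₀ (s' t)): nil, old: e₀ = e₂ (Ext.old does not use the set); new:
  strip_one (⊥ < crit v since rk e₁ < crit v), then induction. q.b ≤ b is ≠ ⊥.
* strip_ext is this general claim for arbitrary families.
-/

set_option autoImplicit false

namespace Pool.Agent.Lib.WkD

open Set Cardinal

variable {K Θ C : Type} [LinearOrder K] [OrderBot K] [LinearOrder Θ] [CompleteBooleanAlgebra C]

noncomputable def stripI (R : RSys K Θ C) {I : Type} (r : I → K) (s : I → BR R) (v : K) : C :=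
  ⨅ i, ⨅ _ : r i < R.S.crit v, ⨅ e : VLP R.S, ⨅ _ : rk e.1 < R.S.crit v,
    (PP R e.1 (s i) v ⇨ dd R e.1 (s i))

variable {R : RSys K Θ C} {I : Type} {r : I → K} {s : I → BR R}

theorem mu_stripI (H : Setup K Θ C) (hr : SmallRk r) (γ : Θ) : R.μ γ (stripI R r s) = ⊤ := by
  have hK : ℵ₀ ≤ #K := H.inacc.aleph0_lt.le
  have h1 : R.μ γ (stripI R r s) = ⨅ i, R.μ γ (fun v => ⨅ e : VLP R.S,
      ⨅ _ : rk e.1 < R.S.crit v, (PP R e.1 (s i) v ⇨ dd R e.1 (s i))) :=
    (R.meas γ).diagI r hr (fun i v => ⨅ e : VLP R.S,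
      ⨅ _ : rk e.1 < R.S.crit v, (PP R e.1 (s i) v ⇨ dd R e.1 (s i)))
  rw [h1]
  refine iInf_eq_top.2 fun i => ?_
  have h2 := (R.meas γ).diagI (fun e : VLP R.S => rk e.1) (smallRk_VLP H.inacc H.small R.S)
    (fun e v => (PP R e.1 (s i) v ⇨ dd R e.1 (s i)))
  rw [h2]
  refine iInf_eq_top.2 fun e => ?_
  rw [(R.meas γ).bm.himp hK, (R.meas γ).bm.const, himp_eq_top_iff]
  exact os H R γ e.1 (s i)

theorem strip_one {i : I} {v : K} {a : Set K} {e : LP K} {b : C}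
    (hv : Valid R.S ((v, a) :: e)) (hi : r i < R.S.crit v) (hb : b ≤ stripI R r s v)
    (h : b ≤ dd R ((v, a) :: e) (s i)) : b ≤ dd R e (s i) := by
  have h1 : b ≤ PP R e (s i) v := h.trans (le_iSup_of_le a (le_iSup_of_le hv le_rfl))
  have h2 : b ≤ PP R e (s i) v ⇨ dd R e (s i) :=
    hb.trans (iInf_le_of_le i (iInf_le_of_le hi
      (iInf_le_of_le (⟨e, hv.tail⟩ : VLP R.S) (iInf_le_of_le hv.crit_lt le_rfl))))
  exact (le_inf h2 h1).trans himp_inf_le

theorem strip_list {i : I} {l e : LP K} {b : C} (hv : Valid R.S (l ++ e))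
    (hl : ∀ p ∈ l, b ≤ stripI R r s p.1 ∧ r i < R.S.crit p.1) (h : b ≤ dd R (l ++ e) (s i)) :
    b ≤ dd R e (s i) := by
  induction l with
  | nil => exact h
  | cons p l ih =>
    obtain ⟨v, a⟩ := p
    have hv' : Valid R.S ((v, a) :: (l ++ e)) := hv
    have h' : b ≤ dd R ((v, a) :: (l ++ e)) (s i) := h
    obtain ⟨h1, h2⟩ := hl (v, a) List.mem_cons_self
    exact ih hv'.tail (fun p hp => hl p (List.mem_cons_of_mem _ hp))
      (strip_one hv' h2 h1 h')

theorem strip_ext {i : I} {e₂ e : LP K} {b : C} (hv : Valid R.S e₂)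
    (hE : Ext {z | b ≤ stripI R r s z ∧ r i < R.S.crit z} e₂ e) (h : b ≤ dd R e₂ (s i)) :
    ∃ e₀, Valid R.S e₀ ∧ Ext ∅ e₀ e ∧ b ≤ dd R e₀ (s i) ∧ (∃ l, e₂ = l ++ e₀) := by
  induction e₂ generalizing e with
  | nil =>
    cases hE
    exact ⟨[], hv, Ext.nil _, h, [], rfl⟩
  | cons p e₂ ih =>
    cases hE with
    | @new _ v a _ _ hvA haA h1 =>
      obtain ⟨e₀, h2, h3, h4, l, h5⟩ := ih hv.tail h1 (strip_one hv hvA.2 hvA.1 h)
      exact ⟨e₀, h2, h3, h4, (v, a) :: l, by rw [h5]; rfl⟩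
    | old ha h1 => exact ⟨_, hv, Ext.old ha h1, h, [], rfl⟩

theorem decide (H : Setup K Θ C) {e : LP K} (he : Valid R.S e) (t : BR R) :
    ⨆ e' : VLP R.S, ⨆ _ : Ext ∅ e'.1 e, (dd R e'.1 t ⊔ dd R e'.1 tᶜ) = ⊤ := by
  have hK : ℵ₀ ≤ #K := H.inacc.aleph0_lt.le
  refine eq_top_of_dense fun b hb => ?_
  let r' : Bool → K := fun _ => ⊥
  let s' : Bool → BR R := fun x => if x then t else tᶜ
  have hr : SmallRk r' := smallRk_of_small hK
    (lt_of_lt_of_le (Cardinal.lt_aleph0_of_finite Bool) hK) r'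
  let p : Cond R := ⟨b, e, stripI R r' s', hb, he, by
    rw [R.Phi_eq_top fun γ => mu_stripI H hr γ]
    exact le_top⟩
  obtain ⟨q, hq, hqt⟩ := exists_decide p t
  obtain ⟨x, hx⟩ : ∃ x, em q ≤ s' x := by
    rcases hqt with h | h
    · exact ⟨true, h⟩
    · exact ⟨false, h⟩
  have h1 : q.b ≤ dd R q.e (s' x) := le_dd q hx
  obtain ⟨h2, h3, -⟩ := cond_le_iff.1 hq
  have h4 : Ext {z | q.b ≤ stripI R r' s' z ∧ r' x < R.S.crit z} q.e e :=
    Ext.of_sub h3 q.val fun z hz _ hz' => ⟨hz, lt_of_le_of_lt bot_le hz'⟩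
  obtain ⟨e₀, h5, h6, h7, -⟩ := strip_ext q.val h4 h1
  refine ⟨q.b, h2, q.ne, ?_⟩
  refine le_iSup_of_le (⟨e₀, h5⟩ : VLP R.S) (le_iSup_of_le h6 ?_)
  cases x with
  | true => exact h7.trans le_sup_left
  | false => exact h7.trans le_sup_right

end Pool.Agent.Lib.WkD
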