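import Pool.Agent.Lib.WkD.Kx

/-!
# The filter given by φ and x is coded by exactly one node

PROOF. uv_disjoint: if both values are ≠ ⊥ then crit w = kx x = crit w', both are canonical, so F w ≠ F w'
(otherwise w = cod .. = w'). So (symmetry) there is Z ∈ F w, Z ∉ F w'; Z' = Z ∩ Iio (kx x) ∈ F w
(iio_mem), Z' ∉ F w'. The two values are below lit True (Fv Z') and lit False (Fv Z'), lit_inf_lit.
good_ae: GX x says: for X, Y with inr X, inr Y ∈ x also inr (X ⊓ Y) ∈ x; inr ⊤ ∈ x; for ξ < kx x,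
inr (z ↦ tv (ξ < crit z)) ∈ x. m (tv (GX x)) = ⊤: tv of a conjunction is the infimum; first part: tv (∀ X Y
..) = ⨅ X, ⨅ _ : inr X ∈ x, ⨅ Y, ⨅ _ : inr Y ∈ x, tv (inr (X ⊓ Y) ∈ x), normal_inr twice and fine; second:
fine; third: (normMeas_kx).diag and fine.
uv_cover: for x with GX x: ⨆ w, uv S φ x w = ⊤. Let J = {Z : Set K // Z ⊆ Iio (kx x)}, #J < #K (mk_sets).
Distr: ⨆ n : Set J, ⨅ j, lit (j ∈ n) (Fv φ x j) = ⊤; let n be given with b := ⨅ j, lit (j ∈ n) (Fv φ x j)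
≠ ⊥; show b ≤ uv S φ x w for some w. Let ℱ be the filter of all Y : Set K with Y ∩ Iio (kx x) ∈ n (as
element of J). It is a filter: univ: Fv (Iio (kx x)) = ⊤ (take A = ⊤ ∈ x, φ ⊤ = ⊤, no z < kx x is outside), so
of_le_lit; superset: Fv is monotone in Z, of_le_lit; intersections: Fv Z ⊓ Fv Z' ≤ Fv (Z ∩ Z') (PhiOK.inf,
inr (A ⊓ A') ∈ x, (A z ⊓ A' z)ᶜ ≥ (A z)ᶜ ⊔ (A' z)ᶜ). Tails: {z | ξ < crit z} ∈ ℱ for ξ < kx x: with A = the
tail set, φ A = ⊤, (tv (ξ < crit z))ᶜ = ⊤ for z outside. Iio (kx x) ∈ ℱ. FullSys: the filter is coded, so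
w := cod S (kx x) ℱ has crit w = kx x, F w = ℱ and is canonical. For Z ⊆ Iio (kx x): Z ∈ F w iff Z ∈ n. So
uv S φ x w = b.
uv_crit: uv S φ x w ≤ tv (crit w = kx x).
-/

set_option autoImplicit false

namespace Pool.Agent.Lib.WkD

open Set Cardinal

variable {K C : Type} [LinearOrder K] [WellFoundedLT K] [CompleteBooleanAlgebra C]
  {m : (Pk (#K) (HH K C) → C) → C} {S : Sys K} {φ : (K → C) → C}

theorem uv_crit (x : Pk (#K) (HH K C)) (w : K) : uv S φ x w ≤ tv C (S.crit w = kx x) := by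
  unfold uv
  exact inf_le_left.trans (tv_mono And.left)

namespace UvAux

theorem uv_le_lit (x : Pk (#K) (HH K C)) (w : K) {Z : Set K} (hZ : Z ⊆ Iio (kx x)) :
    uv S φ x w ≤ lit (Z ∈ S.F w) (Fv φ x Z) := by
  unfold uv
  exact inf_le_right.trans (iInf₂_le Z hZ)

theorem of_uv_ne_bot {x : Pk (#K) (HH K C)} {w : K} (h : uv S φ x w ≠ ⊥) :
    S.crit w = kx x ∧ Canon S w := by
  by_contra hcon
  apply h
  unfold uv
  rw [tv_false hcon, bot_inf_eq]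

theorem Fv_mono (x : Pk (#K) (HH K C)) {Z Z' : Set K} (h : Z ⊆ Z') : Fv φ x Z ≤ Fv φ x Z' := by
  unfold Fv
  refine iSup₂_mono fun A _ => inf_le_inf le_rfl ?_
  refine le_iInf₂ fun z hz => ?_
  exact iInf₂_le z ⟨hz.1, fun hz' => hz.2 (h hz')⟩

theorem Fv_eq_top {x : Pk (#K) (HH K C)} {Z : Set K} (A : K → C)
    (hA : (Sum.inr A : HH K C) ∈ x.1) (hφA : φ A = ⊤) (h : ∀ z, z < kx x → z ∉ Z → A z = ⊥) :
    Fv φ x Z = ⊤ := by
  rw [← top_le_iff]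
  unfold Fv
  refine le_iSup₂_of_le A hA ?_
  rw [hφA, top_inf_eq]
  refine le_iInf₂ fun z hz => ?_
  rw [h z hz.1 hz.2, compl_bot]

theorem Fv_inter (hφ : PhiOK S φ) {x : Pk (#K) (HH K C)} (hx : ∀ X Y : K → C,
    (Sum.inr X : HH K C) ∈ x.1 → (Sum.inr Y : HH K C) ∈ x.1 →
    (Sum.inr (fun z => X z ⊓ Y z) : HH K C) ∈ x.1) (Z Z' : Set K) :
    Fv φ x Z ⊓ Fv φ x Z' ≤ Fv φ x (Z ∩ Z') := by
  rw [← le_himp_iff]
  conv_lhs => unfold Fv
  refine iSup₂_le fun A hA => ?_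
  rw [le_himp_iff, inf_comm, ← le_himp_iff]
  conv_lhs => unfold Fv
  refine iSup₂_le fun A' hA' => ?_
  rw [le_himp_iff]
  conv_rhs => unfold Fv
  refine le_iSup₂_of_le (fun z => A z ⊓ A' z) (hx A A' hA hA') ?_
  rw [hφ.inf]
  refine le_inf (le_inf (inf_le_right.trans inf_le_left) (inf_le_left.trans inf_le_left)) ?_
  refine le_iInf₂ fun z hz => ?_
  rw [compl_inf]
  by_cases hzZ : z ∈ Z
  · have hz' : z ∉ Z' := fun h => hz.2 ⟨hzZ, h⟩
    exact ((inf_le_left.trans inf_le_right).trans (iInf₂_le z ⟨hz.1, hz'⟩)).trans le_sup_right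
  · exact ((inf_le_right.trans inf_le_right).trans (iInf₂_le z ⟨hz.1, hzZ⟩)).trans le_sup_left

end UvAux

theorem uv_disjoint (x : Pk (#K) (HH K C)) {w w' : K} (h : w ≠ w') :
    uv S φ x w ⊓ uv S φ x w' = ⊥ := by
  by_contra hne
  have h1 : uv S φ x w ≠ ⊥ := fun h0 => hne (by rw [h0, bot_inf_eq])
  have h2 : uv S φ x w' ≠ ⊥ := fun h0 => hne (by rw [h0, inf_bot_eq])
  obtain ⟨hc1, hn1⟩ := UvAux.of_uv_ne_bot h1
  obtain ⟨hc2, hn2⟩ := UvAux.of_uv_ne_bot h2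
  have hF : S.F w ≠ S.F w' := by
    intro hF
    apply h
    have e1 : cod S (S.crit w) (S.F w) = w := hn1
    have e2 : cod S (S.crit w') (S.F w') = w' := hn2
    rw [← e1, ← e2, hF, hc1, hc2]
  have hZ : ∃ Z : Set K, ¬ (Z ∈ S.F w ↔ Z ∈ S.F w') := by
    by_contra hcon
    push Not at hcon
    exact hF (Filter.ext hcon)
  obtain ⟨Z, hZ⟩ := hZ
  have hr : ∀ v, S.crit v = kx x → (Z ∩ Iio (kx x) ∈ S.F v ↔ Z ∈ S.F v) := by
    intro v hv
    constructor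
    · intro h3
      exact Filter.mem_of_superset h3 inter_subset_left
    · intro h3
      have h4 := S.iio_mem v
      rw [hv] at h4
      exact Filter.inter_mem h3 h4
  have hZ' : ¬ (Z ∩ Iio (kx x) ∈ S.F w ↔ Z ∩ Iio (kx x) ∈ S.F w') := by
    rw [hr w hc1, hr w' hc2]
    exact hZ
  apply hne
  rw [← le_bot_iff, ← lit_inf_lit hZ' (Fv φ x (Z ∩ Iio (kx x)))]
  exact inf_le_inf (UvAux.uv_le_lit x w inter_subset_right)
    (UvAux.uv_le_lit x w' inter_subset_right)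

/-- `x` is closed enough -/
def GX (S : Sys K) (x : Pk (#K) (HH K C)) : Prop :=
  (∀ X Y : K → C, (Sum.inr X : HH K C) ∈ x.1 → (Sum.inr Y : HH K C) ∈ x.1 →
    (Sum.inr (fun z => X z ⊓ Y z) : HH K C) ∈ x.1) ∧
  (Sum.inr (fun _ => ⊤) : HH K C) ∈ x.1 ∧
  ∀ ξ < kx x, (Sum.inr (fun z => tv C (ξ < S.crit z)) : HH K C) ∈ x.1

theorem good_ae (hK : ℵ₀ ≤ #K) (hs : ∀ a : K, #(Iio a) < #K) (hm : NMeas (#K) (HH K C) C m)
    (S : Sys K) : m (fun x => tv C (GX S x)) = ⊤ := by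
  have hb := hm.bm
  -- first part
  have h1 : m (fun x => ⨅ X : K → C, ⨅ _ : (Sum.inr X : HH K C) ∈ x.1,
      ⨅ Y : K → C, ⨅ _ : (Sum.inr Y : HH K C) ∈ x.1,
        tv C ((Sum.inr (fun z => X z ⊓ Y z) : HH K C) ∈ x.1)) = ⊤ := by
    rw [normal_inr hm (fun X x => ⨅ Y : K → C, ⨅ _ : (Sum.inr Y : HH K C) ∈ x.1,
        tv C ((Sum.inr (fun z => X z ⊓ Y z) : HH K C) ∈ x.1))]
    rw [iInf_eq_top]
    intro X
    rw [normal_inr hm (fun Y x => tv C ((Sum.inr (fun z => X z ⊓ Y z) : HH K C) ∈ x.1))]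
    rw [iInf_eq_top]
    intro Y
    exact hm.fine _
  have h2 : m (fun x => tv C ((Sum.inr (fun _ => ⊤) : HH K C) ∈ x.1)) = ⊤ := hm.fine _
  have h3 : m (fun x => ⨅ ξ : K, ⨅ _ : ξ < kx x,
      tv C ((Sum.inr (fun z => tv C (ξ < S.crit z)) : HH K C) ∈ x.1)) = ⊤ := by
    rw [(normMeas_kx hK hs hm).diag
      (fun ξ x => tv C ((Sum.inr (fun z => tv C (ξ < S.crit z)) : HH K C) ∈ x.1))]
    rw [iInf_eq_top]
    intro ξ
    exact hm.fine _
  have h4 := hb.inf hK (fun x => tv C ((Sum.inr (fun _ => ⊤) : HH K C) ∈ x.1))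
    (fun x => ⨅ ξ : K, ⨅ _ : ξ < kx x,
      tv C ((Sum.inr (fun z => tv C (ξ < S.crit z)) : HH K C) ∈ x.1))
  rw [h2, h3, top_inf_eq] at h4
  have h5 := hb.inf hK (fun x => ⨅ X : K → C, ⨅ _ : (Sum.inr X : HH K C) ∈ x.1,
      ⨅ Y : K → C, ⨅ _ : (Sum.inr Y : HH K C) ∈ x.1,
        tv C ((Sum.inr (fun z => X z ⊓ Y z) : HH K C) ∈ x.1))
    (fun x => tv C ((Sum.inr (fun _ => ⊤) : HH K C) ∈ x.1) ⊓ ⨅ ξ : K, ⨅ _ : ξ < kx x,
      tv C ((Sum.inr (fun z => tv C (ξ < S.crit z)) : HH K C) ∈ x.1))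
  rw [h1, h4, top_inf_eq] at h5
  rw [← top_le_iff, ← h5]
  refine hb.mono hK fun x => ?_
  by_cases hx : GX S x
  · rw [tv_true hx]
    exact le_top
  · rw [tv_false hx]
    unfold GX at hx
    rw [not_and_or, not_and_or] at hx
    rcases hx with hx | hx | hx
    · push Not at hx
      obtain ⟨X, Y, hX, hY, hXY⟩ := hx
      refine inf_le_left.trans ?_
      refine (iInf₂_le X hX).trans ((iInf₂_le Y hY).trans ?_)
      rw [tv_false hXY]
    · refine (inf_le_right.trans inf_le_left).trans ?_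
      rw [tv_false hx]
    · push Not at hx
      obtain ⟨ξ, hξ, hξ'⟩ := hx
      refine (inf_le_right.trans inf_le_right).trans ?_
      refine (iInf₂_le ξ hξ).trans ?_
      rw [tv_false hξ']

theorem uv_cover (hK : (#K).IsInaccessible) (hs : ∀ a : K, #(Iio a) < #K) (hd : Distr (#K) C)
    (hS : FullSys S) (hφ : PhiOK S φ) {x : Pk (#K) (HH K C)} (hx : GX S x) :
    ⨆ w, uv S φ x w = ⊤ := by
  rw [← top_le_iff, ← hd {Z : Set K // Z ⊆ Iio (kx x)} (fun j => Fv φ x j.1)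
    (mk_sets hK hs (kx x))]
  refine iSup_le fun n => ?_
  obtain ⟨b, hbdef⟩ : ∃ b, b = ⨅ j : {Z : Set K // Z ⊆ Iio (kx x)}, lit (j ∈ n) (Fv φ x j.1) :=
    ⟨_, rfl⟩
  rw [← hbdef]
  by_cases hb : b = ⊥
  · rw [hb]
    exact bot_le
  have hble : ∀ j : {Z : Set K // Z ⊆ Iio (kx x)}, b ≤ lit (j ∈ n) (Fv φ x j.1) := by
    intro j
    rw [hbdef]
    exact iInf_le _ j
  have hmem : ∀ j : {Z : Set K // Z ⊆ Iio (kx x)}, b ≤ Fv φ x j.1 → j ∈ n := fun j hj =>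
    of_le_lit hb (hble j) hj
  have hmem' : ∀ j : {Z : Set K // Z ⊆ Iio (kx x)}, j ∈ n → b ≤ Fv φ x j.1 := by
    intro j hj
    have h1 := hble j
    rwa [lit_true hj] at h1
  have htop : ∀ Y : Set K, Iio (kx x) ⊆ Y → Fv φ x (Y ∩ Iio (kx x)) = ⊤ := by
    intro Y hY
    refine UvAux.Fv_eq_top (fun _ => ⊤) hx.2.1 hφ.top ?_
    intro z hz hz'
    exact absurd ⟨hY hz, hz⟩ hz'
  let ℱ : Filter K :=
    { sets := {Y : Set K | (⟨Y ∩ Iio (kx x), inter_subset_right⟩ :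
        {Z : Set K // Z ⊆ Iio (kx x)}) ∈ n}
      univ_sets := by
        apply hmem
        change b ≤ Fv φ x (univ ∩ Iio (kx x))
        rw [htop univ (subset_univ _)]
        exact le_top
      sets_of_superset := by
        intro Y Y' hY hYY'
        apply hmem
        exact (hmem' _ hY).trans (UvAux.Fv_mono x (inter_subset_inter_left _ hYY'))
      inter_sets := by
        intro Y Y' hY hY'
        apply hmem
        have h1 := (le_inf (hmem' _ hY) (hmem' _ hY')).trans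
          (UvAux.Fv_inter hφ hx.1 (Y ∩ Iio (kx x)) (Y' ∩ Iio (kx x)))
        refine h1.trans (UvAux.Fv_mono x ?_)
        rintro z ⟨⟨h2, h3⟩, ⟨h4, _⟩⟩
        exact ⟨⟨h2, h4⟩, h3⟩ }
  have hℱ : ∀ Y : Set K, Y ∈ ℱ ↔ (⟨Y ∩ Iio (kx x), inter_subset_right⟩ :
        {Z : Set K // Z ⊆ Iio (kx x)}) ∈ n := fun Y => Iff.rfl
  have hIio : Iio (kx x) ∈ ℱ := by
    rw [hℱ]
    apply hmem
    change b ≤ Fv φ x (Iio (kx x) ∩ Iio (kx x))
    rw [htop _ subset_rfl]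
    exact le_top
  have htail : ∀ ξ, ξ < kx x → {z | ξ < S.crit z} ∈ ℱ := by
    intro ξ hξ
    rw [hℱ]
    apply hmem
    change b ≤ Fv φ x ({z | ξ < S.crit z} ∩ Iio (kx x))
    rw [UvAux.Fv_eq_top (fun z => tv C (ξ < S.crit z)) (hx.2.2 ξ hξ) (hφ.tail ξ) ?_]
    · exact le_top
    · intro z hz hz'
      exact tv_false fun h1 => hz' ⟨h1, hz⟩
  have hex := hS (kx x) ℱ hIio htail
  obtain ⟨w, hw⟩ : ∃ w, w = cod S (kx x) ℱ := ⟨_, rfl⟩
  have hw1 : S.crit w = kx x ∧ S.F w = ℱ := by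
    rw [hw]
    unfold cod
    rw [dif_pos hex]
    exact hex.choose_spec
  have hcan : Canon S w := by
    unfold Canon
    rw [hw1.1, hw1.2, ← hw]
  refine le_trans ?_ (le_iSup (fun w => uv S φ x w) w)
  unfold uv
  rw [tv_true ⟨hw1.1, hcan⟩, top_inf_eq]
  refine le_iInf₂ fun Z hZ => ?_
  have h1 : (Z ∈ S.F w) ↔ (⟨Z, hZ⟩ : {Z : Set K // Z ⊆ Iio (kx x)}) ∈ n := by
    rw [hw1.2, hℱ]
    have h2 : (⟨Z ∩ Iio (kx x), inter_subset_right⟩ : {Z : Set K // Z ⊆ Iio (kx x)}) = ⟨Z, hZ⟩ :=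
      Subtype.ext (inter_eq_left.2 hZ)
    rw [h2]
  rw [propext h1]
  exact hble ⟨Z, hZ⟩

end Pool.Agent.Lib.WkD
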